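import Pool.Agent.Lib.MP_0f5a55_nt.NH.D
import Pool.Agent.Lib.MP_0f5a55_nt.GG.D
import Pool.Agent.Lib.MP_0f5a55_nt.FF.D

open Complex MeasureTheory Set Filter Topology
open scoped Real ComplexConjugate

namespace NH

/-- S(δ) = sum over the primes of |a(p)|^2 p^(-1-δ) -/
noncomputable def Sp (a : ℕ → ℂ) (δ : ℝ) : ℝ :=
  ∑' p : Nat.Primes, ‖a (p : ℕ)‖ ^ 2 * ((p : ℕ) : ℝ) ^ (-(1 + δ))

/-- a as an arithmetic function -/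
noncomputable def af (a : ℕ → ℂ) : ArithmeticFunction ℂ := ⟨fun n => if n = 0 then 0 else a n, by simp⟩

/-- coefficients of ((1 - αX)(1 - βX))^(-1/2) -/
noncomputable def lo (α β : ℂ) (r : ℕ) : ℂ :=
  ∑ j ∈ Finset.range (r + 1), ((j.centralBinom : ℂ) / 4 ^ j * α ^ j) *
    (((r - j).centralBinom : ℂ) / 4 ^ (r - j) * β ^ (r - j))

/-- coefficients of L(s,f)^(1/2) -/
noncomputable def bf (α β : ℕ → ℂ) : ArithmeticFunction ℂ :=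
  ⟨fun n => if n = 0 then 0 else n.factorization.prod (fun p r => lo (α p) (β p) r), by simp⟩

/-- local parameters -/
def Loc (a α β : ℕ → ℂ) : Prop := ∀ p : ℕ, p.Prime → ‖α p‖ ≤ 1 ∧ ‖β p‖ ≤ 1 ∧
  ∀ k : ℕ, a (p ^ k) = ∑ j ∈ Finset.range (k + 1), α p ^ j * β p ^ (k - j)

theorem Dat.loc_ex {N : ℕ} {a : ℕ → ℂ} {L : ℂ → ℂ} (D : Dat N a L) : ∃ α β : ℕ → ℂ, Loc a α β := by
  have h : ∀ p : ℕ, ∃ α β : ℂ, p.Prime → ‖α‖ ≤ 1 ∧ ‖β‖ ≤ 1 ∧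
      ∀ k : ℕ, a (p ^ k) = ∑ j ∈ Finset.range (k + 1), α ^ j * β ^ (k - j) := by
    intro p
    by_cases hp : p.Prime
    · obtain ⟨x, y, h⟩ := D.loc p hp
      exact ⟨x, y, fun _ => h⟩
    · exact ⟨0, 0, fun h => absurd h hp⟩
  choose α β h using h
  exact ⟨α, β, fun p hp => h p hp⟩

/-- Gamma(s) (2 pi e^{i(pi/2-ε)}/sqrt N)^{-s} L(s) at s = 1/2 + it -/
noncomputable def Rf (N : ℕ) (L : ℂ → ℂ) (ε t : ℝ) : ℂ :=
  Gamma (1 / 2 + t * I) * (2 * π * FF.tht N 1 * II.om ε : ℂ) ^ (-(1 / 2 + t * I) : ℂ) * L (1 / 2 + t * I)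

/-- Hardy function of the form -/
noncomputable def Zf (N : ℕ) (L : ℂ → ℂ) (u : ℂ) (t : ℝ) : ℝ :=
  (u * Lam N L (1 / 2 + t * I)).re / (√(√N / (2 * π)) * √(π / Real.cosh (π * t)))

/-- correlation integral -/
noncomputable def Jf {q1 q2 : ℕ} (χ1 : DirichletCharacter ℂ q1) (χ2 : DirichletCharacter ℂ q2) (a : ℕ → ℂ)
    (θ1 θ2 ε : ℝ) : ℂ :=
  ∫ u : ℝ, ((TT.tau u * Real.exp u : ℝ) : ℂ) * II.FE (II.cv χ1 χ2) θ1 ε (Real.exp u) *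
    conj (II.FE a θ2 ε (Real.exp u))

end NH
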