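import Mathlib
import Pool.Agent.Lib.MP_0f5a55_nt.TT.D2

/-!
Definitions for the theorem on a newform of weight one times Dirichlet L-functions.
-/

open Complex MeasureTheory Set Filter Topology
open scoped Real ComplexConjugate

namespace NH

/-- F(z) = sum of a(n) exp(-2 pi n z / sqrt N), n at least 1 -/
noncomputable def FF (N : ℕ) (a : ℕ → ℂ) (z : ℂ) : ℂ :=
  ∑' n : ℕ, a (n + 1) * exp (-(2 * π * ((n : ℂ) + 1) * z / ((√N : ℝ) : ℂ)))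

/-- what is used of a newform of weight one and level N with coefficients a and L-function L -/
structure Dat (N : ℕ) (a : ℕ → ℂ) (L : ℂ → ℂ) : Prop where
  pos : 0 < N
  one : a 1 = 1
  mul : ∀ m n : ℕ, 0 < m → 0 < n → Nat.Coprime m n → a (m * n) = a m * a n
  loc : ∀ p : ℕ, p.Prime → ∃ α β : ℂ, ‖α‖ ≤ 1 ∧ ‖β‖ ≤ 1 ∧
    ∀ k : ℕ, a (p ^ k) = ∑ j ∈ Finset.range (k + 1), α ^ j * β ^ (k - j)
  bd : ∀ n : ℕ, 0 < n → ‖a n‖ ≤ (n.divisors.card : ℝ)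
  pt : ∃ C : ℝ, 0 ≤ C ∧ ∀ x y : ℝ, 0 < y →
    ‖∑' n : ℕ, a (n + 1) * exp (2 * π * ((n : ℂ) + 1) * (x + y * I) * I)‖ ≤ C / √y
  ms : ∃ C : ℝ, 0 ≤ C ∧ ∀ x : ℝ, 0 < x → ∑' n : ℕ, ‖a (n + 1)‖ ^ 2 * Real.exp (-(x * ((n : ℝ) + 1))) ≤ C / x
  fe : ∃ c : ℂ, ‖c‖ = 1 ∧ ∀ z : ℂ, 0 < z.re → FF N a (1 / z) = c * z * conj (FF N a (conj z))
  ent : Differentiable ℂ L
  ser : ∀ s : ℂ, 2 ≤ s.re → HasSum (fun n : ℕ => a (n + 1) * ((n : ℂ) + 1) ^ (-s)) (L s)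
  im : ∀ p : ℕ, p.Prime → N ∣ p + 1 → (a p).re = 0

/-- completed L-function -/
noncomputable def Lam (N : ℕ) (L : ℂ → ℂ) (s : ℂ) : ℂ := ((√N / (2 * π) : ℝ) : ℂ) ^ s * Gamma s * L s

/-- exp((pi/2 - ε) t) times the completed L-function on the critical line, real for the right unit u -/
noncomputable def r2 (N : ℕ) (L : ℂ → ℂ) (u : ℂ) (ε t : ℝ) : ℝ :=
  Real.exp ((π / 2 - ε) * t) * (u * Lam N L (1 / 2 + t * I)).re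

/-- its Fourier transform -/
noncomputable def f2 (N : ℕ) (a : ℕ → ℂ) (u : ℂ) (ε x : ℝ) : ℂ :=
  u * exp (((π / 2 - ε : ℝ) : ℂ) * I / 2) * ((Real.exp (x / 2) : ℝ) : ℂ) * FF N a (TT.zp ε (Real.exp x))

/-- the right unit: u^2 times the root number is 1 -/
def Un (N : ℕ) (a : ℕ → ℂ) (u : ℂ) : Prop :=
  ‖u‖ = 1 ∧ ∀ z : ℂ, 0 < z.re → FF N a (1 / z) = (u ^ 2)⁻¹ * z * conj (FF N a (conj z))

/-- y^p times the theta function at z = y^2 exp(i (pi/2 - ε)) -/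
noncomputable def GG (q : ℕ) (f : ℕ → ℂ) (p : ℕ) (ε y : ℝ) : ℂ := (y : ℂ) ^ p * TT.th q f p (TT.zp ε (y ^ 2))

/-- amplitude -/
noncomputable def am (p : ℕ) (c n y : ℝ) : ℝ := (n * y) ^ p * Real.exp (-(c * (n * y) ^ 2))

/-- its derivative in y -/
noncomputable def amd (p : ℕ) (c n y : ℝ) : ℝ :=
  n * (p * (n * y) ^ (p - 1) - 2 * c * (n * y) ^ (p + 1)) * Real.exp (-(c * (n * y) ^ 2))

/-- weight of the amplitude -/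
noncomputable def wt (c Y n : ℝ) : ℝ := ((1 + c * (n * Y) ^ 2) ^ 2)⁻¹

/-- bound for the oscillating integral with phase n^2 y^2 - m^2 (y+h)^2, y in [Y, 2Y] -/
noncomputable def VV (Y : ℝ) (n m : ℕ) (h : ℝ) : ℝ :=
  if n = m then ((n : ℝ) ^ 2 * h)⁻¹
  else if n < m then ((m : ℝ) ^ 2 * h + ((m : ℝ) ^ 2 - (n : ℝ) ^ 2) * Y)⁻¹
  else if 2 * (m : ℝ) ^ 2 * h ≤ ((n : ℝ) ^ 2 - (m : ℝ) ^ 2) * Y then (((n : ℝ) ^ 2 - (m : ℝ) ^ 2) * Y)⁻¹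
  else if 4 * ((n : ℝ) ^ 2 - (m : ℝ) ^ 2) * Y ≤ (m : ℝ) ^ 2 * h then ((m : ℝ) ^ 2 * h)⁻¹
  else (√((n : ℝ) ^ 2 - (m : ℝ) ^ 2))⁻¹

end NH
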