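import Mathlib

open Complex MeasureTheory Set Filter Topology
open scoped Real ComplexConjugate

namespace NH

theorem M01_term {β : ℕ → ℝ} (h0 : ∀ n, 0 ≤ β n) (n : ℕ) (x : ℝ) : 0 ≤ β n * (n : ℝ) ^ x :=
  mul_nonneg (h0 n) (Real.rpow_nonneg (Nat.cast_nonneg n) x)

/-- the series decreases in `δ` -/
theorem M01_anti {β : ℕ → ℝ} (h0 : ∀ n, 0 ≤ β n) {d e : ℝ} (hd : 0 < d) (hde : d ≤ e)
    (h1 : Summable (fun n : ℕ => β n * (n : ℝ) ^ (-(1 + d))))
    (h2 : Summable (fun n : ℕ => β n * (n : ℝ) ^ (-(1 + e)))) :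
    ∑' n : ℕ, β n * (n : ℝ) ^ (-(1 + e)) ≤ ∑' n : ℕ, β n * (n : ℝ) ^ (-(1 + d)) := by
  refine h2.tsum_le_tsum (fun n => ?_) h1
  refine mul_le_mul_of_nonneg_left ?_ (h0 n)
  rcases Nat.eq_zero_or_pos n with rfl | hn
  · rw [Nat.cast_zero, Real.zero_rpow (by linarith), Real.zero_rpow (by linarith)]
  · have hn1 : (1 : ℝ) ≤ n := by exact_mod_cast hn
    exact Real.rpow_le_rpow_of_exponent_le hn1 (by linarith)

/-- iteration of the doubling -/
theorem M01_iter {β : ℕ → ℝ} {K : ℝ} (hK : 0 ≤ K)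
    (hE : ∀ δ : ℝ, 0 < δ → δ ≤ 1 → Summable (fun n : ℕ => β n * (n : ℝ) ^ (-(1 + δ))) ∧
      ∑' n : ℕ, β n * (n : ℝ) ^ (-(1 + δ / 2)) ≤ K * ∑' n : ℕ, β n * (n : ℝ) ^ (-(1 + δ))) (j : ℕ) :
    ∀ δ : ℝ, 0 < δ → δ ≤ 1 →
      ∑' n : ℕ, β n * (n : ℝ) ^ (-(1 + δ / 2 ^ j)) ≤ K ^ j * ∑' n : ℕ, β n * (n : ℝ) ^ (-(1 + δ)) := by
  induction j with
  | zero => intro δ _ _; simp
  | succ j ih =>
    intro δ h1 h2
    have h3 := ih (δ / 2) (by linarith) (by linarith)
    have e1 : δ / 2 / 2 ^ j = δ / 2 ^ (j + 1) := by rw [pow_succ]; field_simp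
    rw [e1] at h3
    refine h3.trans ?_
    rw [pow_succ, mul_assoc]
    exact mul_le_mul_of_nonneg_left (hE δ h1 h2).2 (pow_nonneg hK j)

/-- Row M01. Partial sums from a Dirichlet series with the doubling property. -/
theorem partial_sums {β : ℕ → ℝ} (h0 : ∀ n, 0 ≤ β n) (h1 : 0 < β 1) {K : ℝ}
    (hE : ∀ δ : ℝ, 0 < δ → δ ≤ 1 → Summable (fun n : ℕ => β n * (n : ℝ) ^ (-(1 + δ))) ∧
      ∑' n : ℕ, β n * (n : ℝ) ^ (-(1 + δ / 2)) ≤ K * ∑' n : ℕ, β n * (n : ℝ) ^ (-(1 + δ))) :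
    ∃ κ c2 C2 A0 : ℝ, 0 < c2 ∧ 0 < C2 ∧ 1 ≤ A0 ∧ ∀ A : ℝ, A0 ≤ A → ∃ N0 : ℕ, ∀ N : ℕ, N0 ≤ N →
      ∑ n ∈ Finset.Icc 1 N, β n * (n : ℝ)⁻¹ ≤ C2 * ∑' n : ℕ, β n * (n : ℝ) ^ (-(1 + 1 / Real.log N)) ∧
      c2 * A ^ (-κ) * ∑' n : ℕ, β n * (n : ℝ) ^ (-(1 + 1 / Real.log N)) ≤
        ∑ n ∈ Finset.Icc 1 N, β n * (n : ℝ) ^ (-(1 + 2 * A / Real.log N)) := by
  have hterm : ∀ (n : ℕ) (x : ℝ), 0 ≤ β n * (n : ℝ) ^ x := M01_term h0
  -- `1 ≤ K`
  have hK1 : 1 ≤ K := by
    obtain ⟨hs, h2⟩ := hE 1 one_pos le_rfl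
    have hs2 := (hE (1 / 2) (by norm_num) (by norm_num)).1
    have h3 := M01_anti h0 (by norm_num : (0 : ℝ) < 1 / 2) (by norm_num : (1 : ℝ) / 2 ≤ 1) hs2 hs
    have h4 : β 1 ≤ ∑' n : ℕ, β n * (n : ℝ) ^ (-(1 + 1) : ℝ) := by
      have := hs.le_tsum 1 (fun n _ => hterm n _)
      simpa using this
    by_contra hcon
    have hcon' : K < 1 := not_le.mp hcon
    have h5 := h3.trans h2
    nlinarith
  have hK0 : 0 < K := by linarith
  set κ : ℝ := Real.log K / Real.log 2 with hκ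
  have hlog2 : 0 < Real.log 2 := Real.log_pos (by norm_num)
  have hκ0 : 0 ≤ κ := div_nonneg (Real.log_nonneg hK1) hlog2.le
  have hKκ : (2 : ℝ) ^ κ = K := by
    rw [Real.rpow_def_of_pos (by norm_num), hκ, mul_div_cancel₀ _ hlog2.ne', Real.exp_log hK0]
  -- `A0`
  obtain ⟨A1, hA1⟩ : ∃ A1 : ℝ, ∀ A, A1 ≤ A → Real.exp (-A) * K ≤ 1 / 2 := by
    refine ⟨-Real.log (1 / 2 / K), fun A hA => ?_⟩
    rw [← le_div_iff₀ hK0, ← Real.exp_log (show 0 < 1 / 2 / K by positivity)]
    exact Real.exp_le_exp.mpr (by linarith)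
  refine ⟨κ, (4 : ℝ) ^ (-κ) / 2, Real.exp 1, max 1 A1, by positivity, by positivity,
    le_max_left _ _, fun A hA => ?_⟩
  have hA0 : 1 ≤ A := (le_max_left _ _).trans hA
  have hAA : A1 ≤ A := (le_max_right _ _).trans hA
  obtain ⟨N0, hN0⟩ := exists_nat_ge (Real.exp (4 * A))
  refine ⟨N0, fun N hN => ?_⟩
  have hNe : Real.exp (4 * A) ≤ N := hN0.trans (by exact_mod_cast hN)
  have hNpos : (0 : ℝ) < N := (Real.exp_pos _).trans_le hNe
  set L := Real.log N with hL
  have hL2 : 4 * A ≤ L := by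
    rw [hL, Real.le_log_iff_exp_le hNpos]
    exact hNe
  have hL0 : 0 < L := by linarith
  obtain ⟨hsL, _⟩ := hE (1 / L) (by positivity) (by rw [div_le_one hL0]; linarith)
  constructor
  · calc ∑ n ∈ Finset.Icc 1 N, β n * (n : ℝ)⁻¹ ≤
          ∑ n ∈ Finset.Icc 1 N, Real.exp 1 * (β n * (n : ℝ) ^ (-(1 + 1 / L))) := by
          refine Finset.sum_le_sum fun n hn => ?_
          rw [Finset.mem_Icc] at hn
          have hn0 : (0 : ℝ) < n := by exact_mod_cast hn.1
          have e2 : (n : ℝ)⁻¹ ≤ Real.exp 1 * (n : ℝ) ^ (-(1 + 1 / L)) := by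
            have e3 : (n : ℝ) ^ (-(1 + 1 / L)) = (n : ℝ)⁻¹ * (n : ℝ) ^ (-(1 / L)) := by
              rw [neg_add, Real.rpow_add hn0, Real.rpow_neg_one]
            have e4 : Real.exp (-1) ≤ (n : ℝ) ^ (-(1 / L)) := by
              rw [Real.rpow_def_of_pos hn0]
              refine Real.exp_le_exp.mpr ?_
              have : Real.log n ≤ L := Real.log_le_log hn0 (by exact_mod_cast hn.2)
              have h3 : Real.log n * (1 / L) ≤ 1 := by
                rw [mul_one_div, div_le_one hL0]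
                exact this
              linarith
            rw [e3]
            have e5 : Real.exp 1 * Real.exp (-1) = 1 := by
              rw [← Real.exp_add]
              simp
            calc (n : ℝ)⁻¹ = (n : ℝ)⁻¹ * (Real.exp 1 * Real.exp (-1)) := by rw [e5, mul_one]
              _ ≤ (n : ℝ)⁻¹ * (Real.exp 1 * (n : ℝ) ^ (-(1 / L))) := by gcongr
              _ = _ := by ring
          calc β n * (n : ℝ)⁻¹ ≤ β n * (Real.exp 1 * (n : ℝ) ^ (-(1 + 1 / L))) :=
                mul_le_mul_of_nonneg_left e2 (h0 n)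
            _ = _ := by ring
      _ = Real.exp 1 * ∑ n ∈ Finset.Icc 1 N, β n * (n : ℝ) ^ (-(1 + 1 / L)) := by
          rw [Finset.mul_sum]
      _ ≤ Real.exp 1 * ∑' n : ℕ, β n * (n : ℝ) ^ (-(1 + 1 / L)) := by
          refine mul_le_mul_of_nonneg_left ?_ (Real.exp_pos _).le
          exact hsL.sum_le_tsum _ fun n _ => hterm n _
  · have hA' : 0 < A := by linarith
    obtain ⟨hs1, hd1⟩ := hE (2 * A / L) (by positivity) (by rw [div_le_one hL0]; linarith)
    obtain ⟨hs2, _⟩ := hE (A / L) (by positivity) (by rw [div_le_one hL0]; linarith)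
    have e0 : 2 * A / L / 2 = A / L := by field_simp
    rw [e0] at hd1
    set g : ℕ → ℝ := fun n => β n * (n : ℝ) ^ (-(1 + 2 * A / L)) with hg
    have hsplit : ∑' n, g n ≤ ∑ n ∈ Finset.Icc 1 N, g n +
        Real.exp (-A) * ∑' n : ℕ, β n * (n : ℝ) ^ (-(1 + A / L)) := by
      have h3 : ∀ n, g n ≤ (if n ∈ Finset.Icc 1 N then g n else 0) +
          Real.exp (-A) * (β n * (n : ℝ) ^ (-(1 + A / L))) := by
        intro n
        have h4 : 0 ≤ Real.exp (-A) * (β n * (n : ℝ) ^ (-(1 + A / L))) :=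
          mul_nonneg (Real.exp_pos _).le (hterm n _)
        split_ifs with hn
        · linarith
        · rw [zero_add]
          rcases Nat.eq_zero_or_pos n with rfl | hn0
          · have : g 0 = 0 := by
              simp only [hg]
              rw [Nat.cast_zero, Real.zero_rpow (by
                have : 0 < 2 * A / L := by positivity
                linarith), mul_zero]
            rw [this]
            exact h4
          · rw [Finset.mem_Icc] at hn
            have hnN : N < n := by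
              by_contra hcon
              exact hn ⟨hn0, by omega⟩
            have hn0' : (0 : ℝ) < n := by exact_mod_cast hn0
            have e3 : (n : ℝ) ^ (-(1 + 2 * A / L)) =
                (n : ℝ) ^ (-(1 + A / L)) * (n : ℝ) ^ (-(A / L)) := by
              rw [← Real.rpow_add hn0']
              congr 1
              ring
            have e4 : (n : ℝ) ^ (-(A / L)) ≤ Real.exp (-A) := by
              rw [Real.rpow_def_of_pos hn0']
              refine Real.exp_le_exp.mpr ?_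
              have h5 : L ≤ Real.log n := Real.log_le_log hNpos (by exact_mod_cast hnN.le)
              have h6 : A ≤ Real.log n * (A / L) := by
                calc A = L * (A / L) := by field_simp
                  _ ≤ Real.log n * (A / L) := by gcongr
              linarith
            simp only [hg]
            rw [e3]
            calc β n * ((n : ℝ) ^ (-(1 + A / L)) * (n : ℝ) ^ (-(A / L))) ≤
                  β n * ((n : ℝ) ^ (-(1 + A / L)) * Real.exp (-A)) := by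
                  refine mul_le_mul_of_nonneg_left ?_ (h0 n)
                  exact mul_le_mul_of_nonneg_left e4 (Real.rpow_nonneg hn0'.le _)
              _ = _ := by ring
      have hfin : Summable (fun n => if n ∈ Finset.Icc 1 N then g n else 0) :=
        summable_of_ne_finset_zero (s := Finset.Icc 1 N) fun n hn => if_neg hn
      have h4 := hs1.tsum_le_tsum h3 (hfin.add (hs2.mul_left _))
      rw [hfin.tsum_add (hs2.mul_left _), tsum_mul_left,
        tsum_eq_sum (s := Finset.Icc 1 N) (fun n hn => if_neg hn)] at h4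
      refine h4.trans (le_of_eq ?_)
      congr 1
      exact Finset.sum_congr rfl fun n hn => if_pos hn
    have hEnn : 0 ≤ ∑' n, g n := tsum_nonneg fun n => hterm n _
    have h5 : Real.exp (-A) * ∑' n : ℕ, β n * (n : ℝ) ^ (-(1 + A / L)) ≤ 1 / 2 * ∑' n, g n := by
      calc Real.exp (-A) * ∑' n : ℕ, β n * (n : ℝ) ^ (-(1 + A / L)) ≤
            Real.exp (-A) * (K * ∑' n, g n) := mul_le_mul_of_nonneg_left hd1 (Real.exp_pos _).le
        _ = (Real.exp (-A) * K) * ∑' n, g n := by ring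
        _ ≤ _ := mul_le_mul_of_nonneg_right (hA1 A hAA) hEnn
    -- `2 A ≤ 2 ^ j ≤ 4 A`
    obtain ⟨j, hj1, hj2⟩ : ∃ j : ℕ, 2 * A ≤ 2 ^ j ∧ (2 : ℝ) ^ j ≤ 4 * A := by
      obtain ⟨j, hj, hj'⟩ := exists_nat_pow_near (show (1 : ℝ) ≤ 2 * A by linarith)
        (show (1 : ℝ) < 2 by norm_num)
      refine ⟨j + 1, hj'.le, ?_⟩
      rw [pow_succ]
      linarith
    have h6 : ∑' n : ℕ, β n * (n : ℝ) ^ (-(1 + 1 / L)) ≤ K ^ j * ∑' n, g n := by
      have hle : (2 : ℝ) ^ j / L ≤ 1 := by rw [div_le_one hL0]; linarith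
      have h7 := M01_iter hK0.le hE j ((2 : ℝ) ^ j / L) (by positivity) hle
      have e1 : (2 : ℝ) ^ j / L / 2 ^ j = 1 / L := by field_simp
      rw [e1] at h7
      refine h7.trans (mul_le_mul_of_nonneg_left ?_ (pow_nonneg hK0.le j))
      refine M01_anti h0 (by positivity) ?_ hs1 (hE _ (by positivity) hle).1
      gcongr
    have h8 : K ^ j ≤ (4 * A) ^ κ := by
      rw [← hKκ, ← Real.rpow_natCast, ← Real.rpow_mul (by norm_num), mul_comm κ, Real.rpow_mul (by norm_num),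
        Real.rpow_natCast]
      exact Real.rpow_le_rpow (by positivity) hj2 hκ0
    have h9 : (4 : ℝ) ^ (-κ) / 2 * A ^ (-κ) * ∑' n : ℕ, β n * (n : ℝ) ^ (-(1 + 1 / L)) ≤
        1 / 2 * ∑' n, g n := by
      have e1 : (4 : ℝ) ^ (-κ) / 2 * A ^ (-κ) = 1 / 2 * ((4 * A) ^ κ)⁻¹ := by
        rw [← Real.rpow_neg (by positivity), Real.mul_rpow (by norm_num) hA'.le]
        ring
      have hp : 0 < (4 * A) ^ κ := by positivity
      rw [e1, mul_assoc]
      refine mul_le_mul_of_nonneg_left ?_ (by norm_num)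
      rw [inv_mul_le_iff₀ hp]
      exact h6.trans (mul_le_mul_of_nonneg_right h8 hEnn)
    refine h9.trans ?_
    linarith

end NH
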