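import Pool.Agent.Lib.MP_0f5a55_nt.NH.M01
import Pool.Agent.Lib.MP_0f5a55_nt.GG.G06

open Complex MeasureTheory Set Filter Topology
open scoped Real ComplexConjugate

namespace NH

/-- the Dirichlet series of |b|^2 -/
noncomputable def M02_E (b : ArithmeticFunction ℂ) (δ : ℝ) : ℝ :=
  ∑' n : ℕ, ‖b n‖ ^ 2 * (n : ℝ) ^ (-(1 + δ))

theorem M02_E_anti {b : ArithmeticFunction ℂ}
    (hs : ∀ δ : ℝ, 0 < δ → δ ≤ 1 → Summable (fun n : ℕ => ‖b n‖ ^ 2 * (n : ℝ) ^ (-(1 + δ))))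
    {x y : ℝ} (hx : 0 < x) (hxy : x ≤ y) (hy : y ≤ 1) : M02_E b y ≤ M02_E b x := by
  unfold M02_E
  refine Summable.tsum_le_tsum (fun n => ?_) (hs y (hx.trans_le hxy) hy) (hs x hx (hxy.trans hy))
  rcases Nat.eq_zero_or_pos n with rfl | hn
  · have h1 : (-(1 + y)) ≠ 0 := by
      have : 0 < 1 + y := by linarith
      linarith
    have h2 : (-(1 + x)) ≠ 0 := by
      have : 0 < 1 + x := by linarith
      linarith
    simp [Real.zero_rpow h1, Real.zero_rpow h2]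
  · refine mul_le_mul_of_nonneg_left ?_ (by positivity)
    exact Real.rpow_le_rpow_of_exponent_le (by exact_mod_cast hn) (by linarith)

theorem M02_E_one {b : ArithmeticFunction ℂ} (hb1 : b 1 = 1)
    (hs : ∀ δ : ℝ, 0 < δ → δ ≤ 1 → Summable (fun n : ℕ => ‖b n‖ ^ 2 * (n : ℝ) ^ (-(1 + δ))))
    {x : ℝ} (hx : 0 < x) (hy : x ≤ 1) : 1 ≤ M02_E b x := by
  unfold M02_E
  refine le_trans (le_of_eq ?_) ((hs x hx hy).le_tsum 1 fun n _ => by positivity)
  simp [hb1]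

/-- three doublings -/
theorem M02_E_eight {b : ArithmeticFunction ℂ} {K : ℝ} (hK : 0 < K)
    (hE : ∀ δ : ℝ, 0 < δ → δ ≤ 1 → M02_E b (δ / 2) ≤ K * M02_E b δ)
    {x : ℝ} (hx : 0 < x) (hx1 : 8 * x ≤ 1) : M02_E b x ≤ K ^ 3 * M02_E b (8 * x) := by
  have h1 := hE (2 * x) (by linarith) (by linarith)
  have h2 := hE (4 * x) (by linarith) (by linarith)
  have h3 := hE (8 * x) (by linarith) hx1
  rw [show 2 * x / 2 = x by ring] at h1
  rw [show 4 * x / 2 = 2 * x by ring] at h2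
  rw [show 8 * x / 2 = 4 * x by ring] at h3
  calc M02_E b x ≤ K * M02_E b (2 * x) := h1
    _ ≤ K * (K * M02_E b (4 * x)) := mul_le_mul_of_nonneg_left h2 hK.le
    _ ≤ K * (K * (K * M02_E b (8 * x))) :=
        mul_le_mul_of_nonneg_left (mul_le_mul_of_nonneg_left h3 hK.le) hK.le
    _ = _ := by ring

/-- Core: lower bound for the mean of abs F with a Gaussian weight, doubling version. -/
theorem M02_core {F : ℂ → ℂ} {a b : ArithmeticFunction ℂ} {K C : ℝ} {m : ℕ}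
    (hG : ∃ G : ℂ → ℂ, (∀ s : ℂ, 0 < s.re → DifferentiableAt ℂ G s) ∧ ∀ s : ℂ, s ≠ 1 → G s = (s - 1) * F s)
    (hpol : ∀ s : ℂ, 1 / 2 ≤ s.re → s.re ≤ 2 → 1 ≤ |s.im| → ‖F s‖ ≤ C * (1 + |s.im|) ^ m)
    (hFa : ∀ s : ℂ, 1 < s.re → LSeriesSummable a s ∧ F s = LSeries a s) (hab : b * b = a) (hb1 : b 1 = 1)
    (hb : Summable (fun n : ℕ => ‖b n‖ * (n : ℝ) ^ (-(3 / 2 : ℝ))))
    (hE : ∀ δ : ℝ, 0 < δ → δ ≤ 1 → Summable (fun n : ℕ => ‖b n‖ ^ 2 * (n : ℝ) ^ (-(1 + δ))) ∧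
      M02_E b (δ / 2) ≤ K * M02_E b δ)
    (hlim : Tendsto (fun δ : ℝ => M02_E b δ) (𝓝[>] 0) atTop) :
    ∃ c T0 : ℝ, 0 < c ∧ 3 ≤ T0 ∧ ∀ T : ℝ, T0 ≤ T →
      Integrable (fun t : ℝ => ‖F (1 / 2 + t * I)‖ * Real.exp (-((t - T) ^ 2 / (T / Real.log T) ^ 2))) ∧
      c * (T / Real.log T) * M02_E b (1 / Real.log T) ≤
        ∫ t : ℝ, ‖F (1 / 2 + t * I)‖ * Real.exp (-((t - T) ^ 2 / (T / Real.log T) ^ 2)) := by
  have hs : ∀ δ : ℝ, 0 < δ → δ ≤ 1 → Summable (fun n : ℕ => ‖b n‖ ^ 2 * (n : ℝ) ^ (-(1 + δ))) :=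
    fun δ h h' => (hE δ h h').1
  have hK : 0 < K := by
    have h1 := (hE 1 one_pos le_rfl).2
    have h2 := M02_E_one hb1 hs one_pos le_rfl
    have h3 := M02_E_one hb1 hs (x := 1 / 2) (by norm_num) (by norm_num)
    by_contra hneg
    push Not at hneg
    have h4 : K * M02_E b 1 ≤ 0 := mul_nonpos_of_nonpos_of_nonneg hneg (by linarith)
    linarith
  obtain ⟨G, hd, hG'⟩ := hG
  obtain ⟨C3, hC3, h3⟩ := GG.tail_bound hab hb
  have h2 : ∀ N : ℕ, 1 ≤ N → ∀ t : ℝ,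
      ‖F (2 + t * I) - (GG.G05_S b N (2 + t * I)) ^ 2‖ ≤ C3 * (N : ℝ) ^ (-(1 / 2 : ℝ)) ∧
        ‖F (2 + t * I)‖ ≤ C3 := by
    intro N hN t
    rw [(hFa (2 + t * I) (by simp)).2]
    exact h3 N hN t
  obtain ⟨κ, c2, C2, A0, hc2, hC2, hA0, hps⟩ :=
    partial_sums (β := fun n => ‖b n‖ ^ 2) (fun n => by positivity) (by simp [hb1]) hE
  have hpi : 0 < √π := Real.sqrt_pos.mpr Real.pi_pos
  obtain ⟨A, hA1, hA2, hA3⟩ := GG.G05_chooseA (κ := κ) (c2 := c2)
    (K := Real.exp 1 * (3 / 2 * (√π * C2))) (A0 := A0) hc2 (by positivity)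
  have hA : 0 < A := by linarith
  have hAκ : 0 < A ^ (-κ) := Real.rpow_pos_of_pos hA _
  obtain ⟨N0, hN0⟩ := hps A hA1
  set C6 : ℝ := C3 * Real.exp 4 * √π with hC6
  have hC6pos : 0 < C6 := by positivity
  obtain ⟨δ0, hδ0, hY⟩ : ∃ δ0 : ℝ, 0 < δ0 ∧ ∀ δ : ℝ, 0 < δ → δ < δ0 →
      2 * C6 / (c2 / 32 * A ^ (-κ)) ≤ M02_E b δ := by
    have h := hlim.eventually (eventually_ge_atTop (2 * C6 / (c2 / 32 * A ^ (-κ))))
    rw [eventually_nhdsWithin_iff, Metric.eventually_nhds_iff] at h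
    obtain ⟨ε, hε, h⟩ := h
    refine ⟨ε, hε, fun δ h1 h2 => h ?_ h1⟩
    rw [Real.dist_eq, sub_zero, abs_of_pos h1]
    exact h2
  obtain ⟨T1, hT1, hlarge⟩ := GG.G05_large N0 A (1 / δ0 + 1) one_pos
  set T0 : ℝ := max T1 (Real.exp 8) with hT0def
  have hT0 : 3 ≤ T0 := hT1.trans (le_max_left _ _)
  refine ⟨c2 / 32 * A ^ (-κ) * (K ^ 3)⁻¹ / (2 * Real.exp 1), T0, by positivity, hT0,
    fun T hT => ?_⟩
  obtain ⟨g1, g2, g3, g4, g5, g6⟩ := hlarge T ((le_max_left _ _).trans hT)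
  set N : ℕ := ⌊T ^ (1 / 4 : ℝ)⌋₊ with hN
  set H : ℝ := T / Real.log T with hH
  obtain ⟨s1, s2⟩ := GG.G05_step hd hG' hpol hC3 h2 (T := T) (H := H) (A := A) (N := N) g2 g3 hA.le g4
  refine ⟨s1, ?_⟩
  obtain ⟨p1, p2⟩ := hN0 N g1
  set I0 : ℝ := ∫ t : ℝ, ‖F (1 / 2 + t * I)‖ * Real.exp (-((t - T) ^ 2 / H ^ 2)) with hI0
  have hTpos : 0 < T := by linarith
  have hlogT : 0 < Real.log T := Real.log_pos (by linarith)
  have hHpos : 0 < H := div_pos hTpos hlogT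
  have hlogN : 0 < Real.log N := by linarith
  have hlogT8 : 8 ≤ Real.log T :=
    (Real.le_log_iff_exp_le hTpos).mpr ((le_max_right _ _).trans hT)
  rw [Real.rpow_one] at g6
  have hlogN1 : 1 ≤ Real.log N := by linarith
  set X : ℝ := M02_E b (1 / Real.log N) with hX
  have hinvN : 1 / Real.log N ≤ 1 := by rw [div_le_one hlogN]; exact hlogN1
  have hXone : 1 ≤ X := M02_E_one hb1 hs (by positivity) hinvN
  have hXpos : 0 < X := by linarith
  have hYX : 2 * C6 / (c2 / 32 * A ^ (-κ)) ≤ X := by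
    refine hY _ (by positivity) ?_
    rw [div_lt_iff₀ hlogN]
    have h1 : δ0 * (1 / δ0 + 1) ≤ δ0 * Real.log N := mul_le_mul_of_nonneg_left g6 hδ0.le
    have h2 : δ0 * (1 / δ0 + 1) = 1 + δ0 := by field_simp
    linarith
  have p1' : ∑ n ∈ Finset.Icc 1 N, ‖b n‖ ^ 2 * (n : ℝ)⁻¹ ≤ C2 * X := p1
  have p2' : c2 * (X * A ^ (-κ)) ≤
      ∑ n ∈ Finset.Icc 1 N, ‖b n‖ ^ 2 * (n : ℝ) ^ (-(1 + 2 * A / Real.log N)) := by
    refine le_trans (le_of_eq ?_) p2
    rw [hX]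
    unfold M02_E
    ring
  -- collect
  have q1 : 1 / 8 * H * (c2 * (X * A ^ (-κ))) ≤ 1 / 8 * H *
      ∑ n ∈ Finset.Icc 1 N, ‖b n‖ ^ 2 * (n : ℝ) ^ (-(1 + 2 * A / Real.log N)) :=
    mul_le_mul_of_nonneg_left p2' (by positivity)
  have q2 : Real.exp (-(A / 3)) *
      (Real.exp 1 * (3 / 2 * (√π * H * ∑ n ∈ Finset.Icc 1 N, ‖b n‖ ^ 2 * (n : ℝ)⁻¹))) ≤
      (c2 / 16 * A ^ (-κ)) * (H * X) := by
    calc Real.exp (-(A / 3)) *
        (Real.exp 1 * (3 / 2 * (√π * H * ∑ n ∈ Finset.Icc 1 N, ‖b n‖ ^ 2 * (n : ℝ)⁻¹)))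
        ≤ Real.exp (-(A / 3)) * (Real.exp 1 * (3 / 2 * (√π * H * (C2 * X)))) := by gcongr
      _ = (Real.exp (-(A / 3)) * (Real.exp 1 * (3 / 2 * (√π * C2)))) * (H * X) := by ring
      _ ≤ _ := mul_le_mul_of_nonneg_right hA3 (by positivity)
  have q3 : 2 * C6 ≤ c2 / 32 * A ^ (-κ) * X := by
    rw [div_le_iff₀ (by positivity)] at hYX
    linarith
  have q4 : 2 * (C3 * Real.exp 4 * (√π * H)) ≤ (c2 / 32 * A ^ (-κ)) * (H * X) := by
    calc 2 * (C3 * Real.exp 4 * (√π * H)) = (2 * C6) * H := by rw [hC6]; ring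
      _ ≤ (c2 / 32 * A ^ (-κ) * X) * H := mul_le_mul_of_nonneg_right q3 hHpos.le
      _ = _ := by ring
  have q5 : (c2 / 32 * A ^ (-κ)) * (H * X) ≤ 2 * (Real.exp 1 * I0) := by
    have : 1 / 8 * H * (c2 * (X * A ^ (-κ))) = 4 * ((c2 / 32 * A ^ (-κ)) * (H * X)) := by ring
    have h16 : (c2 / 16 * A ^ (-κ)) * (H * X) = 2 * ((c2 / 32 * A ^ (-κ)) * (H * X)) := by ring
    linarith
  have q6 : M02_E b (1 / Real.log T) * (K ^ 3)⁻¹ ≤ X := by
    have h1 := M02_E_eight hK (fun δ h h' => (hE δ h h').2) (x := 1 / Real.log T) (by positivity)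
      (by rw [mul_one_div, div_le_one hlogT]; exact hlogT8)
    have h2 : M02_E b (8 * (1 / Real.log T)) ≤ X := by
      refine M02_E_anti hs (by positivity) ?_ (by rw [mul_one_div, div_le_one hlogT]; exact hlogT8)
      rw [mul_one_div, div_le_div_iff₀ hlogN hlogT]
      linarith
    rw [← div_eq_mul_inv, div_le_iff₀ (by positivity)]
    calc M02_E b (1 / Real.log T) ≤ K ^ 3 * M02_E b (8 * (1 / Real.log T)) := h1
      _ ≤ K ^ 3 * X := mul_le_mul_of_nonneg_left h2 (by positivity)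
      _ = X * K ^ 3 := by ring
  have he1 : 0 < Real.exp 1 := Real.exp_pos 1
  have q7 : (c2 / 32 * A ^ (-κ)) * (H * (M02_E b (1 / Real.log T) * (K ^ 3)⁻¹)) ≤ 2 * (Real.exp 1 * I0) :=
    le_trans (by gcongr) q5
  have q8 : c2 / 32 * A ^ (-κ) * (K ^ 3)⁻¹ / (2 * Real.exp 1) * H * M02_E b (1 / Real.log T) =
      (c2 / 32 * A ^ (-κ)) * (H * (M02_E b (1 / Real.log T) * (K ^ 3)⁻¹)) / (2 * Real.exp 1) := by ring
  rw [q8, div_le_iff₀ (by positivity)]
  linarith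

/-- Row M02. Lower bound for the mean of abs F, doubling version of GG.core and GG.dyadic. -/
theorem dyadic {F : ℂ → ℂ} {a b : ArithmeticFunction ℂ} {K C : ℝ} {m : ℕ}
    (hG : ∃ G : ℂ → ℂ, (∀ s : ℂ, 0 < s.re → DifferentiableAt ℂ G s) ∧ ∀ s : ℂ, s ≠ 1 → G s = (s - 1) * F s)
    (hpol : ∀ s : ℂ, 1 / 2 ≤ s.re → s.re ≤ 2 → 1 ≤ |s.im| → ‖F s‖ ≤ C * (1 + |s.im|) ^ m)
    (hFa : ∀ s : ℂ, 1 < s.re → LSeriesSummable a s ∧ F s = LSeries a s) (hab : b * b = a) (hb1 : b 1 = 1)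
    (hb : Summable (fun n : ℕ => ‖b n‖ * (n : ℝ) ^ (-(3 / 2 : ℝ))))
    (hE : ∀ δ : ℝ, 0 < δ → δ ≤ 1 → Summable (fun n : ℕ => ‖b n‖ ^ 2 * (n : ℝ) ^ (-(1 + δ))) ∧
      ∑' n : ℕ, ‖b n‖ ^ 2 * (n : ℝ) ^ (-(1 + δ / 2)) ≤ K * ∑' n : ℕ, ‖b n‖ ^ 2 * (n : ℝ) ^ (-(1 + δ)))
    (hlim : Tendsto (fun δ : ℝ => ∑' n : ℕ, ‖b n‖ ^ 2 * (n : ℝ) ^ (-(1 + δ))) (𝓝[>] 0) atTop) :
    ∃ c T0 : ℝ, 0 < c ∧ 3 ≤ T0 ∧ ∀ T : ℝ, T0 ≤ T →
      c * T * ∑' n : ℕ, ‖b n‖ ^ 2 * (n : ℝ) ^ (-(1 + 1 / Real.log T)) ≤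
        ∫ t in Icc T (2 * T), ‖F (1 / 2 + t * I)‖ := by
  change ∀ δ : ℝ, 0 < δ → δ ≤ 1 → Summable (fun n : ℕ => ‖b n‖ ^ 2 * (n : ℝ) ^ (-(1 + δ))) ∧
      M02_E b (δ / 2) ≤ K * M02_E b δ at hE
  change Tendsto (fun δ : ℝ => M02_E b δ) (𝓝[>] 0) atTop at hlim
  have hs : ∀ δ : ℝ, 0 < δ → δ ≤ 1 → Summable (fun n : ℕ => ‖b n‖ ^ 2 * (n : ℝ) ^ (-(1 + δ))) :=
    fun δ h h' => (hE δ h h').1
  suffices h : ∃ c T0 : ℝ, 0 < c ∧ 3 ≤ T0 ∧ ∀ T : ℝ, T0 ≤ T →
      c * T * M02_E b (1 / Real.log T) ≤ ∫ t in Icc T (2 * T), ‖F (1 / 2 + t * I)‖ from h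
  obtain ⟨c, T0, hc, hT0, hcore⟩ := M02_core hG hpol hFa hab hb1 hb hE hlim
  obtain ⟨G, hG1, hG2⟩ := hG
  -- continuity on the critical line
  have hcont : Continuous fun t : ℝ => F (1 / 2 + t * I) := by
    have h1 : (fun t : ℝ => F (1 / 2 + t * I)) =
        fun t : ℝ => G (1 / 2 + t * I) / ((1 / 2 + t * I : ℂ) - 1) := by
      funext t
      have hne : (1 / 2 + t * I : ℂ) ≠ 1 := by
        intro h
        have := congrArg Complex.re h
        norm_num at this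
      rw [hG2 _ hne, mul_div_cancel_left₀ _ (sub_ne_zero.mpr hne)]
    rw [h1]
    refine Continuous.div ?_ (by fun_prop) ?_
    · rw [continuous_iff_continuousAt]
      intro t
      have h2 : ContinuousAt G (1 / 2 + t * I) := (hG1 _ (by norm_num)).continuousAt
      exact ContinuousAt.comp (f := fun t : ℝ => (1 / 2 + t * I : ℂ)) h2
        (by fun_prop)
    · intro t h
      have := congrArg Complex.re h
      norm_num at this
  -- polynomial bound on the critical line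
  obtain ⟨M, hM⟩ : ∃ M : ℝ, ∀ t ∈ Icc (-1 : ℝ) 1, ‖F (1 / 2 + t * I)‖ ≤ M :=
    isCompact_Icc.exists_bound_of_continuousOn hcont.continuousOn
  set C' : ℝ := max (max C M) 1 with hC'
  have hC'1 : 1 ≤ C' := le_max_right _ _
  have hbd : ∀ t : ℝ, ‖F (1 / 2 + t * I)‖ ≤ C' * (1 + |t|) ^ m := by
    intro t
    by_cases ht : 1 ≤ |t|
    · have him : (1 / 2 + t * I : ℂ).im = t := by simp
      have hre : (1 / 2 + t * I : ℂ).re = 1 / 2 := by simp
      have h1 := hpol (1 / 2 + t * I) (by rw [hre]) (by rw [hre]; norm_num) (by rw [him]; exact ht)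
      rw [him] at h1
      refine h1.trans (mul_le_mul_of_nonneg_right ?_ (by positivity))
      exact (le_max_left _ _).trans (le_max_left _ _)
    · push Not at ht
      have h1 := hM t (abs_le.mp ht.le)
      have h2 : (1 : ℝ) ≤ (1 + |t|) ^ m := one_le_pow₀ (by linarith [abs_nonneg t])
      have h3 : M ≤ C' := (le_max_right _ _).trans (le_max_left _ _)
      nlinarith
  set CG : ℝ := Real.exp (1 / 4) * Real.sqrt (π / (1 / 8)) with hCG
  have hCG0 : 0 < CG := by positivity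
  set T1 : ℝ := max (max T0 (Real.exp (240 * ((m : ℝ) + 3)))) (4 * C' * π / c) with hT1
  refine ⟨c / (16 * CG), T1, by positivity, hT0.trans ((le_max_left _ _).trans (le_max_left _ _)),
    fun T hT => ?_⟩
  have hTT0 : T0 ≤ T := ((le_max_left _ _).trans (le_max_left _ _)).trans hT
  have hTe : Real.exp (240 * ((m : ℝ) + 3)) ≤ T :=
    ((le_max_right _ _).trans (le_max_left _ _)).trans hT
  have hTc : 4 * C' * π / c ≤ T := (le_max_right _ _).trans hT
  have hT3 : 3 ≤ T := hT0.trans hTT0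
  have hTpos : 0 < T := by linarith
  set L : ℝ := Real.log T with hL
  have hm0 : (0 : ℝ) ≤ m := Nat.cast_nonneg m
  have hL720 : 720 ≤ L := by
    have h1 : 240 * ((m : ℝ) + 3) ≤ L := (Real.le_log_iff_exp_le hTpos).mpr hTe
    linarith
  have hLpos : 0 < L := by linarith
  have hL1 : 1 / L ≤ 1 := by rw [div_le_one hLpos]; linarith
  have hE0 : 0 ≤ M02_E b (1 / L) := by
    have := M02_E_one hb1 hs (x := 1 / L) (by positivity) hL1
    linarith
  have hLT : L ≤ T := by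
    have := Real.log_le_sub_one_of_pos hTpos
    linarith
  set n : ℕ := ⌊L / 2⌋₊ with hn
  have hn1 : (n : ℝ) ≤ L / 2 := Nat.floor_le (by positivity)
  have hn2 : L / 4 ≤ n := by
    have := Nat.lt_floor_add_one (L / 2)
    rw [← hn] at this
    linarith
  set τ : ℕ → ℝ := fun i => 5 * T / 4 + i * (T / L) with hτ
  have hτ1 : ∀ i, 5 * T / 4 ≤ τ i := by
    intro i
    rw [hτ]
    have : 0 ≤ (i : ℝ) * (T / L) := by positivity
    simp only
    linarith
  have hτ2 : ∀ i ∈ Finset.range n, τ i ≤ 7 * T / 4 := by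
    intro i hi
    have h1 : (i : ℝ) ≤ L / 2 := by
      have : (i : ℝ) ≤ n := by exact_mod_cast (Finset.mem_range.mp hi).le
      linarith
    have h2 : (i : ℝ) * (T / L) ≤ L / 2 * (T / L) := mul_le_mul_of_nonneg_right h1 (by positivity)
    have h3 : L / 2 * (T / L) = T / 2 := by field_simp
    rw [hτ]
    simp only
    linarith
  have hlogτ1 : ∀ i, L ≤ Real.log (τ i) := fun i =>
    Real.log_le_log hTpos (by linarith [hτ1 i])
  have hlogτ2 : ∀ i ∈ Finset.range n, Real.log (τ i) ≤ 2 * L := by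
    intro i hi
    have h1 : Real.log (τ i) ≤ Real.log (T * T) :=
      Real.log_le_log (by linarith [hτ1 i]) (by nlinarith [hτ2 i hi])
    rw [Real.log_mul hTpos.ne' hTpos.ne'] at h1
    linarith
  -- the widths
  have hH1 : ∀ i ∈ Finset.range n, τ i / Real.log (τ i) ≤ 2 * T / L := by
    intro i hi
    have h1 := hτ2 i hi
    exact div_le_div₀ (by positivity) (by linarith) hLpos (hlogτ1 i)
  have hH0 : ∀ i, 0 < τ i / Real.log (τ i) := fun i =>
    div_pos (by linarith [hτ1 i]) (by linarith [hlogτ1 i])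
  have hH2 : ∀ i ∈ Finset.range n, T / (2 * L) ≤ τ i / Real.log (τ i) := by
    intro i hi
    exact div_le_div₀ (by linarith [hτ1 i]) (by linarith [hτ1 i]) (by linarith [hlogτ1 i])
      (hlogτ2 i hi)
  have hexp : ∀ i ∈ Finset.range n, ∀ t : ℝ, (t - τ i) ^ 2 * L ^ 2 / (4 * T ^ 2) ≤
      (t - τ i) ^ 2 / (τ i / Real.log (τ i)) ^ 2 := by
    intro i hi t
    have h1 : (τ i / Real.log (τ i)) ^ 2 ≤ (2 * T / L) ^ 2 :=
      pow_le_pow_left₀ (hH0 i).le (hH1 i hi) 2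
    have h2 : (t - τ i) ^ 2 * L ^ 2 / (4 * T ^ 2) = (t - τ i) ^ 2 / (2 * T / L) ^ 2 := by
      field_simp
      ring
    rw [h2]
    exact div_le_div_of_nonneg_left (sq_nonneg _) (pow_pos (hH0 i) 2) h1
  set f : ℝ → ℝ := fun t => ‖F (1 / 2 + t * I)‖ with hf
  set g : ℕ → ℝ → ℝ := fun i t =>
    Real.exp (-((t - τ i) ^ 2 / (τ i / Real.log (τ i)) ^ 2)) with hg
  have hfcont : Continuous f := hcont.norm
  have hgcont : ∀ i, Continuous (g i) := fun i => by
    rw [hg]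
    simp only
    fun_prop
  have hcore' : ∀ i, Integrable (fun t => f t * g i t) ∧
      c * (τ i / Real.log (τ i)) * M02_E b (1 / Real.log (τ i)) ≤ ∫ t, f t * g i t := fun i =>
    hcore (τ i) (by linarith [hτ1 i])
  -- lower bound
  have hlow : ∀ i ∈ Finset.range n, c * (T / (2 * L)) * M02_E b (1 / L) ≤ ∫ t, f t * g i t := by
    intro i hi
    refine le_trans ?_ (hcore' i).2
    have h1 : M02_E b (1 / L) ≤ M02_E b (1 / Real.log (τ i)) := by
      have h2 : 0 < Real.log (τ i) := lt_of_lt_of_le hLpos (hlogτ1 i)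
      exact M02_E_anti hs (by positivity) (one_div_le_one_div_of_le hLpos (hlogτ1 i)) hL1
    exact mul_le_mul (mul_le_mul_of_nonneg_left (hH2 i hi) hc.le) h1 (by positivity)
      (mul_nonneg hc.le (hH0 i).le)
  -- tails
  have htail : ∀ i ∈ Finset.range n, ∫ t in (Icc T (2 * T))ᶜ, f t * g i t ≤ C' * π / T := by
    intro i hi
    have hint : Integrable fun t : ℝ => C' * (T⁻¹ * (1 + (t - τ i) ^ 2)⁻¹) :=
      ((integrable_inv_one_add_sq.comp_sub_right (τ i)).const_mul T⁻¹).const_mul C'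
    have h1 : ∫ t in (Icc T (2 * T))ᶜ, f t * g i t ≤
        ∫ t in (Icc T (2 * T))ᶜ, C' * (T⁻¹ * (1 + (t - τ i) ^ 2)⁻¹) := by
      refine setIntegral_mono_on (hcore' i).1.integrableOn hint.integrableOn
        measurableSet_Icc.compl ?_
      intro t ht
      have hv : T / 4 ≤ |t - τ i| := by
        have h2 := hτ1 i
        have h3 := hτ2 i hi
        rw [Set.mem_compl_iff, Set.mem_Icc, not_and_or, not_le, not_le] at ht
        rcases ht with ht | ht
        · rw [abs_of_nonpos (by linarith)]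
          linarith
        · rw [abs_of_nonneg (by linarith)]
          linarith
      have h4 : |t| ≤ 9 * |t - τ i| := by
        have h5 : |t| ≤ |t - τ i| + |τ i| := by
          have := abs_add_le (t - τ i) (τ i)
          rwa [sub_add_cancel] at this
        have h6 : |τ i| = τ i := abs_of_nonneg (by linarith [hτ1 i])
        rw [h6] at h5
        linarith [hτ2 i hi]
      have h7 := GG.G06_tail m hTe hv
      have h8 : f t ≤ C' * (1 + 9 * |t - τ i|) ^ m := by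
        refine (hbd t).trans (mul_le_mul_of_nonneg_left ?_ (by linarith))
        exact pow_le_pow_left₀ (by positivity) (by linarith) m
      have h9 : g i t ≤ Real.exp (-((t - τ i) ^ 2 * L ^ 2 / (4 * T ^ 2))) :=
        Real.exp_le_exp.mpr (neg_le_neg (hexp i hi t))
      calc f t * g i t ≤ (C' * (1 + 9 * |t - τ i|) ^ m) *
            Real.exp (-((t - τ i) ^ 2 * L ^ 2 / (4 * T ^ 2))) :=
            mul_le_mul h8 h9 (Real.exp_pos _).le (by positivity)
        _ = C' * ((1 + 9 * |t - τ i|) ^ m *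
            Real.exp (-((t - τ i) ^ 2 * L ^ 2 / (4 * T ^ 2)))) := by ring
        _ ≤ C' * (T⁻¹ * (1 + (t - τ i) ^ 2)⁻¹) := mul_le_mul_of_nonneg_left h7 (by linarith)
    refine h1.trans ((setIntegral_le_integral hint (ae_of_all _ fun t => ?_)).trans (le_of_eq ?_))
    · change (0 : ℝ) ≤ C' * (T⁻¹ * (1 + (t - τ i) ^ 2)⁻¹)
      positivity
    · rw [integral_const_mul, integral_const_mul,
        integral_sub_right_eq_self (μ := volume) (fun t : ℝ => (1 + t ^ 2)⁻¹) (τ i),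
        integral_univ_inv_one_add_sq]
      field_simp
  -- the main part
  have hmain : ∑ i ∈ Finset.range n, ∫ t in Icc T (2 * T), f t * g i t ≤
      CG * ∫ t in Icc T (2 * T), f t := by
    rw [← integral_finsetSum _ fun i _ => (hcore' i).1.integrableOn, ← integral_const_mul]
    have hfI : IntegrableOn f (Icc T (2 * T)) := hfcont.continuousOn.integrableOn_Icc
    refine setIntegral_mono_on ?_ (hfI.const_mul CG) measurableSet_Icc ?_
    · exact (continuous_finsetSum _ fun i _ => hfcont.mul (hgcont i)).continuousOn.integrableOn_Icc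
    · intro t _
      rw [← Finset.mul_sum, mul_comm CG]
      refine mul_le_mul_of_nonneg_left ?_ (norm_nonneg _)
      refine le_trans (Finset.sum_le_sum fun i hi => ?_) (GG.G06_sum_gauss ((t - 5 * T / 4) * L / T) n)
      apply Real.exp_le_exp.mpr
      refine neg_le_neg ((le_of_eq ?_).trans (hexp i hi t))
      rw [hτ]
      simp only
      field_simp
      ring
  -- assembly
  have hsum : (n : ℝ) * (c * (T / (2 * L)) * M02_E b (1 / L)) ≤
      CG * (∫ t in Icc T (2 * T), f t) + n * (C' * π / T) := by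
    have h1 : (n : ℝ) * (c * (T / (2 * L)) * M02_E b (1 / L)) =
        ∑ _i ∈ Finset.range n, c * (T / (2 * L)) * M02_E b (1 / L) := by
      rw [Finset.sum_const, Finset.card_range, nsmul_eq_mul]
    rw [h1]
    refine (Finset.sum_le_sum hlow).trans ?_
    have h2 : ∀ i ∈ Finset.range n, ∫ t, f t * g i t =
        (∫ t in Icc T (2 * T), f t * g i t) + ∫ t in (Icc T (2 * T))ᶜ, f t * g i t := fun i _ =>
      (integral_add_compl measurableSet_Icc (hcore' i).1).symm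
    rw [Finset.sum_congr rfl h2, Finset.sum_add_distrib]
    have h3 : ∑ i ∈ Finset.range n, ∫ t in (Icc T (2 * T))ᶜ, f t * g i t ≤
        n * (C' * π / T) := by
      refine (Finset.sum_le_sum htail).trans (le_of_eq ?_)
      rw [Finset.sum_const, Finset.card_range, nsmul_eq_mul]
    exact add_le_add hmain h3
  have hLκ : 1 ≤ M02_E b (1 / L) := M02_E_one hb1 hs (by positivity) hL1
  have herr : C' * π / T ≤ c * (T / (4 * L)) * M02_E b (1 / L) := by
    have h1 : 4 * C' * π ≤ c * T := by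
      rw [div_le_iff₀ hc] at hTc
      linarith
    have h2 : C' * π / T ≤ c * (T / (4 * L)) := by
      rw [div_le_iff₀ hTpos]
      have h3 : c * (T / (4 * L)) * T = c * T * T / (4 * L) := by ring
      rw [h3, le_div_iff₀ (by positivity)]
      have h4 : C' * π * (4 * L) = 4 * C' * π * L := by ring
      rw [h4]
      have h5 : 0 ≤ 4 * C' * π := by positivity
      nlinarith
    calc C' * π / T ≤ c * (T / (4 * L)) := h2
      _ = c * (T / (4 * L)) * 1 := by ring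
      _ ≤ c * (T / (4 * L)) * M02_E b (1 / L) := mul_le_mul_of_nonneg_left hLκ (by positivity)
  have hfin : (n : ℝ) * (c * (T / (4 * L)) * M02_E b (1 / L)) ≤ CG * ∫ t in Icc T (2 * T), f t := by
    have h1 : c * (T / (2 * L)) * M02_E b (1 / L) = 2 * (c * (T / (4 * L)) * M02_E b (1 / L)) := by
      field_simp
      ring
    rw [h1] at hsum
    have h2 : (n : ℝ) * (C' * π / T) ≤ n * (c * (T / (4 * L)) * M02_E b (1 / L)) :=
      mul_le_mul_of_nonneg_left herr (Nat.cast_nonneg n)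
    linarith
  have hfin2 : c * T * M02_E b (1 / L) / 16 ≤ CG * ∫ t in Icc T (2 * T), f t := by
    refine le_trans ?_ hfin
    have h1 : c * T * M02_E b (1 / L) / 16 = L / 4 * (c * (T / (4 * L)) * M02_E b (1 / L)) := by
      field_simp
      ring
    rw [h1]
    exact mul_le_mul_of_nonneg_right hn2 (by positivity)
  have h9 : c / (16 * CG) * T * M02_E b (1 / L) = c * T * M02_E b (1 / L) / 16 / CG := by
    field_simp
  rw [h9, div_le_iff₀ hCG0]
  exact hfin2.trans (le_of_eq (mul_comm _ _))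

end NH
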