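import Pool.Agent.Lib.MP_0f5a55_nt.NH.MD
import Pool.Agent.Lib.MP_0f5a55_nt.GG.G09

open Complex MeasureTheory Set Filter Topology
open scoped Real ComplexConjugate

namespace NH

theorem M04_af {a : ℕ → ℂ} {n : ℕ} (hn : n ≠ 0) : af a n = a n := by
  show (if n = 0 then (0 : ℂ) else a n) = a n
  rw [if_neg hn]

theorem M04_zz {n : ℕ} : ((ArithmeticFunction.zeta : ArithmeticFunction ℂ) *
    (ArithmeticFunction.zeta : ArithmeticFunction ℂ)) n = ((n.divisors.card : ℕ) : ℂ) := by
  rw [ArithmeticFunction.mul_apply, Nat.sum_divisorsAntidiagonal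
    (f := fun a b => (ArithmeticFunction.zeta : ArithmeticFunction ℂ) a *
      (ArithmeticFunction.zeta : ArithmeticFunction ℂ) b)]
  have h : ∀ i ∈ n.divisors, (ArithmeticFunction.zeta : ArithmeticFunction ℂ) i *
      (ArithmeticFunction.zeta : ArithmeticFunction ℂ) (n / i) = 1 := by
    intro i hi
    have hi0 : i ≠ 0 := (Nat.pos_of_mem_divisors hi).ne'
    have hn0 : n / i ≠ 0 := by
      have h1 := Nat.div_mul_cancel (Nat.dvd_of_mem_divisors hi)
      intro h2
      rw [h2, zero_mul] at h1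
      exact (Nat.mem_divisors.1 hi).2 h1.symm
    rw [ArithmeticFunction.natCoe_apply, ArithmeticFunction.natCoe_apply,
      ArithmeticFunction.zeta_apply_ne hi0, ArithmeticFunction.zeta_apply_ne hn0]
    simp
  rw [Finset.sum_congr rfl h]
  simp

theorem M04_summable {N : ℕ} {a : ℕ → ℂ} {L : ℂ → ℂ} (D : Dat N a L) {s : ℂ} (hs : 1 < s.re) :
    LSeriesSummable (af a) s := by
  have h1 : LSeriesSummable (⇑((ArithmeticFunction.zeta : ArithmeticFunction ℂ) *
      (ArithmeticFunction.zeta : ArithmeticFunction ℂ))) s :=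
    ArithmeticFunction.LSeriesSummable_mul (ArithmeticFunction.LSeriesSummable_zeta_iff.2 hs)
      (ArithmeticFunction.LSeriesSummable_zeta_iff.2 hs)
  refine Summable.of_norm_bounded h1.norm fun n => LSeries.norm_term_le s ?_
  rcases eq_or_ne n 0 with rfl | hn
  · simp
  · rw [M04_af hn, M04_zz]
    refine (D.bd n (Nat.pos_of_ne_zero hn)).trans (le_of_eq ?_)
    simp

/-- Row M04. The Dirichlet series of the product in Re s > 1. -/
theorem L_series {N : ℕ} {a : ℕ → ℂ} {L : ℂ → ℂ} (D : Dat N a L) {s : ℂ} (hs : 1 < s.re) :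
    LSeriesSummable (af a) s ∧ L s = LSeries (af a) s := by
  refine ⟨M04_summable D hs, ?_⟩
  have hU : ∀ z : ℂ, 1 < z.re → z ∈ {z : ℂ | LSeries.abscissaOfAbsConv (af a) < z.re} := by
    intro z hz
    refine lt_of_le_of_lt (b := ((1 : ℝ) : EReal)) ?_ (by exact_mod_cast hz)
    refine LSeries.abscissaOfAbsConv_le_of_forall_lt_LSeriesSummable fun y hy => ?_
    exact M04_summable D (by simpa using hy)
  have hA : AnalyticOnNhd ℂ (LSeries (af a)) {z : ℂ | 1 < z.re} :=
    (LSeries_analyticOnNhd (af a)).mono hU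
  have hL : AnalyticOnNhd ℂ L {z : ℂ | 1 < z.re} := fun z _ => D.ent.analyticAt z
  have hconv : IsPreconnected {z : ℂ | 1 < z.re} :=
    (convex_halfSpace_re_gt 1).isPreconnected
  have h3 : (3 : ℂ) ∈ {z : ℂ | 1 < z.re} := by
    show (1 : ℝ) < (3 : ℂ).re
    norm_num
  have hev : L =ᶠ[𝓝 (3 : ℂ)] LSeries (af a) := by
    have hopen : {z : ℂ | 2 < z.re} ∈ 𝓝 (3 : ℂ) :=
      (isOpen_lt continuous_const Complex.continuous_re).mem_nhds (by
        show (2 : ℝ) < (3 : ℂ).re
        norm_num)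
    filter_upwards [hopen] with z hz
    have hz' : (2 : ℝ) < z.re := hz
    have h1 : HasSum (LSeries.term (af a) z) (LSeries (af a) z) :=
      (M04_summable D (by linarith)).hasSum
    have h2 := (hasSum_nat_add_iff' (f := LSeries.term (af a) z) 1).2 h1
    rw [Finset.sum_range_one, LSeries.term_zero, sub_zero] at h2
    refine (D.ser z hz'.le).unique (h2.congr_fun fun n => ?_)
    rw [LSeries.term_of_ne_zero (Nat.succ_ne_zero n), Complex.cpow_neg, div_eq_mul_inv,
      M04_af (Nat.succ_ne_zero n)]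
    push_cast
    rfl
  exact hL.eqOn_of_preconnected_of_eventuallyEq hA hconv h3 hev hs

theorem FLf_series {N : ℕ} {a : ℕ → ℂ} {L : ℂ → ℂ} (D : Dat N a L) {k : ℕ} (x : Fin k → GG.Ch) {s : ℂ}
    (hs : 1 < s.re) : LSeriesSummable (⇑(GG.aa x * af a)) s ∧
      GG.FL x s * L s = LSeries (⇑(GG.aa x * af a)) s := by
  have h1 : LSeriesSummable (af a) s := (L_series D hs).1
  have h2 : L s = LSeries (af a) s := (L_series D hs).2
  have h3 : LSeriesSummable (GG.aa x) s := (GG.FL_series x hs).1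
  have h4 : GG.FL x s = LSeries (GG.aa x) s := (GG.FL_series x hs).2
  refine ⟨?_, ?_⟩
  · exact ArithmeticFunction.LSeriesSummable_mul h3 h1
  · rw [h2, h4]
    exact (ArithmeticFunction.LSeries_mul' h3 h1).symm

end NH
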