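import Pool.Agent.Lib.MP_0f5a55_nt.NH.D

open Complex MeasureTheory Set Filter Topology
open scoped Real ComplexConjugate

namespace NH

/-- the geometric kernel -/
noncomputable def M07_K (x : ℕ) (v : ℝ) : ℂ :=
  ∑ m ∈ Finset.Icc 1 x, exp (((2 * π / x : ℝ) : ℂ) - ((2 * π * v : ℝ) : ℂ) * I) ^ m

theorem M07_norm (x : ℕ) (v : ℝ) :
    ‖exp (((2 * π / x : ℝ) : ℂ) - ((2 * π * v : ℝ) : ℂ) * I)‖ = Real.exp (2 * π / x) := by
  rw [Complex.norm_exp]
  simp

theorem M07_K1 {x : ℕ} (hx : 1 ≤ x) (v : ℝ) : ‖M07_K x v‖ ≤ x * Real.exp (2 * π) := by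
  have hx0 : (0 : ℝ) < x := by exact_mod_cast hx
  unfold M07_K
  refine (norm_sum_le _ _).trans ?_
  have h1 : ∀ m ∈ Finset.Icc 1 x, ‖exp (((2 * π / x : ℝ) : ℂ) - ((2 * π * v : ℝ) : ℂ) * I) ^ m‖ ≤
      Real.exp (2 * π) := by
    intro m hm
    rw [Finset.mem_Icc] at hm
    rw [norm_pow, M07_norm, ← Real.exp_nat_mul]
    refine Real.exp_le_exp.2 ?_
    have h2 : (m : ℝ) ≤ x := by exact_mod_cast hm.2
    calc (m : ℝ) * (2 * π / x) ≤ x * (2 * π / x) := by
          refine mul_le_mul_of_nonneg_right h2 ?_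
          positivity
      _ = 2 * π := by field_simp
  refine (Finset.sum_le_card_nsmul _ _ _ h1).trans ?_
  rw [Nat.card_Icc, nsmul_eq_mul]
  simp

theorem M07_q {r θ : ℝ} (hr : 1 ≤ r) : 2 * |Real.sin (θ / 2)| ≤ ‖(r : ℂ) * exp (-(θ : ℂ) * I) - 1‖ := by
  have h1 : ‖(r : ℂ) * exp (-(θ : ℂ) * I) - 1‖ ^ 2 = (r - 1) ^ 2 + 4 * r * Real.sin (θ / 2) ^ 2 := by
    rw [← Complex.normSq_eq_norm_sq, Complex.normSq_apply]
    have e1 : exp (-(θ : ℂ) * I) = (Real.cos θ : ℂ) - (Real.sin θ : ℂ) * I := by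
      rw [Complex.exp_mul_I, Complex.cos_neg, Complex.sin_neg, Complex.ofReal_cos, Complex.ofReal_sin]
      ring
    rw [e1]
    simp only [Complex.sub_re, Complex.sub_im, Complex.mul_re, Complex.mul_im, Complex.ofReal_re,
      Complex.ofReal_im, Complex.I_re, Complex.I_im, Complex.one_re, Complex.one_im]
    have e2 : Real.cos θ = 1 - 2 * Real.sin (θ / 2) ^ 2 := by
      have := Real.cos_two_mul (θ / 2)
      rw [mul_div_cancel₀ θ two_ne_zero] at this
      rw [this, Real.cos_sq']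
      ring
    have e3 : Real.sin θ ^ 2 = 1 - Real.cos θ ^ 2 := Real.sin_sq θ
    have e4 : (r * (Real.cos θ - (Real.sin θ * 0 - 0 * 1)) - 0 * (0 - (Real.sin θ * 1 + 0 * 0)) - 1) *
        (r * (Real.cos θ - (Real.sin θ * 0 - 0 * 1)) - 0 * (0 - (Real.sin θ * 1 + 0 * 0)) - 1) +
        (r * (0 - (Real.sin θ * 1 + 0 * 0)) + 0 * (Real.cos θ - (Real.sin θ * 0 - 0 * 1)) - 0) *
        (r * (0 - (Real.sin θ * 1 + 0 * 0)) + 0 * (Real.cos θ - (Real.sin θ * 0 - 0 * 1)) - 0) =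
        (r * Real.cos θ - 1) ^ 2 + r ^ 2 * Real.sin θ ^ 2 := by ring
    rw [e4, e3, e2]
    ring
  refine abs_le_of_sq_le_sq' ?_ (norm_nonneg _) |>.2
  rw [h1, mul_pow, sq_abs]
  nlinarith [sq_nonneg (r - 1), sq_nonneg (Real.sin (θ / 2))]


theorem M07_K2 {x : ℕ} (hx : 1 ≤ x) (v : ℝ) : |Real.sin (π * v)| * ‖M07_K x v‖ ≤ Real.exp (4 * π) := by
  have hx0 : (0 : ℝ) < x := by exact_mod_cast hx
  obtain ⟨q, hq⟩ : ∃ q, q = exp (((2 * π / x : ℝ) : ℂ) - ((2 * π * v : ℝ) : ℂ) * I) := ⟨_, rfl⟩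
  have hqn : ‖q‖ = Real.exp (2 * π / x) := by
    rw [hq, M07_norm]
  have h1 : (q - 1) * M07_K x v = q ^ (x + 1) - q := by
    unfold M07_K
    rw [← hq]
    have e1 : ∑ m ∈ Finset.Icc 1 x, q ^ m = ∑ m ∈ Finset.range (x + 1), q ^ m - 1 := by
      rw [Finset.range_eq_Ico, Finset.sum_eq_sum_Ico_succ_bot (by omega : 0 < x + 1)]
      simp only [pow_zero, zero_add, add_sub_cancel_left]
      rfl
    rw [e1, mul_sub, mul_comm (q - 1), geom_sum_mul]
    ring
  have h2 : 2 * |Real.sin (π * v)| ≤ ‖q - 1‖ := by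
    have h3 := M07_q (r := Real.exp (2 * π / x)) (θ := 2 * π * v) (Real.one_le_exp (by positivity))
    have e2 : 2 * π * v / 2 = π * v := by ring
    rw [e2] at h3
    have e3 : ((Real.exp (2 * π / x) : ℝ) : ℂ) * exp (-((2 * π * v : ℝ) : ℂ) * I) = q := by
      rw [hq, Complex.ofReal_exp, ← Complex.exp_add]
      congr 1
      ring
    rwa [e3] at h3
  have h4 : ‖q ^ (x + 1) - q‖ ≤ 2 * Real.exp (4 * π) := by
    refine (norm_sub_le _ _).trans ?_
    rw [norm_pow, hqn, ← Real.exp_nat_mul]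
    have e4 : Real.exp (((x + 1 : ℕ) : ℝ) * (2 * π / x)) ≤ Real.exp (4 * π) := by
      refine Real.exp_le_exp.2 ?_
      have e5 : ((x + 1 : ℕ) : ℝ) * (2 * π / x) = 2 * π + 2 * π / x := by
        push_cast
        field_simp
      rw [e5]
      have e6 : 2 * π / x ≤ 2 * π := div_le_self (by positivity) (by exact_mod_cast hx)
      linarith
    have e7 : Real.exp (2 * π / x) ≤ Real.exp (4 * π) := by
      refine Real.exp_le_exp.2 ?_
      have e6 : 2 * π / x ≤ 2 * π := div_le_self (by positivity) (by exact_mod_cast hx)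
      linarith [Real.pi_pos]
    linarith
  have h5 : 2 * |Real.sin (π * v)| * ‖M07_K x v‖ ≤ 2 * Real.exp (4 * π) := by
    calc 2 * |Real.sin (π * v)| * ‖M07_K x v‖ ≤ ‖q - 1‖ * ‖M07_K x v‖ :=
          mul_le_mul_of_nonneg_right h2 (norm_nonneg _)
      _ = ‖q ^ (x + 1) - q‖ := by rw [← norm_mul, h1]
      _ ≤ _ := h4
  linarith

/-- the majorant -/
noncomputable def M07_B (x : ℕ) (v : ℝ) : ℝ := x / (1 + x * v) + x / (1 + x * (1 - v))

theorem M07_KB {x : ℕ} (hx : 1 ≤ x) {v : ℝ} (h0 : 0 ≤ v) (h1 : v ≤ 1) :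
    ‖M07_K x v‖ ≤ 2 * Real.exp (4 * π) * M07_B x v := by
  have hx0 : (0 : ℝ) < x := by exact_mod_cast hx
  have hK1 := M07_K1 hx v
  have hK2 := M07_K2 hx v
  have hE : Real.exp (2 * π) ≤ Real.exp (4 * π) := Real.exp_le_exp.2 (by linarith [Real.pi_pos])
  have hE0 := Real.exp_pos (4 * π)
  have hn := norm_nonneg (M07_K x v)
  have key : ∀ u : ℝ, 0 ≤ u → u * ‖M07_K x v‖ ≤ Real.exp (4 * π) →
      ‖M07_K x v‖ ≤ 2 * Real.exp (4 * π) * (x / (1 + x * u)) := by
    intro u hu hK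
    have hd : 0 < 1 + x * u := by positivity
    rw [← mul_div_assoc, le_div_iff₀ hd]
    nlinarith [mul_le_mul_of_nonneg_left hK hx0.le, mul_le_mul_of_nonneg_left hE hx0.le]
  have hpos1 : 0 ≤ (x : ℝ) / (1 + x * v) := by positivity
  have hpos2 : 0 ≤ (x : ℝ) / (1 + x * (1 - v)) := by
    have : 0 ≤ 1 - v := by linarith
    positivity
  unfold M07_B
  rcases le_total v (1 / 2) with h | h
  · have h3 : v ≤ |Real.sin (π * v)| := by
      have h4 := Real.mul_le_sin (x := π * v) (by positivity) (by nlinarith [Real.pi_pos])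
      have h5 : 2 / π * (π * v) = 2 * v := by field_simp
      rw [h5] at h4
      exact (by linarith : v ≤ 2 * v).trans (h4.trans (le_abs_self _))
    have h6 := key v h0 ((mul_le_mul_of_nonneg_right h3 hn).trans hK2)
    nlinarith
  · have h3 : 1 - v ≤ |Real.sin (π * v)| := by
      have h4 := Real.mul_le_sin (x := π * (1 - v)) (by nlinarith [Real.pi_pos]) (by nlinarith [Real.pi_pos])
      have h5 : 2 / π * (π * (1 - v)) = 2 * (1 - v) := by field_simp
      have h6 : Real.sin (π * (1 - v)) = Real.sin (π * v) := by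
        rw [mul_sub, mul_one, Real.sin_pi_sub]
      rw [h5, h6] at h4
      exact (by linarith : 1 - v ≤ 2 * (1 - v)).trans (h4.trans (le_abs_self _))
    have h6 := key (1 - v) (by linarith) ((mul_le_mul_of_nonneg_right h3 hn).trans hK2)
    nlinarith

theorem M07_int {x : ℕ} (hx : 1 ≤ x) :
    IntervalIntegrable (M07_B x) volume 0 1 ∧ ∫ v in (0:ℝ)..1, M07_B x v = 2 * Real.log (1 + x) := by
  have hx0 : (0 : ℝ) < x := by exact_mod_cast hx
  have hc : ContinuousOn (M07_B x) (Set.uIcc (0:ℝ) 1) := by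
    rw [Set.uIcc_of_le zero_le_one]
    unfold M07_B
    refine ContinuousOn.add ?_ ?_
    · refine ContinuousOn.div continuousOn_const (by fun_prop) fun v hv => ?_
      have := hv.1
      positivity
    · refine ContinuousOn.div continuousOn_const (by fun_prop) fun v hv => ?_
      have : 0 ≤ 1 - v := by linarith [hv.2]
      positivity
  refine ⟨hc.intervalIntegrable, ?_⟩
  have hd : ∀ v ∈ Set.uIcc (0:ℝ) 1, HasDerivAt (fun v : ℝ => Real.log (1 + x * v) - Real.log (1 + x * (1 - v)))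
      (M07_B x v) v := by
    intro v hv
    rw [Set.uIcc_of_le zero_le_one] at hv
    have p1 : (1 + (x : ℝ) * v) ≠ 0 := by
      have := hv.1
      positivity
    have p2 : (1 + (x : ℝ) * (1 - v)) ≠ 0 := by
      have : 0 ≤ 1 - v := by linarith [hv.2]
      positivity
    have d1 : HasDerivAt (fun v : ℝ => 1 + (x : ℝ) * v) x v := by
      simpa using ((hasDerivAt_id v).const_mul (x : ℝ)).const_add 1
    have d2 : HasDerivAt (fun v : ℝ => 1 + (x : ℝ) * (1 - v)) (-x) v := by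
      simpa using ((((hasDerivAt_id v).const_sub 1)).const_mul (x : ℝ)).const_add 1
    have d3 := (d1.log p1).sub (d2.log p2)
    refine d3.congr_deriv ?_
    unfold M07_B
    ring
  rw [intervalIntegral.integral_eq_sub_of_hasDerivAt hd hc.intervalIntegrable]
  simp
  ring

theorem M07_coef (k : ℤ) : ∫ v in (0:ℝ)..1, exp (2 * π * I * k * v) = if k = 0 then 1 else 0 := by
  by_cases hk : k = 0
  · simp [hk]
  · rw [if_neg hk]
    have hc : (2 * π * I * k : ℂ) ≠ 0 := by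
      have h1 : (π : ℂ) ≠ 0 := by exact_mod_cast Real.pi_ne_zero
      have h2 : (k : ℂ) ≠ 0 := by exact_mod_cast hk
      simp [h1, h2, I_ne_zero]
    rw [integral_exp_mul_complex hc]
    have h3 : exp (2 * π * I * k * ((1 : ℝ) : ℂ)) = 1 := by
      rw [Complex.ofReal_one, mul_one, mul_comm]
      exact Complex.exp_int_mul_two_pi_mul_I k
    rw [h3]
    simp


/-- the generating function at height 1/x -/
noncomputable def M07_f (a : ℕ → ℂ) (α : ℝ) (x : ℕ) (v : ℝ) : ℂ :=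
  ∑' n : ℕ, a (n + 1) * exp (2 * π * ((n : ℂ) + 1) * (((α + v : ℝ) : ℂ) + ((1 / (x : ℝ) : ℝ) : ℂ) * I) * I)

theorem M07_tn (α : ℝ) (x : ℕ) (v : ℝ) (n : ℕ) :
    ‖exp (2 * π * ((n : ℂ) + 1) * (((α + v : ℝ) : ℂ) + ((1 / (x : ℝ) : ℝ) : ℂ) * I) * I)‖ =
      Real.exp (-(2 * π / x * (n + 1))) := by
  rw [Complex.norm_exp]
  congr 1
  have e1 : 2 * π * ((n : ℂ) + 1) * (((α + v : ℝ) : ℂ) + ((1 / (x : ℝ) : ℝ) : ℂ) * I) * I =
      ((-(2 * π / x * (n + 1)) : ℝ) : ℂ) + ((2 * π * (n + 1) * (α + v) : ℝ) : ℂ) * I := by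
    have h2 : I * I = -1 := Complex.I_mul_I
    push_cast
    linear_combination (2 * π * ((n : ℂ) + 1) * (1 / (x : ℂ))) * h2
  rw [e1]
  simp

theorem M07_sum {x : ℕ} (hx : 1 ≤ x) :
    Summable (fun n : ℕ => ((n : ℝ) + 1) * Real.exp (-(2 * π / x * (n + 1))) * (x * Real.exp (2 * π))) := by
  have hx0 : (0 : ℝ) < x := by exact_mod_cast hx
  refine Summable.mul_right _ ?_
  have h1 := (summable_nat_add_iff 1).2 (Real.summable_pow_mul_exp_neg_nat_mul 1 (r := 2 * π / x) (by positivity))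
  refine h1.congr fun n => ?_
  push_cast
  rw [pow_one]
  congr 2
  ring

theorem M07_rep {N : ℕ} {a : ℕ → ℂ} {L : ℂ → ℂ} (D : Dat N a L) (α : ℝ) {x : ℕ} (hx : 1 ≤ x) :
    ∫ v in (0:ℝ)..1, M07_f a α x v * M07_K x v = ∑ n ∈ Finset.Icc 1 x, a n * exp (2 * π * n * α * I) := by
  have hx0 : (0 : ℝ) < x := by exact_mod_cast hx
  have hxc : (x : ℂ) ≠ 0 := by exact_mod_cast hx0.ne'
  have hbd : ∀ n : ℕ, ‖a (n + 1)‖ ≤ (n : ℝ) + 1 := by
    intro n
    refine (D.bd (n + 1) (by omega)).trans ?_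
    have := Nat.card_divisors_le_self (n + 1)
    exact_mod_cast this
  obtain ⟨F, hF⟩ : ∃ F : ℕ → ℝ → ℂ, F = fun n v => a (n + 1) *
    exp (2 * π * ((n : ℂ) + 1) * (((α + v : ℝ) : ℂ) + ((1 / (x : ℝ) : ℝ) : ℂ) * I) * I) * M07_K x v := ⟨_, rfl⟩
  have hKc : Continuous (M07_K x) := by
    unfold M07_K
    fun_prop
  have hFc : ∀ n, Continuous (F n) := by
    intro n
    rw [hF]
    have h1 : Continuous fun v : ℝ => a (n + 1) *
      exp (2 * π * ((n : ℂ) + 1) * (((α + v : ℝ) : ℂ) + ((1 / (x : ℝ) : ℝ) : ℂ) * I) * I) := by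
      fun_prop
    exact h1.mul hKc
  have hFn : ∀ n v, ‖F n v‖ ≤ ((n : ℝ) + 1) * Real.exp (-(2 * π / x * (n + 1))) * (x * Real.exp (2 * π)) := by
    intro n v
    rw [hF]
    simp only
    rw [norm_mul, norm_mul, M07_tn]
    refine mul_le_mul ?_ (M07_K1 hx v) (norm_nonneg _) (by positivity)
    exact mul_le_mul_of_nonneg_right (hbd n) (Real.exp_pos _).le
  have hsum := M07_sum hx
  have hH := intervalIntegral.hasSum_integral_of_dominated_convergence (μ := volume) (a := 0) (b := 1) (F := F)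
    (f := fun v => M07_f a α x v * M07_K x v)
    (fun n _ => ((n : ℝ) + 1) * Real.exp (-(2 * π / x * (n + 1))) * (x * Real.exp (2 * π)))
    (fun n => (hFc n).aestronglyMeasurable) (fun n => Eventually.of_forall fun v _ => hFn n v)
    (Eventually.of_forall fun v _ => hsum) (by simp) (Eventually.of_forall fun v _ => by
      rw [hF]
      unfold M07_f
      have h2 : Summable (fun n : ℕ => a (n + 1) *
        exp (2 * π * ((n : ℂ) + 1) * (((α + v : ℝ) : ℂ) + ((1 / (x : ℝ) : ℝ) : ℂ) * I) * I)) := by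
        have h3 : Summable (fun n : ℕ => ((n : ℝ) + 1) * Real.exp (-(2 * π / x * (n + 1)))) := by
          have hne : (x * Real.exp (2 * π) : ℝ) ≠ 0 := by positivity
          exact (summable_mul_right_iff hne).1 hsum
        refine Summable.of_norm_bounded h3 fun n => ?_
        rw [norm_mul, M07_tn]
        exact mul_le_mul_of_nonneg_right (hbd n) (Real.exp_pos _).le
      exact h2.hasSum.mul_right _)
  have hterm : ∀ n : ℕ, ∫ v in (0:ℝ)..1, F n v = if n ∈ Finset.range x then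
      a (n + 1) * exp (2 * π * ((n + 1 : ℕ) : ℂ) * α * I) else 0 := by
    intro n
    have e1 : ∀ v : ℝ, F n v = ∑ m ∈ Finset.Icc 1 x, (a (n + 1) * exp (2 * π * ((n + 1 : ℕ) : ℂ) * α * I) *
        exp (2 * π * ((m : ℂ) - (n + 1)) / x)) * exp (2 * π * I * (((n : ℤ) + 1 - m : ℤ) : ℂ) * v) := by
      intro v
      rw [hF]
      unfold M07_K
      simp only
      rw [Finset.mul_sum]
      refine Finset.sum_congr rfl fun m _ => ?_
      rw [← Complex.exp_nat_mul, mul_assoc (a (n + 1)), mul_assoc (a (n + 1)), mul_assoc (a (n + 1)),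
        ← Complex.exp_add, ← Complex.exp_add, ← Complex.exp_add]
      congr 2
      have h2 : I * I = -1 := Complex.I_mul_I
      push_cast
      field_simp
      ring_nf
      linear_combination ((n : ℂ) + 1) * h2
    simp only [e1]
    rw [intervalIntegral.integral_finsetSum]
    · simp only [intervalIntegral.integral_const_mul, M07_coef]
      by_cases hn : n ∈ Finset.range x
      · rw [if_pos hn, Finset.sum_eq_single (n + 1)]
        · have e2 : ((n : ℤ) + 1 - ((n + 1 : ℕ) : ℤ)) = 0 := by push_cast; ring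
          rw [if_pos e2]
          push_cast
          simp
        · intro m _ hm
          rw [if_neg, mul_zero]
          intro h
          apply hm
          omega
        · intro h
          exfalso
          apply h
          rw [Finset.mem_range] at hn
          rw [Finset.mem_Icc]
          omega
      · rw [if_neg hn]
        refine Finset.sum_eq_zero fun m hm => ?_
        rw [if_neg, mul_zero]
        intro h
        apply hn
        rw [Finset.mem_Icc] at hm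
        rw [Finset.mem_range]
        omega
    · intro m _
      refine Continuous.intervalIntegrable ?_ _ _
      fun_prop
  simp only [hterm] at hH
  have hH2 : HasSum (fun n : ℕ => if n ∈ Finset.range x then
      a (n + 1) * exp (2 * π * ((n + 1 : ℕ) : ℂ) * α * I) else 0)
      (∑ n ∈ Finset.range x, if n ∈ Finset.range x then
      a (n + 1) * exp (2 * π * ((n + 1 : ℕ) : ℂ) * α * I) else 0) :=
    hasSum_sum_of_ne_finset_zero fun n hn => if_neg hn
  rw [hH.unique hH2, Finset.sum_congr rfl (fun n hn => if_pos hn), Finset.range_eq_Ico,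
    Finset.sum_Ico_add' (fun n : ℕ => a n * exp (2 * π * (n : ℂ) * α * I)) 0 x 1]
  rfl


/-- exponential sums -/
theorem M07_exp {N : ℕ} {a : ℕ → ℂ} {L : ℂ → ℂ} (D : Dat N a L) : ∃ C : ℝ, 0 ≤ C ∧ ∀ (α : ℝ) (x : ℕ), 1 ≤ x →
    ‖∑ n ∈ Finset.Icc 1 x, a n * exp (2 * π * n * α * I)‖ ≤ C * (√x * (1 + Real.log x)) := by
  obtain ⟨C, hC, hpt⟩ := D.pt
  refine ⟨C * (2 * Real.exp (4 * π)) * 2, by positivity, fun α x hx => ?_⟩
  have hx0 : (0 : ℝ) < x := by exact_mod_cast hx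
  have hx1 : (1 : ℝ) ≤ x := by exact_mod_cast hx
  rw [← M07_rep D α hx]
  obtain ⟨hI, hE⟩ := M07_int hx
  have hb : ∀ v : ℝ, v ∈ Set.Ioc (0:ℝ) 1 → ‖M07_f a α x v * M07_K x v‖ ≤
      C * √x * (2 * Real.exp (4 * π)) * M07_B x v := by
    intro v hv
    rw [norm_mul]
    have h1 : ‖M07_f a α x v‖ ≤ C * √x := by
      unfold M07_f
      refine (hpt (α + v) (1 / x) (by positivity)).trans (le_of_eq ?_)
      rw [Real.sqrt_div zero_le_one, Real.sqrt_one]
      field_simp
    have h2 := M07_KB hx hv.1.le hv.2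
    calc ‖M07_f a α x v‖ * ‖M07_K x v‖ ≤ (C * √x) * (2 * Real.exp (4 * π) * M07_B x v) :=
          mul_le_mul h1 h2 (norm_nonneg _) (by positivity)
      _ = _ := by ring
  refine (intervalIntegral.norm_integral_le_of_norm_le zero_le_one (Eventually.of_forall hb)
    (hI.const_mul _)).trans ?_
  rw [intervalIntegral.integral_const_mul, hE]
  have h3 : Real.log (1 + x) ≤ 1 + Real.log x := by
    have h4 : Real.log (1 + x) ≤ Real.log (2 * x) := Real.log_le_log (by positivity) (by linarith)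
    rw [Real.log_mul two_ne_zero hx0.ne'] at h4
    have h5 : Real.log 2 ≤ 1 := by
      have := Real.log_two_lt_d9
      linarith
    linarith
  have h6 : 0 ≤ C * √x * (2 * Real.exp (4 * π)) * 2 := by positivity
  calc C * √x * (2 * Real.exp (4 * π)) * (2 * Real.log (1 + x))
      = C * √x * (2 * Real.exp (4 * π)) * 2 * Real.log (1 + x) := by ring
    _ ≤ C * √x * (2 * Real.exp (4 * π)) * 2 * (1 + Real.log x) := mul_le_mul_of_nonneg_left h3 h6
    _ = _ := by ring

/-- periodic functions are combinations of exponentials -/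
theorem M07_dft {M : ℕ} (hM : 0 < M) (w : ℕ → ℂ) (hw : ∀ n : ℕ, w (n + M) = w n) :
    ∃ c : ℕ → ℂ, ∀ n : ℕ, w n = ∑ j ∈ Finset.range M, c j * exp (2 * π * n * ((j / M : ℝ) : ℂ) * I) := by
  have hMc : (M : ℂ) ≠ 0 := by exact_mod_cast hM.ne'
  obtain ⟨ζ, hζ⟩ : ∃ ζ : ℂ, ζ = exp (2 * π * I / M) := ⟨_, rfl⟩
  have hprim : IsPrimitiveRoot ζ M := by
    rw [hζ]
    exact Complex.isPrimitiveRoot_exp M hM.ne'
  have hζ0 : ζ ≠ 0 := by
    rw [hζ]
    exact Complex.exp_ne_zero _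
  have hexp : ∀ n j : ℕ, exp (2 * π * n * ((j / M : ℝ) : ℂ) * I) = (ζ ^ n) ^ j := by
    intro n j
    rw [hζ, ← Complex.exp_nat_mul, ← Complex.exp_nat_mul]
    congr 1
    push_cast
    ring
  refine ⟨fun j => (M : ℂ)⁻¹ * ∑ r ∈ Finset.range M, w r * ((ζ ^ r)⁻¹) ^ j, fun n => ?_⟩
  simp only [hexp]
  have hper : w n = w (n % M) := (Function.Periodic.map_mod_nat hw n).symm
  have hpow : ζ ^ n = ζ ^ (n % M) := by
    conv_lhs => rw [← Nat.mod_add_div n M]
    rw [pow_add, pow_mul, hprim.pow_eq_one, one_pow, mul_one]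
  have hgeom : ∀ r ∈ Finset.range M, ∑ j ∈ Finset.range M, ((ζ ^ r)⁻¹ * ζ ^ n) ^ j =
      if r = n % M then (M : ℂ) else 0 := by
    intro r hr
    rw [Finset.mem_range] at hr
    have hmod : n % M < M := Nat.mod_lt _ hM
    by_cases h : r = n % M
    · rw [if_pos h, hpow, h, inv_mul_cancel₀ (pow_ne_zero _ hζ0)]
      simp
    · rw [if_neg h]
      have hne : (ζ ^ r)⁻¹ * ζ ^ n ≠ 1 := by
        intro h2
        apply h
        have h3 : ζ ^ n = ζ ^ r := by
          field_simp at h2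
          exact h2
        rw [hpow] at h3
        exact (hprim.pow_inj hmod hr h3).symm
      have h4 := mul_geom_sum ((ζ ^ r)⁻¹ * ζ ^ n) M
      have h5 : ((ζ ^ r)⁻¹ * ζ ^ n) ^ M = 1 := by
        rw [mul_pow, inv_pow, ← pow_mul, ← pow_mul, mul_comm r, mul_comm n, pow_mul, pow_mul, hprim.pow_eq_one]
        simp
      rw [h5, sub_self] at h4
      rcases mul_eq_zero.1 h4 with h6 | h6
      · exact absurd (sub_eq_zero.1 h6) hne
      · exact h6
  have hswap : ∑ j ∈ Finset.range M, (M : ℂ)⁻¹ * (∑ r ∈ Finset.range M, w r * ((ζ ^ r)⁻¹) ^ j) * (ζ ^ n) ^ j =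
      (M : ℂ)⁻¹ * ∑ r ∈ Finset.range M, w r * ∑ j ∈ Finset.range M, ((ζ ^ r)⁻¹ * ζ ^ n) ^ j := by
    rw [Finset.mul_sum]
    simp only [Finset.mul_sum, Finset.sum_mul]
    rw [Finset.sum_comm]
    refine Finset.sum_congr rfl fun r _ => Finset.sum_congr rfl fun j _ => ?_
    rw [mul_pow]
    ring
  rw [hswap, Finset.sum_congr rfl fun r hr => by rw [hgeom r hr]]
  simp only [mul_ite, mul_zero]
  rw [Finset.sum_ite_eq' (Finset.range M) (n % M), if_pos (Finset.mem_range.2 (Nat.mod_lt _ hM)), hper]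
  field_simp

/-- Row M07. Sums with periodic twists, from the pointwise bound. -/
theorem twist_sum {N : ℕ} {a : ℕ → ℂ} {L : ℂ → ℂ} (D : Dat N a L) {M : ℕ} (hM : 0 < M) (w : ℕ → ℂ)
    (hw : ∀ n : ℕ, w (n + M) = w n) : ∃ C : ℝ, 0 ≤ C ∧ ∀ x : ℕ, 1 ≤ x →
    ‖∑ n ∈ Finset.Icc 1 x, a n * w n‖ ≤ C * (√x * (1 + Real.log x)) := by
  obtain ⟨C, hC, hexp⟩ := M07_exp D
  obtain ⟨c, hc⟩ := M07_dft hM w hw
  refine ⟨(∑ j ∈ Finset.range M, ‖c j‖) * C, mul_nonneg (Finset.sum_nonneg fun _ _ => norm_nonneg _) hC,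
    fun x hx => ?_⟩
  have h1 : ∑ n ∈ Finset.Icc 1 x, a n * w n = ∑ j ∈ Finset.range M, c j *
      ∑ n ∈ Finset.Icc 1 x, a n * exp (2 * π * n * ((j / M : ℝ) : ℂ) * I) := by
    simp only [Finset.mul_sum]
    rw [Finset.sum_comm]
    refine Finset.sum_congr rfl fun n _ => ?_
    rw [hc n, Finset.mul_sum]
    refine Finset.sum_congr rfl fun j _ => ?_
    ring
  rw [h1, mul_assoc, Finset.sum_mul]
  refine (norm_sum_le _ _).trans (Finset.sum_le_sum fun j _ => ?_)
  rw [norm_mul]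
  exact mul_le_mul_of_nonneg_left (hexp (j / M) x hx) (norm_nonneg _)

end NH
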