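import Pool.Agent.Lib.MP_0f5a55_nt.TT.T23
import Pool.Agent.Lib.MP_0f5a55_nt.TT.T22
import Pool.Agent.Lib.MP_0f5a55_nt.NH.D

open Complex MeasureTheory Set Filter Topology
open scoped Real ComplexConjugate

namespace NH

/-- coefficients of the test factor at one prime, with parameter w -/
noncomputable def N14_cf (w : ℂ) (e : Fin 5) : ℂ := ![0, -conj w, 1, w, 0] e

/-- the parameter at p -/
noncomputable def N14_w (a : ℕ → ℂ) (p : ℕ) : ℂ := conj (a p) / ((4 * ‖a p‖ * √p : ℝ) : ℂ)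

theorem N14_norm {w : ℂ} {x : ℝ} (hw : ‖w‖ ^ 2 ≤ x / 2) {p : ℕ} (hp : 0 < p) (t : ℝ) :
    ‖∑ e : Fin 5, N14_cf w e * ((TT.T23_fr p e : ℝ) : ℂ) ^ (t * I)‖ ≤ 1 + x := by
  set th : ℝ := t * Real.log p with hth
  have hfr : ∀ e : Fin 5, ((TT.T23_fr p e : ℝ) : ℂ) ^ (t * I) = exp ((((e : ℕ) : ℝ) - 2 : ℝ) * (th : ℂ) * I) := by
    intro e
    have h0 := TT.T23_fr_pos hp e
    rw [Complex.cpow_def_of_ne_zero (by exact_mod_cast h0.ne'), ← Complex.ofReal_log h0.le]
    unfold TT.T23_fr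
    rw [Real.log_zpow, hth]
    congr 1
    push_cast
    ring
  set u : ℂ := exp ((th : ℂ) * I) with hu
  have hu1 : ‖u‖ = 1 := by rw [hu, Complex.norm_exp_ofReal_mul_I]
  have hcu : conj u = exp (-((th : ℂ) * I)) := by
    rw [hu, ← Complex.exp_conj, map_mul, Complex.conj_ofReal, Complex.conj_I, mul_neg]
  have hval : ∑ e : Fin 5, N14_cf w e * ((TT.T23_fr p e : ℝ) : ℂ) ^ (t * I) = 1 + (w * u - conj (w * u)) := by
    simp only [hfr, Fin.sum_univ_five, N14_cf, Matrix.cons_val]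
    have e1 : exp ((((((1 : Fin 5) : ℕ) : ℝ) - 2 : ℝ) : ℂ) * (th : ℂ) * I) = conj u := by
      rw [hcu]
      congr 1
      push_cast
      norm_num
    have e2 : exp ((((((2 : Fin 5) : ℕ) : ℝ) - 2 : ℝ) : ℂ) * (th : ℂ) * I) = 1 := by
      rw [show ((((((2 : Fin 5) : ℕ) : ℝ) - 2 : ℝ) : ℂ) * (th : ℂ) * I) = 0 by
        push_cast; norm_num, exp_zero]
    have e3 : exp ((((((3 : Fin 5) : ℕ) : ℝ) - 2 : ℝ) : ℂ) * (th : ℂ) * I) = u := by
      rw [hu]
      congr 1
      push_cast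
      norm_num
    rw [e1, e2, e3, map_mul]
    ring
  rw [hval]
  have hsub : w * u - conj (w * u) = ((2 * (w * u).im : ℝ) : ℂ) * I := by
    rw [Complex.sub_conj]
  rw [hsub]
  have hn : ‖(1 : ℂ) + ((2 * (w * u).im : ℝ) : ℂ) * I‖ ^ 2 = 1 + (2 * (w * u).im) ^ 2 := by
    rw [← Complex.normSq_eq_norm_sq]
    have := Complex.normSq_add_mul_I 1 (2 * (w * u).im)
    rw [Complex.ofReal_one] at this
    rw [this]
    ring
  have him : (w * u).im ^ 2 ≤ x / 2 := by
    have h1 := Complex.abs_im_le_norm (w * u)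
    rw [norm_mul, hu1, mul_one] at h1
    have h2 : (w * u).im ^ 2 ≤ ‖w‖ ^ 2 := by
      rw [← sq_abs]
      exact pow_le_pow_left₀ (abs_nonneg _) h1 2
    exact h2.trans hw
  have hx : 0 ≤ x := by nlinarith [sq_nonneg ‖w‖]
  set N := ‖(1 : ℂ) + ((2 * (w * u).im : ℝ) : ℂ) * I‖ with hN
  have hN0 : 0 ≤ N := norm_nonneg _
  have h3 : N ^ 2 ≤ (1 + x) ^ 2 := by
    rw [hn]
    nlinarith
  exact le_of_sq_le_sq h3 (by linarith)

theorem N14_mean {a : ℕ → ℂ} (h1 : a 1 = 1) {p : ℕ} (hpp : p.Prime) (hap : 1 ≤ ‖a p‖) :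
    ∑ e : Fin 5, N14_cf (N14_w a p) e * TT.al a (TT.T23_fr p e) = ((1 + ‖a p‖ / (4 * p) : ℝ) : ℂ) := by
  have hpR : (0 : ℝ) < p := by exact_mod_cast hpp.pos
  have r1 : TT.T23_fr p 1 = ((1 : ℕ) : ℝ) / (p : ℝ) := by
    unfold TT.T23_fr
    rw [show ((((1 : Fin 5) : ℕ) : ℤ) - 2 : ℤ) = -((1 : ℕ) : ℤ) by norm_num, zpow_neg, zpow_natCast, pow_one]
    push_cast
    rw [one_div]
  have r2 : TT.T23_fr p 2 = ((1 : ℕ) : ℝ) / ((1 : ℕ) : ℝ) := by
    unfold TT.T23_fr
    rw [show ((((2 : Fin 5) : ℕ) : ℤ) - 2 : ℤ) = 0 by norm_num, zpow_zero]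
    simp
  have r3 : TT.T23_fr p 3 = (p : ℝ) / ((1 : ℕ) : ℝ) := by
    unfold TT.T23_fr
    rw [show ((((3 : Fin 5) : ℕ) : ℤ) - 2 : ℤ) = ((1 : ℕ) : ℤ) by norm_num, zpow_natCast, pow_one]
    simp
  have a1 : TT.al a (TT.T23_fr p 1) = 0 := by
    rw [r1, TT.T23_ratio one_pos hpp.pos (Nat.coprime_one_left _), if_neg hpp.one_lt.ne']
  have a2 : TT.al a (TT.T23_fr p 2) = 1 := by
    rw [r2, TT.T23_ratio one_pos one_pos (Nat.coprime_one_left _), if_pos rfl, h1]
    simp
  have a3 : TT.al a (TT.T23_fr p 3) = a p * ((√(p : ℝ) : ℝ) : ℂ)⁻¹ := by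
    rw [r3, TT.T23_ratio hpp.pos one_pos (Nat.coprime_one_right _), if_pos rfl]
  rw [Fin.sum_univ_five, a1, a2, a3]
  simp only [N14_cf, N14_w, Matrix.cons_val]
  have hna : (0 : ℝ) < ‖a p‖ := by linarith
  have hs : (0 : ℝ) < √(p : ℝ) := Real.sqrt_pos.2 hpR
  have hcc : conj (a p) * a p = ((‖a p‖ ^ 2 : ℝ) : ℂ) := by
    rw [mul_comm, Complex.mul_conj, Complex.normSq_eq_norm_sq]
  have e4 : conj (a p) / ((4 * ‖a p‖ * √(p : ℝ) : ℝ) : ℂ) * (a p * ((√(p : ℝ) : ℝ) : ℂ)⁻¹) =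
      ((‖a p‖ / (4 * p) : ℝ) : ℂ) := by
    have : conj (a p) / ((4 * ‖a p‖ * √(p : ℝ) : ℝ) : ℂ) * (a p * ((√(p : ℝ) : ℝ) : ℂ)⁻¹) =
        (conj (a p) * a p) / (((4 * ‖a p‖ * √(p : ℝ) : ℝ) : ℂ) * ((√(p : ℝ) : ℝ) : ℂ)) := by
      rw [div_mul_eq_mul_div, ← mul_assoc, ← div_eq_mul_inv, div_div, mul_comm (((√(p : ℝ) : ℝ) : ℂ))]
    rw [this, hcc, ← ofReal_mul, ← ofReal_div]
    congr 1
    have hsq : √(p : ℝ) * √(p : ℝ) = p := Real.mul_self_sqrt hpR.le
    rw [mul_assoc (4 * ‖a p‖), hsq]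
    field_simp
  rw [e4]
  push_cast
  ring

/-- Row N14. Bounded test polynomials with large mean, from a set P of primes with divergent sum of 1/p on which
the coefficient is at least 1 in absolute value. -/
theorem test_poly {a : ℕ → ℂ} (h1 : a 1 = 1)
    (hm : ∀ m n : ℕ, 0 < m → 0 < n → Nat.Coprime m n → a (m * n) = a m * a n) {P : ℕ → Prop} [DecidablePred P]
    (hP : ∀ p, P p → p.Prime ∧ 1 ≤ ‖a p‖) (hd : ¬ Summable (fun n : ℕ => if P n then ((n : ℝ))⁻¹ else 0)) :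
    ∀ A : ℝ, ∃ (s : Finset ℕ) (c : ℕ → ℂ) (lam : ℕ → ℝ), (∀ i, 0 < lam i) ∧
      (∀ t : ℝ, ‖∑ i ∈ s, c i * (lam i : ℂ) ^ (t * I)‖ ≤ 1) ∧
      A ≤ ‖∑ i ∈ s, c i * TT.al a (lam i)‖ := by
  classical
  intro A
  obtain ⟨N, hN⟩ : ∃ N : ℕ, 16 * A ≤ ∑ n ∈ Finset.range N, (if P n then ((n : ℝ))⁻¹ else 0) := by
    have h0 : ∀ n : ℕ, 0 ≤ (if P n then ((n : ℝ))⁻¹ else 0) := fun n => by
      split_ifs
      · positivity
      · exact le_refl _
    have := (not_summable_iff_tendsto_nat_atTop_of_nonneg h0).1 hd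
    exact (this.eventually_ge_atTop (16 * A)).exists
  set S : Finset ℕ := (Finset.range N).filter P with hS
  have hSp : ∀ i : S, (i : ℕ).Prime := fun i => (hP _ (Finset.mem_filter.1 i.2).2).1
  have hSa : ∀ i : S, 1 ≤ ‖a (i : ℕ)‖ := fun i => (hP _ (Finset.mem_filter.1 i.2).2).2
  have hSR : ∀ i : S, (0 : ℝ) < ((i : ℕ) : ℝ) := fun i => by exact_mod_cast (hSp i).pos
  rw [← Finset.sum_filter] at hN
  let d : ℕ → ℝ := fun p => 1 + 1 / (8 * (p : ℝ))
  have hdpos : ∀ i : S, 0 < d i := fun i => by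
    have := hSR i
    show 0 < 1 + 1 / (8 * ((i : ℕ) : ℝ))
    positivity
  let cf : ℕ → Fin 5 → ℂ := fun p e => ((d p : ℝ) : ℂ)⁻¹ * N14_cf (N14_w a p) e
  let c : (S → Fin 5) → ℂ := fun e => ∏ i : S, cf i (e i)
  let lam : (S → Fin 5) → ℝ := fun e => ∏ i : S, TT.T23_fr i (e i)
  have hlam : ∀ e, 0 < lam e := fun e => Finset.prod_pos (fun i _ => TT.T23_fr_pos (hSp i).pos _)
  obtain ⟨s, c', lam', hl', hconv⟩ := TT.T23_conv c lam hlam
  refine ⟨s, c', lam', hl', fun t => ?_, ?_⟩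
  · rw [hconv (fun x => ((x : ℝ) : ℂ) ^ (t * I))]
    have e1 : ∑ e : S → Fin 5, c e * ((lam e : ℝ) : ℂ) ^ (t * I) =
        ∏ i : S, ∑ j : Fin 5, cf i j * ((TT.T23_fr i j : ℝ) : ℂ) ^ (t * I) := by
      rw [Finset.prod_univ_sum, Fintype.piFinset_univ]
      refine Finset.sum_congr rfl (fun e _ => ?_)
      simp only [c, lam]
      rw [TT.T23_cpow_prod _ _ (fun i => TT.T23_fr_pos (hSp i).pos _), ← Finset.prod_mul_distrib]
    rw [e1, norm_prod]
    refine Finset.prod_le_one (fun i _ => norm_nonneg _) (fun i _ => ?_)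
    have e2 : ∑ j : Fin 5, cf i j * ((TT.T23_fr i j : ℝ) : ℂ) ^ (t * I) =
        ((d i : ℝ) : ℂ)⁻¹ * ∑ j : Fin 5, N14_cf (N14_w a i) j * ((TT.T23_fr i j : ℝ) : ℂ) ^ (t * I) := by
      rw [Finset.mul_sum]
      exact Finset.sum_congr rfl fun j _ => by simp only [cf]; ring
    have hw : ‖N14_w a i‖ ^ 2 ≤ (1 / (8 * ((i : ℕ) : ℝ))) / 2 := by
      have hna : (0 : ℝ) < ‖a (i : ℕ)‖ := by have := hSa i; linarith
      have hs : (0 : ℝ) < √(((i : ℕ) : ℝ)) := Real.sqrt_pos.2 (hSR i)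
      unfold N14_w
      rw [norm_div, RCLike.norm_conj, Complex.norm_real, Real.norm_of_nonneg (by positivity), div_pow, mul_pow,
        mul_pow, Real.sq_sqrt (hSR i).le]
      apply le_of_eq
      field_simp
      norm_num
    have h3 := N14_norm hw (hSp i).pos t
    rw [e2, norm_mul, norm_inv, Complex.norm_real, Real.norm_of_nonneg (hdpos i).le]
    rw [inv_mul_le_iff₀ (hdpos i), mul_one]
    exact h3
  · rw [hconv (TT.al a)]
    have e1 : ∑ e : S → Fin 5, c e * TT.al a (lam e) =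
        ∏ i : S, ∑ j : Fin 5, cf i j * TT.al a (TT.T23_fr i j) := by
      rw [Finset.prod_univ_sum, Fintype.piFinset_univ]
      refine Finset.sum_congr rfl (fun e _ => ?_)
      simp only [c, lam]
      rw [(TT.T23_prod h1 hm (fun i : S => (i : ℕ)) Subtype.val_injective hSp e Finset.univ).2,
        ← Finset.prod_mul_distrib]
    rw [e1, norm_prod]
    have e2 : ∀ i : S, 1 + (((i : ℕ) : ℝ))⁻¹ / 16 ≤ ‖∑ j : Fin 5, cf i j * TT.al a (TT.T23_fr i j)‖ := by
      intro i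
      have e3 : ∑ j : Fin 5, cf i j * TT.al a (TT.T23_fr i j) =
          ((d i : ℝ) : ℂ)⁻¹ * ∑ j : Fin 5, N14_cf (N14_w a i) j * TT.al a (TT.T23_fr i j) := by
        rw [Finset.mul_sum]
        exact Finset.sum_congr rfl fun j _ => by simp only [cf]; ring
      have hR := hSR i
      rw [e3, N14_mean h1 (hSp i) (hSa i), norm_mul, norm_inv, Complex.norm_real, Complex.norm_real,
        Real.norm_of_nonneg (hdpos i).le, Real.norm_of_nonneg (by positivity), ← div_eq_inv_mul,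
        le_div_iff₀ (hdpos i)]
      show (1 + (((i : ℕ) : ℝ))⁻¹ / 16) * (1 + 1 / (8 * ((i : ℕ) : ℝ))) ≤ 1 + ‖a (i : ℕ)‖ / (4 * ((i : ℕ) : ℝ))
      have hinv1 : (((i : ℕ) : ℝ))⁻¹ ≤ 1 := by
        have : (1 : ℝ) ≤ ((i : ℕ) : ℝ) := by exact_mod_cast (hSp i).one_le
        exact inv_le_one_of_one_le₀ this
      have hinv0 : 0 < (((i : ℕ) : ℝ))⁻¹ := by positivity
      have h4 : 1 / (8 * ((i : ℕ) : ℝ)) = (((i : ℕ) : ℝ))⁻¹ / 8 := by field_simp
      have h5 : (((i : ℕ) : ℝ))⁻¹ / 4 ≤ ‖a (i : ℕ)‖ / (4 * ((i : ℕ) : ℝ)) := by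
        rw [show ‖a (i : ℕ)‖ / (4 * ((i : ℕ) : ℝ)) = ‖a (i : ℕ)‖ * ((((i : ℕ) : ℝ))⁻¹ / 4) by field_simp]
        exact le_mul_of_one_le_left (by positivity) (hSa i)
      rw [h4]
      nlinarith
    have hge : ∀ T : Finset S, 1 + ∑ i ∈ T, (((i : ℕ) : ℝ))⁻¹ / 16 ≤
        ∏ i ∈ T, (1 + (((i : ℕ) : ℝ))⁻¹ / 16) := by
      intro T
      induction T using Finset.induction_on with
      | empty => simp
      | insert i T hi ih =>
        rw [Finset.sum_insert hi, Finset.prod_insert hi]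
        have x2 : 0 ≤ ∑ i ∈ T, (((i : ℕ) : ℝ))⁻¹ / 16 := Finset.sum_nonneg (fun j _ => by positivity)
        have x3 : 0 ≤ (((i : ℕ) : ℝ))⁻¹ / 16 := by positivity
        nlinarith [mul_nonneg x3 x2]
    have hfin := hge Finset.univ
    rw [← Finset.sum_div, Finset.sum_coe_sort S (fun n : ℕ => ((n : ℝ))⁻¹)] at hfin
    have hlast : ∏ i : S, (1 + (((i : ℕ) : ℝ))⁻¹ / 16) ≤
        ∏ i : S, ‖∑ j : Fin 5, cf i j * TT.al a (TT.T23_fr i j)‖ :=
      Finset.prod_le_prod (fun i _ => by positivity) (fun i _ => e2 i)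
    linarith

open ArithmeticFunction vonMangoldt in
/-- primes congruent to -1 modulo Q -/
theorem div_neg {Q : ℕ} (hQ : 0 < Q) :
    ¬ Summable (fun n : ℕ => if n.Prime ∧ Q ∣ n + 1 then ((n : ℝ))⁻¹ else 0) := by
  intro hg
  have : NeZero Q := ⟨hQ.ne'⟩
  set g : ℕ → ℝ := fun n : ℕ => if n.Prime ∧ Q ∣ n + 1 then ((n : ℝ))⁻¹ else 0 with hgdef
  have g0 : ∀ n, 0 ≤ g n := fun n => by
    simp only [hgdef]
    split_ifs
    · positivity
    · exact le_refl _
  obtain ⟨C, hC⟩ := LSeries_residueClass_lower_bound (q := Q) (a := -1) isUnit_one.neg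
  have hφ : (0 : ℝ) < (Q.totient : ℝ)⁻¹ := by
    have := Nat.totient_pos.2 hQ
    positivity
  obtain ⟨N, hN⟩ : ∃ N : ℕ, ∑' k, g (k + N) ≤ (Q.totient : ℝ)⁻¹ / 2 := by
    have := (tendsto_sum_nat_add g).eventually (ge_mem_nhds (half_pos hφ))
    exact this.exists
  have s1 := summable_residueClass_non_primes_div (-1 : ZMod Q)
  let F1 : ℕ → ℝ := fun n => (if n.Prime then 0 else residueClass (-1 : ZMod Q) n) / n
  let F2 : ℕ → ℝ := fun n => if n < N then Real.log n else 0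
  let F3 : ℕ → ℝ := fun n => if n < N then 0 else g n
  have s2 : Summable F2 := summable_of_ne_finset_zero (s := Finset.range N) (fun n hn => by
    simp only [F2]
    rw [if_neg (by simpa using hn)])
  have s3 : Summable F3 := Summable.of_nonneg_of_le (fun n => by
    simp only [F3]
    split_ifs
    · exact le_refl _
    · exact g0 n) (fun n => by
    simp only [F3]
    split_ifs
    · exact g0 n
    · exact le_refl _) hg
  have t3 : ∑' n, F3 n ≤ (Q.totient : ℝ)⁻¹ / 2 := by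
    rw [← s3.sum_add_tsum_nat_add N]
    have z : ∑ i ∈ Finset.range N, F3 i = 0 := Finset.sum_eq_zero (fun i hi => by
      simp only [F3]
      rw [if_pos (Finset.mem_range.1 hi)])
    have z2 : ∀ k, F3 (k + N) = g (k + N) := fun k => by
      simp only [F3]
      rw [if_neg (by omega)]
    rw [z, zero_add, tsum_congr z2]
    exact hN
  have main : ∀ x : ℝ, 1 < x → x ≤ 2 → (Q.totient : ℝ)⁻¹ / 2 ≤ (C + ∑' n, F1 n + ∑' n, F2 n) * (x - 1) := by
    intro x h1 h2
    have hx : 0 < x - 1 := by linarith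
    have hle : ∑' n, residueClass (-1 : ZMod Q) n / (n : ℝ) ^ x ≤
        ∑' n, (F1 n + F2 n + (x - 1)⁻¹ * F3 n) := by
      have hpt : ∀ n : ℕ, residueClass (-1 : ZMod Q) n / (n : ℝ) ^ x ≤ F1 n + F2 n + (x - 1)⁻¹ * F3 n := by
        intro n
        have hR := residueClass_nonneg (-1 : ZMod Q) n
        rcases n.eq_zero_or_pos with rfl | hn
        · have : 0 ≤ (x - 1)⁻¹ * F3 0 := by
            refine mul_nonneg (inv_nonneg.2 hx.le) ?_
            simp only [F3]
            split_ifs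
            · exact le_refl _
            · exact g0 0
          simp only [F1, F2]
          simp
          exact this
        have hn1 : (1 : ℝ) ≤ n := by exact_mod_cast hn
        have hnx : (n : ℝ) ≤ (n : ℝ) ^ x := by
          conv_lhs => rw [← Real.rpow_one n]
          exact Real.rpow_le_rpow_of_exponent_le hn1 h1.le
        have F20 : 0 ≤ F2 n := by
          simp only [F2]
          split_ifs
          · exact Real.log_nonneg hn1
          · exact le_refl _
        have F30 : 0 ≤ (x - 1)⁻¹ * F3 n := by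
          refine mul_nonneg (inv_nonneg.2 hx.le) ?_
          simp only [F3]
          split_ifs
          · exact le_refl _
          · exact g0 n
        by_cases hpr : n.Prime
        · have F1z : F1 n = 0 := by simp only [F1]; rw [if_pos hpr, zero_div]
          by_cases hm : (n : ZMod Q) = -1
          · have hrc : residueClass (-1 : ZMod Q) n = Real.log n := by
              simp only [residueClass]
              rw [Set.indicator_of_mem (by simpa using hm), vonMangoldt_apply_prime hpr]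
            rw [F1z, zero_add, hrc]
            by_cases hnN : n < N
            · have : F2 n = Real.log n := by simp only [F2]; rw [if_pos hnN]
              rw [this]
              have : Real.log n / (n : ℝ) ^ x ≤ Real.log n := div_le_self (Real.log_nonneg hn1) (hn1.trans hnx)
              linarith
            · have hF3 : F3 n = ((n : ℝ))⁻¹ := by
                simp only [F3]
                rw [if_neg hnN, hgdef]
                simp only
                have hd : Q ∣ n + 1 := by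
                  rw [← ZMod.natCast_eq_zero_iff, Nat.cast_add, hm]
                  simp
                rw [if_pos ⟨hpr, hd⟩]
              rw [hF3]
              have hlog : Real.log n ≤ (x - 1)⁻¹ * (n : ℝ) ^ (x - 1) := by
                have h5 := Real.add_one_le_exp ((x - 1) * Real.log n)
                have h6 : Real.exp ((x - 1) * Real.log n) = (n : ℝ) ^ (x - 1) := by
                  rw [Real.rpow_def_of_pos (by linarith), mul_comm]
                rw [h6] at h5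
                have h7 : (x - 1) * Real.log n ≤ (n : ℝ) ^ (x - 1) := by linarith
                calc Real.log n = (x - 1)⁻¹ * ((x - 1) * Real.log n) := by field_simp
                  _ ≤ _ := mul_le_mul_of_nonneg_left h7 (inv_nonneg.2 hx.le)
              have hsplit : (n : ℝ) ^ x = (n : ℝ) ^ (x - 1) * n := by
                rw [Real.rpow_sub_one (by linarith : (n : ℝ) ≠ 0), div_mul_cancel₀]
                linarith
              have hpos : 0 < (n : ℝ) ^ (x - 1) := Real.rpow_pos_of_pos (by linarith) _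
              have : Real.log n / (n : ℝ) ^ x ≤ (x - 1)⁻¹ * ((n : ℝ))⁻¹ := by
                rw [hsplit, div_le_iff₀ (mul_pos hpos (by linarith))]
                calc Real.log n ≤ (x - 1)⁻¹ * (n : ℝ) ^ (x - 1) := hlog
                  _ = (x - 1)⁻¹ * ((n : ℝ))⁻¹ * ((n : ℝ) ^ (x - 1) * n) := by
                    field_simp
              linarith
          · have : residueClass (-1 : ZMod Q) n = 0 := by
              simp only [residueClass]
              rw [Set.indicator_of_notMem (by simpa using hm)]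
            rw [this, zero_div, F1z]
            linarith
        · have : residueClass (-1 : ZMod Q) n / (n : ℝ) ^ x ≤ F1 n := by
            simp only [F1]
            rw [if_neg hpr]
            exact div_le_div_of_nonneg_left hR (by linarith) hnx
          linarith
      refine Summable.tsum_le_tsum hpt ?_ ((s1.add s2).add (s3.mul_left _))
      refine Summable.of_nonneg_of_le (fun n => div_nonneg (residueClass_nonneg _ n) (by positivity)) hpt
        ((s1.add s2).add (s3.mul_left _))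
    have hsum : ∑' n, (F1 n + F2 n + (x - 1)⁻¹ * F3 n) = ∑' n, F1 n + ∑' n, F2 n + (x - 1)⁻¹ * ∑' n, F3 n := by
      have s1' : Summable F1 := s1
      rw [(s1'.add s2).tsum_add (s3.mul_left _), s1'.tsum_add s2, tsum_mul_left]
    have hl := hC (x := x) ⟨h1, h2⟩
    rw [hsum] at hle
    have h8 : (x - 1)⁻¹ * ∑' n, F3 n ≤ (x - 1)⁻¹ * ((Q.totient : ℝ)⁻¹ / 2) :=
      mul_le_mul_of_nonneg_left t3 (inv_nonneg.2 hx.le)
    have h9 : (Q.totient : ℝ)⁻¹ / (x - 1) ≤ C + ∑' n, F1 n + ∑' n, F2 n + (x - 1)⁻¹ * ((Q.totient : ℝ)⁻¹ / 2) := by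
      linarith
    rw [div_le_iff₀ hx] at h9
    have h10 : (x - 1)⁻¹ * ((Q.totient : ℝ)⁻¹ / 2) * (x - 1) = (Q.totient : ℝ)⁻¹ / 2 := by field_simp
    nlinarith
  set D := C + ∑' n, F1 n + ∑' n, F2 n with hD
  have hD2 := main 2 (by norm_num) (le_refl 2)
  have hDpos : 0 < D := by nlinarith
  have hx : 0 < (Q.totient : ℝ)⁻¹ / (4 * D) := by positivity
  have h3 := main (min 2 (1 + (Q.totient : ℝ)⁻¹ / (4 * D))) (lt_min (by norm_num) (by linarith)) (min_le_left _ _)
  have h4 : min 2 (1 + (Q.totient : ℝ)⁻¹ / (4 * D)) - 1 ≤ (Q.totient : ℝ)⁻¹ / (4 * D) := by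
    have := min_le_right (2 : ℝ) (1 + (Q.totient : ℝ)⁻¹ / (4 * D))
    linarith
  have h5 : D * (min 2 (1 + (Q.totient : ℝ)⁻¹ / (4 * D)) - 1) ≤ D * ((Q.totient : ℝ)⁻¹ / (4 * D)) :=
    mul_le_mul_of_nonneg_left h4 hDpos.le
  have h6 : D * ((Q.totient : ℝ)⁻¹ / (4 * D)) = (Q.totient : ℝ)⁻¹ / 4 := by field_simp
  linarith

end NH
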