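import Pool.Agent.Lib.MP_0f5a55_nt.NH.N11
import Pool.Agent.Lib.MP_0f5a55_nt.OM.K010

open Complex MeasureTheory Set Filter Topology
open scoped Real ComplexConjugate

namespace NH

/-- the Gamma function on the critical line -/
private theorem N12_half (t : ℝ) : ‖Gamma (1 / 2 + t * I)‖ = √(π / Real.cosh (π * t)) := by
  have h1 : (1 : ℂ) - (1 / 2 + t * I) = conj (1 / 2 + t * I) := by
    apply Complex.ext
    · simp
      norm_num
    · simp
  have h2 := Gamma_mul_Gamma_one_sub (1 / 2 + t * I)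
  rw [h1, Gamma_conj] at h2
  have h3 : Complex.sin (π * (1 / 2 + t * I)) = ((Real.cosh (π * t) : ℝ) : ℂ) := by
    have e1 : (π : ℂ) * (1 / 2 + t * I) = π / 2 + (((π * t : ℝ) : ℂ)) * I := by
      push_cast
      ring
    rw [e1, Complex.sin_add, Complex.sin_pi_div_two, Complex.cos_pi_div_two, Complex.cos_mul_I,
      ofReal_cosh]
    ring
  rw [h3] at h2
  have h4 := congrArg norm h2
  rw [norm_mul, RCLike.norm_conj, norm_div, norm_real, norm_real, Real.norm_eq_abs,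
    Real.norm_eq_abs, abs_of_pos Real.pi_pos, abs_of_pos (Real.cosh_pos _)] at h4
  rw [← h4, Real.sqrt_mul_self (norm_nonneg _)]

/-- rotated bound for the Gamma function -/
private theorem N12_Gup {w : ℂ} (hw : 0 < w.re) {φ : ℝ} (h0 : -(π / 2) < φ) (h1 : φ < π / 2) :
    ‖Gamma w‖ ≤ Real.exp (-(φ * w.im)) * ((1 / Real.cos φ) ^ w.re * Real.Gamma w.re) := by
  have h5 := LZX.Gamma_tau (τ := φ) (abs_lt.mpr ⟨h0, h1⟩) hw
  have h6 : Real.exp (-(φ * w.im)) * Real.exp (φ * w.im) = 1 := by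
    rw [← Real.exp_add]; simp
  calc ‖Gamma w‖ = Real.exp (-(φ * w.im)) * (‖Gamma w‖ * Real.exp (φ * w.im)) := by
        rw [mul_comm ‖Gamma w‖, ← mul_assoc, h6, one_mul]
    _ ≤ _ := mul_le_mul_of_nonneg_left h5 (Real.exp_pos _).le

private theorem N12_sin (z : ℂ) : ‖Complex.sin z‖ ≤ Real.exp |z.im| := by
  have h1 : Complex.sin z = (exp (-z * I) - exp (z * I)) * I / 2 := rfl
  rw [h1, norm_div, norm_mul, norm_I, mul_one]
  have h2 : ‖exp (-z * I)‖ = Real.exp z.im := by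
    rw [Complex.norm_exp]; congr 1; simp
  have h3 : ‖exp (z * I)‖ = Real.exp (-z.im) := by
    rw [Complex.norm_exp]; congr 1; simp
  have h4 := norm_sub_le (exp (-z * I)) (exp (z * I))
  rw [h2, h3] at h4
  have h5 := Real.exp_le_exp.mpr (le_abs_self z.im)
  have h6 := Real.exp_le_exp.mpr (neg_le_abs z.im)
  have h7 : ‖(2 : ℂ)‖ = 2 := by simp
  rw [h7]
  linarith

/-- the angle -/
private theorem N12_ang (t : ℝ) : ∃ e : ℝ, 0 < e ∧ e ≤ 1 / 2 ∧ e * |t| ≤ 1 / 2 ∧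
    1 / (π * (1 + |t|)) ≤ Real.sin e := by
  have ht := abs_nonneg t
  refine ⟨1 / (2 * (1 + |t|)), by positivity, ?_, ?_, ?_⟩
  · rw [div_le_div_iff₀ (by positivity) (by norm_num)]
    nlinarith
  · rw [div_mul_eq_mul_div, one_mul, div_le_div_iff₀ (by positivity) (by norm_num)]
    nlinarith
  · have h1 : 1 / (2 * (1 + |t|)) ≤ π / 2 := by
      have : 1 / (2 * (1 + |t|)) ≤ 1 := by
        rw [div_le_one (by positivity)]; nlinarith
      linarith [Real.pi_gt_three]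
    have h2 := Real.mul_le_sin (x := 1 / (2 * (1 + |t|))) (by positivity) h1
    refine le_trans (le_of_eq ?_) h2
    have := Real.pi_pos.ne'
    field_simp

/-- lower bound for the Gamma function -/
private theorem N12_Glow : ∃ c : ℝ, 0 < c ∧ ∀ s : ℂ, 1 / 2 ≤ s.re → s.re ≤ 2 → 1 ≤ |s.im| →
    c * Real.exp (-(π / 2 * |s.im|)) * (1 + |s.im|) ^ (s.re - 1) ≤ ‖Gamma s‖ := by
  set B : ℝ := Real.exp (1 / 2) * (6 * π ^ (7 / 2 : ℝ)) * 8 with hB
  have hBpos : 0 < B := by positivity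
  refine ⟨π / B, by positivity, ?_⟩
  intro s h1 h2 h3
  set t : ℝ := s.im with ht
  have hT : 0 < 1 + |t| := by positivity
  have ht0 : t ≠ 0 := by
    intro h0; rw [h0, abs_zero] at h3; norm_num at h3
  obtain ⟨e, e0, e1, e2, e3⟩ := N12_ang t
  have hpi := Real.pi_gt_three
  -- the upper bound of Gamma (4 - s)
  have hup : ‖Gamma (4 - s)‖ ≤ Real.exp (1 / 2) * (6 * π ^ (7 / 2 : ℝ)) *
      (Real.exp (-(π / 2 * |t|)) * (1 + |t|) ^ (4 - s.re)) := by
    have hwre : (4 - s).re = 4 - s.re := by simp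
    have hw : 0 < (4 - s).re := by rw [hwre]; linarith
    have hwim : (4 - s).im = -t := by simp [ht]
    obtain ⟨φ, f0, f1, f2, f3⟩ : ∃ φ : ℝ, -(π / 2) < φ ∧ φ < π / 2 ∧ Real.cos φ = Real.sin e ∧
        -(φ * (-t)) = -((π / 2 - e) * |t|) := by
      rcases le_total 0 t with h | h
      · refine ⟨-(π / 2 - e), by linarith, by linarith, ?_, ?_⟩
        · rw [Real.cos_neg, Real.cos_pi_div_two_sub]
        · rw [abs_of_nonneg h]; ring
      · refine ⟨π / 2 - e, by linarith, by linarith, ?_, ?_⟩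
        · rw [Real.cos_pi_div_two_sub]
        · rw [abs_of_nonpos h]
    have h4 := N12_Gup hw f0 f1
    rw [hwim, f3, f2, hwre] at h4
    have hsin : 0 < Real.sin e := lt_of_lt_of_le (by positivity) e3
    have h5 : (1 / Real.sin e) ^ (4 - s.re) ≤ π ^ (7 / 2 : ℝ) * (1 + |t|) ^ (4 - s.re) := by
      have h6 : 1 / Real.sin e ≤ π * (1 + |t|) := by
        rw [div_le_iff₀ hsin]
        rw [div_le_iff₀ (by positivity)] at e3
        linarith
      calc (1 / Real.sin e) ^ (4 - s.re) ≤ (π * (1 + |t|)) ^ (4 - s.re) :=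
            Real.rpow_le_rpow (by positivity) h6 (by linarith)
        _ = π ^ (4 - s.re) * (1 + |t|) ^ (4 - s.re) := Real.mul_rpow Real.pi_pos.le hT.le
        _ ≤ π ^ (7 / 2 : ℝ) * (1 + |t|) ^ (4 - s.re) := by
            apply mul_le_mul_of_nonneg_right _ (by positivity)
            exact Real.rpow_le_rpow_of_exponent_le (by linarith) (by linarith)
    have h7 : Real.Gamma (4 - s.re) ≤ 6 := by
      have h8 : Real.Gamma 4 = 6 := by
        have h10 : Real.Gamma 4 = Real.Gamma ((3 : ℕ) + 1) := by norm_num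
        rw [h10, Real.Gamma_nat_eq_factorial]
        norm_num [Nat.factorial]
      rw [← h8]
      exact Real.Gamma_strictMonoOn_Ici.monotoneOn (Set.mem_Ici.mpr (by linarith))
        (Set.mem_Ici.mpr (by norm_num)) (by linarith)
    have h9 : Real.exp (-((π / 2 - e) * |t|)) ≤ Real.exp (1 / 2) * Real.exp (-(π / 2 * |t|)) := by
      rw [← Real.exp_add]
      apply Real.exp_le_exp.mpr
      nlinarith
    have hG0 : 0 ≤ Real.Gamma (4 - s.re) := (Real.Gamma_pos_of_pos (by linarith)).le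
    calc ‖Gamma (4 - s)‖ ≤ Real.exp (-((π / 2 - e) * |t|)) *
          ((1 / Real.sin e) ^ (4 - s.re) * Real.Gamma (4 - s.re)) := h4
      _ ≤ (Real.exp (1 / 2) * Real.exp (-(π / 2 * |t|))) *
          ((π ^ (7 / 2 : ℝ) * (1 + |t|) ^ (4 - s.re)) * 6) := by
          apply mul_le_mul h9 _ (by positivity) (by positivity)
          exact mul_le_mul h5 h7 hG0 (by positivity)
      _ = _ := by ring
  -- the recursion
  have hne : ∀ k : ℝ, ((k : ℂ) - s) ≠ 0 := by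
    intro k h0
    have := congrArg Complex.im h0
    simp at this
    exact ht0 this
  have hge : ∀ k : ℝ, |t| ≤ ‖(k : ℂ) - s‖ := by
    intro k
    have := Complex.abs_im_le_norm ((k : ℂ) - s)
    simpa using this
  have r1 : Gamma (4 - s) = (3 - s) * ((2 - s) * ((1 - s) * Gamma (1 - s))) := by
    have a1 := Complex.Gamma_add_one (1 - s) (by simpa using hne 1)
    have a2 := Complex.Gamma_add_one (2 - s) (by simpa using hne 2)
    have a3 := Complex.Gamma_add_one (3 - s) (by simpa using hne 3)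
    have b1 : (1 : ℂ) - s + 1 = 2 - s := by ring
    have b2 : (2 : ℂ) - s + 1 = 3 - s := by ring
    have b3 : (3 : ℂ) - s + 1 = 4 - s := by ring
    rw [b1] at a1; rw [b2] at a2; rw [b3] at a3
    rw [a3, a2, a1]
  have hX : ‖Gamma (1 - s)‖ * |t| ^ 3 ≤ ‖Gamma (4 - s)‖ := by
    rw [r1, norm_mul, norm_mul, norm_mul]
    have g1 := hge 1
    have g2 := hge 2
    have g3 := hge 3
    simp only [ofReal_one, ofReal_ofNat] at g1 g2 g3
    have ha := abs_nonneg t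
    calc ‖Gamma (1 - s)‖ * |t| ^ 3 = |t| * (|t| * (|t| * ‖Gamma (1 - s)‖)) := by ring
      _ ≤ ‖3 - s‖ * (‖2 - s‖ * (‖1 - s‖ * ‖Gamma (1 - s)‖)) := by gcongr
  have ht3 : (1 + |t|) ^ (3 : ℝ) ≤ 8 * |t| ^ 3 := by
    have : (1 + |t|) ≤ 2 * |t| := by linarith
    calc (1 + |t|) ^ (3 : ℝ) = (1 + |t|) ^ 3 := by
          rw [show (3 : ℝ) = ((3 : ℕ) : ℝ) by norm_num, Real.rpow_natCast]
      _ ≤ (2 * |t|) ^ 3 := pow_le_pow_left₀ hT.le this 3
      _ = 8 * |t| ^ 3 := by ring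
  have hU : ‖Gamma (1 - s)‖ ≤ B * (Real.exp (-(π / 2 * |t|)) * (1 + |t|) ^ (1 - s.re)) := by
    have hpow : (1 + |t|) ^ (4 - s.re) = (1 + |t|) ^ (3 : ℝ) * (1 + |t|) ^ (1 - s.re) := by
      rw [← Real.rpow_add hT]; congr 1; ring
    have ht3pos : 0 < |t| ^ 3 := by positivity
    have h4 : ‖Gamma (1 - s)‖ * |t| ^ 3 ≤
        (B * (Real.exp (-(π / 2 * |t|)) * (1 + |t|) ^ (1 - s.re))) * |t| ^ 3 := by
      refine hX.trans (hup.trans ?_)
      rw [hpow]
      calc Real.exp (1 / 2) * (6 * π ^ (7 / 2 : ℝ)) * (Real.exp (-(π / 2 * |t|)) *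
            ((1 + |t|) ^ (3 : ℝ) * (1 + |t|) ^ (1 - s.re)))
          ≤ Real.exp (1 / 2) * (6 * π ^ (7 / 2 : ℝ)) * (Real.exp (-(π / 2 * |t|)) *
            ((8 * |t| ^ 3) * (1 + |t|) ^ (1 - s.re))) := by gcongr
        _ = _ := by rw [hB]; ring
    exact le_of_mul_le_mul_right h4 ht3pos
  -- reflection
  have hsin0 : Complex.sin (π * s) ≠ 0 := by
    intro h0
    rw [Complex.sin_eq_zero_iff] at h0
    obtain ⟨k, hk⟩ := h0
    have h4 := congrArg Complex.im hk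
    simp [Real.pi_ne_zero] at h4
    exact ht0 h4
  have href := congrArg norm (Gamma_mul_Gamma_one_sub s)
  rw [norm_mul, norm_div, norm_real, Real.norm_eq_abs, abs_of_pos Real.pi_pos] at href
  have hs1 : 0 < ‖Complex.sin (π * s)‖ := norm_pos_iff.mpr hsin0
  rw [eq_div_iff hs1.ne'] at href
  have hs2 : ‖Complex.sin (π * s)‖ ≤ Real.exp (π * |t|) := by
    refine (N12_sin _).trans (le_of_eq ?_)
    congr 1
    rw [show (π * s : ℂ).im = π * t by simp [ht], abs_mul, abs_of_pos Real.pi_pos]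
  have hfin : π ≤ ‖Gamma s‖ * ((B * (Real.exp (-(π / 2 * |t|)) * (1 + |t|) ^ (1 - s.re))) *
      Real.exp (π * |t|)) := by
    calc π = ‖Gamma s‖ * ‖Gamma (1 - s)‖ * ‖Complex.sin (π * s)‖ := href.symm
      _ = ‖Gamma s‖ * (‖Gamma (1 - s)‖ * ‖Complex.sin (π * s)‖) := by ring
      _ ≤ ‖Gamma s‖ * ((B * (Real.exp (-(π / 2 * |t|)) * (1 + |t|) ^ (1 - s.re))) *
          Real.exp (π * |t|)) := by gcongr
      _ = _ := by ring
  have e5 : Real.exp (-(π / 2 * |t|)) * Real.exp (π * |t|) = Real.exp (π / 2 * |t|) := by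
    rw [← Real.exp_add]; congr 1; ring
  have e6 : Real.exp (-(π / 2 * |t|)) * Real.exp (π / 2 * |t|) = 1 := by
    rw [← Real.exp_add]; simp
  have e7 : (1 + |t|) ^ (s.re - 1) * (1 + |t|) ^ (1 - s.re) = 1 := by
    rw [← Real.rpow_add hT]
    rw [show s.re - 1 + (1 - s.re) = 0 by ring, Real.rpow_zero]
  have hfin2 : π ≤ ‖Gamma s‖ * (B * (Real.exp (π / 2 * |t|) * (1 + |t|) ^ (1 - s.re))) := by
    refine hfin.trans (le_of_eq ?_)
    rw [← e5]; ring
  calc π / B * Real.exp (-(π / 2 * |t|)) * (1 + |t|) ^ (s.re - 1)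
      = (Real.exp (-(π / 2 * |t|)) * (1 + |t|) ^ (s.re - 1) / B) * π := by ring
    _ ≤ (Real.exp (-(π / 2 * |t|)) * (1 + |t|) ^ (s.re - 1) / B) *
        (‖Gamma s‖ * (B * (Real.exp (π / 2 * |t|) * (1 + |t|) ^ (1 - s.re)))) := by gcongr
    _ = ‖Gamma s‖ * (Real.exp (-(π / 2 * |t|)) * Real.exp (π / 2 * |t|)) *
        ((1 + |t|) ^ (s.re - 1) * (1 + |t|) ^ (1 - s.re)) * (B / B) := by ring
    _ = ‖Gamma s‖ := by rw [e6, e7, div_self hBpos.ne']; ring


/-- splitting an integral over the half line -/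
private theorem N12_int {f : ℝ → ℂ} {M : ℝ}
    (h1 : ∀ y : ℝ, 0 < y → y ≤ 1 → ‖f y‖ ≤ M * y ^ (-(1 / 2) : ℝ))
    (h2 : ∀ y : ℝ, 1 < y → ‖f y‖ ≤ M * y ^ (-(3 / 2) : ℝ)) (hf : IntegrableOn f (Ioi 0)) :
    ‖∫ y in Ioi (0 : ℝ), f y‖ ≤ 4 * M := by
  have hU : Ioi (0 : ℝ) = Ioc 0 1 ∪ Ioi 1 := by
    rw [Ioc_union_Ioi_eq_Ioi zero_le_one]
  have hd : Disjoint (Ioc (0 : ℝ) 1) (Ioi 1) := by
    rw [Set.disjoint_left]
    intro x hx hx'
    exact absurd hx.2 (not_le.mpr hx')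
  have hf1 : IntegrableOn f (Ioc 0 1) := hf.mono_set Ioc_subset_Ioi_self
  have hf2 : IntegrableOn f (Ioi 1) := hf.mono_set (Ioi_subset_Ioi zero_le_one)
  rw [hU, setIntegral_union hd measurableSet_Ioi hf1 hf2]
  have i1 : ‖∫ y in Ioc (0 : ℝ) 1, f y‖ ≤ 2 * M := by
    have g1 : IntegrableOn (fun y : ℝ => M * y ^ (-(1 / 2) : ℝ)) (Ioc 0 1) := by
      have := (intervalIntegral.intervalIntegrable_rpow' (a := 0) (b := 1)
        (r := (-(1 / 2) : ℝ)) (by norm_num))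
      rw [intervalIntegrable_iff_integrableOn_Ioc_of_le zero_le_one] at this
      exact this.const_mul M
    have g2 := norm_integral_le_of_norm_le g1 ((ae_restrict_iff' measurableSet_Ioc).mpr
      (Filter.Eventually.of_forall fun y hy => h1 y hy.1 hy.2))
    refine g2.trans (le_of_eq ?_)
    rw [integral_const_mul, ← intervalIntegral.integral_of_le zero_le_one,
      integral_rpow (Or.inl (by norm_num))]
    norm_num
    ring
  have i2 : ‖∫ y in Ioi (1 : ℝ), f y‖ ≤ 2 * M := by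
    have g1 : IntegrableOn (fun y : ℝ => M * y ^ (-(3 / 2) : ℝ)) (Ioi 1) :=
      (integrableOn_Ioi_rpow_of_lt (by norm_num) one_pos).const_mul M
    have g2 := norm_integral_le_of_norm_le g1 ((ae_restrict_iff' measurableSet_Ioi).mpr
      (Filter.Eventually.of_forall fun y hy => h2 y hy))
    refine g2.trans (le_of_eq ?_)
    rw [integral_const_mul, integral_Ioi_rpow_of_lt (by norm_num) one_pos]
    norm_num
    ring
  calc _ ≤ ‖∫ y in Ioc (0 : ℝ) 1, f y‖ + ‖∫ y in Ioi (1 : ℝ), f y‖ := norm_add_le _ _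
    _ ≤ 2 * M + 2 * M := add_le_add i1 i2
    _ = 4 * M := by ring

/-- the size of F on a ray -/
private theorem N12_ray {N : ℕ} {a : ℕ → ℂ} {L : ℂ → ℂ} (D : Dat N a L) : ∃ K : ℝ, 0 < K ∧
    ∀ φ : ℝ, 0 < Real.cos φ → ∀ s : ℂ, 1 / 2 ≤ s.re → s.re ≤ 2 → ∀ y : ℝ, 0 < y →
      (y ≤ 1 → ‖FF N a (y * exp (φ * I)) * (y : ℂ) ^ (s - 1)‖ ≤
        K * (1 / Real.cos φ) ^ (s.re + 1 / 2) * y ^ (-(1 / 2) : ℝ)) ∧
      (1 < y → ‖FF N a (y * exp (φ * I)) * (y : ℂ) ^ (s - 1)‖ ≤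
        K * (1 / Real.cos φ) ^ (s.re + 1 / 2) * y ^ (-(3 / 2) : ℝ)) := by
  obtain ⟨C, c, hC, hc, hF⟩ := FF_le D
  obtain ⟨c0, hc0, hfe⟩ := D.fe
  refine ⟨C * (1 + 2 / c ^ 2), by positivity, ?_⟩
  intro φ hφ s s1 s2 y hy
  set κ : ℝ := Real.cos φ with hκ
  have hκ1 : κ ≤ 1 := Real.cos_le_one φ
  have hnc : ‖(y : ℂ) ^ (s - 1)‖ = y ^ (s.re - 1) := by
    rw [Complex.norm_cpow_eq_rpow_re_of_pos hy]; simp
  rw [norm_mul, hnc]
  have hre : (y * exp (φ * I) : ℂ).re = y * κ := by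
    rw [Complex.re_ofReal_mul, Complex.exp_ofReal_mul_I_re]
  have hinv : 1 ≤ 1 / κ := by rw [le_div_iff₀ hφ]; linarith
  refine ⟨fun hy1 => ?_, fun hy1 => ?_⟩
  · -- small y
    set z : ℂ := y * exp (φ * I) with hz
    have hz0 : z ≠ 0 := by
      rw [hz]
      exact mul_ne_zero (by exact_mod_cast hy.ne') (exp_ne_zero _)
    have hnz : ‖z‖ = y := by
      rw [hz, norm_mul, Complex.norm_exp_ofReal_mul_I, mul_one, norm_real, Real.norm_eq_abs,
        abs_of_pos hy]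
    have hwre : (1 / z).re = κ / y := by
      rw [one_div, Complex.inv_re, Complex.normSq_eq_norm_sq, hnz, hre]
      field_simp
    have hw : 0 < (1 / z).re := by rw [hwre]; positivity
    have h3 := hfe (1 / z) hw
    rw [one_div_one_div] at h3
    have h4 : ‖FF N a z‖ = ‖1 / z‖ * ‖FF N a (conj (1 / z))‖ := by
      rw [h3, norm_mul, norm_mul, hc0, one_mul, RCLike.norm_conj]
    have h5 : (conj (1 / z)).re = κ / y := by rw [Complex.conj_re, hwre]
    have h6 := hF (conj (1 / z)) (by rw [h5]; positivity)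
    rw [h5] at h6
    have h7 : ‖FF N a z‖ ≤ C / κ := by
      rw [h4, norm_div, norm_one, hnz]
      have h8 : Real.exp (-(c * (κ / y))) ≤ 1 := by
        rw [Real.exp_le_one_iff]
        have : 0 ≤ c * (κ / y) := by positivity
        linarith
      calc 1 / y * ‖FF N a (conj (1 / z))‖ ≤ 1 / y * (C / (κ / y) * Real.exp (-(c * (κ / y)))) := by
            gcongr
        _ ≤ 1 / y * (C / (κ / y) * 1) := by gcongr
        _ = C / κ := by field_simp
    have h9 : y ^ (s.re - 1) ≤ y ^ (-(1 / 2) : ℝ) :=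
      Real.rpow_le_rpow_of_exponent_ge hy hy1 (by linarith)
    have h10 : C / κ ≤ C * (1 + 2 / c ^ 2) * (1 / κ) ^ (s.re + 1 / 2) := by
      have e1 : 1 / κ ≤ (1 / κ) ^ (s.re + 1 / 2) := by
        calc 1 / κ = (1 / κ) ^ (1 : ℝ) := (Real.rpow_one _).symm
          _ ≤ _ := Real.rpow_le_rpow_of_exponent_le hinv (by linarith)
      have e2 : (1 : ℝ) ≤ 1 + 2 / c ^ 2 := by
        have : 0 ≤ 2 / c ^ 2 := by positivity
        linarith
      calc C / κ = C * 1 * (1 / κ) := by ring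
        _ ≤ C * (1 + 2 / c ^ 2) * (1 / κ) ^ (s.re + 1 / 2) := by gcongr
    exact mul_le_mul (h7.trans h10) h9 (by positivity) (by positivity)
  · -- large y
    have h3 := hF (y * exp (φ * I)) (by rw [hre]; positivity)
    rw [hre] at h3
    have hx : 0 < y * κ := by positivity
    have h4 : (y * κ) ^ (s.re - 1 / 2) * Real.exp (-(c * (y * κ))) ≤ 1 + 2 / c ^ 2 := by
      set x : ℝ := y * κ with hxdef
      have e1 : x ^ (s.re - 1 / 2) ≤ 1 + x ^ 2 := by
        rcases le_total x 1 with h | h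
        · have : x ^ (s.re - 1 / 2) ≤ 1 := Real.rpow_le_one hx.le h (by linarith)
          nlinarith [sq_nonneg x]
        · have : x ^ (s.re - 1 / 2) ≤ x ^ (2 : ℝ) :=
            Real.rpow_le_rpow_of_exponent_le h (by linarith)
          rw [Real.rpow_two] at this
          linarith
      have e2 : Real.exp (-(c * x)) ≤ 1 := by
        rw [Real.exp_le_one_iff]
        have : 0 ≤ c * x := by positivity
        linarith
      have e3 : x ^ 2 * Real.exp (-(c * x)) ≤ 2 / c ^ 2 := by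
        have q := Real.quadratic_le_exp_of_nonneg (x := c * x) (by positivity)
        have q1 : (c * x) ^ 2 / 2 ≤ Real.exp (c * x) := by
          have : 0 ≤ c * x := by positivity
          linarith
        rw [Real.exp_neg, ← div_eq_mul_inv, div_le_div_iff₀ (Real.exp_pos _) (by positivity)]
        nlinarith
      calc x ^ (s.re - 1 / 2) * Real.exp (-(c * x)) ≤ (1 + x ^ 2) * Real.exp (-(c * x)) := by gcongr
        _ = Real.exp (-(c * x)) + x ^ 2 * Real.exp (-(c * x)) := by ring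
        _ ≤ 1 + 2 / c ^ 2 := add_le_add e2 e3
    have h5 : y ^ (s.re - 1) / y = y ^ (-(3 / 2) : ℝ) * y ^ (s.re - 1 / 2) := by
      rw [← Real.rpow_add hy, div_eq_mul_inv, ← Real.rpow_neg_one, ← Real.rpow_add hy]
      congr 1; ring
    have h6 : (y * κ) ^ (s.re - 1 / 2) = y ^ (s.re - 1 / 2) * κ ^ (s.re - 1 / 2) :=
      Real.mul_rpow hy.le hφ.le
    have h7 : (1 / κ) ^ (s.re + 1 / 2) = (1 / κ) * (1 / κ) ^ (s.re - 1 / 2) := by
      have hh : 0 < 1 / κ := by positivity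
      calc (1 / κ) ^ (s.re + 1 / 2) = (1 / κ) ^ (1 + (s.re - 1 / 2)) := by congr 1; ring
        _ = (1 / κ) ^ (1 : ℝ) * (1 / κ) ^ (s.re - 1 / 2) := Real.rpow_add hh _ _
        _ = _ := by rw [Real.rpow_one]
    have h8 : (1 / κ) ^ (s.re - 1 / 2) * κ ^ (s.re - 1 / 2) = 1 := by
      rw [← Real.mul_rpow (by positivity) hφ.le, one_div, inv_mul_cancel₀ hφ.ne', Real.one_rpow]
    calc ‖FF N a (y * exp (φ * I))‖ * y ^ (s.re - 1)
        ≤ C / (y * κ) * Real.exp (-(c * (y * κ))) * y ^ (s.re - 1) := by gcongr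
      _ = C * (1 / κ) * (y ^ (s.re - 1) / y) * Real.exp (-(c * (y * κ))) := by field_simp
      _ = C * (1 / κ) * (y ^ (-(3 / 2) : ℝ) * y ^ (s.re - 1 / 2)) * Real.exp (-(c * (y * κ))) := by
          rw [h5]
      _ = C * (1 / κ) * y ^ (-(3 / 2) : ℝ) * ((1 / κ) ^ (s.re - 1 / 2) * κ ^ (s.re - 1 / 2)) *
            y ^ (s.re - 1 / 2) * Real.exp (-(c * (y * κ))) := by rw [h8]; ring
      _ = C * ((1 / κ) * (1 / κ) ^ (s.re - 1 / 2)) * y ^ (-(3 / 2) : ℝ) *
            ((y * κ) ^ (s.re - 1 / 2) * Real.exp (-(c * (y * κ)))) := by rw [h6]; ring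
      _ ≤ C * ((1 / κ) * (1 / κ) ^ (s.re - 1 / 2)) * y ^ (-(3 / 2) : ℝ) * (1 + 2 / c ^ 2) := by
          gcongr
      _ = C * (1 + 2 / c ^ 2) * (1 / κ) ^ (s.re + 1 / 2) * y ^ (-(3 / 2) : ℝ) := by
          rw [h7]; ring

/-- the size of the completed L-function -/
private theorem N12_Lam {N : ℕ} {a : ℕ → ℂ} {L : ℂ → ℂ} (D : Dat N a L) : ∃ C : ℝ, 0 < C ∧
    ∀ s : ℂ, 1 / 2 ≤ s.re → s.re ≤ 2 → ‖Lam N L s‖ ≤
      C * (1 + |s.im|) ^ (s.re + 1 / 2) * Real.exp (-(π / 2 * |s.im|)) := by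
  obtain ⟨K, hK, hray⟩ := N12_ray D
  refine ⟨Real.exp (1 / 2) * (4 * K * π ^ (5 / 2 : ℝ)), by positivity, ?_⟩
  intro s h1 h2
  set t : ℝ := s.im with ht
  have hT : 0 < 1 + |t| := by positivity
  obtain ⟨e, e0, e1, e2, e3⟩ := N12_ang t
  have hpi := Real.pi_gt_three
  have hsin : 0 < Real.sin e := lt_of_lt_of_le (by positivity) e3
  obtain ⟨φ, f0, f1, f2, f3⟩ : ∃ φ : ℝ, -(π / 2) < φ ∧ φ < π / 2 ∧ Real.cos φ = Real.sin e ∧
      φ * t = (π / 2 - e) * |t| := by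
    rcases le_total 0 t with h | h
    · refine ⟨π / 2 - e, by linarith, by linarith, ?_, ?_⟩
      · rw [Real.cos_pi_div_two_sub]
      · rw [abs_of_nonneg h]
    · refine ⟨-(π / 2 - e), by linarith, by linarith, ?_, ?_⟩
      · rw [Real.cos_neg, Real.cos_pi_div_two_sub]
      · rw [abs_of_nonpos h]; ring
  have hcos : 0 < Real.cos φ := by rw [f2]; exact hsin
  obtain ⟨m1, m2⟩ := mellin_ray D f0 f1 (s := s) (by linarith)
  have h3 := N12_int (f := fun y : ℝ => FF N a (y * exp (φ * I)) * (y : ℂ) ^ (s - 1))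
    (fun y hy hy1 => (hray φ hcos s h1 h2 y hy).1 hy1)
    (fun y hy1 => (hray φ hcos s h1 h2 y (by linarith)).2 hy1) m1
  rw [m2, norm_mul] at h3
  have h4 : ‖exp (-(φ * I * s))‖ = Real.exp (φ * t) := by
    rw [Complex.norm_exp]
    congr 1
    simp [ht]
  rw [h4, f3, f2] at h3
  have h5 : (1 / Real.sin e) ^ (s.re + 1 / 2) ≤ π ^ (5 / 2 : ℝ) * (1 + |t|) ^ (s.re + 1 / 2) := by
    have h6 : 1 / Real.sin e ≤ π * (1 + |t|) := by
      rw [div_le_iff₀ hsin]
      rw [div_le_iff₀ (by positivity)] at e3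
      linarith
    calc (1 / Real.sin e) ^ (s.re + 1 / 2) ≤ (π * (1 + |t|)) ^ (s.re + 1 / 2) :=
          Real.rpow_le_rpow (by positivity) h6 (by linarith)
      _ = π ^ (s.re + 1 / 2) * (1 + |t|) ^ (s.re + 1 / 2) := Real.mul_rpow Real.pi_pos.le hT.le
      _ ≤ π ^ (5 / 2 : ℝ) * (1 + |t|) ^ (s.re + 1 / 2) := by
          apply mul_le_mul_of_nonneg_right _ (by positivity)
          exact Real.rpow_le_rpow_of_exponent_le (by linarith) (by linarith)
  have h9 : Real.exp (-((π / 2 - e) * |t|)) ≤ Real.exp (1 / 2) * Real.exp (-(π / 2 * |t|)) := by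
    rw [← Real.exp_add]
    apply Real.exp_le_exp.mpr
    nlinarith
  have h10 : Real.exp (-((π / 2 - e) * |t|)) * Real.exp ((π / 2 - e) * |t|) = 1 := by
    rw [← Real.exp_add]; simp
  calc ‖Lam N L s‖ = Real.exp (-((π / 2 - e) * |t|)) * (Real.exp ((π / 2 - e) * |t|) *
        ‖Lam N L s‖) := by rw [← mul_assoc, h10, one_mul]
    _ ≤ (Real.exp (1 / 2) * Real.exp (-(π / 2 * |t|))) *
        (4 * (K * (π ^ (5 / 2 : ℝ) * (1 + |t|) ^ (s.re + 1 / 2)))) := by
        apply mul_le_mul h9 _ (by positivity) (by positivity)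
        exact h3.trans (by gcongr)
    _ = _ := by ring

private theorem N12_A {N : ℕ} (hN : 0 < N) : 0 < √(N : ℝ) / (2 * π) := by
  have : (0 : ℝ) < N := by exact_mod_cast hN
  have := Real.pi_pos
  positivity

/-- Row N12. Growth of L and of r2. -/
theorem L_pol {N : ℕ} {a : ℕ → ℂ} {L : ℂ → ℂ} (D : Dat N a L) : ∃ C : ℝ, 0 < C ∧
    ∀ s : ℂ, 1 / 2 ≤ s.re → 1 ≤ |s.im| → ‖L s‖ ≤ C * (1 + |s.im|) ^ 2 := by
  obtain ⟨C1, hC1, hLam⟩ := N12_Lam D
  obtain ⟨c, hc, hG⟩ := N12_Glow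
  set A : ℝ := √(N : ℝ) / (2 * π) with hA
  have hApos : 0 < A := N12_A D.pos
  set m : ℝ := min 1 A with hm
  have hm0 : 0 < m := lt_min one_pos hApos
  have hm1 : m ≤ 1 := min_le_left _ _
  have hs2 := (D.ser 2 (by simp)).summable.norm
  set S0 : ℝ := ∑' n : ℕ, ‖a (n + 1) * ((n : ℂ) + 1) ^ (-(2 : ℂ))‖ with hS0
  have hS0n : 0 ≤ S0 := tsum_nonneg fun n => norm_nonneg _
  refine ⟨C1 / (m ^ 2 * c) + S0, by positivity, ?_⟩
  intro s h1 h3
  have hT : 1 ≤ 1 + |s.im| := by linarith [abs_nonneg s.im]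
  have hT0 : 0 < 1 + |s.im| := by linarith
  rcases le_total s.re 2 with h2 | h2
  · have a1 := hLam s h1 h2
    have a2 := hG s h1 h2 h3
    have a3 : m ^ 2 ≤ A ^ s.re := by
      calc m ^ 2 = m ^ (2 : ℝ) := (Real.rpow_two m).symm
        _ ≤ m ^ s.re := Real.rpow_le_rpow_of_exponent_ge hm0 hm1 h2
        _ ≤ A ^ s.re := Real.rpow_le_rpow hm0.le (min_le_right _ _) (by linarith)
    have a4 : ‖Lam N L s‖ = A ^ s.re * ‖Gamma s‖ * ‖L s‖ := by
      rw [Lam, norm_mul, norm_mul, Complex.norm_cpow_eq_rpow_re_of_pos hApos]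
    rw [a4] at a1
    set E : ℝ := Real.exp (-(π / 2 * |s.im|)) with hE
    have hEpos : 0 < E := Real.exp_pos _
    have a5 : (m ^ 2 * (c * E * (1 + |s.im|) ^ (s.re - 1))) * ‖L s‖ ≤
        C1 * (1 + |s.im|) ^ (s.re + 1 / 2) * E := by
      refine le_trans ?_ a1
      gcongr
    have a6 : (1 + |s.im|) ^ (s.re + 1 / 2) = (1 + |s.im|) ^ (s.re - 1) *
        (1 + |s.im|) ^ (3 / 2 : ℝ) := by
      rw [← Real.rpow_add hT0]; congr 1; ring
    have a7 : (1 + |s.im|) ^ (3 / 2 : ℝ) ≤ (1 + |s.im|) ^ 2 := by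
      calc (1 + |s.im|) ^ (3 / 2 : ℝ) ≤ (1 + |s.im|) ^ (2 : ℝ) :=
            Real.rpow_le_rpow_of_exponent_le hT (by norm_num)
        _ = _ := Real.rpow_two _
    set P : ℝ := (1 + |s.im|) ^ (s.re - 1) with hP
    have hPpos : 0 < P := by positivity
    rw [a6] at a5
    have a8 : (E * P) * (m ^ 2 * c * ‖L s‖) ≤ (E * P) * (C1 * (1 + |s.im|) ^ (3 / 2 : ℝ)) := by
      calc (E * P) * (m ^ 2 * c * ‖L s‖) = (m ^ 2 * (c * E * P)) * ‖L s‖ := by ring
        _ ≤ _ := a5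
        _ = _ := by ring
    have a9 := le_of_mul_le_mul_left a8 (by positivity)
    have a10 : ‖L s‖ ≤ C1 / (m ^ 2 * c) * (1 + |s.im|) ^ (3 / 2 : ℝ) := by
      rw [div_mul_eq_mul_div, le_div_iff₀ (by positivity)]
      linarith
    calc ‖L s‖ ≤ C1 / (m ^ 2 * c) * (1 + |s.im|) ^ (3 / 2 : ℝ) := a10
      _ ≤ C1 / (m ^ 2 * c) * (1 + |s.im|) ^ 2 := by gcongr
      _ ≤ (C1 / (m ^ 2 * c) + S0) * (1 + |s.im|) ^ 2 := by
          gcongr
          linarith
  · have hs := D.ser s h2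
    have b1 : ∀ n : ℕ, ‖a (n + 1) * ((n : ℂ) + 1) ^ (-s)‖ ≤
        ‖a (n + 1) * ((n : ℂ) + 1) ^ (-(2 : ℂ))‖ := by
      intro n
      have hn : (0 : ℝ) < (n : ℝ) + 1 := by positivity
      have hn1 : (1 : ℝ) ≤ (n : ℝ) + 1 := by
        have : (0 : ℝ) ≤ n := by positivity
        linarith
      have hcast : ((n : ℂ) + 1) = (((n : ℝ) + 1 : ℝ) : ℂ) := by push_cast; rfl
      rw [norm_mul, norm_mul, hcast, Complex.norm_cpow_eq_rpow_re_of_pos hn,
        Complex.norm_cpow_eq_rpow_re_of_pos hn]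
      apply mul_le_mul_of_nonneg_left _ (norm_nonneg _)
      apply Real.rpow_le_rpow_of_exponent_le hn1
      simp
      linarith
    have b2 : Summable fun n : ℕ => ‖a (n + 1) * ((n : ℂ) + 1) ^ (-s)‖ :=
      Summable.of_nonneg_of_le (fun n => norm_nonneg _) b1 hs2
    have b3 : ‖L s‖ ≤ S0 := by
      rw [← hs.tsum_eq]
      exact (norm_tsum_le_tsum_norm b2).trans (b2.tsum_le_tsum b1 hs2)
    have b4 : 1 ≤ (1 + |s.im|) ^ 2 := one_le_pow₀ hT
    calc ‖L s‖ ≤ S0 * 1 := by linarith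
      _ ≤ (C1 / (m ^ 2 * c) + S0) * (1 + |s.im|) ^ 2 := by
          apply mul_le_mul _ b4 (by norm_num) (by positivity)
          have : 0 ≤ C1 / (m ^ 2 * c) := by positivity
          linarith

theorem r2_cont {N : ℕ} {a : ℕ → ℂ} {L : ℂ → ℂ} (D : Dat N a L) (u : ℂ) (ε : ℝ) : Continuous (r2 N L u ε) := by
  have hApos : 0 < √(N : ℝ) / (2 * π) := N12_A D.pos
  have hl : Continuous fun t : ℝ => (1 / 2 + t * I : ℂ) := by fun_prop
  have h1 : Continuous fun t : ℝ => ((√N / (2 * π) : ℝ) : ℂ) ^ (1 / 2 + t * I : ℂ) :=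
    hl.const_cpow (Or.inl (by exact_mod_cast hApos.ne'))
  have h2 : Continuous fun t : ℝ => Gamma (1 / 2 + t * I : ℂ) := by
    rw [continuous_iff_continuousAt]
    intro t
    have h3 : ContinuousAt Gamma (1 / 2 + t * I : ℂ) := by
      apply (differentiableAt_Gamma _ _).continuousAt
      intro m h0
      have := congrArg Complex.re h0
      simp at this
      have hm : (0 : ℝ) ≤ m := by positivity
      linarith
    exact ContinuousAt.comp (f := fun t : ℝ => (1 / 2 + t * I : ℂ)) h3 hl.continuousAt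
  have h3 : Continuous fun t : ℝ => L (1 / 2 + t * I : ℂ) := D.ent.continuous.comp hl
  unfold r2 Lam
  exact (by fun_prop : Continuous fun t : ℝ => Real.exp ((π / 2 - ε) * t)).mul
    (Complex.continuous_re.comp (continuous_const.mul ((h1.mul h2).mul h3)))

theorem r2_le {N : ℕ} {a : ℕ → ℂ} {L : ℂ → ℂ} (D : Dat N a L) : ∃ C : ℝ, 0 < C ∧ ∀ (u : ℂ) (ε : ℝ), ‖u‖ = 1 →
    0 < ε → ε ≤ 1 / 2 → ∀ t : ℝ, |r2 N L u ε t| ≤ C * (1 + |t|) ^ 4 * Real.exp (-(ε * |t|)) ∧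
      (t ≤ 0 → |r2 N L u ε t| ≤ C * (1 + |t|) ^ 4 * Real.exp (-|t|)) := by
  obtain ⟨C, hC, hLam⟩ := N12_Lam D
  refine ⟨C, hC, ?_⟩
  intro u ε hu h0 h1 t
  have hre : (1 / 2 + t * I : ℂ).re = 1 / 2 := by simp
  have him : (1 / 2 + t * I : ℂ).im = t := by simp
  have h2 := hLam (1 / 2 + t * I) (by rw [hre]) (by rw [hre]; norm_num)
  rw [hre, him] at h2
  have hT : 1 ≤ 1 + |t| := by linarith [abs_nonneg t]
  have h3 : (1 + |t|) ^ ((1 / 2 : ℝ) + 1 / 2) ≤ (1 + |t|) ^ 4 := by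
    rw [show ((1 / 2 : ℝ) + 1 / 2) = 1 by norm_num, Real.rpow_one]
    calc 1 + |t| = (1 + |t|) ^ 1 := (pow_one _).symm
      _ ≤ (1 + |t|) ^ 4 := pow_le_pow_right₀ hT (by norm_num)
  have h4 : |r2 N L u ε t| ≤ Real.exp ((π / 2 - ε) * t) * (C * (1 + |t|) ^ 4 *
      Real.exp (-(π / 2 * |t|))) := by
    unfold r2
    rw [abs_mul, abs_of_pos (Real.exp_pos _)]
    apply mul_le_mul_of_nonneg_left _ (Real.exp_pos _).le
    calc |(u * Lam N L (1 / 2 + t * I)).re| ≤ ‖u * Lam N L (1 / 2 + t * I)‖ :=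
          Complex.abs_re_le_norm _
      _ = ‖Lam N L (1 / 2 + t * I)‖ := by rw [norm_mul, hu, one_mul]
      _ ≤ _ := h2
      _ ≤ _ := by gcongr
  have h5 : ∀ w : ℝ, (π / 2 - ε) * t - π / 2 * |t| ≤ w →
      |r2 N L u ε t| ≤ C * (1 + |t|) ^ 4 * Real.exp w := by
    intro w hw
    refine h4.trans ?_
    calc Real.exp ((π / 2 - ε) * t) * (C * (1 + |t|) ^ 4 * Real.exp (-(π / 2 * |t|)))
        = C * (1 + |t|) ^ 4 * (Real.exp ((π / 2 - ε) * t) * Real.exp (-(π / 2 * |t|))) := by ring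
      _ = C * (1 + |t|) ^ 4 * Real.exp ((π / 2 - ε) * t - π / 2 * |t|) := by
          rw [← Real.exp_add]; rfl
      _ ≤ _ := by gcongr
  have hpi := Real.pi_gt_three
  have h6 : t ≤ 0 → (π / 2 - ε) * t - π / 2 * |t| ≤ -|t| := by
    intro h
    rw [abs_of_nonpos h]
    nlinarith
  refine ⟨h5 _ ?_, fun h => h5 _ (h6 h)⟩
  rcases le_total 0 t with h | h
  · rw [abs_of_nonneg h]; nlinarith
  · refine (h6 h).trans ?_
    have := abs_nonneg t
    nlinarith

/-- on the critical line -/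
theorem r2_abs {N : ℕ} {a : ℕ → ℂ} {L : ℂ → ℂ} (D : Dat N a L) {u : ℂ} (hu : Un N a u) (ε t : ℝ) :
    |r2 N L u ε t| = Real.exp ((π / 2 - ε) * t) * (√(√N / (2 * π)) * √(π / Real.cosh (π * t)) *
      ‖L (1 / 2 + t * I)‖) := by
  have hApos : 0 < √(N : ℝ) / (2 * π) := N12_A D.pos
  unfold r2
  rw [abs_mul, abs_of_pos (Real.exp_pos _)]
  congr 1
  have h1 := lam_real D hu t
  have h2 : |(u * Lam N L (1 / 2 + t * I)).re| = ‖u * Lam N L (1 / 2 + t * I)‖ := by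
    rw [Complex.abs_re_eq_norm.mpr h1]
  rw [h2, norm_mul, hu.1, one_mul, Lam, norm_mul, norm_mul, N12_half,
    Complex.norm_cpow_eq_rpow_re_of_pos hApos, Real.sqrt_eq_rpow (√N / (2 * π))]
  congr 3
  simp

end NH
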