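import Pool.Agent.Lib.MP_0f5a55_nt.NH.M06
import Mathlib.NumberTheory.Chebyshev

open Complex MeasureTheory Set Filter Topology
open scoped Real ComplexConjugate

namespace NH

theorem M10_pt0 {y : ℝ} (hy : 0 ≤ y) {J : ℕ} (hJ : 1 + y < 2 ^ J) :
    ∃ j ∈ Finset.range J, y ≤ 2 ^ (j + 1) ∧ ((1 + y) ^ 4)⁻¹ ≤ (1 / 16 : ℝ) ^ j := by
  obtain ⟨j, h1, h2⟩ := exists_nat_pow_near (show (1 : ℝ) ≤ 1 + y by linarith) (one_lt_two)
  refine ⟨j, ?_, by linarith, ?_⟩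
  · rw [Finset.mem_range]
    by_contra h
    push Not at h
    have : (2 : ℝ) ^ J ≤ 2 ^ j := pow_le_pow_right₀ (by norm_num) h
    linarith
  · have h3 : (1 / 16 : ℝ) ^ j = (((2 : ℝ) ^ j) ^ 4)⁻¹ := by
      rw [← pow_mul, mul_comm j 4, pow_mul, ← inv_pow]
      norm_num
    rw [h3]
    apply inv_anti₀ (by positivity)
    exact pow_le_pow_left₀ (by positivity) h1 4

theorem M10_pt1 {y : ℝ} (hy : 0 ≤ y) {J : ℕ} (hJ : 1 + y < 2 ^ J) :
    ((1 + y) ^ 4)⁻¹ ≤ Real.exp 2 * ∑ j ∈ Finset.range J, (1 / 16 : ℝ) ^ j * Real.exp (-(y / 2 ^ j)) := by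
  obtain ⟨j, hj, h1, h2⟩ := M10_pt0 hy hJ
  have h3 : (1 / 16 : ℝ) ^ j * Real.exp (-(y / 2 ^ j)) ≤
      ∑ j ∈ Finset.range J, (1 / 16 : ℝ) ^ j * Real.exp (-(y / 2 ^ j)) :=
    Finset.single_le_sum (f := fun j => (1 / 16 : ℝ) ^ j * Real.exp (-(y / 2 ^ j)))
      (fun i _ => by positivity) hj
  have h4 : y / 2 ^ j ≤ 2 := by
    rw [div_le_iff₀ (by positivity)]
    rw [pow_succ] at h1
    linarith
  have h5 : Real.exp (-2) ≤ Real.exp (-(y / 2 ^ j)) := Real.exp_le_exp.mpr (by linarith)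
  have h6 : Real.exp 2 * Real.exp (-2) = 1 := by rw [← Real.exp_add]; simp
  calc ((1 + y) ^ 4)⁻¹ ≤ (1 / 16 : ℝ) ^ j := h2
    _ = Real.exp 2 * ((1 / 16 : ℝ) ^ j * Real.exp (-2)) := by
        rw [mul_left_comm, h6, mul_one]
    _ ≤ Real.exp 2 * ((1 / 16 : ℝ) ^ j * Real.exp (-(y / 2 ^ j))) := by gcongr
    _ ≤ _ := by gcongr

theorem M10_pt2 {y : ℝ} (hy : 0 ≤ y) {J : ℕ} (hJ : 1 + y < 2 ^ J) :
    ((1 + y) ^ 4)⁻¹ ≤ ∑ j ∈ Finset.range J, (1 / 16 : ℝ) ^ j * (if y ≤ 2 ^ (j + 1) then 1 else 0) := by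
  obtain ⟨j, hj, h1, h2⟩ := M10_pt0 hy hJ
  have h3 : (1 / 16 : ℝ) ^ j * (if y ≤ 2 ^ (j + 1) then 1 else 0) ≤
      ∑ j ∈ Finset.range J, (1 / 16 : ℝ) ^ j * (if y ≤ 2 ^ (j + 1) then 1 else 0) :=
    Finset.single_le_sum (f := fun j => (1 / 16 : ℝ) ^ j * (if y ≤ 2 ^ (j + 1) then 1 else 0))
      (fun i _ => by positivity) hj
  rw [if_pos h1, mul_one] at h3
  linarith

theorem M10_exJ (y : ℝ) : ∃ J : ℕ, 1 + y < 2 ^ J :=
  pow_unbounded_of_one_lt (1 + y) one_lt_two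

theorem M10_a_le {N : ℕ} {a : ℕ → ℂ} {L : ℂ → ℂ} (D : Dat N a L) {n : ℕ} (hn : 0 < n) : ‖a n‖ ≤ n := by
  have h1 := D.bd n hn
  have h2 : n.divisors.card ≤ n := Nat.card_divisors_le_self n
  have h3 : (n.divisors.card : ℝ) ≤ n := by exact_mod_cast h2
  linarith

theorem M10_exp_summable {N : ℕ} {a : ℕ → ℂ} {L : ℂ → ℂ} (D : Dat N a L) {x : ℝ} (hx : 0 < x) :
    Summable (fun n : ℕ => ‖a (n + 1)‖ ^ 2 * Real.exp (-(x * ((n : ℝ) + 1)))) := by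
  have h1 : Summable (fun n : ℕ => (n : ℝ) ^ 2 * Real.exp (-x * n)) :=
    Real.summable_pow_mul_exp_neg_nat_mul 2 hx
  have h2 := (summable_nat_add_iff 1).mpr h1
  refine Summable.of_nonneg_of_le (fun n => by positivity) (fun n => ?_) h2
  have h3 : ‖a (n + 1)‖ ≤ ((n + 1 : ℕ) : ℝ) := M10_a_le D (Nat.succ_pos n)
  have h4 : ‖a (n + 1)‖ ^ 2 ≤ ((n + 1 : ℕ) : ℝ) ^ 2 := pow_le_pow_left₀ (norm_nonneg _) h3 2
  have h5 : Real.exp (-(x * ((n : ℝ) + 1))) = Real.exp (-x * ((n + 1 : ℕ) : ℝ)) := by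
    congr 1; push_cast; ring
  rw [h5]
  gcongr

theorem M10_ms {N : ℕ} {a : ℕ → ℂ} {L : ℂ → ℂ} (D : Dat N a L) : ∃ C : ℝ, 0 ≤ C ∧ ∀ x : ℝ, 0 < x → ∀ M : ℕ,
    ∑ n ∈ Finset.range M, ‖a (n + 1)‖ ^ 2 * Real.exp (-(x * ((n : ℝ) + 1))) ≤ C / x := by
  obtain ⟨C, hC, h⟩ := D.ms
  refine ⟨C, hC, fun x hx M => ?_⟩
  exact ((M10_exp_summable D hx).sum_le_tsum _ (fun i _ => by positivity)).trans (h x hx)

/-- Row M10. Mean square of the coefficients with smooth weights. -/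
theorem M10_poly_fin {N : ℕ} {a : ℕ → ℂ} {L : ℂ → ℂ} (D : Dat N a L) : ∃ C : ℝ, 0 ≤ C ∧ ∀ x : ℝ, 0 < x → ∀ M : ℕ,
    ∑ n ∈ Finset.range M, ‖a (n + 1)‖ ^ 2 * ((1 + x * ((n : ℝ) + 1)) ^ 4)⁻¹ ≤ C / x := by
  obtain ⟨C, hC, h⟩ := M10_ms D
  refine ⟨Real.exp 2 * (C * 2), by positivity, fun x hx M => ?_⟩
  obtain ⟨J, hJ⟩ := M10_exJ (x * M)
  have h1 : ∀ n ∈ Finset.range M, ‖a (n + 1)‖ ^ 2 * ((1 + x * ((n : ℝ) + 1)) ^ 4)⁻¹ ≤
      ‖a (n + 1)‖ ^ 2 * (Real.exp 2 * ∑ j ∈ Finset.range J, (1 / 16 : ℝ) ^ j *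
        Real.exp (-(x * ((n : ℝ) + 1) / 2 ^ j))) := by
    intro n hn
    have hn' : (n : ℝ) + 1 ≤ M := by
      have := Finset.mem_range.mp hn
      exact_mod_cast this
    have h2 : x * ((n : ℝ) + 1) ≤ x * M := by gcongr
    have := M10_pt1 (y := x * ((n : ℝ) + 1)) (by positivity) (J := J) (by linarith)
    gcongr
  refine (Finset.sum_le_sum h1).trans ?_
  have h2 : ∑ n ∈ Finset.range M, ‖a (n + 1)‖ ^ 2 * (Real.exp 2 * ∑ j ∈ Finset.range J, (1 / 16 : ℝ) ^ j *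
        Real.exp (-(x * ((n : ℝ) + 1) / 2 ^ j))) =
      Real.exp 2 * ∑ j ∈ Finset.range J, (1 / 16 : ℝ) ^ j * ∑ n ∈ Finset.range M, ‖a (n + 1)‖ ^ 2 *
        Real.exp (-(x / 2 ^ j * ((n : ℝ) + 1))) := by
    rw [Finset.mul_sum]
    simp_rw [Finset.mul_sum]
    rw [Finset.sum_comm]
    refine Finset.sum_congr rfl (fun j _ => Finset.sum_congr rfl (fun n _ => ?_))
    have : x * ((n : ℝ) + 1) / 2 ^ j = x / 2 ^ j * ((n : ℝ) + 1) := by ring
    rw [this]; ring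
  rw [h2]
  have h3 : ∀ j ∈ Finset.range J, (1 / 16 : ℝ) ^ j * ∑ n ∈ Finset.range M, ‖a (n + 1)‖ ^ 2 *
        Real.exp (-(x / 2 ^ j * ((n : ℝ) + 1))) ≤ (C / x) * (1 / 8 : ℝ) ^ j := by
    intro j _
    have := h (x / 2 ^ j) (by positivity) M
    have h4 : C / (x / 2 ^ j) = C / x * 2 ^ j := by field_simp
    rw [h4] at this
    calc _ ≤ (1 / 16 : ℝ) ^ j * (C / x * 2 ^ j) := by gcongr
      _ = (C / x) * ((1 / 16 : ℝ) ^ j * 2 ^ j) := by ring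
      _ = _ := by rw [← mul_pow]; norm_num
  have h5 : ∑ j ∈ Finset.range J, (1 / 8 : ℝ) ^ j ≤ 2 := by
    have h6 : Summable (fun j : ℕ => (1 / 8 : ℝ) ^ j) := summable_geometric_of_lt_one (by norm_num) (by norm_num)
    have h7 := h6.sum_le_tsum (Finset.range J) (fun i _ => by positivity)
    rw [tsum_geometric_of_lt_one (by norm_num) (by norm_num)] at h7
    have h8 : (1 - 1 / 8 : ℝ)⁻¹ ≤ 2 := by norm_num
    linarith
  calc _ ≤ Real.exp 2 * ∑ j ∈ Finset.range J, (C / x) * (1 / 8 : ℝ) ^ j :=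
        mul_le_mul_of_nonneg_left (Finset.sum_le_sum h3) (Real.exp_pos 2).le
    _ = Real.exp 2 * ((C / x) * ∑ j ∈ Finset.range J, (1 / 8 : ℝ) ^ j) := by rw [← Finset.mul_sum]
    _ ≤ Real.exp 2 * ((C / x) * 2) := by gcongr
    _ = _ := by ring

/-- Row M10. Mean square of the coefficients with smooth weights. -/
theorem ms_poly {N : ℕ} {a : ℕ → ℂ} {L : ℂ → ℂ} (D : Dat N a L) : ∃ C : ℝ, 0 ≤ C ∧ ∀ x : ℝ, 0 < x →
    Summable (fun n : ℕ => ‖a (n + 1)‖ ^ 2 * ((1 + x * ((n : ℝ) + 1)) ^ 4)⁻¹) ∧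
    ∑' n : ℕ, ‖a (n + 1)‖ ^ 2 * ((1 + x * ((n : ℝ) + 1)) ^ 4)⁻¹ ≤ C / x := by
  obtain ⟨C, hC, h⟩ := M10_poly_fin D
  refine ⟨C, hC, fun x hx => ⟨summable_of_sum_range_le (fun n => by positivity) (h x hx), ?_⟩⟩
  exact Real.tsum_le_of_sum_range_le (fun n => by positivity) (h x hx)

/-- weights of prime powers -/
theorem M10_W : ∃ B : ℝ, 0 ≤ B ∧ ∀ (N : ℕ) (Y : ℝ), 1 ≤ Y →
    ∑ q ∈ ((Finset.range (N + 1)).filter Nat.Prime ×ˢ Finset.Icc 1 N).filter (fun q => ((q.1 : ℝ) ^ q.2 ≤ Y)),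
      (((q.2 : ℝ) + 1) ^ 2 * q.2 * Real.log q.1) ≤ B * Y := by
  have hs1 : Summable (fun j : ℕ => ((j : ℝ) + 1) ^ 2 * j * (1 / 2 : ℝ) ^ j) := by
    have h3 : Summable (fun j : ℕ => (j : ℝ) ^ 3 * (1 / 2 : ℝ) ^ j) :=
      summable_pow_mul_geometric_of_norm_lt_one 3 (by norm_num)
    have h2 : Summable (fun j : ℕ => (j : ℝ) ^ 2 * (1 / 2 : ℝ) ^ j) :=
      summable_pow_mul_geometric_of_norm_lt_one 2 (by norm_num)
    have h1 : Summable (fun j : ℕ => (j : ℝ) ^ 1 * (1 / 2 : ℝ) ^ j) :=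
      summable_pow_mul_geometric_of_norm_lt_one 1 (by norm_num)
    have := (h3.add (h2.mul_left 2)).add h1
    refine this.congr (fun j => ?_)
    ring
  have hs2 : Summable (fun n : ℕ => 2 * (n : ℝ) ^ (-(3 / 2) : ℝ)) := by
    apply Summable.mul_left
    rw [Real.summable_nat_rpow]
    norm_num
  set B1 := ∑' j : ℕ, ((j : ℝ) + 1) ^ 2 * j * (1 / 2 : ℝ) ^ j
  set B2 := ∑' n : ℕ, 2 * (n : ℝ) ^ (-(3 / 2) : ℝ)
  have hB1 : 0 ≤ B1 := tsum_nonneg (fun j => by positivity)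
  have hB2 : 0 ≤ B2 := tsum_nonneg (fun j => by positivity)
  refine ⟨4 * Real.log 4 + 4 * (B2 * B1), by positivity, fun N Y hY => ?_⟩
  have hlog : ∀ n : ℕ, 0 ≤ Real.log n := fun n => Real.log_natCast_nonneg n
  -- pointwise bound
  have hpt : ∀ q ∈ ((Finset.range (N + 1)).filter Nat.Prime ×ˢ Finset.Icc 1 N).filter
      (fun q => ((q.1 : ℝ) ^ q.2 ≤ Y)),
      (((q.2 : ℝ) + 1) ^ 2 * q.2 * Real.log q.1) ≤
        (if q.2 = 1 ∧ (q.1 : ℝ) ≤ Y then 4 * Real.log q.1 else 0) +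
          4 * Y * ((2 * (q.1 : ℝ) ^ (-(3 / 2) : ℝ)) * (((q.2 : ℝ) + 1) ^ 2 * q.2 * (1 / 2 : ℝ) ^ q.2)) := by
    rintro ⟨p, j⟩ hq
    simp only [Finset.mem_filter, Finset.mem_product, Finset.mem_range, Finset.mem_Icc] at hq
    obtain ⟨⟨⟨_, hp⟩, hj1, _⟩, hY'⟩ := hq
    simp only
    by_cases hj : j = 1
    · subst hj
      have : (p : ℝ) ≤ Y := by simpa using hY'
      rw [if_pos ⟨rfl, this⟩]
      have h0 : 0 ≤ 4 * Y * ((2 * (p : ℝ) ^ (-(3 / 2) : ℝ)) *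
          ((((1 : ℕ) : ℝ) + 1) ^ 2 * ((1 : ℕ) : ℝ) * (1 / 2 : ℝ) ^ 1)) := by positivity
      have h1 : ((((1 : ℕ) : ℝ) + 1) ^ 2 * ((1 : ℕ) : ℝ) * Real.log p) = 4 * Real.log p := by
        push_cast; ring
      rw [h1]
      linarith
    · have hj2 : 2 ≤ j := by omega
      rw [if_neg (fun h => hj h.1), zero_add]
      have hp2 : (2 : ℝ) ≤ p := by exact_mod_cast hp.two_le
      have hp0 : (0 : ℝ) < p := by linarith
      have h1 : Real.log p ≤ 2 * (p : ℝ) ^ (1 / 2 : ℝ) := by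
        have := Real.log_le_rpow_div hp0.le (show (0 : ℝ) < 1 / 2 by norm_num)
        linarith
      have h2 : (p : ℝ) ^ 2 * 2 ^ (j - 2) ≤ Y := by
        refine le_trans ?_ hY'
        have : (p : ℝ) ^ j = p ^ 2 * p ^ (j - 2) := by rw [← pow_add]; congr 1; omega
        rw [this]
        gcongr
      have h3 : (1 : ℝ) ≤ Y * ((p : ℝ) ^ 2)⁻¹ * (4 * (1 / 2 : ℝ) ^ j) := by
        have h4 : (1 / 2 : ℝ) ^ j * 4 * 2 ^ (j - 2) = 1 := by
          obtain ⟨k, rfl⟩ := Nat.exists_eq_add_of_le hj2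
          rw [Nat.add_sub_cancel_left, pow_add, one_div, inv_pow, inv_pow]
          field_simp
          norm_num
        have h5 : 0 < (p : ℝ) ^ 2 := by positivity
        calc (1 : ℝ) = ((p : ℝ) ^ 2 * 2 ^ (j - 2)) * ((p : ℝ) ^ 2)⁻¹ * (4 * (1 / 2 : ℝ) ^ j) := by
              rw [mul_comm ((p : ℝ) ^ 2) (2 ^ (j - 2)), mul_assoc, mul_assoc, ← mul_assoc ((p : ℝ) ^ 2),
                mul_inv_cancel₀ h5.ne', one_mul]
              linarith
          _ ≤ Y * ((p : ℝ) ^ 2)⁻¹ * (4 * (1 / 2 : ℝ) ^ j) := by gcongr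
      have h6 : (p : ℝ) ^ (1 / 2 : ℝ) * ((p : ℝ) ^ 2)⁻¹ = (p : ℝ) ^ (-(3 / 2) : ℝ) := by
        rw [← Real.rpow_natCast, ← Real.rpow_neg hp0.le, ← Real.rpow_add hp0]
        norm_num
      have h7 : Real.log p ≤ 4 * Y * (2 * (p : ℝ) ^ (-(3 / 2) : ℝ)) * (1 / 2 : ℝ) ^ j := by
        calc Real.log p ≤ 2 * (p : ℝ) ^ (1 / 2 : ℝ) * 1 := by linarith
          _ ≤ 2 * (p : ℝ) ^ (1 / 2 : ℝ) * (Y * ((p : ℝ) ^ 2)⁻¹ * (4 * (1 / 2 : ℝ) ^ j)) := by gcongr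
          _ = 4 * Y * (2 * ((p : ℝ) ^ (1 / 2 : ℝ) * ((p : ℝ) ^ 2)⁻¹)) * (1 / 2 : ℝ) ^ j := by ring
          _ = _ := by rw [h6]
      calc ((j : ℝ) + 1) ^ 2 * j * Real.log p ≤ ((j : ℝ) + 1) ^ 2 * j *
            (4 * Y * (2 * (p : ℝ) ^ (-(3 / 2) : ℝ)) * (1 / 2 : ℝ) ^ j) := by gcongr
        _ = _ := by ring
  refine (Finset.sum_le_sum hpt).trans ?_
  rw [Finset.sum_add_distrib]
  have hA : ∑ q ∈ ((Finset.range (N + 1)).filter Nat.Prime ×ˢ Finset.Icc 1 N).filter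
      (fun q => ((q.1 : ℝ) ^ q.2 ≤ Y)),
        (if q.2 = 1 ∧ (q.1 : ℝ) ≤ Y then 4 * Real.log q.1 else 0) ≤ 4 * Real.log 4 * Y := by
    refine (Finset.sum_le_sum_of_subset_of_nonneg (Finset.filter_subset _ _) (fun q _ _ => ?_)).trans ?_
    · have := hlog q.1
      split_ifs <;> positivity
    rw [Finset.sum_product]
    have h1 : ∀ p ∈ (Finset.range (N + 1)).filter Nat.Prime,
        ∑ j ∈ Finset.Icc 1 N, (if j = 1 ∧ (p : ℝ) ≤ Y then 4 * Real.log p else 0) ≤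
          (if (p : ℝ) ≤ Y then 4 * Real.log p else 0) := by
      intro p _
      by_cases hp : (p : ℝ) ≤ Y
      · simp only [hp, and_true, if_true]
        rw [Finset.sum_ite_eq' (Finset.Icc 1 N) 1 (fun _ => 4 * Real.log p)]
        have := hlog p
        split_ifs <;> linarith
      · simp [hp]
    refine (Finset.sum_le_sum h1).trans ?_
    have h2 : ∑ p ∈ (Finset.range (N + 1)).filter Nat.Prime, (if (p : ℝ) ≤ Y then 4 * Real.log p else 0) ≤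
        4 * Chebyshev.theta Y := by
      rw [Chebyshev.theta_eq_sum_Icc, Finset.mul_sum, ← Finset.sum_filter]
      refine Finset.sum_le_sum_of_subset_of_nonneg ?_ (fun p _ _ => by have := hlog p; positivity)
      intro p hp
      simp only [Finset.mem_filter, Finset.mem_range, Finset.mem_Icc] at hp ⊢
      exact ⟨⟨Nat.zero_le _, Nat.le_floor hp.2⟩, hp.1.2⟩
    have h3 := Chebyshev.theta_le_log4_mul_x (show (0 : ℝ) ≤ Y by linarith)
    linarith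
  have hB : ∑ q ∈ ((Finset.range (N + 1)).filter Nat.Prime ×ˢ Finset.Icc 1 N).filter
      (fun q => ((q.1 : ℝ) ^ q.2 ≤ Y)),
        4 * Y * ((2 * (q.1 : ℝ) ^ (-(3 / 2) : ℝ)) * (((q.2 : ℝ) + 1) ^ 2 * q.2 * (1 / 2 : ℝ) ^ q.2)) ≤
          4 * Y * (B2 * B1) := by
    refine (Finset.sum_le_sum_of_subset_of_nonneg (Finset.filter_subset _ _) (fun q _ _ => by positivity)).trans ?_
    rw [← Finset.mul_sum, Finset.sum_product]
    have h1 : ∑ p ∈ (Finset.range (N + 1)).filter Nat.Prime, ∑ j ∈ Finset.Icc 1 N,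
        ((2 * (p : ℝ) ^ (-(3 / 2) : ℝ)) * (((j : ℝ) + 1) ^ 2 * j * (1 / 2 : ℝ) ^ j)) =
        (∑ p ∈ (Finset.range (N + 1)).filter Nat.Prime, 2 * (p : ℝ) ^ (-(3 / 2) : ℝ)) *
          ∑ j ∈ Finset.Icc 1 N, (((j : ℝ) + 1) ^ 2 * j * (1 / 2 : ℝ) ^ j) := by
      rw [Finset.sum_mul_sum]
    have h2 : (∑ p ∈ (Finset.range (N + 1)).filter Nat.Prime, 2 * (p : ℝ) ^ (-(3 / 2) : ℝ)) ≤ B2 :=
      hs2.sum_le_tsum _ (fun i _ => by positivity)
    have h3 : ∑ j ∈ Finset.Icc 1 N, (((j : ℝ) + 1) ^ 2 * j * (1 / 2 : ℝ) ^ j) ≤ B1 :=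
      hs1.sum_le_tsum _ (fun i _ => by positivity)
    have h4 : ∑ p ∈ (Finset.range (N + 1)).filter Nat.Prime, ∑ j ∈ Finset.Icc 1 N,
        ((2 * (p : ℝ) ^ (-(3 / 2) : ℝ)) * (((j : ℝ) + 1) ^ 2 * j * (1 / 2 : ℝ) ^ j)) ≤ B2 * B1 := by
      rw [h1]
      exact mul_le_mul h2 h3 (Finset.sum_nonneg (fun i _ => by positivity)) hB2
    gcongr
  calc _ ≤ 4 * Real.log 4 * Y + 4 * Y * (B2 * B1) := add_le_add hA hB
    _ = _ := by ring


theorem M10_hpow {N : ℕ} {a : ℕ → ℂ} {L : ℂ → ℂ} (D : Dat N a L) {p : ℕ} (hp : p.Prime) (j : ℕ) :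
    ‖a (p ^ j)‖ ^ 2 ≤ ((j : ℝ) + 1) ^ 2 := by
  have h1 := D.bd (p ^ j) (pow_pos hp.pos j)
  have h2 : ((p ^ j).divisors.card : ℝ) = (j : ℝ) + 1 := by
    rw [Nat.divisors_prime_pow hp, Finset.card_map, Finset.card_range]
    push_cast; ring
  rw [h2] at h1
  exact pow_le_pow_left₀ (norm_nonneg _) h1 2

theorem M10_shift (g : ℕ → ℝ) (M : ℕ) : ∑ m ∈ Finset.Icc 1 M, g m = ∑ n ∈ Finset.range M, g (n + 1) := by
  induction M with
  | zero => simp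
  | succ M ih => rw [Finset.sum_Icc_succ_top (by omega), Finset.sum_range_succ, ih]

/-- log n as a sum over the exact prime powers -/
theorem M10_hlog {N : ℕ} {a : ℕ → ℂ} {L : ℂ → ℂ} (D : Dat N a L) {n M : ℕ} (hn : 0 < n) (hM : n ≤ M) :
    ‖a n‖ ^ 2 * Real.log n ≤ ∑ q ∈ (Finset.range (M + 1)).filter Nat.Prime ×ˢ Finset.Icc 1 M,
      (if q.1 ^ q.2 ∣ n then ‖a (n / q.1 ^ q.2)‖ ^ 2 * (((q.2 : ℝ) + 1) ^ 2 * q.2 * Real.log q.1) else 0) := by
  have hlog : ∀ n : ℕ, 0 ≤ Real.log n := fun n => Real.log_natCast_nonneg n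
  have h1 : Real.log n = ∑ p ∈ n.primeFactors, (n.factorization p : ℝ) * Real.log p := by
    conv_lhs => rw [← Nat.prod_factorization_pow_eq_self hn.ne']
    rw [Finsupp.prod, Nat.cast_prod, Real.log_prod]
    · rw [Nat.support_factorization]
      refine Finset.sum_congr rfl (fun p _ => ?_)
      rw [Nat.cast_pow, Real.log_pow]
    · intro p hp
      rw [Nat.support_factorization] at hp
      have := (Nat.prime_of_mem_primeFactors hp).pos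
      positivity
  rw [h1, Finset.mul_sum]
  have h2 : ∀ p ∈ n.primeFactors, ‖a n‖ ^ 2 * ((n.factorization p : ℝ) * Real.log p) ≤
      (if p ^ (n.factorization p) ∣ n then ‖a (n / p ^ (n.factorization p))‖ ^ 2 *
        ((((n.factorization p : ℕ) : ℝ) + 1) ^ 2 * (n.factorization p : ℕ) * Real.log p) else 0) := by
    intro p hp
    have hp' := Nat.prime_of_mem_primeFactors hp
    have h3 : p ^ (n.factorization p) ∣ n := Nat.ordProj_dvd n p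
    rw [if_pos h3]
    have h4 : a n = a (p ^ (n.factorization p)) * a (n / p ^ (n.factorization p)) := by
      conv_lhs => rw [← Nat.ordProj_mul_ordCompl_eq_self n p]
      apply D.mul _ _ (Nat.ordProj_pos n p) (Nat.ordCompl_pos p hn.ne')
      exact (Nat.coprime_ordCompl hp' hn.ne').pow_left _
    have h5 := M10_hpow D hp' (n.factorization p)
    rw [h4, norm_mul, mul_pow]
    have h6 := hlog p
    calc ‖a (p ^ (n.factorization p))‖ ^ 2 * ‖a (n / p ^ (n.factorization p))‖ ^ 2 *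
          ((n.factorization p : ℝ) * Real.log p)
        = ‖a (n / p ^ (n.factorization p))‖ ^ 2 * (‖a (p ^ (n.factorization p))‖ ^ 2 *
          ((n.factorization p : ℝ) * Real.log p)) := by ring
      _ ≤ ‖a (n / p ^ (n.factorization p))‖ ^ 2 * (((n.factorization p : ℝ) + 1) ^ 2 *
          ((n.factorization p : ℝ) * Real.log p)) := by gcongr
      _ = _ := by ring
  refine (Finset.sum_le_sum h2).trans ?_
  have h3 : ∑ p ∈ n.primeFactors, (if p ^ (n.factorization p) ∣ n then ‖a (n / p ^ (n.factorization p))‖ ^ 2 *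
        ((((n.factorization p : ℕ) : ℝ) + 1) ^ 2 * (n.factorization p : ℕ) * Real.log p) else 0) =
      ∑ q ∈ n.primeFactors.image (fun p => (p, n.factorization p)),
        (if q.1 ^ q.2 ∣ n then ‖a (n / q.1 ^ q.2)‖ ^ 2 * (((q.2 : ℝ) + 1) ^ 2 * q.2 * Real.log q.1) else 0) := by
    rw [Finset.sum_image]
    intro p _ p' _ h
    exact (Prod.mk.inj h).1
  rw [h3]
  refine Finset.sum_le_sum_of_subset_of_nonneg ?_ (fun q _ _ => ?_)
  · intro q hq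
    obtain ⟨p, hp, rfl⟩ := Finset.mem_image.mp hq
    have hp' := Nat.prime_of_mem_primeFactors hp
    have hd : p ∣ n := Nat.dvd_of_mem_primeFactors hp
    simp only [Finset.mem_product, Finset.mem_filter, Finset.mem_range, Finset.mem_Icc]
    refine ⟨⟨by have := Nat.le_of_dvd hn hd; omega, hp'⟩, ?_, ?_⟩
    · exact Nat.one_le_iff_ne_zero.mpr (hp'.factorization_pos_of_dvd hn.ne' hd).ne'
    · have h4 : n.factorization p < n := Nat.factorization_lt p hn.ne'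
      omega
  · have := hlog q.1
    split_ifs <;> positivity

/-- Hall-Tenenbaum type bound -/
theorem M10_HT {N : ℕ} {a : ℕ → ℂ} {L : ℂ → ℂ} (D : Dat N a L) : ∃ C : ℝ, 0 ≤ C ∧ ∀ X : ℝ, 3 ≤ X →
    ∑ n ∈ Finset.Icc 1 ⌊X⌋₊, ‖a n‖ ^ 2 ≤ C * (X / Real.log X * Real.exp (Sp a (1 / Real.log X))) := by
  obtain ⟨B, hB, hW⟩ := M10_W
  obtain ⟨C1, hC1, hE⟩ := ms_euler D
  refine ⟨(B + 1) * (Real.exp 1 * C1), by positivity, fun X hX => ?_⟩
  set M := ⌊X⌋₊ with hM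
  have hX0 : 0 < X := by linarith
  have hl1 : 1 < Real.log X := by
    rw [Real.lt_log_iff_exp_lt hX0]
    have := Real.exp_one_lt_d9
    linarith
  have hMX : (M : ℝ) ≤ X := Nat.floor_le hX0.le
  -- the logarithmic part
  have hA : ∑ n ∈ Finset.Icc 1 M, ‖a n‖ ^ 2 * Real.log n ≤ ∑ m ∈ Finset.Icc 1 M, ‖a m‖ ^ 2 * (B * (X / m)) := by
    have h1 : ∀ n ∈ Finset.Icc 1 M, ‖a n‖ ^ 2 * Real.log n ≤
        ∑ q ∈ (Finset.range (M + 1)).filter Nat.Prime ×ˢ Finset.Icc 1 M,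
          (if q.1 ^ q.2 ∣ n then ‖a (n / q.1 ^ q.2)‖ ^ 2 * (((q.2 : ℝ) + 1) ^ 2 * q.2 * Real.log q.1) else 0) := by
      intro n hn
      rw [Finset.mem_Icc] at hn
      exact M10_hlog D hn.1 hn.2
    refine (Finset.sum_le_sum h1).trans ?_
    rw [Finset.sum_comm]
    have h2 : ∀ q ∈ (Finset.range (M + 1)).filter Nat.Prime ×ˢ Finset.Icc 1 M,
        ∑ n ∈ Finset.Icc 1 M, (if q.1 ^ q.2 ∣ n then ‖a (n / q.1 ^ q.2)‖ ^ 2 *
          (((q.2 : ℝ) + 1) ^ 2 * q.2 * Real.log q.1) else 0) =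
        ∑ m ∈ Finset.Icc 1 M, (if m * q.1 ^ q.2 ≤ M then ‖a m‖ ^ 2 *
          (((q.2 : ℝ) + 1) ^ 2 * q.2 * Real.log q.1) else 0) := by
      intro q hq
      simp only [Finset.mem_product, Finset.mem_filter, Finset.mem_range, Finset.mem_Icc] at hq
      have hq0 : 0 < q.1 ^ q.2 := pow_pos hq.1.2.pos _
      rw [← Finset.sum_filter, ← Finset.sum_filter]
      refine Finset.sum_nbij' (fun n => n / q.1 ^ q.2) (fun m => m * q.1 ^ q.2) ?_ ?_ ?_ ?_ ?_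
      · intro n hn
        simp only [Finset.mem_filter, Finset.mem_Icc] at hn ⊢
        obtain ⟨⟨h3, h4⟩, h5⟩ := hn
        refine ⟨⟨Nat.div_pos (Nat.le_of_dvd h3 h5) hq0, (Nat.div_le_self _ _).trans h4⟩, ?_⟩
        rw [Nat.div_mul_cancel h5]; exact h4
      · intro m hm
        simp only [Finset.mem_filter, Finset.mem_Icc] at hm ⊢
        obtain ⟨⟨h3, h4⟩, h5⟩ := hm
        exact ⟨⟨Nat.mul_pos h3 hq0, h5⟩, Dvd.intro_left m rfl⟩
      · intro n hn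
        simp only [Finset.mem_filter, Finset.mem_Icc] at hn
        exact Nat.div_mul_cancel hn.2
      · intro m _
        exact Nat.mul_div_cancel m hq0
      · intro n _; rfl
    rw [Finset.sum_congr rfl h2, Finset.sum_comm]
    refine Finset.sum_le_sum (fun m hm => ?_)
    rw [Finset.mem_Icc] at hm
    have hm0 : (0 : ℝ) < m := by exact_mod_cast hm.1
    have hY : 1 ≤ X / m := by
      rw [le_div_iff₀ hm0, one_mul]
      have : (m : ℝ) ≤ M := by exact_mod_cast hm.2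
      linarith
    have h3 := hW M (X / m) hY
    rw [Finset.sum_filter] at h3
    have h4 : ∑ q ∈ (Finset.range (M + 1)).filter Nat.Prime ×ˢ Finset.Icc 1 M,
        (if m * q.1 ^ q.2 ≤ M then ‖a m‖ ^ 2 * (((q.2 : ℝ) + 1) ^ 2 * q.2 * Real.log q.1) else 0) ≤
        ‖a m‖ ^ 2 * ∑ q ∈ (Finset.range (M + 1)).filter Nat.Prime ×ˢ Finset.Icc 1 M,
          (if (q.1 : ℝ) ^ q.2 ≤ X / m then (((q.2 : ℝ) + 1) ^ 2 * q.2 * Real.log q.1) else 0) := by
      rw [Finset.mul_sum]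
      refine Finset.sum_le_sum (fun q _ => ?_)
      have hl : 0 ≤ Real.log (q.1 : ℝ) := Real.log_natCast_nonneg _
      by_cases h5 : m * q.1 ^ q.2 ≤ M
      · have h6 : (q.1 : ℝ) ^ q.2 ≤ X / m := by
          rw [le_div_iff₀ hm0]
          have : ((m * q.1 ^ q.2 : ℕ) : ℝ) ≤ M := by exact_mod_cast h5
          push_cast at this
          linarith
        rw [if_pos h5, if_pos h6]
      · rw [if_neg h5]
        split_ifs <;> positivity
    refine h4.trans ?_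
    gcongr
  have hBpart : ∑ n ∈ Finset.Icc 1 M, ‖a n‖ ^ 2 * Real.log (X / n) ≤ ∑ m ∈ Finset.Icc 1 M, ‖a m‖ ^ 2 * (X / m) := by
    refine Finset.sum_le_sum (fun m hm => ?_)
    have := Real.log_le_self (show 0 ≤ X / m by positivity)
    gcongr
  have hsum : Real.log X * ∑ n ∈ Finset.Icc 1 M, ‖a n‖ ^ 2 ≤ (B + 1) * X * ∑ m ∈ Finset.Icc 1 M, ‖a m‖ ^ 2 / m := by
    have h1 : Real.log X * ∑ n ∈ Finset.Icc 1 M, ‖a n‖ ^ 2 =
        ∑ n ∈ Finset.Icc 1 M, ‖a n‖ ^ 2 * Real.log n + ∑ n ∈ Finset.Icc 1 M, ‖a n‖ ^ 2 * Real.log (X / n) := by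
      rw [← Finset.sum_add_distrib, Finset.mul_sum]
      refine Finset.sum_congr rfl (fun n hn => ?_)
      rw [Finset.mem_Icc] at hn
      have : (0 : ℝ) < n := by exact_mod_cast hn.1
      rw [Real.log_div hX0.ne' this.ne']
      ring
    rw [h1]
    refine (add_le_add hA hBpart).trans ?_
    rw [← Finset.sum_add_distrib, Finset.mul_sum]
    refine le_of_eq (Finset.sum_congr rfl (fun m _ => ?_))
    ring
  have hfin : ∑ m ∈ Finset.Icc 1 M, ‖a m‖ ^ 2 / m ≤ Real.exp 1 * (C1 * Real.exp (Sp a (1 / Real.log X))) := by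
    have hd0 : 0 < 1 / Real.log X := by positivity
    have hd1 : 1 / Real.log X ≤ 1 := by
      rw [div_le_one (by linarith)]; linarith
    obtain ⟨e1, e2, _⟩ := hE (1 / Real.log X) hd0 hd1
    have h1 : ∀ m ∈ Finset.Icc 1 M, ‖a m‖ ^ 2 / m ≤
        Real.exp 1 * (‖a m‖ ^ 2 * (m : ℝ) ^ (-(1 + 1 / Real.log X))) := by
      intro m hm
      rw [Finset.mem_Icc] at hm
      have hm0 : (0 : ℝ) < m := by exact_mod_cast hm.1
      have hmX : (m : ℝ) ≤ X := by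
        have : (m : ℝ) ≤ M := by exact_mod_cast hm.2
        linarith
      have h2 : (m : ℝ) ^ (1 / Real.log X) ≤ Real.exp 1 := by
        calc (m : ℝ) ^ (1 / Real.log X) ≤ X ^ (1 / Real.log X) := by gcongr
          _ = Real.exp 1 := by
              rw [Real.rpow_def_of_pos hX0, mul_one_div, div_self (by linarith)]
      have h3 : (m : ℝ)⁻¹ = (m : ℝ) ^ (1 / Real.log X) * (m : ℝ) ^ (-(1 + 1 / Real.log X)) := by
        rw [← Real.rpow_add hm0]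
        have : 1 / Real.log X + -(1 + 1 / Real.log X) = -1 := by ring
        rw [this, Real.rpow_neg_one]
      rw [div_eq_mul_inv, h3]
      have h4 : 0 ≤ (m : ℝ) ^ (-(1 + 1 / Real.log X)) := by positivity
      calc ‖a m‖ ^ 2 * ((m : ℝ) ^ (1 / Real.log X) * (m : ℝ) ^ (-(1 + 1 / Real.log X))) ≤
            ‖a m‖ ^ 2 * (Real.exp 1 * (m : ℝ) ^ (-(1 + 1 / Real.log X))) := by gcongr
        _ = _ := by ring
    refine (Finset.sum_le_sum h1).trans ?_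
    rw [← Finset.mul_sum]
    have h2 : ∑ m ∈ Finset.Icc 1 M, ‖a m‖ ^ 2 * (m : ℝ) ^ (-(1 + 1 / Real.log X)) =
        ∑ n ∈ Finset.range M, ‖a (n + 1)‖ ^ 2 * ((n : ℝ) + 1) ^ (-(1 + 1 / Real.log X)) := by
      rw [M10_shift (fun m : ℕ => ‖a m‖ ^ 2 * (m : ℝ) ^ (-(1 + 1 / Real.log X))) M]
      refine Finset.sum_congr rfl (fun n _ => ?_)
      push_cast
      rfl
    rw [h2]
    have h3 := e1.sum_le_tsum (Finset.range M) (fun i _ => by positivity)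
    gcongr
    exact h3.trans e2
  rw [mul_comm] at hsum
  have h5 : ∑ n ∈ Finset.Icc 1 M, ‖a n‖ ^ 2 ≤ (B + 1) * X * (∑ m ∈ Finset.Icc 1 M, ‖a m‖ ^ 2 / m) / Real.log X := by
    rw [le_div_iff₀ (by linarith)]
    exact hsum
  refine h5.trans ?_
  have h6 : 0 ≤ (B + 1) * X := by positivity
  calc (B + 1) * X * (∑ m ∈ Finset.Icc 1 M, ‖a m‖ ^ 2 / m) / Real.log X ≤
        (B + 1) * X * (Real.exp 1 * (C1 * Real.exp (Sp a (1 / Real.log X)))) / Real.log X := by gcongr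
    _ = _ := by ring

theorem M10_pow4 (j : ℕ) : ((j : ℝ) + 2) ^ 4 ≤ 16 * (81 / 16 : ℝ) ^ j := by
  have h : (j : ℝ) + 2 ≤ 2 * (3 / 2 : ℝ) ^ j := by
    induction j with
    | zero => norm_num
    | succ j ih =>
      push_cast
      rw [pow_succ]
      have : (0 : ℝ) ≤ j := Nat.cast_nonneg j
      linarith
  calc ((j : ℝ) + 2) ^ 4 ≤ (2 * (3 / 2 : ℝ) ^ j) ^ 4 := by gcongr
    _ = 16 * ((3 / 2 : ℝ) ^ 4) ^ j := by rw [mul_pow, ← pow_mul, ← pow_mul, mul_comm j 4]; norm_num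
    _ = _ := by norm_num

theorem M10_ht_fin {N : ℕ} {a : ℕ → ℂ} {L : ℂ → ℂ} (D : Dat N a L) : ∃ C : ℝ, 0 ≤ C ∧ ∀ x : ℝ, 0 < x → x ≤ 1 / 3 →
    ∀ M : ℕ, ∑ n ∈ Finset.range M, ‖a (n + 1)‖ ^ 2 * ((1 + x * ((n : ℝ) + 1)) ^ 4)⁻¹ ≤
      C * (x⁻¹ * (Real.log (1 / x))⁻¹ * Real.exp (Sp a (1 / Real.log (1 / x)))) := by
  obtain ⟨C, hC, hH⟩ := M10_HT D
  obtain ⟨C2, hS⟩ := Sp_slow D
  refine ⟨C * (2 * Real.exp C2) * 48, by positivity, fun x hx hx3 M => ?_⟩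
  obtain ⟨J, hJ⟩ := M10_exJ (x * M)
  set l := Real.log (1 / x) with hl
  have hx1 : 3 ≤ 1 / x := by
    rw [le_div_iff₀ hx]; linarith
  have hl1 : 1 < l := by
    rw [hl, Real.lt_log_iff_exp_lt (by positivity)]
    have := Real.exp_one_lt_d9
    linarith
  set S := Real.exp (Sp a (1 / l)) with hS0
  have h1 : ∀ n ∈ Finset.range M, ‖a (n + 1)‖ ^ 2 * ((1 + x * ((n : ℝ) + 1)) ^ 4)⁻¹ ≤
      ‖a (n + 1)‖ ^ 2 * ∑ j ∈ Finset.range J, (1 / 16 : ℝ) ^ j *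
        (if x * ((n : ℝ) + 1) ≤ 2 ^ (j + 1) then 1 else 0) := by
    intro n hn
    have hn' : (n : ℝ) + 1 ≤ M := by
      have := Finset.mem_range.mp hn
      exact_mod_cast this
    have h2 : x * ((n : ℝ) + 1) ≤ x * M := by gcongr
    have := M10_pt2 (y := x * ((n : ℝ) + 1)) (by positivity) (J := J) (by linarith)
    gcongr
  refine (Finset.sum_le_sum h1).trans ?_
  have h2 : ∑ n ∈ Finset.range M, ‖a (n + 1)‖ ^ 2 * ∑ j ∈ Finset.range J, (1 / 16 : ℝ) ^ j *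
        (if x * ((n : ℝ) + 1) ≤ 2 ^ (j + 1) then 1 else 0) =
      ∑ j ∈ Finset.range J, (1 / 16 : ℝ) ^ j * ∑ n ∈ Finset.range M,
        (if x * ((n : ℝ) + 1) ≤ 2 ^ (j + 1) then ‖a (n + 1)‖ ^ 2 else 0) := by
    simp_rw [Finset.mul_sum]
    rw [Finset.sum_comm]
    refine Finset.sum_congr rfl (fun j _ => Finset.sum_congr rfl (fun n _ => ?_))
    split_ifs <;> ring
  rw [h2]
  have h3 : ∀ j ∈ Finset.range J, (1 / 16 : ℝ) ^ j * ∑ n ∈ Finset.range M,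
        (if x * ((n : ℝ) + 1) ≤ 2 ^ (j + 1) then ‖a (n + 1)‖ ^ 2 else 0) ≤
      C * (2 * Real.exp C2) * (x⁻¹ * l⁻¹ * S) * (16 * (81 / 128 : ℝ) ^ j) := by
    intro j _
    set X : ℝ := 2 ^ (j + 1) / x with hX
    have h2j : (1 : ℝ) ≤ 2 ^ j := one_le_pow₀ (by norm_num)
    have hX1 : X = 2 ^ (j + 1) * (1 / x) := by rw [hX]; ring
    have hX3 : 3 ≤ X := by
      rw [hX1, pow_succ]
      nlinarith
    have hX0 : 0 < X := by linarith
    have h4 : ∑ n ∈ Finset.range M, (if x * ((n : ℝ) + 1) ≤ 2 ^ (j + 1) then ‖a (n + 1)‖ ^ 2 else 0) ≤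
        ∑ n ∈ Finset.Icc 1 ⌊X⌋₊, ‖a n‖ ^ 2 := by
      rw [M10_shift (fun m => ‖a m‖ ^ 2), ← Finset.sum_filter]
      refine Finset.sum_le_sum_of_subset_of_nonneg ?_ (fun i _ _ => by positivity)
      intro n hn
      rw [Finset.mem_filter] at hn
      rw [Finset.mem_range]
      have h5 : ((n + 1 : ℕ) : ℝ) ≤ X := by
        rw [hX, le_div_iff₀ hx]
        push_cast
        linarith [hn.2]
      have := Nat.le_floor h5
      omega
    have h5 := hH X hX3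
    have hlX : Real.log X = (j + 1) * Real.log 2 + l := by
      rw [hX1, Real.log_mul (by positivity) (by positivity), Real.log_pow]
      push_cast
      ring
    have hlog2 : 0 < Real.log 2 := Real.log_pos (by norm_num)
    have hlog2' : Real.log 2 ≤ 1 := by
      have := Real.log_two_lt_d9; linarith
    have hlXl : l ≤ Real.log X := by
      rw [hlX]; have : (0 : ℝ) ≤ (j + 1) * Real.log 2 := by positivity
      linarith
    have hlX0 : 0 < Real.log X := by linarith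
    have h6 := hS (1 / l) (1 / Real.log X) (by positivity)
      (one_div_le_one_div_of_le (by linarith) hlXl) (by rw [div_le_one (by linarith)]; linarith)
    have h7 : 1 / l / (1 / Real.log X) = Real.log X / l := by
      rw [div_div_div_eq, one_mul, mul_one]
    rw [h7] at h6
    have h8 : Real.log X / l ≤ (j : ℝ) + 2 := by
      rw [div_le_iff₀ (by linarith), hlX]
      have hj : (0 : ℝ) ≤ j := Nat.cast_nonneg j
      nlinarith [mul_nonneg hj (by linarith : (0 : ℝ) ≤ l - 1), mul_nonneg hj (by linarith : (0 : ℝ) ≤ 1 - Real.log 2)]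
    have h9 : Real.exp (Sp a (1 / Real.log X)) ≤ S * ((j : ℝ) + 2) ^ 4 * Real.exp C2 := by
      calc Real.exp (Sp a (1 / Real.log X)) ≤
            Real.exp (Sp a (1 / l) + 4 * Real.log (Real.log X / l) + C2) := Real.exp_le_exp.mpr h6
        _ = S * (Real.log X / l) ^ 4 * Real.exp C2 := by
            rw [Real.exp_add, Real.exp_add]
            have : Real.exp (4 * Real.log (Real.log X / l)) = (Real.log X / l) ^ 4 := by
              rw [mul_comm, Real.exp_mul, Real.exp_log (by positivity)]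
              norm_cast
            rw [this]
        _ ≤ _ := by gcongr
    have h10 : X / Real.log X ≤ 2 * 2 ^ j * (x⁻¹ * l⁻¹) := by
      calc X / Real.log X ≤ X / l := by gcongr
        _ = _ := by rw [hX, pow_succ]; field_simp
    have h11 := M10_pow4 j
    calc (1 / 16 : ℝ) ^ j * ∑ n ∈ Finset.range M,
          (if x * ((n : ℝ) + 1) ≤ 2 ^ (j + 1) then ‖a (n + 1)‖ ^ 2 else 0)
        ≤ (1 / 16 : ℝ) ^ j * (C * (X / Real.log X * Real.exp (Sp a (1 / Real.log X)))) := by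
          gcongr; exact h4.trans h5
      _ ≤ (1 / 16 : ℝ) ^ j * (C * ((2 * 2 ^ j * (x⁻¹ * l⁻¹)) * (S * (16 * (81 / 16 : ℝ) ^ j) * Real.exp C2))) := by
          have h12 : Real.exp (Sp a (1 / Real.log X)) ≤ S * (16 * (81 / 16 : ℝ) ^ j) * Real.exp C2 :=
            h9.trans (by gcongr)
          have h13 : 0 ≤ 2 * 2 ^ j * (x⁻¹ * l⁻¹) := by positivity
          gcongr
      _ = C * (2 * Real.exp C2) * (x⁻¹ * l⁻¹ * S) * (16 * ((1 / 16 : ℝ) ^ j * 2 ^ j * (81 / 16 : ℝ) ^ j)) := by ring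
      _ = _ := by rw [← mul_pow, ← mul_pow]; norm_num
  refine (Finset.sum_le_sum h3).trans ?_
  rw [← Finset.mul_sum, ← Finset.mul_sum]
  have h4 : ∑ j ∈ Finset.range J, (81 / 128 : ℝ) ^ j ≤ 3 := by
    have h6 : Summable (fun j : ℕ => (81 / 128 : ℝ) ^ j) := summable_geometric_of_lt_one (by norm_num) (by norm_num)
    have h7 := h6.sum_le_tsum (Finset.range J) (fun i _ => by positivity)
    rw [tsum_geometric_of_lt_one (by norm_num) (by norm_num)] at h7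
    have h8 : (1 - 81 / 128 : ℝ)⁻¹ ≤ 3 := by norm_num
    linarith
  have h5 : 0 ≤ C * (2 * Real.exp C2) * (x⁻¹ * l⁻¹ * S) := by positivity
  calc _ ≤ C * (2 * Real.exp C2) * (x⁻¹ * l⁻¹ * S) * (16 * 3) := by gcongr
    _ = _ := by ring

theorem ms_ht {N : ℕ} {a : ℕ → ℂ} {L : ℂ → ℂ} (D : Dat N a L) : ∃ C : ℝ, 0 ≤ C ∧ ∀ x : ℝ, 0 < x → x ≤ 1 / 3 →
    ∑' n : ℕ, ‖a (n + 1)‖ ^ 2 * ((1 + x * ((n : ℝ) + 1)) ^ 4)⁻¹ ≤
      C * (x⁻¹ * (Real.log (1 / x))⁻¹ * Real.exp (Sp a (1 / Real.log (1 / x)))) := by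
  obtain ⟨C, hC, h⟩ := M10_ht_fin D
  exact ⟨C, hC, fun x hx hx3 => Real.tsum_le_of_sum_range_le (fun n => by positivity) (h x hx hx3)⟩

end NH
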