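import Pool.Agent.Lib.MP_0f5a55_nt.NH.M10
import Pool.Agent.Lib.MP_0f5a55_nt.II.I01
import Pool.Agent.Lib.MP_0f5a55_nt.II.I02
import Pool.Agent.Lib.MP_0f5a55_nt.II.I03
import Pool.Agent.Lib.MP_0f5a55_nt.II.I04
import Pool.Agent.Lib.MP_0f5a55_nt.TT.T27

open Complex MeasureTheory Set Filter Topology
open scoped Real ComplexConjugate

namespace NH

section M11
open II

/-- weighted sum from dyadic sums -/
theorem M11_dy {f : ℕ → ℝ} (hf : ∀ n, 0 ≤ f n) {K V Λ : ℝ} (hK : 0 ≤ K) (hV : 0 < V) (hΛ : 0 ≤ Λ)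
    (hS : ∀ j : ℕ, ∑ n ∈ Finset.Icc 1 ⌊2 ^ j * V⌋₊, f n ≤ K * (2 ^ j * V) * (1 + j + Λ)) :
    ∑' n : ℕ, f (n + 1) * ((1 + ((n : ℝ) + 1) / V) ^ 4)⁻¹ ≤ 22 * K * V * (1 + Λ) := by
  refine Real.tsum_le_of_sum_range_le (fun n => mul_nonneg (hf _) (by positivity)) fun N => ?_
  obtain ⟨J, hJ⟩ : ∃ J : ℕ, (N : ℝ) ≤ 2 ^ J * V := by
    obtain ⟨J, hJ⟩ := pow_unbounded_of_one_lt ((N : ℝ) / V) (one_lt_two)
    exact ⟨J, by rw [div_lt_iff₀ hV] at hJ; exact hJ.le⟩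
  -- pointwise
  have hpt : ∀ n ∈ Finset.range N, ((1 + ((n : ℝ) + 1) / V) ^ 4)⁻¹ ≤
      ∑ j ∈ Finset.range (J + 1), (if (n : ℝ) + 1 ≤ 2 ^ j * V then 16 * ((1:ℝ) / 16) ^ j else 0) := by
    intro n hn
    have hnN : (n : ℝ) + 1 ≤ N := by
      have := Finset.mem_range.mp hn
      exact_mod_cast this
    have hex : ∃ j : ℕ, (n : ℝ) + 1 ≤ 2 ^ j * V := ⟨J, hnN.trans hJ⟩
    classical
    set j := Nat.find hex with hj
    have hj1 : (n : ℝ) + 1 ≤ 2 ^ j * V := Nat.find_spec hex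
    have hjJ : j ≤ J := Nat.find_min' hex (hnN.trans hJ)
    have hmem : j ∈ Finset.range (J + 1) := Finset.mem_range.mpr (by omega)
    have hterm : ((1 + ((n : ℝ) + 1) / V) ^ 4)⁻¹ ≤ 16 * ((1:ℝ) / 16) ^ j := by
      rcases Nat.eq_zero_or_pos j with h0 | h0
      · rw [h0, pow_zero]
        have : ((1 + ((n : ℝ) + 1) / V) ^ 4)⁻¹ ≤ 1 := by
          apply inv_le_one_of_one_le₀
          apply one_le_pow₀
          have : 0 ≤ ((n : ℝ) + 1) / V := by positivity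
          linarith
        linarith
      · have h1 : ¬ ((n : ℝ) + 1 ≤ 2 ^ (j - 1) * V) := Nat.find_min hex (by omega)
        have h2 : 2 ^ (j - 1) ≤ 1 + ((n : ℝ) + 1) / V := by
          rw [not_le] at h1
          have : (2:ℝ) ^ (j - 1) ≤ ((n : ℝ) + 1) / V := by
            rw [le_div_iff₀ hV]
            exact h1.le
          linarith
        have h3 : ((2:ℝ) ^ (j - 1)) ^ 4 ≤ (1 + ((n : ℝ) + 1) / V) ^ 4 := pow_le_pow_left₀ (by positivity) h2 4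
        have h4 : ((2:ℝ) ^ (j - 1)) ^ 4 = (16 * ((1:ℝ) / 16) ^ j)⁻¹ := by
          obtain ⟨i, hi⟩ : ∃ i, j = i + 1 := ⟨j - 1, by omega⟩
          rw [hi, Nat.add_sub_cancel]
          have e1 : ((2:ℝ) ^ i) ^ 4 = 16 ^ i := by
            rw [← pow_mul, mul_comm, pow_mul]
            norm_num
          have e2 : 16 * ((1:ℝ) / 16) ^ (i + 1) = (16 ^ i)⁻¹ := by
            rw [pow_succ, one_div, inv_pow]
            ring
          rw [e1, e2, inv_inv]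
        rw [h4] at h3
        exact inv_le_of_inv_le₀ (by positivity) h3
    refine hterm.trans ?_
    have : (if (n : ℝ) + 1 ≤ 2 ^ j * V then 16 * ((1:ℝ) / 16) ^ j else 0) = 16 * ((1:ℝ) / 16) ^ j := if_pos hj1
    rw [← this]
    exact Finset.single_le_sum (f := fun j : ℕ => (if (n : ℝ) + 1 ≤ 2 ^ j * V then 16 * ((1:ℝ) / 16) ^ j else 0))
      (fun i _ => by split_ifs <;> positivity) hmem
  have h1 : ∑ n ∈ Finset.range N, f (n + 1) * ((1 + ((n : ℝ) + 1) / V) ^ 4)⁻¹ ≤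
      ∑ j ∈ Finset.range (J + 1), 16 * ((1:ℝ) / 16) ^ j * ∑ n ∈ Finset.Icc 1 ⌊2 ^ j * V⌋₊, f n := by
    calc _ ≤ ∑ n ∈ Finset.range N, f (n + 1) *
          ∑ j ∈ Finset.range (J + 1), (if (n : ℝ) + 1 ≤ 2 ^ j * V then 16 * ((1:ℝ) / 16) ^ j else 0) :=
          Finset.sum_le_sum fun n hn => mul_le_mul_of_nonneg_left (hpt n hn) (hf _)
      _ = ∑ j ∈ Finset.range (J + 1), ∑ n ∈ Finset.range N,
          f (n + 1) * (if (n : ℝ) + 1 ≤ 2 ^ j * V then 16 * ((1:ℝ) / 16) ^ j else 0) := by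
          simp_rw [Finset.mul_sum]
          rw [Finset.sum_comm]
      _ ≤ _ := by
          refine Finset.sum_le_sum fun j _ => ?_
          have e1 : ∑ n ∈ Finset.range N, f (n + 1) * (if (n : ℝ) + 1 ≤ 2 ^ j * V then 16 * ((1:ℝ) / 16) ^ j else 0) =
              16 * ((1:ℝ) / 16) ^ j * ∑ n ∈ (Finset.range N).filter (fun n : ℕ => (n : ℝ) + 1 ≤ 2 ^ j * V), f (n + 1) := by
            rw [Finset.sum_filter, Finset.mul_sum]
            refine Finset.sum_congr rfl fun n _ => ?_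
            split_ifs
            · ring
            · ring
          rw [e1]
          refine mul_le_mul_of_nonneg_left ?_ (by positivity)
          have e2 : ∑ n ∈ (Finset.range N).filter (fun n : ℕ => (n : ℝ) + 1 ≤ 2 ^ j * V), f (n + 1) =
              ∑ n ∈ ((Finset.range N).filter (fun n : ℕ => (n : ℝ) + 1 ≤ 2 ^ j * V)).image (fun n => n + 1), f n := by
            rw [Finset.sum_image (fun a _ b _ hab => by simpa using hab)]
          rw [e2]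
          refine Finset.sum_le_sum_of_subset_of_nonneg ?_ (fun _ _ _ => hf _)
          intro m hm
          obtain ⟨n, hn, rfl⟩ := Finset.mem_image.mp hm
          have hn2 := (Finset.mem_filter.mp hn).2
          rw [Finset.mem_Icc]
          refine ⟨by omega, Nat.le_floor ?_⟩
          push_cast
          exact hn2
  refine h1.trans ?_
  have h2 : ∑ j ∈ Finset.range (J + 1), 16 * ((1:ℝ) / 16) ^ j * ∑ n ∈ Finset.Icc 1 ⌊2 ^ j * V⌋₊, f n ≤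
      ∑ j ∈ Finset.range (J + 1), 16 * K * V * (1 + Λ) * ((1:ℝ) / 4) ^ j := by
    refine Finset.sum_le_sum fun j _ => ?_
    have h3 := mul_le_mul_of_nonneg_left (hS j) (by positivity : 0 ≤ 16 * ((1:ℝ) / 16) ^ j)
    refine h3.trans ?_
    have h4 : (1 + j + Λ : ℝ) ≤ 2 ^ j * (1 + Λ) := by
      have h5 : (1 + j : ℝ) ≤ 2 ^ j := by
        have : j + 1 ≤ 2 ^ j := Nat.lt_two_pow_self
        have h6 : ((j + 1 : ℕ) : ℝ) ≤ ((2 ^ j : ℕ) : ℝ) := by exact_mod_cast this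
        push_cast at h6
        linarith
      have h7 : Λ ≤ 2 ^ j * Λ := le_mul_of_one_le_left hΛ (one_le_pow₀ (by norm_num))
      linarith
    have h8 : ((1:ℝ) / 16) ^ j * 2 ^ j * 2 ^ j = (1 / 4) ^ j := by
      rw [← mul_pow, ← mul_pow]
      norm_num
    calc 16 * ((1:ℝ) / 16) ^ j * (K * (2 ^ j * V) * (1 + j + Λ)) ≤
          16 * ((1:ℝ) / 16) ^ j * (K * (2 ^ j * V) * (2 ^ j * (1 + Λ))) := by gcongr
      _ = 16 * K * V * (1 + Λ) * (((1:ℝ) / 16) ^ j * 2 ^ j * 2 ^ j) := by ring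
      _ = _ := by rw [h8]
  refine h2.trans ?_
  rw [← Finset.mul_sum]
  have h9 : ∑ j ∈ Finset.range (J + 1), ((1:ℝ) / 4) ^ j ≤ 4 / 3 := by
    rw [geom_sum_eq (by norm_num)]
    have : (0:ℝ) ≤ (1 / 4) ^ (J + 1) := by positivity
    rw [div_le_iff_of_neg (by norm_num)]
    linarith
  have h10 : 0 ≤ 16 * K * V * (1 + Λ) := by positivity
  calc _ ≤ 16 * K * V * (1 + Λ) * (4 / 3) := mul_le_mul_of_nonneg_left h9 h10
    _ ≤ _ := by
      have : 0 ≤ K * V * (1 + Λ) := by positivity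
      linarith

theorem M11_cv_le {q1 q2 : ℕ} (χ1 : DirichletCharacter ℂ q1) (χ2 : DirichletCharacter ℂ q2) (D : ℝ) (n : ℕ) :
    ‖cvD χ1 χ2 D n‖ ≤ n := by
  unfold cvD
  refine (norm_sum_le _ _).trans ?_
  have h1 : ∑ x ∈ n.divisorsAntidiagonal,
      ‖(if D < (x.1 : ℝ) ∧ D < (x.2 : ℝ) then χ1 (x.1 : ZMod q1) * χ2 (x.2 : ZMod q2) else 0)‖ ≤
      ∑ x ∈ n.divisorsAntidiagonal, (1 : ℝ) := by
    refine Finset.sum_le_sum fun x _ => ?_
    split_ifs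
    · rw [norm_mul]
      exact mul_le_one₀ (DirichletCharacter.norm_le_one χ1 _) (norm_nonneg _) (DirichletCharacter.norm_le_one χ2 _)
    · simp
  refine h1.trans ?_
  rw [Finset.sum_const, nsmul_eq_mul, mul_one]
  have h2 : n.divisorsAntidiagonal.card ≤ n := by
    rw [← Nat.map_div_right_divisors, Finset.card_map]
    exact Nat.card_divisors_le_self n
  exact_mod_cast h2

theorem M11_cv_eq {q1 q2 : ℕ} (χ1 : DirichletCharacter ℂ q1) (χ2 : DirichletCharacter ℂ q2) (n : ℕ) :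
    cv χ1 χ2 n = cvD χ1 χ2 (1/2) n := by
  unfold cv cvD
  refine Finset.sum_congr rfl fun x hx => ?_
  have h1 := Nat.mem_divisorsAntidiagonal.mp hx
  have hx1 : x.1 ≠ 0 := fun h => h1.2 (by rw [← h1.1, h, zero_mul])
  have hx2 : x.2 ≠ 0 := fun h => h1.2 (by rw [← h1.1, h, mul_zero])
  have e1 : (1:ℝ) ≤ x.1 := by exact_mod_cast Nat.one_le_iff_ne_zero.mpr hx1
  have e2 : (1:ℝ) ≤ x.2 := by exact_mod_cast Nat.one_le_iff_ne_zero.mpr hx2
  rw [if_pos ⟨by linarith, by linarith⟩]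

theorem M11_cvD_zero {q1 q2 : ℕ} (χ1 : DirichletCharacter ℂ q1) (χ2 : DirichletCharacter ℂ q2) {D : ℝ}
    (hD : 0 < D) {n : ℕ} (hn : (n : ℝ) ≤ D ^ 2) : cvD χ1 χ2 D n = 0 := by
  unfold cvD
  refine Finset.sum_eq_zero fun x hx => ?_
  have h1 := Nat.mem_divisorsAntidiagonal.mp hx
  rw [if_neg]
  rintro ⟨h2, h3⟩
  have h4 : (x.1 : ℝ) * x.2 = n := by exact_mod_cast h1.1
  have h5 : D * D < x.1 * x.2 := mul_lt_mul'' h2 h3 hD.le hD.le
  rw [h4] at h5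
  nlinarith

/-- mean square, all ranges -/
theorem M11_ms {q1 q2 : ℕ} [NeZero q1] [NeZero q2] {χ1 : DirichletCharacter ℂ q1}
    {χ2 : DirichletCharacter ℂ q2} {M : ℝ}
    (hM : ∀ N : ℕ, ‖∑ g ∈ Finset.range N, χ1 ((g + 1 : ℕ) : ZMod q1) * conj (χ2 ((g + 1 : ℕ) : ZMod q2))‖ ≤ M) :
    ∃ K : ℝ, 0 ≤ K ∧ ∀ D V : ℝ, 1 / 2 ≤ D → 0 < V →
      ∑' n : ℕ, ‖cvD χ1 χ2 D (n + 1)‖ ^ 2 * ((1 + ((n : ℝ) + 1) / V) ^ 4)⁻¹ ≤
        K * V * (1 + Real.log (1 + V / D ^ 2)) := by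
  obtain ⟨C, hC, h⟩ := mean_sq hM
  refine ⟨22 * C, by positivity, fun D V hD hV => ?_⟩
  have hD0 : 0 < D := by linarith
  refine M11_dy (f := fun n => ‖cvD χ1 χ2 D n‖ ^ 2) (fun n => by positivity) hC hV
    (Real.log_nonneg (by have : 0 ≤ V / D ^ 2 := by positivity
                         linarith)) fun j => ?_
  have h2j : (1:ℝ) ≤ 2 ^ j := one_le_pow₀ (by norm_num)
  rcases le_or_gt (D ^ 2) (2 ^ j * V) with h1 | h1
  · refine (h D (2 ^ j * V) hD h1).trans ?_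
    refine mul_le_mul_of_nonneg_left ?_ (by positivity)
    have h3 : Real.log (2 ^ j * V / D ^ 2) ≤ j * Real.log 2 + Real.log (1 + V / D ^ 2) := by
      rw [mul_div_assoc, Real.log_mul (by positivity) (by positivity), Real.log_pow]
      have : Real.log (V / D ^ 2) ≤ Real.log (1 + V / D ^ 2) := Real.log_le_log (by positivity) (by linarith)
      linarith
    have h4 : Real.log 2 ≤ 1 := by
      have := Real.log_two_lt_d9
      linarith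
    have h5 : (j : ℝ) * Real.log 2 ≤ j := mul_le_of_le_one_right (Nat.cast_nonneg j) h4
    linarith
  · have : ∑ n ∈ Finset.Icc 1 ⌊2 ^ j * V⌋₊, ‖cvD χ1 χ2 D n‖ ^ 2 = 0 := by
      refine Finset.sum_eq_zero fun n hn => ?_
      have hn1 : (n : ℝ) ≤ 2 ^ j * V := by
        have := (Finset.mem_Icc.mp hn).2
        exact (Nat.le_floor_iff (by positivity)).mp this
      rw [M11_cvD_zero χ1 χ2 hD0 (by linarith)]
      simp
    rw [this]
    have : 0 ≤ Real.log (1 + V / D ^ 2) := Real.log_nonneg (by have : 0 ≤ V / D ^ 2 := by positivity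
                                                               linarith)
    positivity


theorem M11_z {θ1 θ2 ε : ℝ} (h1 : 0 < θ1) (h2 : 0 < θ2) (h0 : 0 < ε) (he : ε ≤ 1 / 2) (k n m : ℕ) :
    0 ≤ (((Real.exp k : ℝ) : ℂ) * zz θ1 θ2 ε n m).re ∧
    Real.sin ε * θ1 * n ≤ ‖((Real.exp k : ℝ) : ℂ) * zz θ1 θ2 ε n m‖ ∧
    Real.sin ε * θ2 * m ≤ ‖((Real.exp k : ℝ) : ℂ) * zz θ1 θ2 ε n m‖ := by
  have hs : 0 < Real.sin ε := Real.sin_pos_of_pos_of_lt_pi h0 (by have := Real.pi_gt_three; linarith)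
  have hk : 1 ≤ Real.exp k := Real.one_le_exp (Nat.cast_nonneg k)
  have hre : (((Real.exp k : ℝ) : ℂ) * zz θ1 θ2 ε n m).re = Real.exp k * (Real.sin ε * (θ1 * n + θ2 * m)) := by
    rw [re_ofReal_mul, zz_re]
  have hn : (0:ℝ) ≤ n := Nat.cast_nonneg n
  have hm : (0:ℝ) ≤ m := Nat.cast_nonneg m
  have a1 : 0 ≤ Real.sin ε * (θ1 * n) := by positivity
  have a2 : 0 ≤ Real.sin ε * (θ2 * m) := by positivity
  have hle : Real.sin ε * (θ1 * n + θ2 * m) ≤ Real.exp k * (Real.sin ε * (θ1 * n + θ2 * m)) :=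
    le_mul_of_one_le_left (by positivity) hk
  have habs := (le_abs_self _).trans (abs_re_le_norm (((Real.exp k : ℝ) : ℂ) * zz θ1 θ2 ε n m))
  rw [hre] at habs
  refine ⟨?_, ?_, ?_⟩
  · rw [hre]
    positivity
  · linarith [hle, habs]
  · linarith [hle, habs]


/-- a with value 0 at 0 -/
noncomputable def M11_a0 (a : ℕ → ℂ) (n : ℕ) : ℂ := if n = 0 then 0 else a n

theorem M11_a0_succ (a : ℕ → ℂ) (n : ℕ) : M11_a0 a (n + 1) = a (n + 1) := if_neg (Nat.succ_ne_zero n)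

theorem M11_a0_le {N : ℕ} {a : ℕ → ℂ} {L : ℂ → ℂ} (D : Dat N a L) (n : ℕ) : ‖M11_a0 a n‖ ≤ n := by
  unfold M11_a0
  split_ifs with h
  · rw [norm_zero]
    exact Nat.cast_nonneg _
  · refine (D.bd n (Nat.pos_of_ne_zero h)).trans ?_
    exact_mod_cast Nat.card_divisors_le_self n

theorem M11_FE (a : ℕ → ℂ) (θ ε x : ℝ) : FE (M11_a0 a) θ ε x = FE a θ ε x := by
  unfold FE
  refine tsum_congr fun n => ?_
  rw [M11_a0_succ]

theorem M11_BK (b a : ℕ → ℂ) (θ1 θ2 ε : ℝ) (k : ℕ) : BK b (M11_a0 a) θ1 θ2 ε k = BK b a θ1 θ2 ε k := by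
  unfold BK
  refine integral_congr_ae (Eventually.of_forall fun u => ?_)
  simp only [M11_FE]

/-- Cauchy-Schwarz -/
theorem M11_cs {θ1 θ2 : ℝ} (h1 : 0 < θ1) (h2 : 0 < θ2) : ∃ C : ℝ, 0 ≤ C ∧ ∀ α β : ℕ → ℂ,
    (∀ n : ℕ, ‖α n‖ ≤ n) → (∀ n : ℕ, ‖β n‖ ≤ n) → ∀ ε : ℝ, 0 < ε → ε ≤ 1 / 2 → ∀ k : ℕ,
      ‖BK α β θ1 θ2 ε k‖ ≤ C * (Real.exp k *
        (√(∑' n : ℕ, ‖α (n + 1)‖ ^ 2 * ((1 + Real.exp k * ε * ((n : ℝ) + 1)) ^ 4)⁻¹) *
        √(∑' n : ℕ, ‖β (n + 1)‖ ^ 2 * ((1 + Real.exp k * ε * ((n : ℝ) + 1)) ^ 4)⁻¹))) := by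
  obtain ⟨C0, hC0, hXi⟩ := Xi_bound 12
  obtain ⟨C3, hC3, hsch⟩ := schur h1 h2
  refine ⟨C0 * C3, by positivity, fun α β ha hb ε h0 he k => ?_⟩
  obtain ⟨hsum, hle⟩ := BK_le h1 h2 h0 he ha hb k
  have hs : 0 < Real.sin ε := Real.sin_pos_of_pos_of_lt_pi h0 (by have := Real.pi_gt_three; linarith)
  set Z : ℕ → ℕ → ℂ := fun n m => ((Real.exp k : ℝ) : ℂ) * zz θ1 θ2 ε n m with hZ
  -- summability of the majorant
  have hsum2 : Summable (fun x : ℕ × ℕ => ‖α (x.1 + 1)‖ * ‖β (x.2 + 1)‖ *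
      ((1 + ‖Z (x.1 + 1) (x.2 + 1)‖) ^ 12)⁻¹) := by
    set δ1 := Real.sin ε * θ1 with hδ1
    set δ2 := Real.sin ε * θ2 with hδ2
    have p1 : 0 < δ1 := by positivity
    have p2 : 0 < δ2 := by positivity
    have hs0 : Summable (fun n : ℕ => (((n : ℝ) + 1) ^ 2)⁻¹) := by
      have := (summable_nat_add_iff 1).mpr (Real.summable_nat_pow_inv.mpr (by norm_num : 1 < 2))
      refine this.congr fun n => ?_
      push_cast
      rfl
    have hprod : Summable (fun x : ℕ × ℕ => (((x.1 : ℝ) + 1) ^ 2)⁻¹ * (((x.2 : ℝ) + 1) ^ 2)⁻¹) :=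
      hs0.mul_of_nonneg hs0 (fun n => by positivity) (fun n => by positivity)
    refine Summable.of_nonneg_of_le (fun x => by positivity) (fun x => ?_) (hprod.mul_left ((δ1 ^ 3 * δ2 ^ 3)⁻¹))
    obtain ⟨n, m⟩ := x
    simp only
    obtain ⟨-, z1, z2⟩ := M11_z h1 h2 h0 he k (n + 1) (m + 1)
    have e1 := ha (n + 1)
    have e2 := hb (m + 1)
    push_cast at e1 e2
    have c1 : ((n + 1 : ℕ) : ℝ) = (n : ℝ) + 1 := by push_cast; rfl
    have c2 : ((m + 1 : ℕ) : ℝ) = (m : ℝ) + 1 := by push_cast; rfl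
    rw [c1] at z1
    rw [c2] at z2
    set r := ‖Z (n + 1) (m + 1)‖ with hr
    have r0 : 0 ≤ r := norm_nonneg _
    have z1' : δ1 * ((n : ℝ) + 1) ≤ r := z1
    have z2' : δ2 * ((m : ℝ) + 1) ≤ r := z2
    have hN : 0 < (n : ℝ) + 1 := by positivity
    have hM : 0 < (m : ℝ) + 1 := by positivity
    have b1 : (δ1 * ((n : ℝ) + 1)) ^ 3 * (δ2 * ((m : ℝ) + 1)) ^ 3 ≤ (1 + r) ^ 12 := by
      calc _ ≤ (1 + r) ^ 3 * (1 + r) ^ 3 := by
            gcongr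
            · linarith
            · linarith
        _ = (1 + r) ^ 6 := by ring
        _ ≤ (1 + r) ^ 12 := pow_le_pow_right₀ (by linarith) (by norm_num)
    have b2 : ((1 + r) ^ 12)⁻¹ ≤ ((δ1 * ((n : ℝ) + 1)) ^ 3 * (δ2 * ((m : ℝ) + 1)) ^ 3)⁻¹ :=
      inv_anti₀ (by positivity) b1
    calc _ ≤ ((n : ℝ) + 1) * ((m : ℝ) + 1) * ((δ1 * ((n : ℝ) + 1)) ^ 3 * (δ2 * ((m : ℝ) + 1)) ^ 3)⁻¹ := by
          gcongr
      _ = _ := by
          field_simp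
  have hle2 : ∑' x : ℕ × ℕ, ‖α (x.1 + 1)‖ * ‖β (x.2 + 1)‖ * ‖Xi (Z (x.1 + 1) (x.2 + 1))‖ ≤
      C0 * ∑' x : ℕ × ℕ, ‖α (x.1 + 1)‖ * ‖β (x.2 + 1)‖ *
        ((1 + ‖Z (x.1 + 1) (x.2 + 1)‖) ^ 12)⁻¹ := by
    rw [← tsum_mul_left]
    refine Summable.tsum_le_tsum (fun x => ?_) hsum (hsum2.mul_left C0)
    obtain ⟨z0, -, -⟩ := M11_z h1 h2 h0 he k (x.1 + 1) (x.2 + 1)
    have := hXi _ z0
    calc _ ≤ ‖α (x.1 + 1)‖ * ‖β (x.2 + 1)‖ * (C0 * ((1 + ‖Z (x.1 + 1) (x.2 + 1)‖) ^ 12)⁻¹) :=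
          mul_le_mul_of_nonneg_left this (by positivity)
      _ = _ := by ring
  have hs3 := hsch (fun n => ‖α n‖) (fun n => ‖β n‖) (fun n => norm_nonneg _)
    (fun n => norm_nonneg _) ha hb ε h0 he k
  have hek : 0 < Real.exp k := Real.exp_pos _
  calc ‖BK α β θ1 θ2 ε k‖ ≤ Real.exp k * ∑' x : ℕ × ℕ, ‖α (x.1 + 1)‖ *
        ‖β (x.2 + 1)‖ * ‖Xi (Z (x.1 + 1) (x.2 + 1))‖ := hle
    _ ≤ Real.exp k * (C0 * (C3 * (√(∑' n : ℕ, ‖α (n + 1)‖ ^ 2 * ((1 + Real.exp k * ε * ((n : ℝ) + 1)) ^ 4)⁻¹) *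
        √(∑' n : ℕ, ‖β (n + 1)‖ ^ 2 * ((1 + Real.exp k * ε * ((n : ℝ) + 1)) ^ 4)⁻¹)))) := by
        refine mul_le_mul_of_nonneg_left ?_ hek.le
        exact hle2.trans (mul_le_mul_of_nonneg_left hs3 hC0)
    _ = _ := by ring

/-- mean square of cv with smooth weights -/
theorem M11_cvms {q1 q2 : ℕ} [NeZero q1] [NeZero q2] {χ1 : DirichletCharacter ℂ q1}
    {χ2 : DirichletCharacter ℂ q2} (n12 : OO.Ne12 χ1 χ2) :
    ∃ K : ℝ, 0 ≤ K ∧ ∀ x : ℝ, 0 < x → x ≤ 1 / 3 →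
      ∑' n : ℕ, ‖cv χ1 χ2 (n + 1)‖ ^ 2 * ((1 + x * ((n : ℝ) + 1)) ^ 4)⁻¹ ≤
        K * (x⁻¹ * Real.log (1 / x)) := by
  obtain ⟨M, hM⟩ := TT.psum n12
  obtain ⟨K, hK, h⟩ := M11_ms hM
  refine ⟨4 * K, by positivity, fun x hx hx3 => ?_⟩
  have h1 := h (1 / 2) x⁻¹ le_rfl (inv_pos.mpr hx)
  have e : ∀ n : ℕ, ((n : ℝ) + 1) / x⁻¹ = x * ((n : ℝ) + 1) := fun n => by
    rw [div_inv_eq_mul, mul_comm]
  simp_rw [e, ← M11_cv_eq] at h1
  refine h1.trans ?_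
  have h3 : 3 ≤ 1 / x := by
    rw [le_div_iff₀ hx]
    linarith
  have hl1 : 1 ≤ Real.log (1 / x) := by
    rw [Real.le_log_iff_exp_le (by positivity)]
    have := Real.exp_one_lt_d9
    linarith
  have h4 : Real.log (1 + x⁻¹ / (1 / 2) ^ 2) ≤ 3 * Real.log (1 / x) := by
    have e3 : (3 : ℝ) * Real.log (1 / x) = Real.log ((1 / x) ^ 3) := by
      rw [Real.log_pow]
      norm_num
    rw [e3]
    refine Real.log_le_log (by positivity) ?_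
    have e4 : x⁻¹ = 1 / x := (one_div x).symm
    rw [e4]
    obtain ⟨t, ht⟩ : ∃ t : ℝ, t = 1 / x := ⟨_, rfl⟩
    rw [← ht] at h3 ⊢
    have h5 : 9 * t ≤ t ^ 3 := by
      have h6 : 0 ≤ t * (t - 3) * (t + 3) :=
        mul_nonneg (mul_nonneg (by linarith) (by linarith)) (by linarith)
      have h7 : t * (t - 3) * (t + 3) = t ^ 3 - 9 * t := by ring
      linarith
    have h8 : 1 + t / (1 / 2) ^ 2 = 1 + 4 * t := by ring
    rw [h8]
    linarith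
  have hxi : 0 < x⁻¹ := inv_pos.mpr hx
  calc K * x⁻¹ * (1 + Real.log (1 + x⁻¹ / (1 / 2) ^ 2)) ≤
      K * x⁻¹ * (Real.log (1 / x) + 3 * Real.log (1 / x)) := by
        refine mul_le_mul_of_nonneg_left ?_ (by positivity)
        linarith
    _ = _ := by ring

end M11

/-- Row M11. Pieces with small k. -/
theorem small_k {N : ℕ} {a : ℕ → ℂ} {L : ℂ → ℂ} (D : Dat N a L) {q1 q2 : ℕ} [NeZero q1] [NeZero q2]
    {χ1 : DirichletCharacter ℂ q1} {χ2 : DirichletCharacter ℂ q2} (n12 : OO.Ne12 χ1 χ2)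
    {θ1 θ2 : ℝ} (h1 : 0 < θ1) (h2 : 0 < θ2) (A : ℝ) : ∃ C ε0 : ℝ, 0 < ε0 ∧ ε0 ≤ 1 / 3 ∧ ∀ ε : ℝ, 0 < ε → ε ≤ ε0 →
      ∀ k : ℕ, Real.exp k ≤ Real.log (1 / ε) ^ A →
        ‖II.BK (II.cv χ1 χ2) a θ1 θ2 ε k‖ ≤ C * (ε⁻¹ * Real.exp (Sp a (1 / Real.log (1 / ε)) / 2)) := by
  obtain ⟨C0, hC0, hcs⟩ := M11_cs h1 h2
  obtain ⟨K1, hK1, hm1⟩ := M11_cvms n12
  obtain ⟨K2, hK2, hm2⟩ := ms_ht D
  have hA := (isLittleO_log_rpow_rpow_atTop A (by norm_num : (0:ℝ) < 1)).bound (by norm_num : (0:ℝ) < 1 / 3)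
  obtain ⟨T0, hT0⟩ := Filter.eventually_atTop.mp hA
  set T1 := max T0 3 with hT1
  have hT13 : 3 ≤ T1 := le_max_right _ _
  have hT1p : 0 < T1 := by linarith
  refine ⟨C0 * √(K1 * K2), 1 / T1, by positivity, ?_, fun ε hε he k hk => ?_⟩
  · exact one_div_le_one_div_of_le (by norm_num) hT13
  have heT : T1 ≤ 1 / ε := by
    rw [le_div_iff₀ hε]
    rw [le_div_iff₀ hT1p] at he
    linarith
  have hT0' : T0 ≤ 1 / ε := (le_max_left _ _).trans heT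
  have h3 : 3 ≤ 1 / ε := hT13.trans heT
  have he3 : ε ≤ 1 / 3 := by
    rw [le_div_iff₀ (by norm_num)]
    rw [le_div_iff₀ hε] at h3
    linarith
  have hTp : 0 < 1 / ε := by positivity
  have hl1 : 1 ≤ Real.log (1 / ε) := by
    rw [Real.le_log_iff_exp_le hTp]
    have := Real.exp_one_lt_d9
    linarith
  have a1 := hT0 (1 / ε) hT0'
  rw [Real.norm_of_nonneg (Real.rpow_nonneg (by linarith) _), Real.rpow_one,
    Real.norm_of_nonneg hTp.le] at a1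
  have hek : 0 < Real.exp k := Real.exp_pos _
  have hek1 : 1 ≤ Real.exp k := Real.one_le_exp (Nat.cast_nonneg k)
  obtain ⟨x, hx⟩ : ∃ x : ℝ, x = Real.exp k * ε := ⟨_, rfl⟩
  have hx0 : 0 < x := by rw [hx]; positivity
  have hx3 : x ≤ 1 / 3 := by
    have := mul_le_mul_of_nonneg_right (hk.trans a1) hε.le
    rw [hx]
    refine this.trans (le_of_eq ?_)
    field_simp
  have hxe : ε ≤ x := by
    rw [hx]
    exact le_mul_of_one_le_left hε.le hek1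
  have hlx1 : 1 ≤ Real.log (1 / x) := by
    have h4 : 3 ≤ 1 / x := by
      rw [le_div_iff₀ hx0]
      linarith
    rw [Real.le_log_iff_exp_le (by positivity)]
    have := Real.exp_one_lt_d9
    linarith
  have hlx : Real.log (1 / x) ≤ Real.log (1 / ε) :=
    Real.log_le_log (by positivity) (one_div_le_one_div_of_le hε hxe)
  have hS : Sp a (1 / Real.log (1 / x)) ≤ Sp a (1 / Real.log (1 / ε)) :=
    Sp_anti D (by positivity) (one_div_le_one_div_of_le (by linarith) hlx)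
  have g1 := hcs (II.cv χ1 χ2) (M11_a0 a)
    (fun n => by rw [M11_cv_eq]; exact M11_cv_le χ1 χ2 _ n) (M11_a0_le D) ε hε (by linarith) k
  rw [M11_BK] at g1
  simp only [M11_a0_succ] at g1
  rw [← hx] at g1
  have w1 := hm1 x hx0 hx3
  have w2 := hm2 x hx0 hx3
  have hxi : 0 < x⁻¹ := inv_pos.mpr hx0
  have hE : Real.exp (Sp a (1 / Real.log (1 / x))) ≤ Real.exp (Sp a (1 / Real.log (1 / ε))) :=
    Real.exp_le_exp.mpr hS
  obtain ⟨ℓ, hℓ⟩ : ∃ ℓ : ℝ, ℓ = Real.log (1 / x) := ⟨_, rfl⟩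
  obtain ⟨S, hSd⟩ : ∃ S : ℝ, S = Sp a (1 / Real.log (1 / ε)) := ⟨_, rfl⟩
  rw [← hℓ] at w1 w2 hE hlx1
  rw [← hSd] at hE ⊢
  have hℓ0 : 0 < ℓ := by linarith
  have w3 : √(∑' n : ℕ, ‖II.cv χ1 χ2 (n + 1)‖ ^ 2 * ((1 + x * ((n : ℝ) + 1)) ^ 4)⁻¹) *
      √(∑' n : ℕ, ‖a (n + 1)‖ ^ 2 * ((1 + x * ((n : ℝ) + 1)) ^ 4)⁻¹) ≤
      x⁻¹ * (√(K1 * K2) * Real.exp (S / 2)) := by
    calc _ ≤ √(K1 * (x⁻¹ * ℓ)) * √(K2 * (x⁻¹ * ℓ⁻¹ * Real.exp S)) := by
          refine mul_le_mul (Real.sqrt_le_sqrt w1) (Real.sqrt_le_sqrt (w2.trans ?_)) (Real.sqrt_nonneg _)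
            (Real.sqrt_nonneg _)
          gcongr
      _ = √(x⁻¹ ^ 2 * (K1 * K2 * Real.exp S)) := by
          rw [← Real.sqrt_mul (by positivity)]
          congr 1
          field_simp
      _ = _ := by
          rw [Real.sqrt_mul (by positivity), Real.sqrt_sq hxi.le, Real.sqrt_mul (by positivity), Real.exp_half]
  refine g1.trans ?_
  calc C0 * (Real.exp k * _) ≤ C0 * (Real.exp k * (x⁻¹ * (√(K1 * K2) * Real.exp (S / 2)))) :=
        mul_le_mul_of_nonneg_left (mul_le_mul_of_nonneg_left w3 hek.le) hC0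
    _ = _ := by
        rw [hx]
        field_simp

end NH
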