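import Pool.Agent.Lib.MP_0f5a55_nt.NH.M07
import Pool.Agent.Lib.MP_0f5a55_nt.II.D

open Complex MeasureTheory Set Filter Topology
open scoped Real ComplexConjugate

namespace NH

/-! ### the divisor bound -/

theorem M13_two (a : ℕ) : ((a : ℝ) + 1) ≤ 12 * (2 : ℝ) ^ ((a : ℝ) / 8) := by
  have h1 : (2 : ℝ) ^ ((a : ℝ) / 8) = Real.exp (Real.log 2 * ((a : ℝ) / 8)) :=
    Real.rpow_def_of_pos two_pos _
  have h2 := Real.add_one_le_exp (Real.log 2 * ((a : ℝ) / 8))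
  have h3 := Real.log_two_gt_d9
  have ha : (0 : ℝ) ≤ a := Nat.cast_nonneg a
  rw [h1]
  nlinarith

theorem M13_big (a p : ℕ) (hp : 256 ≤ p) : ((a : ℝ) + 1) ≤ ((p : ℝ) ^ a) ^ (1 / 8 : ℝ) := by
  have h1 : ((256 : ℝ) ^ a) ^ (1 / 8 : ℝ) ≤ ((p : ℝ) ^ a) ^ (1 / 8 : ℝ) := by
    apply Real.rpow_le_rpow (by positivity) _ (by norm_num)
    exact pow_le_pow_left₀ (by norm_num) (by exact_mod_cast hp) a
  have h2 : ((256 : ℝ) ^ a) ^ (1 / 8 : ℝ) = 2 ^ a := by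
    have h3 : (256 : ℝ) ^ a = ((2 : ℝ) ^ a) ^ (8 : ℕ) := by
      rw [← pow_mul, mul_comm a 8, pow_mul]
      norm_num
    have h4 : (1 / 8 : ℝ) = ((8 : ℕ) : ℝ)⁻¹ := by norm_num
    rw [h3, h4]
    exact Real.pow_rpow_inv_natCast (by positivity) (by norm_num)
  rw [h2] at h1
  refine le_trans ?_ h1
  have h5 : a + 1 ≤ 2 ^ a := Nat.lt_two_pow_self
  exact_mod_cast h5

/-- divisor bound with exponent 1/8 -/
theorem M13_div : ∃ C : ℝ, 0 < C ∧ ∀ n : ℕ, 1 ≤ n → (n.divisors.card : ℝ) ≤ C * (n : ℝ) ^ (1/8 : ℝ) := by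
  classical
  refine ⟨12 ^ 256, by positivity, fun n hn => ?_⟩
  have hn0 : n ≠ 0 := by omega
  rw [Nat.card_divisors hn0]
  push_cast
  have h1 : ∀ p ∈ n.primeFactors, ((n.factorization p : ℝ) + 1) ≤
      (if p < 256 then 12 else 1) * ((p : ℝ) ^ (n.factorization p)) ^ (1 / 8 : ℝ) := by
    intro p hp
    have hpp := Nat.prime_of_mem_primeFactors hp
    split_ifs with h
    · refine (M13_two _).trans (mul_le_mul_of_nonneg_left ?_ (by norm_num))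
      have h2 : (2 : ℝ) ^ ((n.factorization p : ℝ) / 8) =
          ((2 : ℝ) ^ (n.factorization p)) ^ (1 / 8 : ℝ) := by
        rw [← Real.rpow_natCast, ← Real.rpow_mul (by norm_num)]
        congr 1
        ring
      rw [h2]
      apply Real.rpow_le_rpow (by positivity) _ (by norm_num)
      exact pow_le_pow_left₀ (by norm_num) (by exact_mod_cast hpp.two_le) _
    · rw [one_mul]
      exact M13_big _ _ (by omega)
  have h2 : (∏ p ∈ n.primeFactors, ((n.factorization p : ℝ) + 1)) ≤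
      ∏ p ∈ n.primeFactors, ((if p < 256 then 12 else 1) *
        ((p : ℝ) ^ (n.factorization p)) ^ (1 / 8 : ℝ)) :=
    Finset.prod_le_prod (fun p _ => by positivity) h1
  refine h2.trans ?_
  rw [Finset.prod_mul_distrib]
  have h3 : ∏ p ∈ n.primeFactors, ((p : ℝ) ^ (n.factorization p)) ^ (1 / 8 : ℝ) =
      (n : ℝ) ^ (1 / 8 : ℝ) := by
    rw [Real.finset_prod_rpow _ _ (fun p _ => by positivity)]
    congr 1
    have h4 := Nat.factorization_prod_pow_eq_self hn0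
    rw [Finsupp.prod] at h4
    rw [Nat.support_factorization] at h4
    exact_mod_cast h4
  rw [h3]
  refine mul_le_mul_of_nonneg_right ?_ (by positivity)
  rw [Finset.prod_ite, Finset.prod_const_one, mul_one, Finset.prod_const]
  refine pow_le_pow_right₀ (by norm_num) ?_
  calc (n.primeFactors.filter fun p => p < 256).card ≤ (Finset.range 256).card := by
        refine Finset.card_le_card fun p hp => ?_
        rw [Finset.mem_range]
        exact (Finset.mem_filter.mp hp).2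
    _ = 256 := Finset.card_range 256

/-! ### local identity -/

/-- complete homogeneous symmetric polynomial in two variables -/
noncomputable def M13_h (x y : ℂ) (n : ℕ) : ℂ := ∑ j ∈ Finset.range (n + 1), x ^ j * y ^ (n - j)

theorem M13_h_zero (x y : ℂ) : M13_h x y 0 = 1 := by
  simp [M13_h]

theorem M13_h_succ (x y : ℂ) (n : ℕ) : M13_h x y (n + 1) = y * M13_h x y n + x ^ (n + 1) := by
  unfold M13_h
  rw [Finset.sum_range_succ, Nat.sub_self, pow_zero, mul_one, Finset.mul_sum]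
  congr 1
  apply Finset.sum_congr rfl
  intro j hj
  rw [Finset.mem_range] at hj
  rw [show n + 1 - j = (n - j) + 1 by omega, pow_succ]
  ring

theorem M13_h_succ' (x y : ℂ) (n : ℕ) : M13_h x y (n + 1) = x * M13_h x y n + y ^ (n + 1) := by
  unfold M13_h
  rw [Finset.sum_range_succ', Nat.sub_zero, pow_zero, one_mul, Finset.mul_sum]
  congr 1
  apply Finset.sum_congr rfl
  intro j hj
  rw [show n + 1 - (j + 1) = n - j by omega, pow_succ]
  ring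

theorem M13_split (x y : ℂ) (n m : ℕ) :
    M13_h x y (n + m + 1) = x ^ (m + 1) * M13_h x y n + y ^ (n + 1) * M13_h x y m := by
  induction m with
  | zero => rw [add_zero, M13_h_succ', M13_h_zero]; ring
  | succ m ih =>
    rw [show n + (m + 1) + 1 = (n + m + 1) + 1 by ring, M13_h_succ, ih, M13_h_succ x y m]
    have h1 : y * M13_h x y n + x ^ (n + 1) = x * M13_h x y n + y ^ (n + 1) := by
      rw [← M13_h_succ, ← M13_h_succ']
    linear_combination x ^ (m + 1) * h1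

theorem M13_hh (x y : ℂ) (i j : ℕ) :
    M13_h x y (i + 1) * M13_h x y (j + 1) = M13_h x y (i + j + 2) + x * y * (M13_h x y i * M13_h x y j) := by
  have h1 := M13_split x y i (j + 1)
  rw [show i + (j + 1) + 1 = i + j + 2 by ring] at h1
  rw [h1, M13_h_succ' x y i, M13_h_succ x y j]
  ring

noncomputable def M13_S (x1 x2 y1 y2 : ℂ) (k : ℕ) : ℂ :=
  ∑ i ∈ Finset.range (k + 1), (x1 ^ i * M13_h y1 y2 i) * (x2 ^ (k - i) * M13_h y1 y2 (k - i))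

theorem M13_key (x1 x2 y1 y2 : ℂ) (m : ℕ) :
    M13_h x1 x2 (m + 2) * M13_h y1 y2 (m + 2) =
      M13_S x1 x2 y1 y2 (m + 2) - x1 * x2 * y1 * y2 * M13_S x1 x2 y1 y2 m := by
  unfold M13_S
  rw [Finset.sum_range_succ, Finset.sum_range_succ', Nat.sub_self, Nat.sub_zero, pow_zero, pow_zero,
    M13_h_zero]
  have h1 : ∑ i ∈ Finset.range (m + 1), (x1 ^ (i + 1) * M13_h y1 y2 (i + 1)) *
      (x2 ^ (m + 2 - (i + 1)) * M13_h y1 y2 (m + 2 - (i + 1))) =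
      (∑ i ∈ Finset.range (m + 1), x1 ^ (i + 1) * x2 ^ (m + 1 - i)) * M13_h y1 y2 (m + 2) +
      x1 * x2 * y1 * y2 * ∑ i ∈ Finset.range (m + 1), (x1 ^ i * M13_h y1 y2 i) *
        (x2 ^ (m - i) * M13_h y1 y2 (m - i)) := by
    rw [Finset.sum_mul, Finset.mul_sum, ← Finset.sum_add_distrib]
    apply Finset.sum_congr rfl
    intro i hi
    rw [Finset.mem_range] at hi
    obtain ⟨d, hd⟩ := Nat.exists_eq_add_of_le (show i ≤ m by omega)
    subst hd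
    rw [show i + d + 2 - (i + 1) = d + 1 by omega, show i + d + 1 - i = d + 1 by omega,
      show i + d - i = d by omega]
    have h2 := M13_hh y1 y2 i d
    linear_combination (x1 ^ (i + 1) * x2 ^ (d + 1)) * h2
  rw [h1]
  have h3 : M13_h x1 x2 (m + 2) = (∑ i ∈ Finset.range (m + 1), x1 ^ (i + 1) * x2 ^ (m + 1 - i)) +
      x2 ^ (m + 2) + x1 ^ (m + 2) := by
    unfold M13_h
    rw [Finset.sum_range_succ, Finset.sum_range_succ', Nat.sub_self, Nat.sub_zero, pow_zero,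
      pow_zero]
    have h4 : ∑ i ∈ Finset.range (m + 1), x1 ^ (i + 1) * x2 ^ (m + 2 - (i + 1)) =
        ∑ i ∈ Finset.range (m + 1), x1 ^ (i + 1) * x2 ^ (m + 1 - i) := by
      apply Finset.sum_congr rfl
      intro i _
      rw [show m + 2 - (i + 1) = m + 1 - i by omega]
    rw [h4]
    ring
  rw [h3]
  ring

/-! ### arithmetic functions -/

/-- the function supported on the squares of squarefree numbers -/
noncomputable def M13_H (loc : ℕ → ℂ) : ArithmeticFunction ℂ :=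
  ⟨fun n => if n = 0 then 0 else n.factorization.prod
    (fun p k => if k = 0 then 1 else if k = 2 then loc p else 0), by simp⟩

theorem M13_H_apply (loc : ℕ → ℂ) {n : ℕ} (hn : n ≠ 0) : M13_H loc n = n.factorization.prod
    (fun p k => if k = 0 then 1 else if k = 2 then loc p else 0) := by
  show (if n = 0 then (0 : ℂ) else _) = _
  rw [if_neg hn]

theorem M13_H_mult (loc : ℕ → ℂ) : (M13_H loc).IsMultiplicative := by
  rw [ArithmeticFunction.IsMultiplicative.iff_ne_zero]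
  refine ⟨?_, ?_⟩
  · rw [M13_H_apply loc one_ne_zero, Nat.factorization_one, Finsupp.prod_zero_index]
  · intro m n hm hn hmn
    rw [M13_H_apply loc (mul_ne_zero hm hn), M13_H_apply loc hm, M13_H_apply loc hn,
      Nat.factorization_mul hm hn]
    apply Finsupp.prod_add_index_of_disjoint
    rw [Nat.support_factorization, Nat.support_factorization]
    exact hmn.disjoint_primeFactors

theorem M13_H_pow (loc : ℕ → ℂ) {p : ℕ} (hp : p.Prime) (k : ℕ) : M13_H loc (p ^ k) =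
    if k = 0 then 1 else if k = 2 then loc p else 0 := by
  rw [M13_H_apply loc (pow_ne_zero _ hp.ne_zero), hp.factorization_pow]
  exact Finsupp.prod_single_index (by simp)

theorem M13_H_norm (loc : ℕ → ℂ) (hloc : ∀ p : ℕ, p.Prime → ‖loc p‖ ≤ 1) (n : ℕ) :
    ‖M13_H loc n‖ ≤ 1 := by
  by_cases hn : n = 0
  · subst hn
    simp
  rw [M13_H_apply loc hn, Finsupp.prod, norm_prod]
  apply Finset.prod_le_one
  · intro p _
    exact norm_nonneg _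
  · intro p hp
    rw [Nat.support_factorization] at hp
    split_ifs
    · simp
    · exact hloc p (Nat.prime_of_mem_primeFactors hp)
    · simp

theorem M13_H_sq (loc : ℕ → ℂ) {n : ℕ} (h : M13_H loc n ≠ 0) : ∃ g : ℕ, 0 < g ∧ n = g ^ 2 := by
  have hn : n ≠ 0 := by
    rintro rfl
    exact h (by simp)
  rw [M13_H_apply loc hn, Finsupp.prod] at h
  have h1 : ∀ p ∈ n.factorization.support, n.factorization p = 2 := by
    intro p hp
    by_contra h2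
    apply h
    apply Finset.prod_eq_zero hp
    rw [Finsupp.mem_support_iff] at hp
    rw [if_neg hp, if_neg h2]
  refine ⟨∏ p ∈ n.factorization.support, p, ?_, ?_⟩
  · apply Finset.prod_pos
    intro p hp
    rw [Nat.support_factorization] at hp
    exact (Nat.prime_of_mem_primeFactors hp).pos
  · rw [← Finset.prod_pow]
    conv_lhs => rw [← Nat.factorization_prod_pow_eq_self hn, Finsupp.prod]
    apply Finset.prod_congr rfl
    intro p hp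
    rw [h1 p hp]

/-- convolution at a prime power -/
theorem M13_conv (f g : ArithmeticFunction ℂ) {p : ℕ} (hp : p.Prime) (k : ℕ) :
    (f * g) (p ^ k) = ∑ i ∈ Finset.range (k + 1), f (p ^ i) * g (p ^ (k - i)) := by
  rw [ArithmeticFunction.mul_apply, Nat.sum_divisorsAntidiagonal (fun x y => f x * g y),
    Nat.sum_divisors_prime_pow hp]
  apply Finset.sum_congr rfl
  intro i hi
  rw [Finset.mem_range] at hi
  rw [Nat.pow_div (by omega) hp.pos]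

noncomputable def M13_cf (c : ℕ → ℂ) : ArithmeticFunction ℂ := ⟨fun n => if n = 0 then 0 else c n, by simp⟩

noncomputable def M13_uf (c a : ℕ → ℂ) : ArithmeticFunction ℂ :=
  ⟨fun n => if n = 0 then 0 else c n * conj (a n), by simp⟩

noncomputable def M13_wf (c1 c2 a : ℕ → ℂ) : ArithmeticFunction ℂ :=
  ⟨fun n => (M13_cf c1 * M13_cf c2) n * conj (a n), by simp⟩

theorem M13_cf_apply (c : ℕ → ℂ) {n : ℕ} (hn : n ≠ 0) : M13_cf c n = c n := by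
  show (if n = 0 then (0 : ℂ) else _) = _
  rw [if_neg hn]

theorem M13_uf_apply (c a : ℕ → ℂ) {n : ℕ} (hn : n ≠ 0) : M13_uf c a n = c n * conj (a n) := by
  show (if n = 0 then (0 : ℂ) else _) = _
  rw [if_neg hn]

theorem M13_wf_apply (c1 c2 a : ℕ → ℂ) (n : ℕ) :
    M13_wf c1 c2 a n = (M13_cf c1 * M13_cf c2) n * conj (a n) := rfl

/-- completely multiplicative and bounded by 1 -/
structure M13_CM (c : ℕ → ℂ) : Prop where
  one : c 1 = 1
  mul : ∀ m n : ℕ, c (m * n) = c m * c n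
  le : ∀ n : ℕ, ‖c n‖ ≤ 1

theorem M13_CM.pow {c : ℕ → ℂ} (h : M13_CM c) (m k : ℕ) : c (m ^ k) = c m ^ k := by
  induction k with
  | zero => rw [pow_zero, pow_zero, h.one]
  | succ k ih => rw [pow_succ, pow_succ, h.mul, ih]

theorem M13_cf_mult {c : ℕ → ℂ} (h : M13_CM c) : (M13_cf c).IsMultiplicative := by
  rw [ArithmeticFunction.IsMultiplicative.iff_ne_zero]
  refine ⟨?_, ?_⟩
  · rw [M13_cf_apply c one_ne_zero, h.one]
  · intro m n hm hn _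
    rw [M13_cf_apply c (mul_ne_zero hm hn), M13_cf_apply c hm, M13_cf_apply c hn, h.mul]

theorem M13_uf_mult {c a : ℕ → ℂ} (h : M13_CM c) (h1 : a 1 = 1)
    (hmul : ∀ m n : ℕ, 0 < m → 0 < n → Nat.Coprime m n → a (m * n) = a m * a n) :
    (M13_uf c a).IsMultiplicative := by
  rw [ArithmeticFunction.IsMultiplicative.iff_ne_zero]
  refine ⟨?_, ?_⟩
  · rw [M13_uf_apply c a one_ne_zero, h.one, h1, map_one, mul_one]
  · intro m n hm hn hmn
    rw [M13_uf_apply c a (mul_ne_zero hm hn), M13_uf_apply c a hm, M13_uf_apply c a hn, h.mul,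
      hmul m n (Nat.pos_of_ne_zero hm) (Nat.pos_of_ne_zero hn) hmn, map_mul]
    ring

theorem M13_wf_mult {c1 c2 a : ℕ → ℂ} (hc1 : M13_CM c1) (hc2 : M13_CM c2) (h1 : a 1 = 1)
    (hmul : ∀ m n : ℕ, 0 < m → 0 < n → Nat.Coprime m n → a (m * n) = a m * a n) :
    (M13_wf c1 c2 a).IsMultiplicative := by
  have hc := (M13_cf_mult hc1).mul (M13_cf_mult hc2)
  rw [ArithmeticFunction.IsMultiplicative.iff_ne_zero]
  refine ⟨?_, ?_⟩
  · rw [M13_wf_apply, hc.map_one, h1, map_one, mul_one]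
  · intro m n hm hn hmn
    rw [M13_wf_apply, M13_wf_apply, M13_wf_apply, hc.map_mul_of_coprime hmn,
      hmul m n (Nat.pos_of_ne_zero hm) (Nat.pos_of_ne_zero hn) hmn, map_mul]
    ring

/-- the Rankin-Selberg identity -/
theorem M13_RS {c1 c2 a : ℕ → ℂ} (hc1 : M13_CM c1) (hc2 : M13_CM c2) (h1 : a 1 = 1)
    (hmul : ∀ m n : ℕ, 0 < m → 0 < n → Nat.Coprime m n → a (m * n) = a m * a n)
    {α β : ℕ → ℂ} (hloc : ∀ p : ℕ, p.Prime → ∀ k : ℕ,
      a (p ^ k) = ∑ j ∈ Finset.range (k + 1), α p ^ j * β p ^ (k - j)) :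
    M13_wf c1 c2 a = (M13_uf c1 a * M13_uf c2 a) *
      M13_H (fun p => -(c1 p * c2 p * conj (α p) * conj (β p))) := by
  rw [ArithmeticFunction.IsMultiplicative.eq_iff_eq_on_prime_powers _
    (M13_wf_mult hc1 hc2 h1 hmul) _
    (((M13_uf_mult hc1 h1 hmul).mul (M13_uf_mult hc2 h1 hmul)).mul (M13_H_mult _))]
  intro p k hp
  have ha : ∀ k : ℕ, conj (a (p ^ k)) = M13_h (conj (α p)) (conj (β p)) k := by
    intro k
    rw [hloc p hp k, map_sum]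
    unfold M13_h
    apply Finset.sum_congr rfl
    intro j _
    rw [map_mul, map_pow, map_pow]
  have hW : M13_wf c1 c2 a (p ^ k) = M13_h (c1 p) (c2 p) k * M13_h (conj (α p)) (conj (β p)) k := by
    rw [M13_wf_apply, ha, M13_conv _ _ hp]
    congr 1
    unfold M13_h
    apply Finset.sum_congr rfl
    intro j _
    rw [M13_cf_apply _ (pow_ne_zero _ hp.ne_zero), M13_cf_apply _ (pow_ne_zero _ hp.ne_zero),
      hc1.pow, hc2.pow]
  have hU : ∀ k : ℕ, (M13_uf c1 a * M13_uf c2 a) (p ^ k) =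
      M13_S (c1 p) (c2 p) (conj (α p)) (conj (β p)) k := by
    intro k
    rw [M13_conv _ _ hp]
    unfold M13_S
    apply Finset.sum_congr rfl
    intro j _
    rw [M13_uf_apply _ _ (pow_ne_zero _ hp.ne_zero), M13_uf_apply _ _ (pow_ne_zero _ hp.ne_zero),
      hc1.pow, hc2.pow, ha, ha]
  rw [hW, M13_conv _ _ hp]
  simp_rw [hU, M13_H_pow _ hp]
  rcases k with _ | _ | m
  · simp [M13_S, M13_h_zero]
  · rw [Finset.sum_range_succ, Finset.sum_range_one]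
    simp [M13_S, M13_h, Finset.sum_range_succ]
    ring
  · rw [Finset.sum_range_succ, Finset.sum_range_succ, Finset.sum_range_succ]
    have h3 : ∑ i ∈ Finset.range m, M13_S (c1 p) (c2 p) (conj (α p)) (conj (β p)) i *
        (if m + 1 + 1 - i = 0 then (1 : ℂ) else if m + 1 + 1 - i = 2 then
          -(c1 p * c2 p * conj (α p) * conj (β p)) else 0) = 0 := by
      apply Finset.sum_eq_zero
      intro i hi
      rw [Finset.mem_range] at hi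
      rw [if_neg (by omega), if_neg (by omega), mul_zero]
    rw [h3, if_neg (show ¬ (m + 1 + 1 - m = 0) by omega), if_pos (show m + 1 + 1 - m = 2 by omega),
      if_neg (show ¬ (m + 1 + 1 - (m + 1) = 0) by omega),
      if_neg (show ¬ (m + 1 + 1 - (m + 1) = 2) by omega),
      if_pos (show m + 1 + 1 - (m + 1 + 1) = 0 by omega)]
    have h4 := M13_key (c1 p) (c2 p) (conj (α p)) (conj (β p)) m
    rw [show m + 1 + 1 = m + 2 by ring, h4]
    ring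

/-! ### hyperbola -/

theorem M13_sqrt_sum (D : ℕ) : ∑ e ∈ Finset.Ioc 0 D, (e : ℝ) ^ (-(1 / 2) : ℝ) ≤ 2 * √D := by
  induction D with
  | zero => simp
  | succ n ih =>
    rw [Finset.sum_Ioc_succ_top (Nat.zero_le n)]
    have hs : √((n : ℝ) + 1) ^ 2 = n + 1 := Real.sq_sqrt (by positivity)
    have ht : √(n : ℝ) ^ 2 = n := Real.sq_sqrt (by positivity)
    have h0 : 0 < √((n : ℝ) + 1) := Real.sqrt_pos.2 (by positivity)
    have h1 : (((n + 1 : ℕ) : ℝ)) ^ (-(1 / 2) : ℝ) = (√((n : ℝ) + 1))⁻¹ := by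
      push_cast
      rw [Real.rpow_neg (by positivity), ← Real.sqrt_eq_rpow]
    have h2 : (√((n : ℝ) + 1))⁻¹ ≤ 2 * (√((n : ℝ) + 1) - √n) := by
      rw [inv_le_iff_one_le_mul₀ h0]
      nlinarith [sq_nonneg (√((n : ℝ) + 1) - √n)]
    rw [h1]
    push_cast
    linarith

theorem M13_div_pow (z : ℕ) {d : ℕ} (hd : 1 ≤ d) {p : ℝ} (hp : 0 ≤ p) :
    (((z / d : ℕ)) : ℝ) ^ p ≤ (z : ℝ) ^ p * (d : ℝ) ^ (-p) := by
  have hd0 : (0 : ℝ) < d := by exact_mod_cast hd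
  calc (((z / d : ℕ)) : ℝ) ^ p ≤ ((z : ℝ) / d) ^ p :=
        Real.rpow_le_rpow (Nat.cast_nonneg _) Nat.cast_div_le hp
    _ = (z : ℝ) ^ p * (d : ℝ) ^ (-p) := by
        rw [Real.div_rpow (Nat.cast_nonneg _) hd0.le, Real.rpow_neg hd0.le, div_eq_mul_inv]

theorem M13_hyp (f g : ArithmeticFunction ℂ) {C1 C : ℝ} (hC1 : 0 ≤ C1) (hC : 0 ≤ C)
    (hf : ∀ n : ℕ, 1 ≤ n → ‖f n‖ ≤ C1 * (n : ℝ) ^ (1 / 8 : ℝ))
    (hg : ∀ n : ℕ, 1 ≤ n → ‖g n‖ ≤ C1 * (n : ℝ) ^ (1 / 8 : ℝ))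
    (hF : ∀ x : ℕ, ‖∑ n ∈ Finset.Ioc 0 x, f n‖ ≤ C * (x : ℝ) ^ (5 / 8 : ℝ))
    (hG : ∀ x : ℕ, ‖∑ n ∈ Finset.Ioc 0 x, g n‖ ≤ C * (x : ℝ) ^ (5 / 8 : ℝ)) (z : ℕ) :
    ‖∑ n ∈ Finset.Ioc 0 z, (f * g) n‖ ≤ 6 * (C1 * C) * (z : ℝ) ^ (7 / 8 : ℝ) := by
  have hDz : Nat.sqrt z * Nat.sqrt z ≤ z := Nat.sqrt_le z
  have hDz' : z < (Nat.sqrt z + 1) * (Nat.sqrt z + 1) := Nat.lt_succ_sqrt z
  have hDle : Nat.sqrt z ≤ z := Nat.sqrt_le_self z
  generalize Nat.sqrt z = D at hDz hDz' hDle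
  have hcomm : ∑ n ∈ Finset.Ioc D z, f n * ∑ m ∈ Finset.Ioc 0 (z / n), g m =
      ∑ m ∈ Finset.Ioc 0 D, g m * ∑ n ∈ Finset.Ioc D (z / m), f n := by
    simp_rw [Finset.mul_sum]
    rw [Finset.sum_comm' (t' := Finset.Ioc 0 D) (s' := fun m => Finset.Ioc D (z / m))]
    · apply Finset.sum_congr rfl
      intro m _
      apply Finset.sum_congr rfl
      intro n _
      rw [mul_comm]
    · intro n m
      simp only [Finset.mem_Ioc]
      constructor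
      · rintro ⟨⟨h1, h2⟩, h3, h4⟩
        have h5 : m * n ≤ z := (Nat.le_div_iff_mul_le (by omega)).1 h4
        refine ⟨⟨h1, (Nat.le_div_iff_mul_le h3).2 (by rw [mul_comm]; exact h5)⟩, h3, ?_⟩
        by_contra h6
        have h7 : D + 1 ≤ m := by omega
        have h8 : D + 1 ≤ n := by omega
        have := Nat.mul_le_mul h7 h8
        omega
      · rintro ⟨⟨h1, h2⟩, h3, h4⟩
        have h5 : n * m ≤ z := (Nat.le_div_iff_mul_le h3).1 h2
        refine ⟨⟨h1, ?_⟩, h3, ?_⟩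
        · exact (Nat.le_mul_of_pos_right n h3).trans h5
        · exact (Nat.le_div_iff_mul_le (by omega)).2 (by rw [mul_comm]; exact h5)
  have hpt : ∀ d : ℕ, 1 ≤ d → (d : ℝ) ^ (1 / 8 : ℝ) * ((((z / d : ℕ)) : ℝ) ^ (5 / 8 : ℝ)) ≤
      (z : ℝ) ^ (5 / 8 : ℝ) * (d : ℝ) ^ (-(1 / 2) : ℝ) := by
    intro d hd
    have hd0 : (0 : ℝ) < d := by exact_mod_cast hd
    calc (d : ℝ) ^ (1 / 8 : ℝ) * ((((z / d : ℕ)) : ℝ) ^ (5 / 8 : ℝ)) ≤
          (d : ℝ) ^ (1 / 8 : ℝ) * ((z : ℝ) ^ (5 / 8 : ℝ) * (d : ℝ) ^ (-(5 / 8) : ℝ)) :=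
          mul_le_mul_of_nonneg_left (M13_div_pow z hd (by norm_num)) (by positivity)
      _ = (z : ℝ) ^ (5 / 8 : ℝ) * ((d : ℝ) ^ (1 / 8 : ℝ) * (d : ℝ) ^ (-(5 / 8) : ℝ)) := by ring
      _ = _ := by
          rw [← Real.rpow_add hd0]
          norm_num
  have h1 : ‖∑ d ∈ Finset.Ioc 0 D, f d * ∑ m ∈ Finset.Ioc 0 (z / d), g m‖ ≤
      ∑ d ∈ Finset.Ioc 0 D, C1 * C * (z : ℝ) ^ (5 / 8 : ℝ) * (d : ℝ) ^ (-(1 / 2) : ℝ) := by
    refine (norm_sum_le _ _).trans (Finset.sum_le_sum fun d hd => ?_)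
    rw [Finset.mem_Ioc] at hd
    rw [norm_mul]
    calc ‖f d‖ * ‖∑ m ∈ Finset.Ioc 0 (z / d), g m‖
        ≤ (C1 * (d : ℝ) ^ (1 / 8 : ℝ)) * (C * (((z / d : ℕ)) : ℝ) ^ (5 / 8 : ℝ)) :=
          mul_le_mul (hf d hd.1) (hG _) (norm_nonneg _) (by positivity)
      _ = (C1 * C) * ((d : ℝ) ^ (1 / 8 : ℝ) * (((z / d : ℕ)) : ℝ) ^ (5 / 8 : ℝ)) := by ring
      _ ≤ (C1 * C) * ((z : ℝ) ^ (5 / 8 : ℝ) * (d : ℝ) ^ (-(1 / 2) : ℝ)) :=
          mul_le_mul_of_nonneg_left (hpt d hd.1) (by positivity)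
      _ = _ := by ring
  have h2 : ‖∑ m ∈ Finset.Ioc 0 D, g m * ∑ n ∈ Finset.Ioc D (z / m), f n‖ ≤
      ∑ d ∈ Finset.Ioc 0 D, 2 * (C1 * C * (z : ℝ) ^ (5 / 8 : ℝ) * (d : ℝ) ^ (-(1 / 2) : ℝ)) := by
    refine (norm_sum_le _ _).trans (Finset.sum_le_sum fun d hd => ?_)
    rw [Finset.mem_Ioc] at hd
    have hDd : D ≤ z / d := by
      rw [Nat.le_div_iff_mul_le hd.1]
      exact (Nat.mul_le_mul_left D hd.2).trans hDz
    have h3 : ‖∑ n ∈ Finset.Ioc D (z / d), f n‖ ≤ 2 * (C * (((z / d : ℕ)) : ℝ) ^ (5 / 8 : ℝ)) := by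
      have h4 := Finset.sum_Ioc_consecutive (fun n => f n) (Nat.zero_le D) hDd
      have h5 : ∑ n ∈ Finset.Ioc D (z / d), f n =
          ∑ n ∈ Finset.Ioc 0 (z / d), f n - ∑ n ∈ Finset.Ioc 0 D, f n := by
        rw [← h4]
        ring
      rw [h5]
      have h6 : C * (D : ℝ) ^ (5 / 8 : ℝ) ≤ C * (((z / d : ℕ)) : ℝ) ^ (5 / 8 : ℝ) := by
        apply mul_le_mul_of_nonneg_left _ hC
        exact Real.rpow_le_rpow (Nat.cast_nonneg _) (by exact_mod_cast hDd) (by norm_num)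
      linarith [norm_sub_le (∑ n ∈ Finset.Ioc 0 (z / d), f n) (∑ n ∈ Finset.Ioc 0 D, f n),
        hF (z / d), hF D]
    rw [norm_mul]
    calc ‖g d‖ * ‖∑ n ∈ Finset.Ioc D (z / d), f n‖
        ≤ (C1 * (d : ℝ) ^ (1 / 8 : ℝ)) * (2 * (C * (((z / d : ℕ)) : ℝ) ^ (5 / 8 : ℝ))) :=
          mul_le_mul (hg d hd.1) h3 (norm_nonneg _) (by positivity)
      _ = 2 * (C1 * C) * ((d : ℝ) ^ (1 / 8 : ℝ) * (((z / d : ℕ)) : ℝ) ^ (5 / 8 : ℝ)) := by ring
      _ ≤ 2 * (C1 * C) * ((z : ℝ) ^ (5 / 8 : ℝ) * (d : ℝ) ^ (-(1 / 2) : ℝ)) :=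
          mul_le_mul_of_nonneg_left (hpt d hd.1) (by positivity)
      _ = _ := by ring
  rw [ArithmeticFunction.sum_Ioc_mul_eq_sum_sum, ← Finset.sum_Ioc_consecutive _ (Nat.zero_le D) hDle,
    hcomm]
  have hD4 : √(D : ℝ) ≤ (z : ℝ) ^ (1 / 4 : ℝ) := by
    have h7 : (D : ℝ) ≤ √(z : ℝ) := by
      apply Real.le_sqrt_of_sq_le
      rw [sq]
      exact_mod_cast hDz
    calc √(D : ℝ) ≤ √(√(z : ℝ)) := Real.sqrt_le_sqrt h7
      _ = (z : ℝ) ^ (1 / 4 : ℝ) := by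
          rw [Real.sqrt_eq_rpow, Real.sqrt_eq_rpow, ← Real.rpow_mul (Nat.cast_nonneg _)]
          norm_num
  calc _ ≤ _ := norm_add_le _ _
    _ ≤ ∑ d ∈ Finset.Ioc 0 D, C1 * C * (z : ℝ) ^ (5 / 8 : ℝ) * (d : ℝ) ^ (-(1 / 2) : ℝ) +
        ∑ d ∈ Finset.Ioc 0 D, 2 * (C1 * C * (z : ℝ) ^ (5 / 8 : ℝ) * (d : ℝ) ^ (-(1 / 2) : ℝ)) :=
        add_le_add h1 h2
    _ = 3 * (C1 * C * (z : ℝ) ^ (5 / 8 : ℝ)) * ∑ d ∈ Finset.Ioc 0 D, (d : ℝ) ^ (-(1 / 2) : ℝ) := by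
        rw [← Finset.mul_sum, ← Finset.mul_sum, ← Finset.mul_sum]
        ring
    _ ≤ 3 * (C1 * C * (z : ℝ) ^ (5 / 8 : ℝ)) * (2 * (z : ℝ) ^ (1 / 4 : ℝ)) := by
        apply mul_le_mul_of_nonneg_left _ (by positivity)
        exact (M13_sqrt_sum D).trans (mul_le_mul_of_nonneg_left hD4 (by norm_num))
    _ = 6 * (C1 * C) * ((z : ℝ) ^ (5 / 8 : ℝ) * (z : ℝ) ^ (1 / 4 : ℝ)) := by ring
    _ = _ := by
        congr 1
        rcases Nat.eq_zero_or_pos z with h | h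
        · subst h
          norm_num
        · rw [← Real.rpow_add (by exact_mod_cast h)]
          norm_num

theorem M13_P1 (H F : ArithmeticFunction ℂ) (hH : ∀ n, ‖H n‖ ≤ 1)
    (hsq : ∀ n, H n ≠ 0 → ∃ g, 0 < g ∧ n = g ^ 2) {C : ℝ} (hC : 0 ≤ C)
    (hF : ∀ z : ℕ, ‖∑ n ∈ Finset.Ioc 0 z, F n‖ ≤ C * (z : ℝ) ^ (7 / 8 : ℝ)) (y : ℕ) :
    ‖∑ n ∈ Finset.Ioc 0 y, (F * H) n‖ ≤
      C * (∑' g : ℕ, (g : ℝ) ^ (-(7 / 4) : ℝ)) * (y : ℝ) ^ (7 / 8 : ℝ) := by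
  classical
  rw [mul_comm F H, ArithmeticFunction.sum_Ioc_mul_eq_sum_sum]
  have h1 : ∑ n ∈ Finset.Ioc 0 y, ‖H n‖ * (n : ℝ) ^ (-(7 / 8) : ℝ) ≤
      ∑' g : ℕ, (g : ℝ) ^ (-(7 / 4) : ℝ) := by
    calc ∑ n ∈ Finset.Ioc 0 y, ‖H n‖ * (n : ℝ) ^ (-(7 / 8) : ℝ)
        = ∑ n ∈ (Finset.Ioc 0 y).filter (fun n => H n ≠ 0), ‖H n‖ * (n : ℝ) ^ (-(7 / 8) : ℝ) := by
          symm
          apply Finset.sum_filter_of_ne
          intro n _ hn h2
          apply hn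
          rw [h2, norm_zero, zero_mul]
      _ ≤ ∑ n ∈ (Finset.Ioc 0 y).filter (fun n => H n ≠ 0), (n : ℝ) ^ (-(7 / 8) : ℝ) := by
          apply Finset.sum_le_sum
          intro n _
          exact mul_le_of_le_one_left (by positivity) (hH n)
      _ ≤ ∑ n ∈ (Finset.Ioc 0 y).image (fun g : ℕ => g ^ 2), (n : ℝ) ^ (-(7 / 8) : ℝ) := by
          apply Finset.sum_le_sum_of_subset_of_nonneg
          · intro n hn
            rw [Finset.mem_filter, Finset.mem_Ioc] at hn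
            obtain ⟨g, hg, hng⟩ := hsq n hn.2
            rw [Finset.mem_image]
            refine ⟨g, ?_, hng.symm⟩
            rw [Finset.mem_Ioc]
            refine ⟨hg, ?_⟩
            have : g ≤ g ^ 2 := Nat.le_self_pow two_ne_zero g
            omega
          · intro n _ _
            positivity
      _ = ∑ g ∈ Finset.Ioc 0 y, (((g ^ 2 : ℕ)) : ℝ) ^ (-(7 / 8) : ℝ) := by
          apply Finset.sum_image
          intro g _ g' _ h
          exact Nat.pow_left_injective (by norm_num : 2 ≠ 0) h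
      _ = ∑ g ∈ Finset.Ioc 0 y, (g : ℝ) ^ (-(7 / 4) : ℝ) := by
          apply Finset.sum_congr rfl
          intro g _
          push_cast
          rw [← Real.rpow_natCast, ← Real.rpow_mul (Nat.cast_nonneg _)]
          norm_num
      _ ≤ _ := by
          apply Summable.sum_le_tsum
          · intro g _
            positivity
          · exact Real.summable_nat_rpow.2 (by norm_num)
  calc ‖∑ n ∈ Finset.Ioc 0 y, H n * ∑ m ∈ Finset.Ioc 0 (y / n), F m‖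
      ≤ ∑ n ∈ Finset.Ioc 0 y, C * (y : ℝ) ^ (7 / 8 : ℝ) * (‖H n‖ * (n : ℝ) ^ (-(7 / 8) : ℝ)) := by
        refine (norm_sum_le _ _).trans (Finset.sum_le_sum fun n hn => ?_)
        rw [Finset.mem_Ioc] at hn
        rw [norm_mul]
        calc ‖H n‖ * ‖∑ m ∈ Finset.Ioc 0 (y / n), F m‖
            ≤ ‖H n‖ * (C * ((y : ℝ) ^ (7 / 8 : ℝ) * (n : ℝ) ^ (-(7 / 8) : ℝ))) := by
              apply mul_le_mul_of_nonneg_left _ (norm_nonneg _)
              exact (hF _).trans (mul_le_mul_of_nonneg_left (M13_div_pow y hn.1 (by norm_num)) hC)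
          _ = _ := by ring
    _ = C * (y : ℝ) ^ (7 / 8 : ℝ) * ∑ n ∈ Finset.Ioc 0 y, ‖H n‖ * (n : ℝ) ^ (-(7 / 8) : ℝ) := by
        rw [Finset.mul_sum]
    _ ≤ C * (y : ℝ) ^ (7 / 8 : ℝ) * ∑' g : ℕ, (g : ℝ) ^ (-(7 / 4) : ℝ) :=
        mul_le_mul_of_nonneg_left h1 (by positivity)
    _ = _ := by ring

/-! ### decomposition -/

theorem M13_decomp (Q : ℕ) {l : ℕ} (hl : 0 < l) : ∃ l0 l1 : ℕ, l0 * l1 = l ∧
    (∀ p : ℕ, p.Prime → p ∣ l0 → p ∣ Q) ∧ Nat.Coprime l1 Q := by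
  classical
  refine ⟨∏ p ∈ l.primeFactors.filter (fun p => p ∣ Q), p ^ l.factorization p,
    ∏ p ∈ l.primeFactors.filter (fun p => ¬ p ∣ Q), p ^ l.factorization p, ?_, ?_, ?_⟩
  · rw [Finset.prod_filter_mul_prod_filter_not]
    have h1 := Nat.prod_factorization_pow_eq_self hl.ne'
    rw [Finsupp.prod, Nat.support_factorization] at h1
    exact h1
  · intro p hp hpd
    obtain ⟨q, hq, hpq⟩ := (Prime.dvd_finset_prod_iff hp.prime _).1 hpd
    rw [Finset.mem_filter] at hq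
    have h1 := hp.dvd_of_dvd_pow hpq
    have h2 := (Nat.prime_dvd_prime_iff_eq hp (Nat.prime_of_mem_primeFactors hq.1)).1 h1
    rw [h2]
    exact hq.2
  · apply Nat.Coprime.prod_left
    intro p hp
    rw [Finset.mem_filter] at hp
    exact Nat.Coprime.pow_left _
      (((Nat.prime_of_mem_primeFactors hp.1).coprime_iff_not_dvd).2 hp.2)

theorem M13_cop {Q l0 l1 : ℕ} (h0 : ∀ p : ℕ, p.Prime → p ∣ l0 → p ∣ Q) (h1 : Nat.Coprime l1 Q) :
    Nat.Coprime l0 l1 := by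
  apply Nat.Coprime.symm
  apply Nat.coprime_of_dvd
  intro p hp hp1 hp0
  have h2 := h0 p hp hp0
  have h3 := Nat.dvd_gcd hp1 h2
  rw [Nat.Coprime] at h1
  rw [h1] at h3
  exact hp.one_lt.ne' (Nat.dvd_one.1 h3)

open Classical in
theorem M13_sum_split (Q : ℕ) (G : ℕ → ℂ) (x : ℕ) :
    ∑ l ∈ Finset.Ioc 0 x, G l =
      ∑ l0 ∈ (Finset.Ioc 0 x).filter (fun l0 => ∀ p : ℕ, p.Prime → p ∣ l0 → p ∣ Q),
        ∑ l1 ∈ (Finset.Ioc 0 (x / l0)).filter (fun l1 => Nat.Coprime l1 Q), G (l0 * l1) := by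
  rw [Finset.sum_sigma']
  symm
  apply Finset.sum_nbij (fun y => y.1 * y.2)
  · rintro ⟨l0, l1⟩ h
    simp only [Finset.mem_sigma, Finset.mem_filter, Finset.mem_Ioc] at h ⊢
    obtain ⟨⟨⟨h1, h2⟩, h3⟩, ⟨h4, h5⟩, h6⟩ := h
    refine ⟨Nat.mul_pos h1 h4, ?_⟩
    have := (Nat.le_div_iff_mul_le h1).1 h5
    rw [mul_comm]
    exact this
  · rintro ⟨l0, l1⟩ h ⟨l0', l1'⟩ h' he
    simp only [Finset.coe_sigma, Set.mem_sigma_iff, Finset.mem_coe, Finset.mem_filter,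
      Finset.mem_Ioc] at h h' he
    obtain ⟨⟨⟨h1, h2⟩, h3⟩, ⟨h4, h5⟩, h6⟩ := h
    obtain ⟨⟨⟨h1', h2'⟩, h3'⟩, ⟨h4', h5'⟩, h6'⟩ := h'
    have ha : l0 ∣ l0' := by
      apply (M13_cop h3 h6').dvd_of_dvd_mul_right
      rw [← he]
      exact Dvd.intro _ rfl
    have hb : l0' ∣ l0 := by
      apply (M13_cop h3' h6).dvd_of_dvd_mul_right
      rw [he]
      exact Dvd.intro _ rfl
    have hc := Nat.dvd_antisymm ha hb
    subst hc
    have hd := Nat.eq_of_mul_eq_mul_left h1 he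
    subst hd
    rfl
  · intro l hl
    rw [Finset.mem_coe, Finset.mem_Ioc] at hl
    obtain ⟨l0, l1, he, h0, h1⟩ := M13_decomp Q hl.1
    have hl0 : 0 < l0 := Nat.pos_of_ne_zero (by rintro rfl; rw [zero_mul] at he; omega)
    have hl1 : 0 < l1 := Nat.pos_of_ne_zero (by rintro rfl; rw [mul_zero] at he; omega)
    refine ⟨⟨l0, l1⟩, ?_, he⟩
    simp only [Finset.coe_sigma, Set.mem_sigma_iff, Finset.mem_coe, Finset.mem_filter,
      Finset.mem_Ioc]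
    refine ⟨⟨⟨hl0, ?_⟩, h0⟩, ⟨hl1, ?_⟩, h1⟩
    · exact (Nat.le_mul_of_pos_right l0 hl1).trans (he.le.trans hl.2)
    · rw [Nat.le_div_iff_mul_le hl0, mul_comm, he]
      exact hl.2
  · intro y _
    rfl

/-- the sum over the smooth numbers -/
theorem M13_smooth {Q : ℕ} (hQ : 0 < Q) : ∃ K : ℝ, 0 ≤ K ∧ ∀ s : Finset ℕ,
    (∀ l ∈ s, 0 < l ∧ ∀ p : ℕ, p.Prime → p ∣ l → p ∣ Q) → ∑ l ∈ s, (l : ℝ) ^ (-(5 / 8) : ℝ) ≤ K := by
  let f : ℕ →* ℝ :=
    { toFun := fun n => (n : ℝ) ^ (-(5 / 8) : ℝ)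
      map_one' := by simp
      map_mul' := by
        intro m n
        push_cast
        exact Real.mul_rpow (Nat.cast_nonneg _) (Nat.cast_nonneg _) }
  have hf : ∀ {p : ℕ}, p.Prime → ‖f p‖ < 1 := by
    intro p hp
    show ‖(p : ℝ) ^ (-(5 / 8) : ℝ)‖ < 1
    rw [Real.norm_of_nonneg (by positivity)]
    exact Real.rpow_lt_one_of_one_lt_of_neg (by exact_mod_cast hp.one_lt) (by norm_num)
  obtain ⟨hs, -⟩ := EulerProduct.summable_and_hasSum_factoredNumbers_prod_filter_prime_geometric hf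
    Q.primeFactors
  refine ⟨∑' m : Nat.factoredNumbers Q.primeFactors, ‖f m‖, tsum_nonneg fun _ => norm_nonneg _, ?_⟩
  intro s hsQ
  have hmem : ∀ l ∈ s, l ∈ Nat.factoredNumbers Q.primeFactors := by
    intro l hl
    rw [Nat.mem_factoredNumbers']
    intro p hp hpl
    rw [Nat.mem_primeFactors]
    exact ⟨hp, (hsQ l hl).2 p hp hpl, hQ.ne'⟩
  calc ∑ l ∈ s, (l : ℝ) ^ (-(5 / 8) : ℝ)
      = ∑ l ∈ s.attach, ‖f ((⟨l.1, hmem l.1 l.2⟩ : Nat.factoredNumbers Q.primeFactors) : ℕ)‖ := by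
        rw [← Finset.sum_attach]
        apply Finset.sum_congr rfl
        intro l _
        show _ = ‖((l.1 : ℕ) : ℝ) ^ (-(5 / 8) : ℝ)‖
        rw [Real.norm_of_nonneg (by positivity)]
    _ = ∑ m ∈ s.attach.map ⟨fun l => (⟨l.1, hmem l.1 l.2⟩ : Nat.factoredNumbers Q.primeFactors),
          fun a b h => Subtype.ext (by simpa using h)⟩, ‖f m‖ := by
        rw [Finset.sum_map]
        rfl
    _ ≤ _ := hs.sum_le_tsum _ fun _ _ => norm_nonneg _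

/-! ### assembly -/

open Classical in
/-- the character, 0 at the numbers not coprime to Q -/
noncomputable def M13_c {q : ℕ} (χ : DirichletCharacter ℂ q) (Q : ℕ) (n : ℕ) : ℂ :=
  if Nat.Coprime n Q then χ (n : ZMod q) else 0

theorem M13_c_CM {q : ℕ} (χ : DirichletCharacter ℂ q) (Q : ℕ) : M13_CM (M13_c χ Q) := by
  constructor
  · unfold M13_c
    rw [if_pos (Nat.coprime_one_left Q), Nat.cast_one, map_one]
  · intro m n
    unfold M13_c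
    by_cases hm : Nat.Coprime m Q
    · by_cases hn : Nat.Coprime n Q
      · rw [if_pos hm, if_pos hn, if_pos (Nat.Coprime.mul_left hm hn), Nat.cast_mul, map_mul]
      · rw [if_neg hn, mul_zero, if_neg]
        intro h
        exact hn (Nat.Coprime.coprime_mul_left h)
    · rw [if_neg hm, zero_mul, if_neg]
      intro h
      exact hm (Nat.Coprime.coprime_mul_right h)
  · intro n
    unfold M13_c
    split_ifs
    · exact DirichletCharacter.norm_le_one χ _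
    · simp

theorem M13_c_per {q : ℕ} (χ : DirichletCharacter ℂ q) (Q : ℕ) (n : ℕ) :
    M13_c χ Q (n + q * Q) = M13_c χ Q n := by
  unfold M13_c
  have h1 : Nat.Coprime (n + q * Q) Q ↔ Nat.Coprime n Q := by
    rw [Nat.coprime_add_mul_right_left]
  have h2 : ((n + q * Q : ℕ) : ZMod q) = (n : ZMod q) := by
    push_cast
    rw [ZMod.natCast_self, zero_mul, add_zero]
  rw [h2]
  by_cases h : Nat.Coprime n Q
  · rw [if_pos h, if_pos (h1.2 h)]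
  · rw [if_neg h, if_neg (fun h' => h (h1.1 h'))]

theorem M13_u_sum {N : ℕ} {a : ℕ → ℂ} {L : ℂ → ℂ} (D : Dat N a L) {q : ℕ} [NeZero q]
    (χ : DirichletCharacter ℂ q) {Q : ℕ} (hQ : 0 < Q) : ∃ C : ℝ, 0 ≤ C ∧ ∀ x : ℕ,
      ‖∑ n ∈ Finset.Ioc 0 x, M13_uf (M13_c χ Q) a n‖ ≤ C * (x : ℝ) ^ (5 / 8 : ℝ) := by
  have hq : 0 < q := Nat.pos_of_ne_zero (NeZero.ne q)
  obtain ⟨C, hC, h⟩ := twist_sum D (Nat.mul_pos hq hQ) (fun n => conj (M13_c χ Q n))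
    (fun n => by rw [M13_c_per])
  refine ⟨9 * C, by positivity, ?_⟩
  intro x
  rcases Nat.eq_zero_or_pos x with hx | hx
  · subst hx
    simp
  have h1 : ∑ n ∈ Finset.Ioc 0 x, M13_uf (M13_c χ Q) a n =
      conj (∑ n ∈ Finset.Icc 1 x, a n * conj (M13_c χ Q n)) := by
    rw [map_sum]
    apply Finset.sum_congr rfl
    intro n hn
    rw [Finset.mem_Ioc] at hn
    rw [M13_uf_apply _ _ (by omega), map_mul, Complex.conj_conj, mul_comm]
  rw [h1, RCLike.norm_conj]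
  refine (h x hx).trans ?_
  have hx1 : (1 : ℝ) ≤ x := by exact_mod_cast hx
  have hx0 : (0 : ℝ) < x := by linarith
  have h2 : Real.log x ≤ 8 * (x : ℝ) ^ (1 / 8 : ℝ) := by
    have := Real.log_le_rpow_div hx0.le (show (0 : ℝ) < 1 / 8 by norm_num)
    linarith
  have h3 : 1 ≤ (x : ℝ) ^ (1 / 8 : ℝ) := Real.one_le_rpow hx1 (by norm_num)
  have h4 : √(x : ℝ) * (x : ℝ) ^ (1 / 8 : ℝ) = (x : ℝ) ^ (5 / 8 : ℝ) := by
    rw [Real.sqrt_eq_rpow, ← Real.rpow_add hx0]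
    norm_num
  calc C * (√x * (1 + Real.log x)) ≤ C * (√x * (9 * (x : ℝ) ^ (1 / 8 : ℝ))) := by
        apply mul_le_mul_of_nonneg_left _ hC
        apply mul_le_mul_of_nonneg_left _ (Real.sqrt_nonneg _)
        linarith
    _ = 9 * C * (√x * (x : ℝ) ^ (1 / 8 : ℝ)) := by ring
    _ = _ := by rw [h4]

theorem M13_u_le {N : ℕ} {a : ℕ → ℂ} {L : ℂ → ℂ} (D : Dat N a L) {c : ℕ → ℂ} (hc : M13_CM c) {C : ℝ}
    (hdiv : ∀ n : ℕ, 1 ≤ n → (n.divisors.card : ℝ) ≤ C * (n : ℝ) ^ (1 / 8 : ℝ)) (n : ℕ) (hn : 1 ≤ n) :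
    ‖M13_uf c a n‖ ≤ C * (n : ℝ) ^ (1 / 8 : ℝ) := by
  rw [M13_uf_apply _ _ (by omega), norm_mul, RCLike.norm_conj]
  calc ‖c n‖ * ‖a n‖ ≤ 1 * (n.divisors.card : ℝ) :=
        mul_le_mul (hc.le n) (D.bd n hn) (norm_nonneg _) zero_le_one
    _ ≤ _ := by
        rw [one_mul]
        exact hdiv n hn

theorem M13_cv {q1 q2 : ℕ} (χ1 : DirichletCharacter ℂ q1) (χ2 : DirichletCharacter ℂ q2) (n : ℕ) :
    II.cv χ1 χ2 n = (M13_cf (fun n => χ1 (n : ZMod q1)) * M13_cf (fun n => χ2 (n : ZMod q2))) n := by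
  rw [ArithmeticFunction.mul_apply]
  unfold II.cv
  apply Finset.sum_congr rfl
  intro x hx
  rw [Nat.mem_divisorsAntidiagonal] at hx
  have h1 : x.1 ≠ 0 := by
    intro h
    rw [h, zero_mul] at hx
    exact hx.2 hx.1.symm
  have h2 : x.2 ≠ 0 := by
    intro h
    rw [h, mul_zero] at hx
    exact hx.2 hx.1.symm
  rw [M13_cf_apply _ h1, M13_cf_apply _ h2]

theorem M13_chi_CM {q : ℕ} (χ : DirichletCharacter ℂ q) : M13_CM (fun n => χ (n : ZMod q)) := by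
  constructor
  · show χ ((1 : ℕ) : ZMod q) = 1
    rw [Nat.cast_one, map_one]
  · intro m n
    show χ ((m * n : ℕ) : ZMod q) = _
    rw [Nat.cast_mul, map_mul]
  · intro n
    exact DirichletCharacter.norm_le_one χ _

theorem M13_cv_mul {q1 q2 : ℕ} (χ1 : DirichletCharacter ℂ q1) (χ2 : DirichletCharacter ℂ q2)
    {m n : ℕ} (h : Nat.Coprime m n) : II.cv χ1 χ2 (m * n) = II.cv χ1 χ2 m * II.cv χ1 χ2 n := by
  rw [M13_cv, M13_cv, M13_cv]
  exact ((M13_cf_mult (M13_chi_CM χ1)).mul (M13_cf_mult (M13_chi_CM χ2))).map_mul_of_coprime h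

theorem M13_cv_le {q1 q2 : ℕ} (χ1 : DirichletCharacter ℂ q1) (χ2 : DirichletCharacter ℂ q2) (n : ℕ) :
    ‖II.cv χ1 χ2 n‖ ≤ (n.divisors.card : ℝ) := by
  unfold II.cv
  refine (norm_sum_le _ _).trans ?_
  have h1 : ∀ x ∈ n.divisorsAntidiagonal, ‖χ1 (x.1 : ZMod q1) * χ2 (x.2 : ZMod q2)‖ ≤ 1 := by
    intro x _
    rw [norm_mul]
    exact mul_le_one₀ (DirichletCharacter.norm_le_one χ1 _) (norm_nonneg _)
      (DirichletCharacter.norm_le_one χ2 _)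
  refine (Finset.sum_le_card_nsmul _ _ 1 h1).trans ?_
  rw [nsmul_eq_mul, mul_one]
  rw [← Nat.map_div_right_divisors, Finset.card_map]

/-- on the numbers coprime to Q -/
theorem M13_w_eq {q1 q2 : ℕ} (χ1 : DirichletCharacter ℂ q1) (χ2 : DirichletCharacter ℂ q2)
    (a : ℕ → ℂ) (Q : ℕ) {n : ℕ} (hn : Nat.Coprime n Q) :
    M13_wf (M13_c χ1 Q) (M13_c χ2 Q) a n = II.cv χ1 χ2 n * conj (a n) := by
  rw [M13_wf_apply, M13_cv, ArithmeticFunction.mul_apply, ArithmeticFunction.mul_apply]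
  congr 1
  apply Finset.sum_congr rfl
  intro x hx
  rw [Nat.mem_divisorsAntidiagonal] at hx
  have h1 : x.1 ≠ 0 := by
    intro h
    rw [h, zero_mul] at hx
    exact hx.2 hx.1.symm
  have h2 : x.2 ≠ 0 := by
    intro h
    rw [h, mul_zero] at hx
    exact hx.2 hx.1.symm
  rw [M13_cf_apply _ h1, M13_cf_apply _ h2, M13_cf_apply _ h1, M13_cf_apply _ h2]
  rw [← hx.1] at hn
  unfold M13_c
  rw [if_pos (Nat.Coprime.coprime_mul_right hn), if_pos (Nat.Coprime.coprime_mul_left hn)]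

theorem M13_w_zero {q1 q2 : ℕ} (χ1 : DirichletCharacter ℂ q1) (χ2 : DirichletCharacter ℂ q2)
    (a : ℕ → ℂ) (Q : ℕ) {n : ℕ} (hn : ¬ Nat.Coprime n Q) :
    M13_wf (M13_c χ1 Q) (M13_c χ2 Q) a n = 0 := by
  rw [M13_wf_apply, ArithmeticFunction.mul_apply]
  rw [Finset.sum_eq_zero, zero_mul]
  intro x hx
  rw [Nat.mem_divisorsAntidiagonal] at hx
  have h1 : x.1 ≠ 0 := by
    intro h
    rw [h, zero_mul] at hx
    exact hx.2 hx.1.symm
  have h2 : x.2 ≠ 0 := by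
    intro h
    rw [h, mul_zero] at hx
    exact hx.2 hx.1.symm
  rw [M13_cf_apply _ h1, M13_cf_apply _ h2]
  unfold M13_c
  by_cases h3 : Nat.Coprime x.1 Q
  · by_cases h4 : Nat.Coprime x.2 Q
    · exfalso
      apply hn
      rw [← hx.1]
      exact Nat.Coprime.mul_left h3 h4
    · rw [if_neg h4, mul_zero]
  · rw [if_neg h3, zero_mul]

/-- the sum over the numbers coprime to Q -/
theorem M13_core {N : ℕ} {a : ℕ → ℂ} {L : ℂ → ℂ} (D : Dat N a L) {q1 q2 : ℕ} [NeZero q1] [NeZero q2]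
    (χ1 : DirichletCharacter ℂ q1) (χ2 : DirichletCharacter ℂ q2) {Q : ℕ} (hQ : 0 < Q) :
    ∃ C : ℝ, 0 ≤ C ∧ ∀ y : ℕ,
      ‖∑ n ∈ Finset.Ioc 0 y, M13_wf (M13_c χ1 Q) (M13_c χ2 Q) a n‖ ≤ C * (y : ℝ) ^ (7 / 8 : ℝ) := by
  have hα : ∀ p : ℕ, ∃ α β : ℂ, p.Prime → ‖α‖ ≤ 1 ∧ ‖β‖ ≤ 1 ∧
      ∀ k : ℕ, a (p ^ k) = ∑ j ∈ Finset.range (k + 1), α ^ j * β ^ (k - j) := by
    intro p
    by_cases hp : p.Prime
    · obtain ⟨x, y, h⟩ := D.loc p hp
      exact ⟨x, y, fun _ => h⟩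
    · exact ⟨0, 0, fun h => absurd h hp⟩
  choose α β hαβ using hα
  obtain ⟨C1, hC1, hu1⟩ := M13_u_sum D χ1 hQ
  obtain ⟨C2, hC2, hu2⟩ := M13_u_sum D χ2 hQ
  obtain ⟨Cd, hCd, hdiv⟩ := M13_div
  have hmul : ∀ m n : ℕ, 0 < m → 0 < n → Nat.Coprime m n → a (m * n) = a m * a n := D.mul
  have hRS := M13_RS (M13_c_CM χ1 Q) (M13_c_CM χ2 Q) D.one hmul
    (fun p hp => (hαβ p hp).2.2)
  have hmax1 : ∀ x : ℕ, ‖∑ n ∈ Finset.Ioc 0 x, M13_uf (M13_c χ1 Q) a n‖ ≤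
      (C1 + C2) * (x : ℝ) ^ (5 / 8 : ℝ) := fun x =>
    (hu1 x).trans (mul_le_mul_of_nonneg_right (by linarith) (by positivity))
  have hmax2 : ∀ x : ℕ, ‖∑ n ∈ Finset.Ioc 0 x, M13_uf (M13_c χ2 Q) a n‖ ≤
      (C1 + C2) * (x : ℝ) ^ (5 / 8 : ℝ) := fun x =>
    (hu2 x).trans (mul_le_mul_of_nonneg_right (by linarith) (by positivity))
  have hP2 := M13_hyp (M13_uf (M13_c χ1 Q) a) (M13_uf (M13_c χ2 Q) a) hCd.le
    (show 0 ≤ C1 + C2 by linarith) (M13_u_le D (M13_c_CM χ1 Q) hdiv)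
    (M13_u_le D (M13_c_CM χ2 Q) hdiv) hmax1 hmax2
  have hloc1 : ∀ p : ℕ, p.Prime →
      ‖-(M13_c χ1 Q p * M13_c χ2 Q p * conj (α p) * conj (β p))‖ ≤ 1 := by
    intro p hp
    rw [norm_neg, norm_mul, norm_mul, norm_mul, RCLike.norm_conj, RCLike.norm_conj]
    have h1 := (M13_c_CM χ1 Q).le p
    have h2 := (M13_c_CM χ2 Q).le p
    have h3 := (hαβ p hp).1
    have h4 := (hαβ p hp).2.1
    exact mul_le_one₀ (mul_le_one₀ (mul_le_one₀ h1 (norm_nonneg _) h2) (norm_nonneg _) h3)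
      (norm_nonneg _) h4
  have hK : 0 ≤ ∑' g : ℕ, (g : ℝ) ^ (-(7 / 4) : ℝ) := tsum_nonneg fun g => by positivity
  refine ⟨6 * (Cd * (C1 + C2)) * ∑' g : ℕ, (g : ℝ) ^ (-(7 / 4) : ℝ), by positivity, ?_⟩
  intro y
  rw [hRS]
  exact M13_P1 _ _ (M13_H_norm _ hloc1) (fun n hn => M13_H_sq _ hn) (by positivity) hP2 y

/-- Row M13. Partial sums of cv(r l) conj a(s l). -/
theorem diag_sum {N : ℕ} {a : ℕ → ℂ} {L : ℂ → ℂ} (D : Dat N a L) {q1 q2 : ℕ} [NeZero q1] [NeZero q2]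
    (χ1 : DirichletCharacter ℂ q1) (χ2 : DirichletCharacter ℂ q2) {r s : ℕ} (hr : 0 < r) (hs : 0 < s) :
    ∃ C : ℝ, 0 ≤ C ∧ ∀ x : ℕ, 1 ≤ x →
      ‖∑ l ∈ Finset.Icc 1 x, II.cv χ1 χ2 (r * l) * conj (a (s * l))‖ ≤ C * (x : ℝ) ^ (9 / 10 : ℝ) := by
  classical
  have hQ : 0 < r * s := Nat.mul_pos hr hs
  obtain ⟨C, hC, hcore⟩ := M13_core D χ1 χ2 hQ
  obtain ⟨K, hK, hsm⟩ := M13_smooth hQ
  obtain ⟨Cd, hCd, hdiv⟩ := M13_div
  refine ⟨Cd ^ 2 * ((r : ℝ) ^ (1 / 8 : ℝ) * (s : ℝ) ^ (1 / 8 : ℝ)) * C * K, by positivity, ?_⟩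
  intro x hx
  have hx1 : (1 : ℝ) ≤ x := by exact_mod_cast hx
  have hIcc : Finset.Icc 1 x = Finset.Ioc 0 x := by
    ext n
    simp only [Finset.mem_Icc, Finset.mem_Ioc]
    omega
  rw [hIcc, M13_sum_split (r * s)]
  have hterm : ∀ l0 ∈ (Finset.Ioc 0 x).filter (fun l0 => ∀ p : ℕ, p.Prime → p ∣ l0 → p ∣ r * s),
      ‖∑ l1 ∈ (Finset.Ioc 0 (x / l0)).filter (fun l1 => Nat.Coprime l1 (r * s)),
        II.cv χ1 χ2 (r * (l0 * l1)) * conj (a (s * (l0 * l1)))‖ ≤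
      Cd ^ 2 * ((r : ℝ) ^ (1 / 8 : ℝ) * (s : ℝ) ^ (1 / 8 : ℝ)) * C * (x : ℝ) ^ (7 / 8 : ℝ) *
        (l0 : ℝ) ^ (-(5 / 8) : ℝ) := by
    intro l0 hl0
    rw [Finset.mem_filter, Finset.mem_Ioc] at hl0
    obtain ⟨⟨hl0, hl0x⟩, hl0Q⟩ := hl0
    have hl0' : (0 : ℝ) < l0 := by exact_mod_cast hl0
    have hsplit : ∑ l1 ∈ (Finset.Ioc 0 (x / l0)).filter (fun l1 => Nat.Coprime l1 (r * s)),
        II.cv χ1 χ2 (r * (l0 * l1)) * conj (a (s * (l0 * l1))) =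
        II.cv χ1 χ2 (r * l0) * conj (a (s * l0)) *
          ∑ n ∈ Finset.Ioc 0 (x / l0), M13_wf (M13_c χ1 (r * s)) (M13_c χ2 (r * s)) a n := by
      rw [Finset.mul_sum, Finset.sum_filter]
      apply Finset.sum_congr rfl
      intro l1 hl1
      rw [Finset.mem_Ioc] at hl1
      by_cases h : Nat.Coprime l1 (r * s)
      · rw [if_pos h, M13_w_eq χ1 χ2 a _ h]
        have h1 : Nat.Coprime l0 l1 := M13_cop hl0Q h
        have h2 : Nat.Coprime (r * l0) l1 :=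
          Nat.Coprime.mul_left (Nat.Coprime.coprime_mul_right_right h).symm h1
        have h3 : Nat.Coprime (s * l0) l1 :=
          Nat.Coprime.mul_left (Nat.Coprime.coprime_mul_left_right h).symm h1
        rw [← mul_assoc r l0 l1, ← mul_assoc s l0 l1, M13_cv_mul χ1 χ2 h2,
          D.mul _ _ (Nat.mul_pos hs hl0) hl1.1 h3, map_mul]
        ring
      · rw [if_neg h, M13_w_zero χ1 χ2 a _ h, mul_zero]
    rw [hsplit, norm_mul, norm_mul, RCLike.norm_conj]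
    have h1 : ‖II.cv χ1 χ2 (r * l0)‖ ≤ Cd * ((r : ℝ) ^ (1 / 8 : ℝ) * (l0 : ℝ) ^ (1 / 8 : ℝ)) := by
      refine (M13_cv_le χ1 χ2 _).trans ((hdiv _ (Nat.mul_pos hr hl0)).trans ?_)
      push_cast
      rw [Real.mul_rpow (Nat.cast_nonneg _) (Nat.cast_nonneg _)]
    have h2 : ‖a (s * l0)‖ ≤ Cd * ((s : ℝ) ^ (1 / 8 : ℝ) * (l0 : ℝ) ^ (1 / 8 : ℝ)) := by
      refine (D.bd _ (Nat.mul_pos hs hl0)).trans ((hdiv _ (Nat.mul_pos hs hl0)).trans ?_)
      push_cast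
      rw [Real.mul_rpow (Nat.cast_nonneg _) (Nat.cast_nonneg _)]
    have h3 := (hcore (x / l0)).trans
      (mul_le_mul_of_nonneg_left (M13_div_pow x hl0 (show (0 : ℝ) ≤ 7 / 8 by norm_num)) hC)
    have h4 : (l0 : ℝ) ^ (1 / 8 : ℝ) * (l0 : ℝ) ^ (1 / 8 : ℝ) * (l0 : ℝ) ^ (-(7 / 8) : ℝ) =
        (l0 : ℝ) ^ (-(5 / 8) : ℝ) := by
      rw [← Real.rpow_add hl0', ← Real.rpow_add hl0']
      norm_num
    calc ‖II.cv χ1 χ2 (r * l0)‖ * ‖a (s * l0)‖ *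
          ‖∑ n ∈ Finset.Ioc 0 (x / l0), M13_wf (M13_c χ1 (r * s)) (M13_c χ2 (r * s)) a n‖
        ≤ (Cd * ((r : ℝ) ^ (1 / 8 : ℝ) * (l0 : ℝ) ^ (1 / 8 : ℝ))) *
          (Cd * ((s : ℝ) ^ (1 / 8 : ℝ) * (l0 : ℝ) ^ (1 / 8 : ℝ))) *
          (C * ((x : ℝ) ^ (7 / 8 : ℝ) * (l0 : ℝ) ^ (-(7 / 8) : ℝ))) := by
          apply mul_le_mul _ h3 (norm_nonneg _) (by positivity)
          exact mul_le_mul h1 h2 (norm_nonneg _) (by positivity)
      _ = Cd ^ 2 * ((r : ℝ) ^ (1 / 8 : ℝ) * (s : ℝ) ^ (1 / 8 : ℝ)) * C * (x : ℝ) ^ (7 / 8 : ℝ) *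
          ((l0 : ℝ) ^ (1 / 8 : ℝ) * (l0 : ℝ) ^ (1 / 8 : ℝ) * (l0 : ℝ) ^ (-(7 / 8) : ℝ)) := by ring
      _ = _ := by rw [h4]
  refine (norm_sum_le _ _).trans ((Finset.sum_le_sum hterm).trans ?_)
  rw [← Finset.mul_sum]
  have h5 : ∑ l0 ∈ (Finset.Ioc 0 x).filter (fun l0 => ∀ p : ℕ, p.Prime → p ∣ l0 → p ∣ r * s),
      (l0 : ℝ) ^ (-(5 / 8) : ℝ) ≤ K := by
    apply hsm
    intro l hl
    rw [Finset.mem_filter, Finset.mem_Ioc] at hl
    exact ⟨hl.1.1, hl.2⟩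
  have h6 : (x : ℝ) ^ (7 / 8 : ℝ) ≤ (x : ℝ) ^ (9 / 10 : ℝ) :=
    Real.rpow_le_rpow_of_exponent_le hx1 (by norm_num)
  calc Cd ^ 2 * ((r : ℝ) ^ (1 / 8 : ℝ) * (s : ℝ) ^ (1 / 8 : ℝ)) * C * (x : ℝ) ^ (7 / 8 : ℝ) *
        ∑ l0 ∈ (Finset.Ioc 0 x).filter (fun l0 => ∀ p : ℕ, p.Prime → p ∣ l0 → p ∣ r * s),
          (l0 : ℝ) ^ (-(5 / 8) : ℝ)
      ≤ Cd ^ 2 * ((r : ℝ) ^ (1 / 8 : ℝ) * (s : ℝ) ^ (1 / 8 : ℝ)) * C * (x : ℝ) ^ (9 / 10 : ℝ) * K := by
        gcongr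
    _ = _ := by ring

end NH
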