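import Pool.Agent.Lib.MP_0f5a55_nt.NH.M13
import Pool.Agent.Lib.MP_0f5a55_nt.II.I01
import Pool.Agent.Lib.MP_0f5a55_nt.II.I02
import Pool.Agent.Lib.MP_0f5a55_nt.II.I03
import Pool.Agent.Lib.MP_0f5a55_nt.II.I05

open Complex MeasureTheory Set Filter Topology
open scoped Real ComplexConjugate

namespace NH

/-- Abel summation against an exponential -/
theorem M14_exp {c : ℕ → ℂ} {C : ℝ} (hC : 0 ≤ C)
    (h : ∀ x : ℕ, 1 ≤ x → ‖∑ l ∈ Finset.Icc 1 x, c l‖ ≤ C * (x : ℝ) ^ (9 / 10 : ℝ))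
    {t : ℝ} (ht : 0 < t) :
    ‖∑' l : ℕ, c (l + 1) * ((Real.exp (-(t * ((l : ℝ) + 1))) : ℝ) : ℂ)‖ ≤
      4 * C * t ^ (-(9 / 10 : ℝ)) := by
  obtain ⟨S, hS⟩ : ∃ S : ℕ → ℂ, ∀ n, S n = ∑ l ∈ Finset.Icc 1 n, c l := ⟨_, fun _ => rfl⟩
  have hS0 : S 0 = 0 := by rw [hS]; simp
  have hSs : ∀ l, S (l + 1) = S l + c (l + 1) := fun l => by
    rw [hS, hS]
    exact Finset.sum_Icc_succ_top (by omega) _
  have hSb : ∀ l : ℕ, ‖S (l + 1)‖ ≤ C * ((l : ℝ) + 1) ^ (9 / 10 : ℝ) := by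
    intro l
    rw [hS]
    refine (h (l + 1) (by omega)).trans (le_of_eq ?_)
    push_cast
    rfl
  obtain ⟨r, hr⟩ : ∃ r : ℝ, r = Real.exp (-(t / 2)) := ⟨_, rfl⟩
  have hr0 : 0 < r := by rw [hr]; exact Real.exp_pos _
  have hr1 : r < 1 := by rw [hr, Real.exp_lt_one_iff]; linarith
  have hgeo : HasSum (fun l : ℕ => Real.exp (-(t / 2 * ((l : ℝ) + 1)))) (r * (1 - r)⁻¹) := by
    have h1 := (hasSum_geometric_of_lt_one hr0.le hr1).mul_left r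
    refine h1.congr_fun ?_
    intro l
    rw [hr, ← Real.exp_nat_mul, ← Real.exp_add]
    congr 1
    ring
  have hrt : r * (1 - r)⁻¹ ≤ 2 / t := by
    have h1 : t / 2 + 1 ≤ Real.exp (t / 2) := Real.add_one_le_exp _
    have h2 : r * Real.exp (t / 2) = 1 := by
      rw [hr, ← Real.exp_add, neg_add_cancel, Real.exp_zero]
    have h3 : r * (t / 2 + 1) ≤ 1 :=
      (mul_le_mul_of_nonneg_left h1 hr0.le).trans (le_of_eq h2)
    rw [← div_eq_mul_inv, div_le_div_iff₀ (by linarith) ht]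
    linarith
  have hpt : ∀ l : ℕ, ((l : ℝ) + 1) ^ (9 / 10 : ℝ) * Real.exp (-(t * ((l : ℝ) + 1))) ≤
      2 * t ^ (-(9 / 10 : ℝ)) * Real.exp (-(t / 2 * ((l : ℝ) + 1))) := by
    intro l
    have hl : (0 : ℝ) < (l : ℝ) + 1 := by positivity
    generalize (l : ℝ) + 1 = x at hl ⊢
    have h1 : x ^ (9 / 10 : ℝ) = t ^ (-(9 / 10 : ℝ)) * (t * x) ^ (9 / 10 : ℝ) := by
      rw [Real.mul_rpow ht.le hl.le, ← mul_assoc, ← Real.rpow_add ht, neg_add_cancel,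
        Real.rpow_zero, one_mul]
    have h2 : (t * x) ^ (9 / 10 : ℝ) ≤ 1 + t * x := by
      have h0 : 0 < t * x := by positivity
      rcases le_total (t * x) 1 with h3 | h3
      · have := Real.rpow_le_one h0.le h3 (by norm_num : (0 : ℝ) ≤ 9 / 10)
        linarith
      · have h4 := Real.rpow_le_rpow_of_exponent_le h3 (by norm_num : (9 / 10 : ℝ) ≤ 1)
        rw [Real.rpow_one] at h4
        linarith
    have h3 : 1 + t * x ≤ 2 * Real.exp (t / 2 * x) := by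
      have := Real.add_one_le_exp (t / 2 * x)
      linarith
    have h4 : Real.exp (t / 2 * x) * Real.exp (-(t * x)) = Real.exp (-(t / 2 * x)) := by
      rw [← Real.exp_add]
      congr 1
      ring
    have h5 : 0 ≤ t ^ (-(9 / 10 : ℝ)) := Real.rpow_nonneg ht.le _
    rw [h1, ← h4]
    calc t ^ (-(9 / 10 : ℝ)) * (t * x) ^ (9 / 10 : ℝ) * Real.exp (-(t * x)) ≤
        t ^ (-(9 / 10 : ℝ)) * (2 * Real.exp (t / 2 * x)) * Real.exp (-(t * x)) := by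
          gcongr
          exact h2.trans h3
      _ = _ := by ring
  obtain ⟨f, hf⟩ : ∃ f : ℕ → ℂ, ∀ l, f l = S (l + 1) * ((Real.exp (-(t * ((l : ℝ) + 1))) : ℝ) : ℂ) :=
    ⟨_, fun _ => rfl⟩
  obtain ⟨g, hg⟩ : ∃ g : ℕ → ℂ, ∀ l, g l = S l * ((Real.exp (-(t * ((l : ℝ) + 1))) : ℝ) : ℂ) :=
    ⟨_, fun _ => rfl⟩
  have hfb : ∀ l, ‖f l‖ ≤ C * (2 * t ^ (-(9 / 10 : ℝ))) * Real.exp (-(t / 2 * ((l : ℝ) + 1))) := by
    intro l
    rw [hf, norm_mul, norm_real, Real.norm_of_nonneg (Real.exp_pos _).le]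
    calc ‖S (l + 1)‖ * Real.exp (-(t * ((l : ℝ) + 1))) ≤
        C * ((l : ℝ) + 1) ^ (9 / 10 : ℝ) * Real.exp (-(t * ((l : ℝ) + 1))) :=
          mul_le_mul_of_nonneg_right (hSb l) (Real.exp_pos _).le
      _ = C * (((l : ℝ) + 1) ^ (9 / 10 : ℝ) * Real.exp (-(t * ((l : ℝ) + 1)))) := by ring
      _ ≤ C * (2 * t ^ (-(9 / 10 : ℝ)) * Real.exp (-(t / 2 * ((l : ℝ) + 1)))) :=
          mul_le_mul_of_nonneg_left (hpt l) hC
      _ = _ := by ring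
  have hgeo2 := hgeo.mul_left (C * (2 * t ^ (-(9 / 10 : ℝ))))
  have hfs : Summable f := Summable.of_norm_bounded hgeo2.summable hfb
  have hgs1 : ∀ l, g (l + 1) = ((Real.exp (-t) : ℝ) : ℂ) * f l := by
    intro l
    rw [hg, hf, mul_left_comm, ← ofReal_mul, ← Real.exp_add]
    congr 3
    push_cast
    ring
  have hgs : Summable g := by
    rw [← summable_nat_add_iff 1]
    exact (hfs.mul_left ((Real.exp (-t) : ℝ) : ℂ)).congr fun l => (hgs1 l).symm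
  have hgt : ∑' l, g l = ((Real.exp (-t) : ℝ) : ℂ) * ∑' l, f l := by
    rw [hgs.tsum_eq_zero_add, ← tsum_mul_left]
    have h0 : g 0 = 0 := by rw [hg, hS0, zero_mul]
    rw [h0, zero_add]
    exact tsum_congr hgs1
  have hcl : ∀ l : ℕ, c (l + 1) * ((Real.exp (-(t * ((l : ℝ) + 1))) : ℝ) : ℂ) = f l - g l := by
    intro l
    rw [hf, hg, hSs]
    ring
  have hmain : ∑' l : ℕ, c (l + 1) * ((Real.exp (-(t * ((l : ℝ) + 1))) : ℝ) : ℂ) =
      ((1 - Real.exp (-t) : ℝ) : ℂ) * ∑' l, f l := by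
    rw [tsum_congr hcl, hfs.tsum_sub hgs, hgt]
    push_cast
    ring
  have hn : ‖∑' l, f l‖ ≤ C * (2 * t ^ (-(9 / 10 : ℝ))) * (r * (1 - r)⁻¹) :=
    tsum_of_norm_bounded hgeo2 hfb
  have h5 : 0 ≤ t ^ (-(9 / 10 : ℝ)) := Real.rpow_nonneg ht.le _
  have h1t : 1 - Real.exp (-t) ≤ t := by
    have := Real.add_one_le_exp (-t)
    linarith
  have h0t : 0 ≤ 1 - Real.exp (-t) := by
    have : Real.exp (-t) ≤ 1 := Real.exp_le_one_iff.2 (by linarith)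
    linarith
  rw [hmain, norm_mul, norm_real, Real.norm_of_nonneg h0t]
  calc (1 - Real.exp (-t)) * ‖∑' l, f l‖ ≤ t * (C * (2 * t ^ (-(9 / 10 : ℝ))) * (2 / t)) := by
        refine mul_le_mul h1t (hn.trans ?_) (norm_nonneg _) ht.le
        exact mul_le_mul_of_nonneg_left hrt (by positivity)
    _ = _ := by
        field_simp
        ring

open II in
theorem M14_dv_le (n : ℕ) : dv n ≤ n := by
  unfold dv
  exact_mod_cast Nat.card_divisors_le_self n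

open II in
theorem M14_dv_nonneg (n : ℕ) : 0 ≤ dv n := Nat.cast_nonneg _

open II in
theorem M14_cv_le {q1 q2 : ℕ} (χ1 : DirichletCharacter ℂ q1) (χ2 : DirichletCharacter ℂ q2) (n : ℕ) :
    ‖cv χ1 χ2 n‖ ≤ dv n := by
  unfold cv dv
  refine (norm_sum_le _ _).trans ?_
  refine (Finset.sum_le_sum (g := fun _ => (1 : ℝ)) fun x _ => ?_).trans (le_of_eq ?_)
  · rw [norm_mul]
    exact mul_le_one₀ (DirichletCharacter.norm_le_one χ1 _) (norm_nonneg _)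
      (DirichletCharacter.norm_le_one χ2 _)
  · exact (Nat.sum_divisorsAntidiagonal (n := n) (fun _ _ => (1 : ℝ))).trans (by simp)

theorem M14_sq : Summable (fun n : ℕ => (((n : ℝ) + 1) ^ 2)⁻¹) := by
  have h := (summable_nat_add_iff 1).mpr (Real.summable_one_div_nat_pow.mpr (by norm_num : 1 < 2))
  refine h.congr (fun n => ?_)
  push_cast
  rw [one_div]

open II in
theorem M14_maj {θ1 θ2 ε : ℝ} (hθ1 : 0 < θ1) (hθ2 : 0 < θ2) (h0 : 0 < ε) (he : ε ≤ 1 / 2) (k : ℕ) :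
    Summable (fun x : ℕ × ℕ => dv (x.1 + 1) * dv (x.2 + 1) *
        ((1 + ‖((Real.exp k : ℝ) : ℂ) * zz θ1 θ2 ε (x.1 + 1) (x.2 + 1)‖) ^ 12)⁻¹) := by
  have hs : 0 < Real.sin ε := TT.sin_pos' h0 he
  obtain ⟨θ, hθ⟩ : ∃ θ, θ = min θ1 θ2 := ⟨_, rfl⟩
  have hθ0 : 0 < θ := by rw [hθ]; exact lt_min hθ1 hθ2
  have hθa : θ ≤ θ1 := by rw [hθ]; exact min_le_left _ _
  have hθb : θ ≤ θ2 := by rw [hθ]; exact min_le_right _ _
  have hprod : Summable (fun x : ℕ × ℕ => (((x.1 : ℝ) + 1) ^ 2)⁻¹ * (((x.2 : ℝ) + 1) ^ 2)⁻¹) :=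
    M14_sq.mul_of_nonneg M14_sq (fun n => by positivity) (fun n => by positivity)
  refine Summable.of_nonneg_of_le (fun x => ?_) (fun x => ?_)
    (hprod.mul_left (((Real.sin ε * θ) ^ 12)⁻¹))
  · have := M14_dv_nonneg (x.1 + 1)
    have := M14_dv_nonneg (x.2 + 1)
    positivity
  · obtain ⟨n, m⟩ := x
    show dv (n + 1) * dv (m + 1) * ((1 + ‖((Real.exp k : ℝ) : ℂ) * zz θ1 θ2 ε (n + 1) (m + 1)‖) ^ 12)⁻¹ ≤
      ((Real.sin ε * θ) ^ 12)⁻¹ * ((((n : ℝ) + 1) ^ 2)⁻¹ * (((m : ℝ) + 1) ^ 2)⁻¹)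
    have an := M14_dv_le (n + 1)
    have am := M14_dv_le (m + 1)
    push_cast at an am
    have hn : (1 : ℝ) ≤ (n : ℝ) + 1 := by linarith [(Nat.cast_nonneg n : (0 : ℝ) ≤ n)]
    have hm : (1 : ℝ) ≤ (m : ℝ) + 1 := by linarith [(Nat.cast_nonneg m : (0 : ℝ) ≤ m)]
    have hz : Real.sin ε * θ * (((n : ℝ) + 1) + ((m : ℝ) + 1)) ≤
        1 + ‖((Real.exp k : ℝ) : ℂ) * zz θ1 θ2 ε (n + 1) (m + 1)‖ := by
      have e1 : Real.sin ε * θ * (((n : ℝ) + 1) + ((m : ℝ) + 1)) ≤ (zz θ1 θ2 ε (n + 1) (m + 1)).re := by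
        rw [zz_re]
        push_cast
        rw [mul_assoc]
        refine mul_le_mul_of_nonneg_left ?_ hs.le
        have u1 := mul_le_mul_of_nonneg_right hθa (by linarith : (0 : ℝ) ≤ (n : ℝ) + 1)
        have u2 := mul_le_mul_of_nonneg_right hθb (by linarith : (0 : ℝ) ≤ (m : ℝ) + 1)
        linarith
      have e2 : (zz θ1 θ2 ε (n + 1) (m + 1)).re ≤ ‖zz θ1 θ2 ε (n + 1) (m + 1)‖ := Complex.re_le_norm _
      have e3 : ‖((Real.exp k : ℝ) : ℂ) * zz θ1 θ2 ε (n + 1) (m + 1)‖ =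
          Real.exp k * ‖zz θ1 θ2 ε (n + 1) (m + 1)‖ := by
        rw [norm_mul, Complex.norm_real, Real.norm_of_nonneg (Real.exp_pos _).le]
      have e4 : (1 : ℝ) ≤ Real.exp k := Real.one_le_exp (Nat.cast_nonneg _)
      have e5 : ‖zz θ1 θ2 ε (n + 1) (m + 1)‖ ≤ Real.exp k * ‖zz θ1 θ2 ε (n + 1) (m + 1)‖ :=
        le_mul_of_one_le_left (norm_nonneg _) e4
      rw [e3]
      linarith
    have hc : 0 < Real.sin ε * θ := by positivity
    have hp : 0 ≤ dv (n + 1) * dv (m + 1) := mul_nonneg (M14_dv_nonneg _) (M14_dv_nonneg _)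
    have hq : dv (n + 1) * dv (m + 1) ≤ ((n : ℝ) + 1) * ((m : ℝ) + 1) :=
      mul_le_mul an am (M14_dv_nonneg _) (by positivity)
    revert hz hq hp hc
    generalize dv (n + 1) * dv (m + 1) = A
    generalize ‖((Real.exp k : ℝ) : ℂ) * zz θ1 θ2 ε (n + 1) (m + 1)‖ = Z
    revert hn hm
    generalize (n : ℝ) + 1 = N
    generalize (m : ℝ) + 1 = M
    generalize Real.sin ε * θ = c
    intro hn hm hz hc hp hq
    have hNM : 1 ≤ N * M := one_le_mul_of_one_le_of_one_le hn hm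
    have h5 : c ^ 12 * (N * M) ^ 6 ≤ (1 + Z) ^ 12 := by
      have h6 : N * M ≤ (N + M) ^ 2 := by nlinarith
      calc c ^ 12 * (N * M) ^ 6 ≤ c ^ 12 * ((N + M) ^ 2) ^ 6 :=
            mul_le_mul_of_nonneg_left (pow_le_pow_left₀ (by positivity) h6 6) (by positivity)
        _ = (c * (N + M)) ^ 12 := by ring
        _ ≤ (1 + Z) ^ 12 := pow_le_pow_left₀ (by positivity) hz 12
    have h7 : ((1 + Z) ^ 12)⁻¹ ≤ (c ^ 12 * (N * M) ^ 6)⁻¹ := inv_anti₀ (by positivity) h5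
    have h8 : (N * M) ^ 3 ≤ (N * M) ^ 6 := pow_le_pow_right₀ hNM (by norm_num)
    calc A * ((1 + Z) ^ 12)⁻¹ ≤ (N * M) * (c ^ 12 * (N * M) ^ 6)⁻¹ :=
          mul_le_mul hq h7 (inv_nonneg.mpr (by
            have : 0 ≤ 1 + Z := le_trans (by positivity) hz
            positivity)) (by positivity)
      _ ≤ (N * M) * (c ^ 12 * (N * M) ^ 3)⁻¹ := by
          refine mul_le_mul_of_nonneg_left (inv_anti₀ (by positivity) ?_) (by positivity)
          exact mul_le_mul_of_nonneg_left h8 (by positivity)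
      _ = (c ^ 12)⁻¹ * ((N ^ 2)⁻¹ * (M ^ 2)⁻¹) := by
          have hN : N ≠ 0 := by positivity
          have hM : M ≠ 0 := by positivity
          field_simp

theorem M14_geo : Summable (fun i : ℕ => ((i : ℝ) + 1) ^ 3 * (1 / 8) ^ i) := by
  have h := summable_pow_mul_geometric_of_norm_lt_one (R := ℝ) 3 (r := 1 / 8) (by norm_num)
  have h2 := ((summable_nat_add_iff 1).mpr h).mul_left 8
  refine h2.congr (fun i => ?_)
  push_cast
  rw [pow_succ (1 / 8 : ℝ)]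
  ring

theorem M14_term (y A : ℝ) (hy : 0 < y) (hA : 0 ≤ A) (M : ℕ) (hM : y ≤ 2 ^ M) :
    A * ((1 + y) ^ 4)⁻¹ ≤ ∑ i ∈ Finset.range (M + 1), 16 * (1 / 16 : ℝ) ^ i * (if y ≤ 2 ^ i then A else 0) := by
  classical
  have hex : ∃ i : ℕ, y ≤ 2 ^ i := ⟨M, hM⟩
  obtain ⟨j, hj⟩ : ∃ j, j = Nat.find hex := ⟨_, rfl⟩
  have hj1 : y ≤ 2 ^ j := by rw [hj]; exact Nat.find_spec hex
  have hj2 : j ≤ M := by rw [hj]; exact Nat.find_min' hex hM
  have h1 : ((1 + y) ^ 4)⁻¹ ≤ 16 * (1 / 16 : ℝ) ^ j := by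
    rcases Nat.eq_zero_or_pos j with h | h
    · rw [h, pow_zero, mul_one]
      have : (1 : ℝ) ≤ (1 + y) ^ 4 := one_le_pow₀ (by linarith)
      have := inv_le_one_of_one_le₀ this
      linarith
    · obtain ⟨i, rfl⟩ : ∃ i, j = i + 1 := ⟨j - 1, by omega⟩
      have h2 : ¬ (y ≤ 2 ^ i) := by
        apply Nat.find_min hex
        omega
      rw [not_le] at h2
      have h3 : (16 : ℝ) ^ i ≤ (1 + y) ^ 4 := by
        have h4 : ((2 : ℝ) ^ i) ^ 4 = 16 ^ i := by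
          rw [← pow_mul, mul_comm, pow_mul]; norm_num
        rw [← h4]
        exact pow_le_pow_left₀ (by positivity) (by linarith) 4
      calc ((1 + y) ^ 4)⁻¹ ≤ ((16 : ℝ) ^ i)⁻¹ := inv_anti₀ (by positivity) h3
        _ = 16 * (1 / 16 : ℝ) ^ (i + 1) := by
            rw [pow_succ, one_div, inv_pow]; ring
  calc A * ((1 + y) ^ 4)⁻¹ ≤ A * (16 * (1 / 16 : ℝ) ^ j) := mul_le_mul_of_nonneg_left h1 hA
    _ = 16 * (1 / 16 : ℝ) ^ j * (if y ≤ 2 ^ j then A else 0) := by rw [if_pos hj1]; ring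
    _ ≤ _ := by
        refine Finset.single_le_sum (f := fun i => 16 * (1 / 16 : ℝ) ^ i * (if y ≤ 2 ^ i then A else 0))
          (fun i _ => ?_) (Finset.mem_range.mpr (by omega))
        have : 0 ≤ (if y ≤ 2 ^ i then A else 0) := by split_ifs <;> simp [hA]
        positivity

open II in
theorem M14_block (w : ℝ) (hw : 0 < w) (hw1 : w ≤ 1) (N i : ℕ) :
    ∑ n ∈ Finset.range N, (if w * ((n : ℝ) + 1) ≤ 2 ^ i then dv (n + 1) ^ 2 else 0) ≤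
      2 ^ i * w⁻¹ * (((i : ℝ) + 1) * (1 + Real.log w⁻¹)) ^ 3 := by
  have hwi : 1 ≤ w⁻¹ := (one_le_inv₀ hw).mpr hw1
  have hlog : 0 ≤ Real.log w⁻¹ := Real.log_nonneg hwi
  have h2i : (1 : ℝ) ≤ 2 ^ i := one_le_pow₀ (by norm_num)
  obtain ⟨X, hX⟩ : ∃ X : ℝ, X = 2 ^ i * w⁻¹ := ⟨_, rfl⟩
  have hX1 : 1 ≤ X := by rw [hX]; exact one_le_mul_of_one_le_of_one_le h2i hwi
  obtain ⟨x, hx⟩ : ∃ x : ℕ, x = ⌊X⌋₊ := ⟨_, rfl⟩
  have hx1 : 1 ≤ x := by rw [hx]; exact Nat.le_floor (by exact_mod_cast hX1)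
  have hxX : (x : ℝ) ≤ X := by rw [hx]; exact Nat.floor_le (by linarith)
  have hx1' : (1 : ℝ) ≤ x := by exact_mod_cast hx1
  have hs1 : ∑ n ∈ Finset.range N, (if w * ((n : ℝ) + 1) ≤ 2 ^ i then dv (n + 1) ^ 2 else 0) ≤
      ∑ n ∈ Finset.range x, dv (n + 1) ^ 2 := by
    rw [← Finset.sum_filter]
    refine Finset.sum_le_sum_of_subset_of_nonneg ?_ (fun n _ _ => by positivity)
    intro n hn
    rw [Finset.mem_filter] at hn
    rw [Finset.mem_range]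
    have h3 : ((n + 1 : ℕ) : ℝ) ≤ X := by
      rw [hX, ← div_eq_mul_inv, le_div_iff₀ hw]
      push_cast
      linarith [hn.2]
    have h4 : n + 1 ≤ x := by rw [hx]; exact Nat.le_floor h3
    omega
  have hs2 : ∑ n ∈ Finset.range x, dv (n + 1) ^ 2 = ∑ n ∈ Finset.Icc 1 x, dv n ^ 2 := by
    rw [show Finset.Icc 1 x = Finset.Ico 1 (x + 1) from by ext; rw [Finset.mem_Icc, Finset.mem_Ico]; omega,
      Finset.sum_Ico_eq_sum_range]
    simp [add_comm]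
  have hs3 := div_sq x hx1
  have hlx : Real.log x ≤ (i : ℝ) + Real.log w⁻¹ := by
    have h5 : Real.log x ≤ Real.log X := Real.log_le_log (by linarith) hxX
    have h6 : Real.log X = (i : ℝ) * Real.log 2 + Real.log w⁻¹ := by
      rw [hX, Real.log_mul (by positivity) (by positivity), Real.log_pow]
    have h7 : (i : ℝ) * Real.log 2 ≤ i := by
      have := Real.log_two_lt_d9
      have hi : (0 : ℝ) ≤ i := Nat.cast_nonneg i
      nlinarith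
    linarith
  have hl0 : 0 ≤ Real.log x := Real.log_nonneg hx1'
  have hi : (0 : ℝ) ≤ i := Nat.cast_nonneg i
  have h8 : 1 + Real.log x ≤ ((i : ℝ) + 1) * (1 + Real.log w⁻¹) := by nlinarith
  calc _ ≤ ∑ n ∈ Finset.range x, dv (n + 1) ^ 2 := hs1
    _ = ∑ n ∈ Finset.Icc 1 x, dv n ^ 2 := hs2
    _ ≤ x * (1 + Real.log x) ^ 3 := hs3
    _ ≤ X * (((i : ℝ) + 1) * (1 + Real.log w⁻¹)) ^ 3 :=
        mul_le_mul hxX (pow_le_pow_left₀ (by positivity) h8 3) (by positivity) (by linarith)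
    _ = _ := by rw [hX]

open II in
theorem M14_small : ∃ C : ℝ, 0 ≤ C ∧ ∀ w : ℝ, 0 < w → w ≤ 1 →
    ∑' n : ℕ, dv (n + 1) ^ 2 * ((1 + w * ((n : ℝ) + 1)) ^ 4)⁻¹ ≤ C * w⁻¹ * (1 + Real.log w⁻¹) ^ 3 := by
  refine ⟨16 * ∑' i : ℕ, ((i : ℝ) + 1) ^ 3 * (1 / 8) ^ i,
    mul_nonneg (by norm_num) (tsum_nonneg (fun i => by positivity)), ?_⟩
  intro w hw hw1
  have hwi : 1 ≤ w⁻¹ := (one_le_inv₀ hw).mpr hw1
  have hlog : 0 ≤ Real.log w⁻¹ := Real.log_nonneg hwi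
  refine Real.tsum_le_of_sum_range_le (fun n => by positivity) (fun N => ?_)
  obtain ⟨M, hM⟩ : ∃ M : ℕ, w * N < 2 ^ M := pow_unbounded_of_one_lt _ (by norm_num)
  have ht : ∀ n ∈ Finset.range N, dv (n + 1) ^ 2 * ((1 + w * ((n : ℝ) + 1)) ^ 4)⁻¹ ≤
      ∑ i ∈ Finset.range (M + 1), 16 * (1 / 16 : ℝ) ^ i *
        (if w * ((n : ℝ) + 1) ≤ 2 ^ i then dv (n + 1) ^ 2 else 0) := by
    intro n hn
    refine M14_term _ _ (by positivity) (by positivity) M (le_trans ?_ hM.le)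
    have h3 : ((n : ℝ) + 1) ≤ N := by exact_mod_cast Finset.mem_range.mp hn
    exact mul_le_mul_of_nonneg_left h3 hw.le
  calc ∑ n ∈ Finset.range N, dv (n + 1) ^ 2 * ((1 + w * ((n : ℝ) + 1)) ^ 4)⁻¹
      ≤ ∑ n ∈ Finset.range N, ∑ i ∈ Finset.range (M + 1), 16 * (1 / 16 : ℝ) ^ i *
        (if w * ((n : ℝ) + 1) ≤ 2 ^ i then dv (n + 1) ^ 2 else 0) := Finset.sum_le_sum ht
    _ = ∑ i ∈ Finset.range (M + 1), 16 * (1 / 16 : ℝ) ^ i *
        ∑ n ∈ Finset.range N, (if w * ((n : ℝ) + 1) ≤ 2 ^ i then dv (n + 1) ^ 2 else 0) := by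
        rw [Finset.sum_comm]
        exact Finset.sum_congr rfl (fun i _ => (Finset.mul_sum _ _ _).symm)
    _ ≤ ∑ i ∈ Finset.range (M + 1), 16 * (1 / 16 : ℝ) ^ i *
        (2 ^ i * w⁻¹ * (((i : ℝ) + 1) * (1 + Real.log w⁻¹)) ^ 3) :=
        Finset.sum_le_sum (fun i _ => mul_le_mul_of_nonneg_left (M14_block w hw hw1 N i)
          (by positivity))
    _ = (16 * ∑ i ∈ Finset.range (M + 1), ((i : ℝ) + 1) ^ 3 * (1 / 8) ^ i) * w⁻¹ *
        (1 + Real.log w⁻¹) ^ 3 := by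
        rw [Finset.mul_sum, Finset.sum_mul, Finset.sum_mul]
        refine Finset.sum_congr rfl (fun i _ => ?_)
        have h4 : (1 / 16 : ℝ) ^ i * 2 ^ i = (1 / 8) ^ i := by
          rw [← mul_pow]; norm_num
        rw [← h4]
        ring
    _ ≤ _ := by
        have h5 := M14_geo.sum_le_tsum (Finset.range (M + 1)) (fun i _ => by positivity)
        have h6 : 0 ≤ w⁻¹ * (1 + Real.log w⁻¹) ^ 3 := by positivity
        have h7 := mul_le_mul_of_nonneg_right (mul_le_mul_of_nonneg_left h5 (by norm_num : (0 : ℝ) ≤ 16)) h6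
        simpa only [mul_assoc] using h7

open II in
theorem M14_large : ∃ C : ℝ, 0 ≤ C ∧ ∀ w : ℝ, 0 < w →
    ∑' n : ℕ, dv (n + 1) ^ 2 * ((1 + w * ((n : ℝ) + 1)) ^ 4)⁻¹ ≤ C * (w ^ 4)⁻¹ := by
  refine ⟨∑' n : ℕ, (((n : ℝ) + 1) ^ 2)⁻¹, tsum_nonneg (fun i => by positivity), ?_⟩
  intro w hw
  have hb : ∀ n : ℕ, dv (n + 1) ^ 2 * ((1 + w * ((n : ℝ) + 1)) ^ 4)⁻¹ ≤
      (((n : ℝ) + 1) ^ 2)⁻¹ * (w ^ 4)⁻¹ := by
    intro n
    have h3 : dv (n + 1) ≤ (n : ℝ) + 1 := by have := M14_dv_le (n + 1); push_cast at this; exact this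
    have h4 : dv (n + 1) ^ 2 ≤ ((n : ℝ) + 1) ^ 2 := pow_le_pow_left₀ (M14_dv_nonneg _) h3 2
    have h5 : (w * ((n : ℝ) + 1)) ^ 4 ≤ (1 + w * ((n : ℝ) + 1)) ^ 4 :=
      pow_le_pow_left₀ (by positivity) (by linarith) 4
    calc _ ≤ ((n : ℝ) + 1) ^ 2 * ((w * ((n : ℝ) + 1)) ^ 4)⁻¹ :=
          mul_le_mul h4 (inv_anti₀ (by positivity) h5) (by positivity) (by positivity)
      _ = (((n : ℝ) + 1) ^ 2)⁻¹ * (w ^ 4)⁻¹ := by
          have : (n : ℝ) + 1 ≠ 0 := by positivity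
          field_simp
  rw [← tsum_mul_right]
  exact Summable.tsum_le_tsum hb (Summable.of_nonneg_of_le (fun n => by positivity) hb
    (M14_sq.mul_right _)) (M14_sq.mul_right _)

open II in
/-- the total sum -/
theorem M14_total {θ1 θ2 : ℝ} (h1 : 0 < θ1) (h2 : 0 < θ2) : ∃ C : ℝ, 0 ≤ C ∧
    ∀ ε : ℝ, 0 < ε → ε ≤ 1 / 2 → ∀ k : ℕ,
      (Real.exp k * ε ≤ 1 → ∑' x : ℕ × ℕ, dv (x.1 + 1) * dv (x.2 + 1) *
        ((1 + ‖((Real.exp k : ℝ) : ℂ) * zz θ1 θ2 ε (x.1 + 1) (x.2 + 1)‖) ^ 12)⁻¹ ≤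
        C * ((Real.exp k * ε)⁻¹ * (1 + Real.log (Real.exp k * ε)⁻¹) ^ 3)) ∧
      ∑' x : ℕ × ℕ, dv (x.1 + 1) * dv (x.2 + 1) *
        ((1 + ‖((Real.exp k : ℝ) : ℂ) * zz θ1 θ2 ε (x.1 + 1) (x.2 + 1)‖) ^ 12)⁻¹ ≤
        C * ((Real.exp k * ε) ^ 4)⁻¹ := by
  obtain ⟨Cs, hCs, hS⟩ := schur h1 h2
  obtain ⟨C1, hC1, hsm⟩ := M14_small
  obtain ⟨C2, hC2, hlg⟩ := M14_large
  refine ⟨Cs * C1 + Cs * C2, by positivity, fun ε h0 he k => ?_⟩
  have hy : 0 < Real.exp k * ε := mul_pos (Real.exp_pos _) h0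
  have key := hS dv dv M14_dv_nonneg M14_dv_nonneg M14_dv_le M14_dv_le ε h0 he k
  have hT : 0 ≤ ∑' n : ℕ, dv (n + 1) ^ 2 * ((1 + Real.exp k * ε * ((n : ℝ) + 1)) ^ 4)⁻¹ :=
    tsum_nonneg fun n => by positivity
  rw [Real.mul_self_sqrt hT] at key
  refine ⟨fun hle => ?_, ?_⟩
  · refine key.trans ((mul_le_mul_of_nonneg_left (hsm _ hy hle) hCs).trans ?_)
    have hwi : 1 ≤ (Real.exp k * ε)⁻¹ := (one_le_inv₀ hy).mpr hle
    have hlog : 0 ≤ Real.log (Real.exp k * ε)⁻¹ := Real.log_nonneg hwi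
    have h6 : 0 ≤ (Real.exp k * ε)⁻¹ * (1 + Real.log (Real.exp k * ε)⁻¹) ^ 3 := by positivity
    have h7 : 0 ≤ Cs * C2 * ((Real.exp k * ε)⁻¹ * (1 + Real.log (Real.exp k * ε)⁻¹) ^ 3) := by positivity
    rw [add_mul]
    refine le_trans (le_of_eq ?_) (le_add_of_nonneg_right h7)
    ring
  · refine key.trans ((mul_le_mul_of_nonneg_left (hlg _ hy) hCs).trans ?_)
    have h7 : 0 ≤ Cs * C1 * ((Real.exp k * ε) ^ 4)⁻¹ := by positivity
    rw [add_mul]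
    refine le_trans (le_of_eq ?_) (le_add_of_nonneg_left h7)
    ring

open II in
/-- the diagonal -/
theorem M14_diag {θ1 θ2 : ℝ} (h1 : 0 < θ1) (h2 : 0 < θ2) {r s : ℕ} (hr : 0 < r) (hs : 0 < s)
    (hrs : (r : ℝ) * θ1 = s * θ2) {A B : ℕ → ℂ} (hA : ∀ n : ℕ, ‖A n‖ ≤ n) (hB : ∀ n : ℕ, ‖B n‖ ≤ n)
    {C : ℝ} (hC : 0 ≤ C) (h : ∀ x : ℕ, 1 ≤ x →
      ‖∑ l ∈ Finset.Icc 1 x, A (r * l) * conj (B (s * l))‖ ≤ C * (x : ℝ) ^ (9 / 10 : ℝ))
    {ε : ℝ} (h0 : 0 < ε) (he : ε ≤ 1 / 2) (k : ℕ) :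
    ‖∑' l : ℕ, ∫ v : ℝ, I02_g A B θ1 θ2 ε k (r * (l + 1) - 1, s * (l + 1) - 1) v‖ ≤
      12 * Real.exp 2 * C * θ1 ^ (-(9 / 10 : ℝ)) * (ε ^ (-(9 / 10 : ℝ)) * Real.exp ((k : ℝ) / 10)) := by
  have hsin := TT.sin_pos' h0 he
  have hsin2 : ε / 2 ≤ Real.sin ε := by
    have e1 := Real.mul_le_sin h0.le (by have := Real.pi_gt_three; linarith)
    have e2 : ε / 2 ≤ 2 / π * ε := by
      have : (1 : ℝ) / 2 ≤ 2 / π := by
        rw [div_le_div_iff₀ (by norm_num) Real.pi_pos]; linarith [Real.pi_le_four]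
      nlinarith
    linarith
  have hpos1 : ∀ l : ℕ, 0 < r * (l + 1) := fun l => Nat.mul_pos hr (Nat.succ_pos l)
  have hpos2 : ∀ l : ℕ, 0 < s * (l + 1) := fun l => Nat.mul_pos hs (Nat.succ_pos l)
  have e1 : ∀ l : ℕ, r * (l + 1) - 1 + 1 = r * (l + 1) := fun l => Nat.sub_add_cancel (hpos1 l)
  have e2 : ∀ l : ℕ, s * (l + 1) - 1 + 1 = s * (l + 1) := fun l => Nat.sub_add_cancel (hpos2 l)
  have hinj : Function.Injective (fun l : ℕ => ((r * (l + 1) - 1, s * (l + 1) - 1) : ℕ × ℕ)) := by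
    intro a b hab
    have h3 := congrArg (fun p : ℕ × ℕ => p.1 + 1) hab
    simp only [e1] at h3
    have h4 := Nat.eq_of_mul_eq_mul_left hr h3
    omega
  have hsum := (I02_g_summable h1 h2 h0 he hA hB k).comp_injective hinj
  have hHas := hasSum_integral_of_summable_integral_norm (μ := (volume : Measure ℝ))
    (fun l : ℕ => I02_g_int A B θ1 θ2 ε k (r * (l + 1) - 1, s * (l + 1) - 1)) hsum
  rw [hHas.tsum_eq]
  have h3 : (∫ v : ℝ, ∑' l : ℕ, I02_g A B θ1 θ2 ε k (r * (l + 1) - 1, s * (l + 1) - 1) v) =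
      ∫ v in Icc (-1 : ℝ) 2, ∑' l : ℕ, I02_g A B θ1 θ2 ε k (r * (l + 1) - 1, s * (l + 1) - 1) v := by
    refine (setIntegral_eq_integral_of_forall_compl_eq_zero (fun v hv => ?_)).symm
    rw [tsum_congr fun l => I02_g_zero A B θ1 θ2 ε k _ hv, tsum_zero]
  rw [h3]
  obtain ⟨X, hX⟩ : ∃ X : ℝ, X = Real.exp k := ⟨_, rfl⟩
  have hX0 : 0 < X := by rw [hX]; exact Real.exp_pos _
  have hpt : ∀ v ∈ Icc (-1 : ℝ) 2,
      ‖∑' l : ℕ, I02_g A B θ1 θ2 ε k (r * (l + 1) - 1, s * (l + 1) - 1) v‖ ≤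
      X * Real.exp 2 * (4 * C * (θ1 * (X * ε)) ^ (-(9 / 10 : ℝ))) := by
    intro v hv
    obtain ⟨t, ht⟩ : ∃ t : ℝ, t = 2 * π * Real.exp v * (X * (Real.sin ε * (2 * θ1 * r))) := ⟨_, rfl⟩
    have hr' : (0 : ℝ) < r := by exact_mod_cast hr
    have ht0 : 0 < t := by rw [ht]; positivity
    have hterm : ∀ l : ℕ, I02_g A B θ1 θ2 ε k (r * (l + 1) - 1, s * (l + 1) - 1) v =
        ((X * (TT.phi v * Real.exp v) : ℝ) : ℂ) * ((A (r * (l + 1)) * conj (B (s * (l + 1)))) *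
          ((Real.exp (-(t * ((l : ℝ) + 1))) : ℝ) : ℂ)) := by
      intro l
      have hz : zz θ1 θ2 ε (r * (l + 1)) (s * (l + 1)) =
          ((Real.sin ε * (2 * θ1 * r) * ((l : ℝ) + 1) : ℝ) : ℂ) := by
        rw [zz_eq]
        have u1 : θ1 * ((r * (l + 1) : ℕ) : ℝ) - θ2 * ((s * (l + 1) : ℕ) : ℝ) = 0 := by
          push_cast
          linear_combination ((l : ℝ) + 1) * hrs
        have u2 : θ1 * ((r * (l + 1) : ℕ) : ℝ) + θ2 * ((s * (l + 1) : ℕ) : ℝ) =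
            2 * θ1 * r * ((l : ℝ) + 1) := by
          push_cast
          linear_combination (-((l : ℝ) + 1)) * hrs
        rw [u1, u2, mul_zero, ofReal_zero, zero_mul, add_zero]
        push_cast
        ring
      unfold I02_g
      simp only [e1, e2, hz, ← hX]
      have hE : exp (-(2 * π * ((Real.exp v : ℝ) : ℂ) *
          (((X : ℝ) : ℂ) * ((Real.sin ε * (2 * θ1 * r) * ((l : ℝ) + 1) : ℝ) : ℂ)))) =
          ((Real.exp (-(t * ((l : ℝ) + 1))) : ℝ) : ℂ) := by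
        rw [ofReal_exp (-(t * ((l : ℝ) + 1))), ht]
        congr 1
        push_cast
        ring
      rw [hE]
      push_cast
      ring
    rw [tsum_congr hterm, tsum_mul_left, norm_mul, norm_real,
      Real.norm_of_nonneg (mul_nonneg hX0.le (mul_nonneg (TT.phi_nonneg v) (Real.exp_nonneg v)))]
    have hab := M14_exp (c := fun l => A (r * l) * conj (B (s * l))) hC h ht0
    have hp : TT.phi v * Real.exp v ≤ Real.exp 2 := by
      calc TT.phi v * Real.exp v ≤ 1 * Real.exp 2 :=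
            mul_le_mul (TT.phi_le_one v) (Real.exp_le_exp.mpr hv.2) (Real.exp_nonneg _) zero_le_one
        _ = _ := one_mul _
    have htl : θ1 * (X * ε) ≤ t := by
      have w1 : Real.exp (-1) ≤ Real.exp v := Real.exp_le_exp.mpr hv.1
      have w2 : (1 : ℝ) ≤ r := by exact_mod_cast hr
      have w3 : 1 ≤ 2 * π * Real.exp (-1) := by
        have w4 : (1 : ℝ) / 3 ≤ Real.exp (-1) := by
          rw [Real.exp_neg, ← one_div]
          exact one_div_le_one_div_of_le (Real.exp_pos 1) (by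
            have := Real.exp_one_lt_d9
            linarith)
        have := Real.pi_gt_three
        nlinarith
      have w5 : 1 ≤ 2 * π * Real.exp v := by
        have := mul_le_mul_of_nonneg_left w1 (by positivity : 0 ≤ 2 * π)
        linarith
      have w6 : X * (θ1 * ε) ≤ X * (Real.sin ε * (2 * θ1 * r)) := by
        refine mul_le_mul_of_nonneg_left ?_ hX0.le
        calc θ1 * ε = (ε / 2) * (2 * θ1 * 1) := by ring
          _ ≤ Real.sin ε * (2 * θ1 * r) :=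
            mul_le_mul hsin2 (mul_le_mul_of_nonneg_left w2 (by positivity)) (by positivity) hsin.le
      rw [ht]
      calc θ1 * (X * ε) = 1 * (X * (θ1 * ε)) := by ring
        _ ≤ 2 * π * Real.exp v * (X * (Real.sin ε * (2 * θ1 * r))) :=
          mul_le_mul w5 w6 (by positivity) (by positivity)
    have hrp : t ^ (-(9 / 10 : ℝ)) ≤ (θ1 * (X * ε)) ^ (-(9 / 10 : ℝ)) :=
      Real.rpow_le_rpow_of_nonpos (by positivity) htl (by norm_num)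
    have hab2 : ‖∑' l : ℕ, A (r * (l + 1)) * conj (B (s * (l + 1))) *
        ((Real.exp (-(t * ((l : ℝ) + 1))) : ℝ) : ℂ)‖ ≤ 4 * C * (θ1 * (X * ε)) ^ (-(9 / 10 : ℝ)) :=
      hab.trans (mul_le_mul_of_nonneg_left hrp (by positivity))
    refine mul_le_mul (mul_le_mul_of_nonneg_left hp hX0.le) hab2 (norm_nonneg _) (by positivity)
  have h4 := norm_setIntegral_le_of_norm_le_const (μ := volume) (s := Icc (-1 : ℝ) 2) (by simp) hpt
  refine h4.trans (le_of_eq ?_)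
  rw [Measure.real, Real.volume_Icc, ENNReal.toReal_ofReal (by norm_num)]
  have h5 : (θ1 * (X * ε)) ^ (-(9 / 10 : ℝ)) =
      θ1 ^ (-(9 / 10 : ℝ)) * (X ^ (-(9 / 10 : ℝ)) * ε ^ (-(9 / 10 : ℝ))) := by
    rw [Real.mul_rpow h1.le (by positivity), Real.mul_rpow hX0.le h0.le]
  have h6 : X * X ^ (-(9 / 10 : ℝ)) = Real.exp ((k : ℝ) / 10) := by
    rw [hX, ← Real.exp_mul, ← Real.exp_add]
    congr 1
    ring
  rw [h5, ← h6]
  ring

open II in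
/-- the other terms -/
theorem M14_off {θ1 θ2 : ℝ} (h1 : 0 < θ1) (h2 : 0 < θ2) {r s : ℕ} (hr : 0 < r)
    (hrs : (r : ℝ) * θ1 = s * θ2) {C : ℝ} (hC : 0 ≤ C)
    (hXi : ∀ z : ℂ, 0 ≤ z.re → ‖Xi z‖ ≤ C * ((1 + ‖z‖) ^ 13)⁻¹)
    {ε : ℝ} (h0 : 0 < ε) (he : ε ≤ 1 / 2) (k : ℕ) (x : ℕ × ℕ)
    (hx : s * (x.1 + 1) ≠ r * (x.2 + 1)) :
    Real.exp k * ‖Xi (((Real.exp k : ℝ) : ℂ) * zz θ1 θ2 ε (x.1 + 1) (x.2 + 1))‖ ≤
      C * (2 * r / θ2) * ((1 + ‖((Real.exp k : ℝ) : ℂ) * zz θ1 θ2 ε (x.1 + 1) (x.2 + 1)‖) ^ 12)⁻¹ := by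
  have hsin := TT.sin_pos' h0 he
  have hr' : (0 : ℝ) < r := by exact_mod_cast hr
  have hX0 : 0 < Real.exp (k : ℝ) := Real.exp_pos _
  have hre : 0 ≤ (((Real.exp k : ℝ) : ℂ) * zz θ1 θ2 ε (x.1 + 1) (x.2 + 1)).re := by
    rw [re_ofReal_mul, zz_re]
    positivity
  have hcos : 1 / 2 ≤ Real.cos ε := by
    have := Real.one_sub_sq_div_two_le_cos (x := ε)
    nlinarith
  have hd : θ2 / r ≤ |θ1 * ((x.1 + 1 : ℕ) : ℝ) - θ2 * ((x.2 + 1 : ℕ) : ℝ)| := by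
    have hint : (1 : ℝ) ≤ |(s : ℝ) * ((x.1 + 1 : ℕ) : ℝ) - r * ((x.2 + 1 : ℕ) : ℝ)| := by
      have hz : ((s * (x.1 + 1) : ℕ) : ℤ) - ((r * (x.2 + 1) : ℕ) : ℤ) ≠ 0 := by
        intro hcon
        apply hx
        have : ((s * (x.1 + 1) : ℕ) : ℤ) = ((r * (x.2 + 1) : ℕ) : ℤ) := by linarith
        exact_mod_cast this
      have hz2 := Int.one_le_abs hz
      have hz3 : ((1 : ℤ) : ℝ) ≤ ((|((s * (x.1 + 1) : ℕ) : ℤ) - ((r * (x.2 + 1) : ℕ) : ℤ)| : ℤ) : ℝ) := by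
        exact_mod_cast hz2
      push_cast at hz3 ⊢
      exact hz3
    have heq : θ1 * ((x.1 + 1 : ℕ) : ℝ) - θ2 * ((x.2 + 1 : ℕ) : ℝ) =
        θ2 / r * ((s : ℝ) * ((x.1 + 1 : ℕ) : ℝ) - r * ((x.2 + 1 : ℕ) : ℝ)) := by
      field_simp
      linear_combination ((x.1 + 1 : ℕ) : ℝ) * hrs
    rw [heq, abs_mul, abs_of_pos (by positivity)]
    calc θ2 / r = θ2 / r * 1 := (mul_one _).symm
      _ ≤ _ := mul_le_mul_of_nonneg_left hint (by positivity)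
  have hW : Real.exp k * (θ2 / (2 * r)) ≤ ‖((Real.exp k : ℝ) : ℂ) * zz θ1 θ2 ε (x.1 + 1) (x.2 + 1)‖ := by
    rw [norm_mul, norm_real, Real.norm_of_nonneg hX0.le]
    refine mul_le_mul_of_nonneg_left ?_ hX0.le
    refine le_trans ?_ (Complex.abs_im_le_norm _)
    rw [zz_im, abs_mul, abs_of_pos (by linarith : (0 : ℝ) < Real.cos ε)]
    calc θ2 / (2 * r) = 1 / 2 * (θ2 / r) := by field_simp
      _ ≤ _ := mul_le_mul hcos hd (by positivity) (by linarith)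
  have hb := hXi _ hre
  revert hb hW
  generalize ‖((Real.exp k : ℝ) : ℂ) * zz θ1 θ2 ε (x.1 + 1) (x.2 + 1)‖ = W
  intro hW hb
  have hW0 : 0 < W := lt_of_lt_of_le (by positivity) hW
  have hinv : Real.exp k * (1 + W)⁻¹ ≤ 2 * r / θ2 := by
    have u1 : (1 + W)⁻¹ ≤ (Real.exp k * (θ2 / (2 * r)))⁻¹ := inv_anti₀ (by positivity) (by linarith)
    calc Real.exp k * (1 + W)⁻¹ ≤ Real.exp k * (Real.exp k * (θ2 / (2 * r)))⁻¹ :=
          mul_le_mul_of_nonneg_left u1 hX0.le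
      _ = 2 * r / θ2 := by
          have : Real.exp (k : ℝ) ≠ 0 := hX0.ne'
          field_simp
  calc Real.exp k * ‖Xi (((Real.exp k : ℝ) : ℂ) * zz θ1 θ2 ε (x.1 + 1) (x.2 + 1))‖ ≤
      Real.exp k * (C * ((1 + W) ^ 13)⁻¹) := mul_le_mul_of_nonneg_left hb hX0.le
    _ = C * (Real.exp k * (1 + W)⁻¹) * ((1 + W) ^ 12)⁻¹ := by
        rw [pow_succ (1 + W) 12, mul_inv]
        ring
    _ ≤ C * (2 * r / θ2) * ((1 + W) ^ 12)⁻¹ := by gcongr

theorem M14_FE {a b : ℕ → ℂ} (h : ∀ n : ℕ, a (n + 1) = b (n + 1)) (θ ε x : ℝ) :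
    II.FE a θ ε x = II.FE b θ ε x := by
  unfold II.FE
  exact tsum_congr fun n => by rw [h]

theorem M14_BK {a b c : ℕ → ℂ} (h : ∀ n : ℕ, a (n + 1) = b (n + 1)) (θ1 θ2 ε : ℝ) (k : ℕ) :
    II.BK c a θ1 θ2 ε k = II.BK c b θ1 θ2 ε k := by
  unfold II.BK
  simp only [M14_FE h]

open II in
theorem M14_main {θ1 θ2 : ℝ} (h1 : 0 < θ1) (h2 : 0 < θ2) {r s : ℕ} (hr : 0 < r) (hs : 0 < s)
    (hcop : Nat.Coprime r s) (hrs : (r : ℝ) * θ1 = s * θ2) {A B : ℕ → ℂ} (hA : ∀ n : ℕ, ‖A n‖ ≤ dv n)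
    (hB : ∀ n : ℕ, ‖B n‖ ≤ dv n) {C : ℝ} (hC : 0 ≤ C) (h : ∀ x : ℕ, 1 ≤ x →
      ‖∑ l ∈ Finset.Icc 1 x, A (r * l) * conj (B (s * l))‖ ≤ C * (x : ℝ) ^ (9 / 10 : ℝ)) :
    ∃ C : ℝ, 0 ≤ C ∧
    ∀ ε : ℝ, 0 < ε → ε ≤ 1 / 2 → ∀ k : ℕ,
      (Real.exp k ≤ 1 / ε → ‖BK A B θ1 θ2 ε k‖ ≤
        C * ((1 + Real.log (1 / ε)) ^ 4 * (ε⁻¹ * Real.exp (-(k : ℝ))) +
          ε ^ (-(9 / 10 : ℝ)) * Real.exp ((k : ℝ) / 10))) ∧
      (1 / ε ≤ Real.exp k → ‖BK A B θ1 θ2 ε k‖ ≤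
        C * (ε⁻¹ * ((Real.exp k * ε) ^ 2)⁻¹)) := by
  classical
  obtain ⟨C12, hC12, hX12⟩ := Xi_bound 12
  obtain ⟨C13, hC13, hX13⟩ := Xi_bound 13
  obtain ⟨Ct, hCt, hT⟩ := M14_total h1 h2
  have hr' : (0 : ℝ) < r := by exact_mod_cast hr
  have hθ9 : 0 ≤ θ1 ^ (-(9 / 10 : ℝ)) := Real.rpow_nonneg h1.le _
  refine ⟨12 * Real.exp 2 * C * θ1 ^ (-(9 / 10 : ℝ)) + C13 * (2 * r / θ2) * Ct + C12 * Ct,
    by positivity, fun ε h0 he k => ?_⟩
  have hA' : ∀ n : ℕ, ‖A n‖ ≤ n := fun n => (hA n).trans (M14_dv_le n)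
  have hB' : ∀ n : ℕ, ‖B n‖ ≤ n := fun n => (hB n).trans (M14_dv_le n)
  obtain ⟨hT1, hT2⟩ := hT ε h0 he k
  have hmaj := M14_maj h1 h2 h0 he k
  have hHS := I02_BK_hasSum h1 h2 h0 he hA' hB' k
  have hX0 : 0 < Real.exp (k : ℝ) := Real.exp_pos _
  have hGn : ∀ x : ℕ × ℕ, ‖∫ v : ℝ, I02_g A B θ1 θ2 ε k x v‖ ≤ dv (x.1 + 1) * dv (x.2 + 1) *
      (Real.exp k * ‖Xi (((Real.exp k : ℝ) : ℂ) * zz θ1 θ2 ε (x.1 + 1) (x.2 + 1))‖) := by
    intro x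
    rw [I02_g_integral, norm_mul, norm_mul, norm_mul, RCLike.norm_conj, norm_real,
      Real.norm_of_nonneg hX0.le]
    have := mul_le_mul (hA (x.1 + 1)) (hB (x.2 + 1)) (norm_nonneg _) (M14_dv_nonneg _)
    calc _ = (‖A (x.1 + 1)‖ * ‖B (x.2 + 1)‖) *
          (Real.exp k * ‖Xi (((Real.exp k : ℝ) : ℂ) * zz θ1 θ2 ε (x.1 + 1) (x.2 + 1))‖) := by ring
      _ ≤ _ := mul_le_mul_of_nonneg_right this (by positivity)
  have hre : ∀ x : ℕ × ℕ, 0 ≤ (((Real.exp k : ℝ) : ℂ) * zz θ1 θ2 ε (x.1 + 1) (x.2 + 1)).re := by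
    intro x
    have hsin := TT.sin_pos' h0 he
    rw [re_ofReal_mul, zz_re]
    positivity
  obtain ⟨G, hG⟩ : ∃ G : ℕ × ℕ → ℂ, ∀ x, G x = ∫ v : ℝ, I02_g A B θ1 θ2 ε k x v := ⟨_, fun _ => rfl⟩
  have hGs : HasSum G (BK A B θ1 θ2 ε k) := hHS.congr_fun hG
  refine ⟨fun hk => ?_, fun hk => ?_⟩
  · -- small k
    have hy0 : 0 < Real.exp k * ε := mul_pos hX0 h0
    have hy1 : Real.exp k * ε ≤ 1 := by
      rw [le_div_iff₀ h0] at hk
      exact hk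
    obtain ⟨S, hS⟩ : ∃ S : Set (ℕ × ℕ), S = {x | s * (x.1 + 1) = r * (x.2 + 1)} := ⟨_, rfl⟩
    have hinj : Function.Injective (fun l : ℕ => ((r * (l + 1) - 1, s * (l + 1) - 1) : ℕ × ℕ)) := by
      intro a b hab
      have h3 := congrArg (fun p : ℕ × ℕ => p.1 + 1) hab
      have p1 : 0 < r * (a + 1) := Nat.mul_pos hr (Nat.succ_pos a)
      have p2 : 0 < r * (b + 1) := Nat.mul_pos hr (Nat.succ_pos b)
      simp only [Nat.sub_add_cancel p1, Nat.sub_add_cancel p2] at h3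
      have h4 := Nat.eq_of_mul_eq_mul_left hr h3
      omega
    have hmem : ∀ l : ℕ, ((r * (l + 1) - 1, s * (l + 1) - 1) : ℕ × ℕ) ∈ S := by
      intro l
      rw [hS]
      show s * (r * (l + 1) - 1 + 1) = r * (s * (l + 1) - 1 + 1)
      rw [Nat.sub_add_cancel (Nat.mul_pos hr (Nat.succ_pos l)),
        Nat.sub_add_cancel (Nat.mul_pos hs (Nat.succ_pos l))]
      ring
    have hrange : Function.support (S.indicator G) ⊆
        Set.range (fun l : ℕ => ((r * (l + 1) - 1, s * (l + 1) - 1) : ℕ × ℕ)) := by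
      intro x hx
      have hxS : x ∈ S := by
        by_contra hcon
        exact hx (Set.indicator_of_notMem hcon G)
      rw [hS] at hxS
      have hxe : s * (x.1 + 1) = r * (x.2 + 1) := hxS
      have hdvd : r ∣ x.1 + 1 := by
        have : r ∣ s * (x.1 + 1) := ⟨x.2 + 1, hxe⟩
        exact hcop.dvd_of_dvd_mul_left this
      obtain ⟨j, hj⟩ := hdvd
      have hj0 : 0 < j := by
        rcases Nat.eq_zero_or_pos j with hj0 | hj0
        · rw [hj0, mul_zero] at hj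
          omega
        · exact hj0
      obtain ⟨l, rfl⟩ : ∃ l, j = l + 1 := ⟨j - 1, by omega⟩
      have hm : x.2 + 1 = s * (l + 1) := by
        rw [hj] at hxe
        have : r * (s * (l + 1)) = r * (x.2 + 1) := by rw [← hxe]; ring
        exact (Nat.eq_of_mul_eq_mul_left hr this).symm
      refine ⟨l, ?_⟩
      show (r * (l + 1) - 1, s * (l + 1) - 1) = x
      rw [← hj, ← hm]
      rfl
    have s1 : Summable (S.indicator G) := hGs.summable.indicator S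
    have s2 : Summable (Sᶜ.indicator G) := hGs.summable.indicator Sᶜ
    have hsplit : BK A B θ1 θ2 ε k = ∑' x, S.indicator G x + ∑' x, Sᶜ.indicator G x := by
      rw [← s1.tsum_add s2, ← hGs.tsum_eq]
      refine tsum_congr fun x => ?_
      exact (congrFun (Set.indicator_self_add_compl S G) x).symm
    have hd : ∑' x, S.indicator G x =
        ∑' l : ℕ, ∫ v : ℝ, I02_g A B θ1 θ2 ε k (r * (l + 1) - 1, s * (l + 1) - 1) v := by
      rw [← hinj.tsum_eq hrange]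
      refine tsum_congr fun l => ?_
      rw [Set.indicator_of_mem (hmem l), hG]
    have hdb := M14_diag h1 h2 hr hs hrs hA' hB' hC h h0 he k
    have ho : ‖∑' x, Sᶜ.indicator G x‖ ≤ C13 * (2 * r / θ2) * ∑' x : ℕ × ℕ, dv (x.1 + 1) * dv (x.2 + 1) *
        ((1 + ‖((Real.exp k : ℝ) : ℂ) * zz θ1 θ2 ε (x.1 + 1) (x.2 + 1)‖) ^ 12)⁻¹ := by
      refine tsum_of_norm_bounded (hmaj.hasSum.mul_left (C13 * (2 * r / θ2))) fun x => ?_
      by_cases hx : x ∈ S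
      · rw [Set.indicator_of_notMem (fun hcon : x ∈ Sᶜ => hcon hx), norm_zero]
        have := M14_dv_nonneg (x.1 + 1)
        have := M14_dv_nonneg (x.2 + 1)
        positivity
      · rw [Set.indicator_of_mem (show x ∈ Sᶜ from hx), hG]
        have hx' : s * (x.1 + 1) ≠ r * (x.2 + 1) := by
          intro hcon
          apply hx
          rw [hS]
          exact hcon
        have hb := M14_off h1 h2 hr hrs hC13 hX13 h0 he k x hx'
        refine (hGn x).trans ?_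
        have hdd : 0 ≤ dv (x.1 + 1) * dv (x.2 + 1) := mul_nonneg (M14_dv_nonneg _) (M14_dv_nonneg _)
        refine (mul_le_mul_of_nonneg_left hb hdd).trans (le_of_eq ?_)
        ring
    have hT1' := hT1 hy1
    have hlog1 : Real.log (Real.exp k * ε)⁻¹ ≤ Real.log (1 / ε) := by
      refine Real.log_le_log (by positivity) ?_
      rw [mul_inv, one_div]
      have : (Real.exp (k : ℝ))⁻¹ ≤ 1 := inv_le_one_of_one_le₀ (Real.one_le_exp (Nat.cast_nonneg k))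
      exact mul_le_of_le_one_left (by positivity) this
    have hlog0 : 0 ≤ Real.log (Real.exp k * ε)⁻¹ := Real.log_nonneg ((one_le_inv₀ hy0).mpr hy1)
    have hpow : (1 + Real.log (Real.exp k * ε)⁻¹) ^ 3 ≤ (1 + Real.log (1 / ε)) ^ 4 := by
      calc (1 + Real.log (Real.exp k * ε)⁻¹) ^ 3 ≤ (1 + Real.log (1 / ε)) ^ 3 :=
            pow_le_pow_left₀ (by positivity) (by linarith) 3
        _ ≤ (1 + Real.log (1 / ε)) ^ 4 := pow_le_pow_right₀ (by linarith) (by norm_num)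
    have hyinv : (Real.exp k * ε)⁻¹ = ε⁻¹ * Real.exp (-(k : ℝ)) := by
      rw [mul_inv, Real.exp_neg, mul_comm]
    have hE1 : 0 ≤ (1 + Real.log (1 / ε)) ^ 4 * (ε⁻¹ * Real.exp (-(k : ℝ))) := by
      have : 0 ≤ 1 + Real.log (1 / ε) := by linarith
      positivity
    have hE2 : 0 ≤ ε ^ (-(9 / 10 : ℝ)) * Real.exp ((k : ℝ) / 10) := by
      have : 0 ≤ ε ^ (-(9 / 10 : ℝ)) := Real.rpow_nonneg h0.le _
      positivity
    have hT3 : ∑' x : ℕ × ℕ, dv (x.1 + 1) * dv (x.2 + 1) *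
        ((1 + ‖((Real.exp k : ℝ) : ℂ) * zz θ1 θ2 ε (x.1 + 1) (x.2 + 1)‖) ^ 12)⁻¹ ≤
        Ct * ((1 + Real.log (1 / ε)) ^ 4 * (ε⁻¹ * Real.exp (-(k : ℝ)))) := by
      refine hT1'.trans (mul_le_mul_of_nonneg_left ?_ hCt)
      rw [← hyinv, mul_comm]
      exact mul_le_mul_of_nonneg_right hpow (by positivity)
    rw [hsplit, hd]
    refine (norm_add_le _ _).trans ((add_le_add hdb (ho.trans (mul_le_mul_of_nonneg_left hT3
      (by positivity)))).trans ?_)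
    have w1 : 0 ≤ 12 * Real.exp 2 * C * θ1 ^ (-(9 / 10 : ℝ)) := by positivity
    have w2 : 0 ≤ C13 * (2 * r / θ2) * Ct := by positivity
    have w3 : 0 ≤ C12 * Ct := by positivity
    generalize (1 + Real.log (1 / ε)) ^ 4 * (ε⁻¹ * Real.exp (-(k : ℝ))) = E1 at hE1 ⊢
    generalize ε ^ (-(9 / 10 : ℝ)) * Real.exp ((k : ℝ) / 10) = E2 at hE2 ⊢
    generalize 12 * Real.exp 2 * C * θ1 ^ (-(9 / 10 : ℝ)) = W1 at w1 ⊢
    rw [← mul_assoc]
    generalize C13 * (2 * r / θ2) * Ct = W2 at w2 ⊢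
    generalize C12 * Ct = W3 at w3 ⊢
    nlinarith [mul_nonneg w1 hE1, mul_nonneg w2 hE2, mul_nonneg w3 hE1, mul_nonneg w3 hE2]
  · -- large k
    have hy0 : 0 < Real.exp k * ε := mul_pos hX0 h0
    have hy1 : 1 ≤ Real.exp k * ε := by
      rw [div_le_iff₀ h0] at hk
      exact hk
    have hb : ‖BK A B θ1 θ2 ε k‖ ≤ C12 * Real.exp k * ∑' x : ℕ × ℕ, dv (x.1 + 1) * dv (x.2 + 1) *
        ((1 + ‖((Real.exp k : ℝ) : ℂ) * zz θ1 θ2 ε (x.1 + 1) (x.2 + 1)‖) ^ 12)⁻¹ := by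
      rw [← hGs.tsum_eq]
      refine tsum_of_norm_bounded (hmaj.hasSum.mul_left (C12 * Real.exp k)) fun x => ?_
      rw [hG]
      refine (hGn x).trans ?_
      have hdd : 0 ≤ dv (x.1 + 1) * dv (x.2 + 1) := mul_nonneg (M14_dv_nonneg _) (M14_dv_nonneg _)
      refine (mul_le_mul_of_nonneg_left (mul_le_mul_of_nonneg_left (hX12 _ (hre x)) hX0.le)
        hdd).trans (le_of_eq ?_)
      ring
    refine hb.trans ((mul_le_mul_of_nonneg_left hT2 (by positivity)).trans ?_)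
    have hfin : Real.exp k * ((Real.exp k * ε) ^ 4)⁻¹ ≤ ε⁻¹ * ((Real.exp k * ε) ^ 2)⁻¹ := by
      have u1 : Real.exp k = ε⁻¹ * (Real.exp k * ε) := by
        field_simp
      revert u1 hy0 hy1
      generalize Real.exp k * ε = y
      intro hy0 hy1 u1
      rw [u1, mul_assoc]
      refine mul_le_mul_of_nonneg_left ?_ (by positivity)
      have u2 : y * (y ^ 4)⁻¹ = (y ^ 3)⁻¹ := by
        have : y ≠ 0 := hy0.ne'
        field_simp
      rw [u2]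
      exact inv_anti₀ (by positivity) (pow_le_pow_right₀ hy1 (by norm_num))
    have w1 : 0 ≤ 12 * Real.exp 2 * C * θ1 ^ (-(9 / 10 : ℝ)) := by positivity
    have w2 : 0 ≤ C13 * (2 * r / θ2) * Ct := by positivity
    have w3 : 0 ≤ C12 * Ct := by positivity
    have w4 : 0 ≤ ε⁻¹ * ((Real.exp k * ε) ^ 2)⁻¹ := by positivity
    have w5 : C12 * Real.exp k * (Ct * ((Real.exp k * ε) ^ 4)⁻¹) =
        C12 * Ct * (Real.exp k * ((Real.exp k * ε) ^ 4)⁻¹) := by ring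
    rw [w5]
    refine (mul_le_mul_of_nonneg_left hfin w3).trans (mul_le_mul_of_nonneg_right ?_ w4)
    linarith

/-- Row M14. Pieces with large k, rational ratio. -/
theorem large_k_rat {N : ℕ} {a : ℕ → ℂ} {L : ℂ → ℂ} (D : Dat N a L) {q1 q2 : ℕ} [NeZero q1] [NeZero q2]
    (χ1 : DirichletCharacter ℂ q1) (χ2 : DirichletCharacter ℂ q2) {θ1 θ2 : ℝ} (h1 : 0 < θ1) (h2 : 0 < θ2)
    {r s : ℕ} (hr : 0 < r) (hs : 0 < s) (hrs : (r : ℝ) * θ1 = s * θ2) : ∃ C : ℝ, 0 ≤ C ∧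
    ∀ ε : ℝ, 0 < ε → ε ≤ 1 / 2 → ∀ k : ℕ,
      (Real.exp k ≤ 1 / ε → ‖II.BK (II.cv χ1 χ2) a θ1 θ2 ε k‖ ≤
        C * ((1 + Real.log (1 / ε)) ^ 4 * (ε⁻¹ * Real.exp (-(k : ℝ))) +
          ε ^ (-(9 / 10 : ℝ)) * Real.exp ((k : ℝ) / 10))) ∧
      (1 / ε ≤ Real.exp k → ‖II.BK (II.cv χ1 χ2) a θ1 θ2 ε k‖ ≤
        C * (ε⁻¹ * ((Real.exp k * ε) ^ 2)⁻¹)) := by
  obtain ⟨r', s', hcop, hr', hs'⟩ := Nat.exists_coprime r s
  have hg : 0 < Nat.gcd r s := Nat.gcd_pos_of_pos_left s hr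
  generalize Nat.gcd r s = g at hr' hs' hg
  have hr0 : 0 < r' := by
    rcases Nat.eq_zero_or_pos r' with h0 | h0
    · rw [h0, zero_mul] at hr'
      omega
    · exact h0
  have hs0 : 0 < s' := by
    rcases Nat.eq_zero_or_pos s' with h0 | h0
    · rw [h0, zero_mul] at hs'
      omega
    · exact h0
  have hrs' : (r' : ℝ) * θ1 = s' * θ2 := by
    have hg' : (g : ℝ) ≠ 0 := by exact_mod_cast hg.ne'
    rw [hr', hs'] at hrs
    push_cast at hrs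
    apply mul_left_cancel₀ hg'
    linear_combination hrs
  obtain ⟨b, hb⟩ : ∃ b : ℕ → ℂ, ∀ n, b n = if n = 0 then 0 else a n := ⟨_, fun _ => rfl⟩
  have hba : ∀ n : ℕ, a (n + 1) = b (n + 1) := fun n => by rw [hb, if_neg (Nat.succ_ne_zero n)]
  have hbd : ∀ n : ℕ, ‖b n‖ ≤ II.dv n := by
    intro n
    rw [hb]
    split_ifs with h
    · rw [norm_zero]
      exact M14_dv_nonneg n
    · exact D.bd n (Nat.pos_of_ne_zero h)
  obtain ⟨C, hC, hdiag⟩ := diag_sum D χ1 χ2 hr0 hs0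
  have hdiag' : ∀ x : ℕ, 1 ≤ x →
      ‖∑ l ∈ Finset.Icc 1 x, II.cv χ1 χ2 (r' * l) * conj (b (s' * l))‖ ≤ C * (x : ℝ) ^ (9 / 10 : ℝ) := by
    intro x hx
    have e : ∑ l ∈ Finset.Icc 1 x, II.cv χ1 χ2 (r' * l) * conj (b (s' * l)) =
        ∑ l ∈ Finset.Icc 1 x, II.cv χ1 χ2 (r' * l) * conj (a (s' * l)) := by
      refine Finset.sum_congr rfl fun l hl => ?_
      have hl1 := (Finset.mem_Icc.1 hl).1
      have : s' * l ≠ 0 := (Nat.mul_pos hs0 hl1).ne'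
      rw [hb, if_neg this]
    rw [e]
    exact hdiag x hx
  obtain ⟨C', hC', hmain⟩ := M14_main h1 h2 hr0 hs0 hcop hrs' (M14_cv_le χ1 χ2) hbd hC hdiag'
  refine ⟨C', hC', fun ε h0 he k => ?_⟩
  rw [M14_BK hba]
  exact hmain ε h0 he k

end NH
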