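import Pool.Agent.Lib.MP_0f5a55_nt.NH.MD
import Pool.Agent.Lib.MP_0f5a55_nt.NH.N12
import Pool.Agent.Lib.MP_0f5a55_nt.FF.F02
import Pool.Agent.Lib.MP_0f5a55_nt.FF.F03
import Pool.Agent.Lib.MP_0f5a55_nt.FF.F06

open Complex MeasureTheory Set Filter Topology
open scoped Real ComplexConjugate

namespace NH

private theorem M16_tht {N : ℕ} (hN : 0 < N) : 0 < FF.tht N 1 := by
  unfold FF.tht
  have h1 : (0:ℝ) < N := by exact_mod_cast hN
  positivity

private theorem M16_A {N : ℕ} (hN : 0 < N) : 0 < √(N : ℝ) / (2 * π) := by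
  have : (0 : ℝ) < N := by exact_mod_cast hN
  have := Real.pi_pos
  positivity

private theorem M16_base_ne {N : ℕ} (hN : 0 < N) (ε : ℝ) : (2 * π * FF.tht N 1 * II.om ε : ℂ) ≠ 0 := by
  have h := M16_tht hN
  have h1 : (0:ℝ) < 2 * π * FF.tht N 1 := by positivity
  have h2 : II.om ε ≠ 0 := by unfold II.om; exact exp_ne_zero _
  have h3 : (2 * π * FF.tht N 1 * II.om ε : ℂ) = ((2 * π * FF.tht N 1 : ℝ) : ℂ) * II.om ε := by
    push_cast; ring
  rw [h3]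
  exact mul_ne_zero (by exact_mod_cast h1.ne') h2

private theorem M16_gam_cont : Continuous fun t : ℝ => Gamma (1 / 2 + t * I) := by
  rw [continuous_iff_continuousAt]
  intro t
  have h1 : ContinuousAt Gamma (1 / 2 + t * I) := by
    refine (differentiableAt_Gamma _ ?_).continuousAt
    intro m hm
    have := congrArg Complex.re hm
    simp at this
    have h0 : (0:ℝ) ≤ m := Nat.cast_nonneg m
    linarith
  have h2 : ContinuousAt (fun t : ℝ => (1 / 2 + t * I : ℂ)) t := by fun_prop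
  exact ContinuousAt.comp (f := fun t : ℝ => (1 / 2 + t * I : ℂ)) h1 h2

/-- the structure of Rf -/
private theorem M16_struct {N : ℕ} (hN : 0 < N) (L : ℂ → ℂ) {ε : ℝ} (h0 : 0 < ε) (h1 : ε ≤ 1 / 2) (t : ℝ) :
    Rf N L ε t = exp (-(((π / 2 - ε) / 2 : ℝ) : ℂ) * I) * ((Real.exp ((π / 2 - ε) * t) : ℝ) : ℂ) *
      Lam N L (1 / 2 + t * I) := by
  have hA := M16_A hN
  have hth := M16_tht hN
  have hpi := Real.pi_gt_three
  have hr : (0 : ℝ) < 2 * π * FF.tht N 1 := by positivity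
  have hrA : 2 * π * FF.tht N 1 = (√(N : ℝ) / (2 * π))⁻¹ := by
    unfold FF.tht
    rw [inv_div, Nat.cast_one, mul_one, div_eq_mul_inv]
  have e1 : (2 * π * FF.tht N 1 * II.om ε : ℂ) = ((2 * π * FF.tht N 1 : ℝ) : ℂ) * II.om ε := by
    push_cast; ring
  have e2 : II.om ε ≠ 0 := by unfold II.om; exact exp_ne_zero _
  have e3 : Complex.log (II.om ε) = ((π / 2 - ε : ℝ) : ℂ) * I := by
    unfold II.om
    apply Complex.log_exp
    · rw [im_ofReal_mul, I_im, mul_one]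
      linarith
    · rw [im_ofReal_mul, I_im, mul_one]
      linarith
  have e4 : Real.log (2 * π * FF.tht N 1) = -Real.log (√(N : ℝ) / (2 * π)) := by
    rw [hrA, Real.log_inv]
  have e5 : (2 * π * FF.tht N 1 * II.om ε : ℂ) ^ (-(1 / 2 + t * I) : ℂ) =
      exp (-(((π / 2 - ε) / 2 : ℝ) : ℂ) * I) * ((Real.exp ((π / 2 - ε) * t) : ℝ) : ℂ) *
        ((√(N : ℝ) / (2 * π) : ℝ) : ℂ) ^ (1 / 2 + t * I : ℂ) := by
    rw [e1, cpow_def_of_ne_zero (mul_ne_zero (by exact_mod_cast hr.ne') e2), Complex.log_ofReal_mul hr e2,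
      e3, e4, cpow_def_of_ne_zero (by exact_mod_cast hA.ne'), ← Complex.ofReal_log hA.le, ofReal_exp,
      ← exp_add, ← exp_add]
    congr 1
    push_cast
    have := I_mul_I
    linear_combination -((π / 2 - ε) * t : ℂ) * this
  unfold Rf Lam
  rw [e5]
  ring

/-- the completed L-function on the line -/
private theorem M16_lam {N : ℕ} {a : ℕ → ℂ} {L : ℂ → ℂ} (D : Dat N a L) {u : ℂ} (hu : Un N a u) (t : ℝ) :
    Lam N L (1 / 2 + t * I) = conj u * (((u * Lam N L (1 / 2 + t * I)).re : ℝ) : ℂ) := by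
  have h1 := lam_real D hu t
  have h2 : (((u * Lam N L (1 / 2 + t * I)).re : ℝ) : ℂ) = u * Lam N L (1 / 2 + t * I) := by
    apply Complex.ext
    · simp
    · simp only [ofReal_im]; exact h1.symm
  have h3 : conj u * u = 1 := by
    rw [mul_comm, mul_conj, normSq_eq_norm_sq, hu.1]; simp
  rw [h2, ← mul_assoc, h3, one_mul]

private theorem M16_expn (x : ℝ) : ‖exp (-((x : ℝ) : ℂ) * I)‖ = 1 := by
  have : -((x : ℝ) : ℂ) * I = ((-x : ℝ) : ℂ) * I := by push_cast; ring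
  rw [this, norm_exp_ofReal_mul_I]

private theorem M16_norm {N : ℕ} {a : ℕ → ℂ} {L : ℂ → ℂ} (D : Dat N a L) {u : ℂ} (hu : Un N a u) {ε : ℝ}
    (h0 : 0 < ε) (h1 : ε ≤ 1 / 2) (t : ℝ) : ‖Rf N L ε t‖ = |r2 N L u ε t| := by
  have h2 := M16_lam D hu t
  rw [M16_struct D.pos L h0 h1 t, norm_mul, norm_mul, M16_expn, one_mul, norm_real, Real.norm_eq_abs, h2,
    norm_mul, RCLike.norm_conj, hu.1, one_mul, norm_real, Real.norm_eq_abs]
  unfold r2
  rw [abs_mul]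

/-- Row M16. The Hardy function of the form; product with a pair of characters; sign. -/
theorem Rf_cont {N : ℕ} {a : ℕ → ℂ} {L : ℂ → ℂ} (D : Dat N a L) (ε : ℝ) : Continuous (Rf N L ε) := by
  unfold Rf
  have hP : Continuous fun t : ℝ => (2 * π * FF.tht N 1 * II.om ε : ℂ) ^ (-(1 / 2 + t * I) : ℂ) := by
    have h1 : Continuous fun t : ℝ => (-(1 / 2 + t * I) : ℂ) := by fun_prop
    exact h1.const_cpow (Or.inl (M16_base_ne D.pos ε))
  have hL : Continuous fun t : ℝ => L (1 / 2 + t * I) :=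
    D.ent.continuous.comp (by fun_prop : Continuous fun t : ℝ => (1 / 2 + t * I : ℂ))
  exact (M16_gam_cont.mul hP).mul hL

theorem Rf_le {N : ℕ} {a : ℕ → ℂ} {L : ℂ → ℂ} (D : Dat N a L) : ∃ C : ℝ, 0 ≤ C ∧ ∀ ε : ℝ, 0 < ε → ε ≤ 1 / 2 →
    ∀ t : ℝ, ‖Rf N L ε t‖ ≤ C * (1 + |t|) ^ 6 * Real.exp (-(ε * |t|)) ∧
      (t ≤ 0 → ‖Rf N L ε t‖ ≤ C * (1 + |t|) ^ 6 * Real.exp (-|t|)) := by
  obtain ⟨u, hu⟩ := unit_ex D
  obtain ⟨C, hC, h⟩ := r2_le D
  refine ⟨C, hC.le, fun ε h0 h1 t => ?_⟩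
  rw [M16_norm D hu h0 h1 t]
  obtain ⟨h2, h3⟩ := h u ε hu.1 h0 h1 t
  have h46 : (1 + |t|) ^ 4 ≤ (1 + |t|) ^ 6 :=
    pow_le_pow_right₀ (by linarith [abs_nonneg t]) (by norm_num)
  refine ⟨h2.trans (by gcongr), fun ht => (h3 ht).trans (by gcongr)⟩

theorem Rf_real {N : ℕ} {a : ℕ → ℂ} {L : ℂ → ℂ} (D : Dat N a L) : ∃ η : ℝ → ℂ, (∀ ε, ‖η ε‖ = 1) ∧
    ∀ ε t : ℝ, 0 < ε → ε ≤ 1 / 2 → Rf N L ε t = η ε * conj (Rf N L ε t) := by
  obtain ⟨u, hu⟩ := unit_ex D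
  refine ⟨fun ε => exp (-((π / 2 - ε : ℝ) : ℂ) * I) * (conj u) ^ 2, fun ε => ?_, fun ε t h0 h1 => ?_⟩
  · rw [norm_mul, M16_expn, norm_pow, RCLike.norm_conj, hu.1]; simp
  · have h3 : conj u * u = 1 := by
      rw [mul_comm, mul_conj, normSq_eq_norm_sq, hu.1]; simp
    rw [M16_struct D.pos L h0 h1 t, M16_lam D hu t]
    generalize (u * Lam N L (1 / 2 + t * I)).re = ρ
    have e2 : exp (-(((π / 2 - ε : ℝ)) : ℂ) * I) * exp ((((π / 2 - ε) / 2 : ℝ) : ℂ) * I) =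
        exp (-(((π / 2 - ε) / 2 : ℝ) : ℂ) * I) := by
      rw [← exp_add]
      congr 1
      push_cast
      ring
    have e1 : conj (exp (-(((π / 2 - ε) / 2 : ℝ) : ℂ) * I)) = exp ((((π / 2 - ε) / 2 : ℝ) : ℂ) * I) := by
      rw [← exp_conj, map_mul, map_neg, conj_ofReal, conj_I]
      congr 1
      ring
    rw [map_mul, map_mul, map_mul, conj_ofReal, conj_ofReal, e1, conj_conj]
    generalize (Real.exp ((π / 2 - ε) * t)) = E
    calc exp (-(((π / 2 - ε) / 2 : ℝ) : ℂ) * I) * (E : ℂ) * (conj u * (ρ : ℂ))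
        = (exp (-(((π / 2 - ε : ℝ)) : ℂ) * I) * exp ((((π / 2 - ε) / 2 : ℝ) : ℂ) * I)) * (E : ℂ) *
          (conj u * (ρ : ℂ)) * (conj u * u) := by rw [e2, h3, mul_one]
      _ = _ := by ring

private theorem M16_re {N : ℕ} (L : ℂ → ℂ) (u : ℂ) (t : ℝ) :
    (u * Lam N L (1 / 2 + t * I)).re = r2 N L u (π / 2) t := by
  unfold r2
  simp

private theorem M16_den {N : ℕ} (hN : 0 < N) (t : ℝ) :
    0 < √(√(N : ℝ) / (2 * π)) * √(π / Real.cosh (π * t)) := by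
  have h1 := M16_A hN
  have h2 := Real.cosh_pos (π * t)
  have h3 := Real.pi_pos
  positivity

theorem Zf_cont {N : ℕ} {a : ℕ → ℂ} {L : ℂ → ℂ} (D : Dat N a L) (u : ℂ) : Continuous (Zf N L u) := by
  have h1 : Continuous fun t : ℝ => (u * Lam N L (1 / 2 + t * I)).re := by
    have : (fun t : ℝ => (u * Lam N L (1 / 2 + t * I)).re) = r2 N L u (π / 2) := by
      funext t; exact M16_re L u t
    rw [this]
    exact r2_cont D u _
  unfold Zf
  refine h1.div ?_ fun t => (M16_den D.pos t).ne'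
  refine continuous_const.mul (Real.continuous_sqrt.comp ?_)
  refine continuous_const.div ?_ fun t => (Real.cosh_pos _).ne'
  exact Real.continuous_cosh.comp (by fun_prop)

theorem Zf_abs {N : ℕ} {a : ℕ → ℂ} {L : ℂ → ℂ} (D : Dat N a L) {u : ℂ} (hu : Un N a u) (t : ℝ) :
    |Zf N L u t| = ‖L (1 / 2 + t * I)‖ := by
  have h1 := r2_abs D hu (π / 2) t
  have h2 := M16_den D.pos t
  unfold Zf
  rw [M16_re, abs_div, h1, abs_of_pos h2]
  simp only [sub_self, zero_mul, Real.exp_zero, one_mul]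
  rw [mul_div_assoc, mul_comm, div_mul_cancel₀ _ h2.ne']

private theorem M16_L_le {N : ℕ} {a : ℕ → ℂ} {L : ℂ → ℂ} (D : Dat N a L) : ∃ C : ℝ, 0 ≤ C ∧ ∀ t : ℝ,
    ‖L (1 / 2 + t * I)‖ ≤ C * (1 + |t|) ^ 2 := by
  obtain ⟨C1, hC1, h1⟩ := L_pol D
  have hL : Continuous fun t : ℝ => ‖L (1 / 2 + t * I)‖ :=
    (D.ent.continuous.comp (by fun_prop : Continuous fun t : ℝ => (1 / 2 + t * I : ℂ))).norm
  obtain ⟨M, hM⟩ := (isCompact_Icc (a := (-1 : ℝ)) (b := 1)).bddAbove_image hL.continuousOn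
  refine ⟨C1 + |M|, by positivity, fun t => ?_⟩
  have h2 : 1 ≤ (1 + |t|) ^ 2 := one_le_pow₀ (by linarith [abs_nonneg t])
  rcases le_total 1 |t| with h | h
  · have h3 := h1 (1 / 2 + t * I) (by simp) (by simpa using h)
    have h4 : (1 / 2 + t * I : ℂ).im = t := by simp
    rw [h4] at h3
    refine h3.trans ?_
    gcongr
    have := abs_nonneg M
    linarith
  · have h3 : ‖L (1 / 2 + t * I)‖ ≤ M := hM ⟨t, abs_le.mp h, rfl⟩
    have := le_abs_self M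
    have := abs_nonneg M
    nlinarith

theorem Rf_prod {N : ℕ} {a : ℕ → ℂ} {L : ℂ → ℂ} (D : Dat N a L) {u : ℂ} (hu : Un N a u) {q1 q2 : ℕ}
    [NeZero q1] [NeZero q2] {χ1 : DirichletCharacter ℂ q1} {χ2 : DirichletCharacter ℂ q2}
    (h1 : χ1.IsPrimitive) (h2 : χ2.IsPrimitive) : ∃ (κ : ℂ) (C : ℝ), κ ≠ 0 ∧ 0 ≤ C ∧
    ∀ ε : ℝ, 0 < ε → ε ≤ 1 / 2 → ∀ t : ℝ,
      ‖FF.RR χ1 χ2 ε t * conj (Rf N L ε t) -
        κ * ((FF.wt ε t * (FF.ZZ χ1 t * FF.ZZ χ2 t * Zf N L u t) : ℝ) : ℂ)‖ ≤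
        C * (1 + |t|) ^ 12 * Real.exp (-|t|) := by
  obtain ⟨c, U, hc, hU, hU1, hst⟩ := FF.F03_struct h1 h2
  obtain ⟨C1, hC1, hZ1⟩ := FF.F03_ZZ_le h1
  obtain ⟨C2, hC2, hZ2⟩ := FF.F03_ZZ_le h2
  obtain ⟨C3, hC3, hL⟩ := M16_L_le D
  have hZ3 : ∀ t, |Zf N L u t| ≤ C3 * (1 + |t|) ^ 2 := fun t => by rw [Zf_abs D hu]; exact hL t
  have hpi := Real.pi_gt_three
  have hA := M16_A D.pos
  set sA : ℝ := √(√(N : ℝ) / (2 * π)) with hsA
  have hsA0 : 0 < sA := Real.sqrt_pos.mpr hA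
  have hu0 : u ≠ 0 := by
    intro h
    have := hu.1
    rw [h, norm_zero] at this
    norm_num at this
  refine ⟨(π : ℂ) * (c * u * sA), ‖(π : ℂ) * (c * u * sA)‖ * (C1 * C2 * C3) * 8, ?_, by positivity,
    fun ε hε hε1 t => ?_⟩
  · refine mul_ne_zero (by exact_mod_cast Real.pi_ne_zero) (mul_ne_zero (mul_ne_zero hc hu0) ?_)
    exact_mod_cast hsA0.ne'
  · set g : ℝ := ‖Gamma (1 / 2 + t * I)‖ with hg
    set e : ℝ := Real.exp ((π / 2 - ε) * t) with he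
    have hg2 : √(π / Real.cosh (π * t)) = g := by
      rw [← FF.F03_gam, hg, Real.sqrt_sq (norm_nonneg _)]
    have hwt : e * e * g ^ 2 = π * FF.wt ε t := by
      unfold FF.wt
      rw [hg, FF.F03_gam, he, ← Real.exp_add]
      have : (π / 2 - ε) * t + (π / 2 - ε) * t = (π - 2 * ε) * t := by ring
      rw [this]
      ring
    have hrho : (u * Lam N L (1 / 2 + t * I)).re = sA * g * Zf N L u t := by
      have h5 := M16_den D.pos t
      unfold Zf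
      rw [hg2, ← hsA] at *
      rw [mul_div_cancel₀ _ h5.ne']
    have e0 : FF.RR χ1 χ2 ε t = c * exp (-(((π / 2 - ε) / 2 : ℝ) : ℂ) * I) *
        ((e * g * (FF.ZZ χ1 t * FF.ZZ χ2 t) : ℝ) : ℂ) * U t := hst ε hε hε1 t
    have e1 : conj (Rf N L ε t) = exp ((((π / 2 - ε) / 2 : ℝ) : ℂ) * I) * (e : ℂ) *
        (u * ((sA * g * Zf N L u t : ℝ) : ℂ)) := by
      rw [M16_struct D.pos L hε hε1 t, M16_lam D hu t, hrho, map_mul, map_mul, map_mul, conj_ofReal,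
        conj_ofReal, conj_conj, ← exp_conj, map_mul, map_neg, conj_ofReal, conj_I]
      congr 3
      ring
    have e2 : exp (-(((π / 2 - ε) / 2 : ℝ) : ℂ) * I) * exp ((((π / 2 - ε) / 2 : ℝ) : ℂ) * I) = 1 := by
      rw [← exp_add, neg_mul, neg_add_cancel, exp_zero]
    have hwt' : (e : ℂ) * e * (g : ℂ) ^ 2 = π * (FF.wt ε t : ℂ) := by exact_mod_cast hwt
    have e3 : FF.RR χ1 χ2 ε t * conj (Rf N L ε t) -
        (π : ℂ) * (c * u * sA) * ((FF.wt ε t * (FF.ZZ χ1 t * FF.ZZ χ2 t * Zf N L u t) : ℝ) : ℂ) =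
        (π : ℂ) * (c * u * sA) * ((FF.wt ε t * (FF.ZZ χ1 t * FF.ZZ χ2 t * Zf N L u t) : ℝ) : ℂ) *
          (U t - 1) := by
      rw [e1, e0]
      generalize exp (-(((π / 2 - ε) / 2 : ℝ) : ℂ) * I) = Ea at e2
      generalize exp ((((π / 2 - ε) / 2 : ℝ) : ℂ) * I) = Eb at e2
      push_cast
      linear_combination ((c * u * sA) * ((e : ℂ) * e * (g : ℂ) ^ 2) *
        ((FF.ZZ χ1 t : ℂ) * FF.ZZ χ2 t * Zf N L u t) * U t) * e2 +
        ((c * u * sA) * ((FF.ZZ χ1 t : ℂ) * FF.ZZ χ2 t * Zf N L u t) * U t) * hwt'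
    rw [e3, norm_mul, norm_mul, norm_real, Real.norm_eq_abs]
    have hd1 : ‖U t - 1‖ ≤ 2 := by
      refine (norm_sub_le _ _).trans ?_
      rw [hU, norm_one]
      norm_num
    have hd2 : ‖U t - 1‖ ≤ 4 * Real.exp (-(π * t)) := by
      have := hU1 t
      have h9 := Real.exp_pos (-(π * t))
      linarith
    have hw0 : 0 ≤ FF.wt ε t := by unfold FF.wt; positivity
    have hwle : FF.wt ε t ≤ 2 * Real.exp ((π - 2 * ε) * t - π * |t|) := by
      unfold FF.wt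
      have h5 : Real.exp (π * |t|) / 2 ≤ Real.cosh (π * t) := by
        rw [← Real.cosh_abs, abs_mul, abs_of_pos Real.pi_pos, Real.cosh_eq]
        have := Real.exp_pos (-(π * |t|))
        linarith
      rw [div_le_iff₀ (Real.cosh_pos _)]
      have h6 : 2 * Real.exp ((π - 2 * ε) * t - π * |t|) * (Real.exp (π * |t|) / 2) ≤
          2 * Real.exp ((π - 2 * ε) * t - π * |t|) * Real.cosh (π * t) :=
        mul_le_mul_of_nonneg_left h5 (by positivity)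
      have h7 : 2 * Real.exp ((π - 2 * ε) * t - π * |t|) * (Real.exp (π * |t|) / 2) =
          Real.exp ((π - 2 * ε) * t) := by
        have : Real.exp ((π - 2 * ε) * t) = Real.exp ((π - 2 * ε) * t - π * |t|) * Real.exp (π * |t|) := by
          rw [← Real.exp_add]; congr 1; ring
        rw [this]
        ring
      linarith
    have key : FF.wt ε t * ‖U t - 1‖ ≤ 8 * Real.exp (-|t|) := by
      rcases le_total 0 t with ht | ht
      · rw [abs_of_nonneg ht] at hwle ⊢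
        calc FF.wt ε t * ‖U t - 1‖
            ≤ (2 * Real.exp ((π - 2 * ε) * t - π * t)) * (4 * Real.exp (-(π * t))) := by gcongr
          _ = 8 * Real.exp ((π - 2 * ε) * t - π * t + -(π * t)) := by
            rw [Real.exp_add]; ring
          _ ≤ 8 * Real.exp (-t) := by
            gcongr
            nlinarith
      · rw [abs_of_nonpos ht] at hwle ⊢
        calc FF.wt ε t * ‖U t - 1‖
            ≤ (2 * Real.exp ((π - 2 * ε) * t - π * -t)) * 2 := by gcongr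
          _ = 4 * Real.exp ((π - 2 * ε) * t - π * -t) := by ring
          _ ≤ 4 * Real.exp (-(-t)) := by
            gcongr
            nlinarith
          _ ≤ 8 * Real.exp (-(-t)) := by
            have := Real.exp_pos (-(-t))
            linarith
    have hZZ : |FF.ZZ χ1 t * FF.ZZ χ2 t * Zf N L u t| ≤ (C1 * C2 * C3) * (1 + |t|) ^ 4 := by
      rw [abs_mul, abs_mul]
      have ha := abs_nonneg t
      calc |FF.ZZ χ1 t| * |FF.ZZ χ2 t| * |Zf N L u t|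
          ≤ (C1 * (1 + |t|)) * (C2 * (1 + |t|)) * (C3 * (1 + |t|) ^ 2) := by
            have := hZ1 t; have := hZ2 t; have := hZ3 t
            gcongr
        _ = _ := by ring
    have h26 : (1 + |t|) ^ 4 ≤ (1 + |t|) ^ 12 :=
      pow_le_pow_right₀ (by linarith [abs_nonneg t]) (by norm_num)
    rw [abs_mul, abs_of_nonneg hw0]
    calc ‖(π : ℂ) * (c * u * sA)‖ * (FF.wt ε t * |FF.ZZ χ1 t * FF.ZZ χ2 t * Zf N L u t|) * ‖U t - 1‖
        = ‖(π : ℂ) * (c * u * sA)‖ * |FF.ZZ χ1 t * FF.ZZ χ2 t * Zf N L u t| *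
          (FF.wt ε t * ‖U t - 1‖) := by ring
      _ ≤ ‖(π : ℂ) * (c * u * sA)‖ * ((C1 * C2 * C3) * (1 + |t|) ^ 12) * (8 * Real.exp (-|t|)) := by
        have : |FF.ZZ χ1 t * FF.ZZ χ2 t * Zf N L u t| ≤ (C1 * C2 * C3) * (1 + |t|) ^ 12 :=
          hZZ.trans (mul_le_mul_of_nonneg_left h26 (by positivity))
        gcongr
      _ = _ := by ring

private theorem M16_ne (t : ℝ) : (1 / 2 + t * I : ℂ) ≠ 1 := by
  intro h
  have := congrArg Complex.re h
  norm_num at this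

private theorem M16_an {q : ℕ} [NeZero q] (χ : DirichletCharacter ℂ q) :
    AnalyticOnNhd ℂ (LX.Lf χ) {1}ᶜ := by
  apply DifferentiableOn.analyticOnNhd _ isOpen_compl_singleton
  intro s hs
  exact (DirichletCharacter.differentiableAt_LFunction χ s (Or.inl hs)).differentiableWithinAt

private theorem M16_top {q : ℕ} [NeZero q] (χ : DirichletCharacter ℂ q) (t : ℝ) :
    analyticOrderAt (LX.Lf χ) (1 / 2 + t * I) ≠ ⊤ := by
  intro htop
  have hpre : IsPreconnected ({1}ᶜ : Set ℂ) :=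
    (isConnected_compl_singleton_of_one_lt_rank (by simp) 1).isPreconnected
  have h0 : LX.Lf χ =ᶠ[𝓝 (1 / 2 + t * I : ℂ)] 0 := by
    rw [analyticOrderAt_eq_top] at htop
    exact htop
  have h1 : EqOn (LX.Lf χ) 0 {1}ᶜ :=
    (M16_an χ).eqOn_zero_of_preconnected_of_eventuallyEq_zero hpre (M16_ne t) h0
  have h2 : LX.Lf χ 2 = 0 := h1 (by norm_num : (2 : ℂ) ∈ ({1}ᶜ : Set ℂ))
  have h3 : LX.Lf χ 2 ≠ 0 :=
    DirichletCharacter.LFunction_ne_zero_of_one_le_re χ (Or.inr (by norm_num)) (by norm_num)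
  exact h3 h2

/-- the function L is not identically zero -/
private theorem M16_nz {N : ℕ} {a : ℕ → ℂ} {L : ℂ → ℂ} (D : Dat N a L) : ∃ s : ℂ, L s ≠ 0 := by
  by_contra hcon
  push Not at hcon
  have hs2 := (D.ser 2 (by simp)).summable.norm
  set S0 : ℝ := ∑' n : ℕ, ‖a (n + 1) * ((n : ℂ) + 1) ^ (-(2 : ℂ))‖ with hS0
  have hS0n : 0 ≤ S0 := tsum_nonneg fun n => norm_nonneg _
  obtain ⟨k, hk⟩ : ∃ k : ℕ, S0 < 2 ^ k := pow_unbounded_of_one_lt S0 (by norm_num)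
  have hser := D.ser ((2 + k : ℝ) : ℂ) (by simp)
  rw [hcon] at hser
  -- every term but the first
  have hterm : ∀ n : ℕ, ‖a (n + 2) * (((n + 1 : ℕ) : ℂ) + 1) ^ (-((2 + k : ℝ) : ℂ))‖ ≤
      ‖a (n + 2) * (((n + 1 : ℕ) : ℂ) + 1) ^ (-(2 : ℂ))‖ * (1 / 2 ^ k) := by
    intro n
    have hn : (0 : ℝ) < ((n + 1 : ℕ) : ℝ) + 1 := by positivity
    have hcast : (((n + 1 : ℕ) : ℂ) + 1) = ((((n + 1 : ℕ) : ℝ) + 1 : ℝ) : ℂ) := by push_cast; rfl
    rw [norm_mul, norm_mul, hcast, Complex.norm_cpow_eq_rpow_re_of_pos hn,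
      Complex.norm_cpow_eq_rpow_re_of_pos hn, mul_assoc]
    apply mul_le_mul_of_nonneg_left _ (norm_nonneg _)
    have e1 : (-((2 + k : ℝ) : ℂ)).re = (-(2 : ℂ)).re + -(k : ℝ) := by
      simp
      ring
    rw [e1, Real.rpow_add hn]
    apply mul_le_mul_of_nonneg_left _ (by positivity)
    rw [Real.rpow_neg hn.le, Real.rpow_natCast, one_div]
    apply inv_anti₀ (by positivity)
    apply pow_le_pow_left₀ (by norm_num)
    push_cast
    have : (0 : ℝ) ≤ n := by positivity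
    linarith
  have hsplit := hser.summable.tsum_eq_zero_add
  rw [hser.tsum_eq] at hsplit
  have h0 : a (0 + 1) * (((0 : ℕ) : ℂ) + 1) ^ (-((2 + k : ℝ) : ℂ)) = 1 := by
    rw [zero_add, D.one]; simp
  rw [h0] at hsplit
  have hsum1 : Summable fun n : ℕ => ‖a (n + 1 + 1) * (((n + 1 : ℕ) : ℂ) + 1) ^ (-(2 : ℂ))‖ :=
    (summable_nat_add_iff 1).mpr hs2
  have hsum2 : Summable fun n : ℕ => ‖a (n + 1 + 1) * (((n + 1 : ℕ) : ℂ) + 1) ^ (-((2 + k : ℝ) : ℂ))‖ :=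
    Summable.of_nonneg_of_le (fun n => norm_nonneg _) hterm (hsum1.mul_right _)
  have h1 : ‖∑' n : ℕ, a (n + 1 + 1) * (((n + 1 : ℕ) : ℂ) + 1) ^ (-((2 + k : ℝ) : ℂ))‖ ≤ S0 * (1 / 2 ^ k) := by
    refine (norm_tsum_le_tsum_norm hsum2).trans ((hsum2.tsum_le_tsum hterm (hsum1.mul_right _)).trans ?_)
    rw [tsum_mul_right]
    apply mul_le_mul_of_nonneg_right _ (by positivity)
    rw [hS0, hs2.tsum_eq_zero_add]
    have := norm_nonneg (a (0 + 1) * (((0 : ℕ) : ℂ) + 1) ^ (-(2 : ℂ)))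
    linarith
  have h2 : (∑' n : ℕ, a (n + 1 + 1) * (((n + 1 : ℕ) : ℂ) + 1) ^ (-((2 + k : ℝ) : ℂ))) = -1 := by
    linear_combination -hsplit
  rw [h2, norm_neg, norm_one] at h1
  rw [mul_one_div, le_div_iff₀ (by positivity)] at h1
  linarith

private theorem M16_topL {N : ℕ} {a : ℕ → ℂ} {L : ℂ → ℂ} (D : Dat N a L) (z : ℂ) :
    analyticOrderAt L z ≠ ⊤ := by
  intro htop
  have h0 : L =ᶠ[𝓝 z] 0 := by
    rw [analyticOrderAt_eq_top] at htop
    exact htop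
  have hA : AnalyticOnNhd ℂ L univ := fun w _ => D.ent.analyticAt w
  have h1 : EqOn L 0 univ :=
    hA.eqOn_zero_of_preconnected_of_eventuallyEq_zero isPreconnected_univ (mem_univ z) h0
  obtain ⟨s, hs⟩ := M16_nz D
  exact hs (h1 (mem_univ s))

private theorem M16_mul {f g : ℂ → ℂ} {z : ℂ} (a1 : AnalyticAt ℂ f z) (a2 : AnalyticAt ℂ g z)
    (t1 : analyticOrderAt f z ≠ ⊤) (t2 : analyticOrderAt g z ≠ ⊤) :
    AnalyticAt ℂ (f * g) z ∧ analyticOrderAt (f * g) z ≠ ⊤ ∧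
      analyticOrderNatAt (f * g) z = analyticOrderNatAt f z + analyticOrderNatAt g z := by
  refine ⟨a1.mul a2, ?_, analyticOrderNatAt_mul a1 a2 t1 t2⟩
  rw [analyticOrderAt_mul a1 a2]
  intro h
  rcases ENat.add_eq_top.mp h with h | h
  · exact t1 h
  · exact t2 h

private theorem M16_orders {N : ℕ} {a : ℕ → ℂ} {L : ℂ → ℂ} (D : Dat N a L) {q1 q2 : ℕ}
    [NeZero q1] [NeZero q2] (χ1 : DirichletCharacter ℂ q1) (χ2 : DirichletCharacter ℂ q2) (t : ℝ) :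
    AnalyticAt ℂ (LX.Lf χ1 * LX.Lf χ2 * L) (1 / 2 + t * I) ∧
      analyticOrderAt (LX.Lf χ1 * LX.Lf χ2 * L) (1 / 2 + t * I) ≠ ⊤ ∧
      analyticOrderNatAt (LX.Lf χ1 * LX.Lf χ2 * L) (1 / 2 + t * I) =
        analyticOrderNatAt (LX.Lf χ1) (1 / 2 + t * I) + analyticOrderNatAt (LX.Lf χ2) (1 / 2 + t * I) +
          analyticOrderNatAt L (1 / 2 + t * I) := by
  obtain ⟨a12, t12, e12⟩ := M16_mul (M16_an χ1 _ (M16_ne t)) (M16_an χ2 _ (M16_ne t)) (M16_top χ1 t)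
    (M16_top χ2 t)
  obtain ⟨a123, t123, e123⟩ := M16_mul a12 (D.ent.analyticAt _) t12 (M16_topL D (1 / 2 + t * I))
  exact ⟨a123, t123, by rw [e123, e12]⟩

theorem sign_f {N : ℕ} {a : ℕ → ℂ} {L : ℂ → ℂ} (D : Dat N a L) {u : ℂ} (hu : Un N a u) {q1 q2 : ℕ}
    [NeZero q1] [NeZero q2] {χ1 : DirichletCharacter ℂ q1} {χ2 : DirichletCharacter ℂ q2}
    (h1 : χ1.IsPrimitive) (h2 : χ2.IsPrimitive)
    (hfin : {g : ℝ | 0 < g ∧ Odd (analyticOrderNatAt (LX.Lf χ1) (1 / 2 + g * I) +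
      analyticOrderNatAt (LX.Lf χ2) (1 / 2 + g * I) + analyticOrderNatAt L (1 / 2 + g * I))}.Finite) :
    ∃ T0 : ℝ, 0 < T0 ∧ ((∀ t, T0 < t → 0 ≤ FF.ZZ χ1 t * FF.ZZ χ2 t * Zf N L u t) ∨
        (∀ t, T0 < t → FF.ZZ χ1 t * FF.ZZ χ2 t * Zf N L u t ≤ 0)) := by
  obtain ⟨T0, hT0, hev⟩ : ∃ T0 : ℝ, 0 < T0 ∧ ∀ t : ℝ, T0 < t → Even (analyticOrderNatAt (LX.Lf χ1) (1 / 2 + t * I) +
      analyticOrderNatAt (LX.Lf χ2) (1 / 2 + t * I) + analyticOrderNatAt L (1 / 2 + t * I)) := by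
    obtain ⟨M, hM⟩ := hfin.bddAbove
    refine ⟨max M 1, lt_of_lt_of_le one_pos (le_max_right _ _), ?_⟩
    intro t ht
    by_contra hodd
    rw [Nat.not_even_iff_odd] at hodd
    have hmem := hM (show t ∈ {g : ℝ | 0 < g ∧ Odd (analyticOrderNatAt (LX.Lf χ1) (1 / 2 + g * I) +
      analyticOrderNatAt (LX.Lf χ2) (1 / 2 + g * I) + analyticOrderNatAt L (1 / 2 + g * I))} from
        ⟨lt_of_lt_of_le one_pos ((le_max_right M 1).trans ht.le), hodd⟩)
    exact absurd (lt_of_le_of_lt (le_max_left M 1) ht) (not_lt.mpr hmem)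
  refine ⟨T0, hT0, ?_⟩
  obtain ⟨n1, c1, i1⟩ := TT.uu_all h1
  obtain ⟨n2, c2, i2⟩ := TT.uu_all h2
  have hA := M16_A D.pos
  have hu0 : u ≠ 0 := by
    intro h
    have := hu.1
    rw [h, norm_zero] at this
    norm_num at this
  have hre : ∀ z : ℂ, z.im = 0 → ((z.re : ℝ) : ℂ) = z := by
    intro z hz
    apply Complex.ext
    · simp
    · simp [hz]
  -- the unit of the form
  set v : ℝ → ℂ := fun t => u * (((√(N : ℝ) / (2 * π) : ℝ) : ℂ) ^ (1 / 2 + t * I : ℂ) * Gamma (1 / 2 + t * I)) /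
    ((√(√(N : ℝ) / (2 * π)) * √(π / Real.cosh (π * t)) : ℝ) : ℂ) with hv
  have hvc : Continuous v := by
    have hl : Continuous fun t : ℝ => (1 / 2 + t * I : ℂ) := by fun_prop
    have k1 : Continuous fun t : ℝ => ((√(N : ℝ) / (2 * π) : ℝ) : ℂ) ^ (1 / 2 + t * I : ℂ) :=
      hl.const_cpow (Or.inl (by exact_mod_cast hA.ne'))
    refine (continuous_const.mul (k1.mul M16_gam_cont)).div ?_ ?_
    · refine Complex.continuous_ofReal.comp ?_
      refine continuous_const.mul (Real.continuous_sqrt.comp ?_)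
      refine continuous_const.div ?_ fun t => (Real.cosh_pos _).ne'
      exact Real.continuous_cosh.comp (by fun_prop)
    · intro t
      exact_mod_cast (M16_den D.pos t).ne'
  have hv0 : ∀ t, v t ≠ 0 := by
    intro t
    refine div_ne_zero (mul_ne_zero hu0 (mul_ne_zero ?_ ?_)) ?_
    · rw [cpow_def_of_ne_zero (by exact_mod_cast hA.ne')]
      exact exp_ne_zero _
    · apply Gamma_ne_zero
      intro m hm
      have := congrArg Complex.re hm
      simp at this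
      have h0 : (0:ℝ) ≤ m := Nat.cast_nonneg m
      linarith
    · exact_mod_cast (M16_den D.pos t).ne'
  have hZv : ∀ t : ℝ, ((Zf N L u t : ℝ) : ℂ) = v t * L (1 / 2 + t * I) := by
    intro t
    unfold Zf
    rw [ofReal_div, hre _ (lam_real D hu t), hv]
    unfold Lam
    ring
  have key : ∀ b : ℝ, (∀ t ∈ Ioo T0 b, 0 ≤ FF.ZZ χ1 t * FF.ZZ χ2 t * Zf N L u t) ∨
      (∀ t ∈ Ioo T0 b, FF.ZZ χ1 t * FF.ZZ χ2 t * Zf N L u t ≤ 0) := by
    intro b
    refine OO.F_sign (LX.Lf χ1 * LX.Lf χ2 * L)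
      (fun t => LX.uu χ1 t * LX.uu χ2 t * v t)
      (fun t => FF.ZZ χ1 t * FF.ZZ χ2 t * Zf N L u t) ((c1.mul c2).mul hvc) ?_ ?_
      (fun t => (M16_orders D χ1 χ2 t).1) (fun t => (M16_orders D χ1 χ2 t).2.1) T0 b ?_
    · intro t
      have e1 : LX.uu χ1 t ≠ 0 := by
        intro h; have := n1 t; rw [h] at this; simp at this
      have e2 : LX.uu χ2 t ≠ 0 := by
        intro h; have := n2 t; rw [h] at this; simp at this
      exact mul_ne_zero (mul_ne_zero e1 e2) (hv0 t)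
    · intro t
      simp only [FF.ZZ]
      rw [ofReal_mul, ofReal_mul, hre _ (i1 t), hre _ (i2 t), hZv t]
      show _ = LX.uu χ1 t * LX.uu χ2 t * v t *
        (LX.Lf χ1 (1 / 2 + t * I) * LX.Lf χ2 (1 / 2 + t * I) * L (1 / 2 + t * I))
      ring
    · intro t ht
      rw [(M16_orders D χ1 χ2 t).2.2]
      exact hev t ht.1
  by_contra hcon
  push Not at hcon
  obtain ⟨⟨a', ha, ha'⟩, b, hb, hb'⟩ := hcon
  rcases key (max a' b + 1) with h | h
  · exact absurd (h a' ⟨ha, lt_of_le_of_lt (le_max_left a' b) (lt_add_one _)⟩) (not_le.mpr ha')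
  · exact absurd (h b ⟨hb, lt_of_le_of_lt (le_max_right a' b) (lt_add_one _)⟩) (not_le.mpr hb')

end NH
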