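import Pool.Agent.Lib.MP_0f5a55_nt.NH.D

open Complex MeasureTheory Set Filter Topology
open scoped Real ComplexConjugate

namespace NH

/-- triangular double sum -/
theorem N01_tri (b : ℕ → ℕ → ℝ) (hb : ∀ j k, b j k = b k j) (N : ℕ) :
    ∑ j ∈ Finset.range (N + 1), ∑ k ∈ Finset.range (N + 1), b j k =
      (∑ j ∈ Finset.range (N + 1), b j j) +
        2 * ∑ h ∈ Finset.range N, ∑ j ∈ Finset.range (N - h), b j (j + (h + 1)) := by
  induction N with
  | zero => simp
  | succ N ih =>
    have h1 : ∑ j ∈ Finset.range (N + 1 + 1), ∑ k ∈ Finset.range (N + 1 + 1), b j k =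
        (∑ j ∈ Finset.range (N + 1), ∑ k ∈ Finset.range (N + 1), b j k) +
          2 * (∑ j ∈ Finset.range (N + 1), b j (N + 1)) + b (N + 1) (N + 1) := by
      have e1 : ∀ j, ∑ k ∈ Finset.range (N + 1 + 1), b j k =
          (∑ k ∈ Finset.range (N + 1), b j k) + b j (N + 1) := fun j =>
        Finset.sum_range_succ _ _
      simp only [e1]
      rw [Finset.sum_range_succ, Finset.sum_add_distrib]
      have e2 : ∑ k ∈ Finset.range (N + 1), b (N + 1) k =
          ∑ k ∈ Finset.range (N + 1), b k (N + 1) := Finset.sum_congr rfl fun k _ => hb _ _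
      rw [e2]
      ring
    have h2 : ∑ h ∈ Finset.range (N + 1), ∑ j ∈ Finset.range (N + 1 - h), b j (j + (h + 1)) =
        (∑ h ∈ Finset.range N, ∑ j ∈ Finset.range (N - h), b j (j + (h + 1))) +
          ∑ j ∈ Finset.range (N + 1), b j (N + 1) := by
      have e1 : ∀ h ∈ Finset.range (N + 1), ∑ j ∈ Finset.range (N + 1 - h), b j (j + (h + 1)) =
          (∑ j ∈ Finset.range (N - h), b j (j + (h + 1))) + b (N + 1 - 1 - h) (N + 1) := by
        intro h hh
        have hh' := Finset.mem_range.1 hh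
        have e3 : N + 1 - h = (N - h) + 1 := by omega
        have e4 : N - h + (h + 1) = N + 1 := by omega
        have e5 : N + 1 - 1 - h = N - h := by omega
        rw [e3, Finset.sum_range_succ, e4, e5]
      rw [Finset.sum_congr rfl e1, Finset.sum_add_distrib,
        Finset.sum_range_succ (fun h => ∑ j ∈ Finset.range (N - h), b j (j + (h + 1)))]
      rw [Finset.sum_range_reflect (fun j => b j (N + 1)) (N + 1)]
      simp
    rw [h1, h2, ih, Finset.sum_range_succ (fun j => b j j) (N + 1)]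
    ring

/-- sum over the translates -/
theorem N01_unfold {F : ℝ → ℂ} (hF : ∀ a b, IntervalIntegrable F volume a b) (A s : ℝ) (K : ℕ) :
    ∑ j ∈ Finset.range K, ∫ v in A..(A + s), F (v + j * s) = ∫ y in A..(A + K * s), F y := by
  induction K with
  | zero => simp
  | succ K ih =>
    rw [Finset.sum_range_succ, ih, intervalIntegral.integral_comp_add_right]
    have h := intervalIntegral.integral_add_adjacent_intervals (hF A (A + K * s))
      (hF (A + K * s) (A + s + K * s))
    rw [h]
    congr 1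
    push_cast
    ring

/-- cut the interval -/
theorem N01_cut {F f : ℝ → ℂ} (hF : ∀ a b, IntervalIntegrable F volume a b) {A B C : ℝ}
    (hAB : A ≤ B) (hBC : B ≤ C) (h1 : ∀ y, A < y → y ≤ B → F y = f y)
    (h2 : ∀ y, B < y → F y = 0) : ∫ y in A..C, F y = ∫ y in A..B, f y := by
  rw [← intervalIntegral.integral_add_adjacent_intervals (hF A B) (hF B C)]
  have e : ∫ y in B..C, F y = 0 := by
    rw [intervalIntegral.integral_of_le hBC,
      setIntegral_congr_fun (g := fun _ => (0 : ℂ)) measurableSet_Ioc fun y hy => h2 y hy.1]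
    simp
  rw [e, add_zero, intervalIntegral.integral_of_le hAB, intervalIntegral.integral_of_le hAB]
  exact setIntegral_congr_fun measurableSet_Ioc fun y hy => h1 y hy.1 hy.2

/-- Bessel for a bounded function on a period -/
theorem N01_fourier {P : ℝ → ℂ} {A s C : ℝ} (hs : 0 < s) (hP : Integrable P)
    (hC : ∀ y, ‖P y‖ ≤ C) (M : ℕ) :
    ∑ m ∈ Finset.range M, ‖∫ y in A..(A + s), P y * exp (2 * π * ((m : ℂ) + 1) * y / s * I)‖ ^ 2 ≤
      s * ∫ y in A..(A + s), ‖P y‖ ^ 2 := by
  have hlt : A < A + s := by linarith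
  have hL2 : MemLp P 2 (volume.restrict (Ioc A (A + s))) :=
    MemLp.of_bound hP.aestronglyMeasurable.restrict C (Eventually.of_forall hC)
  have hB := hasSum_sq_fourierCoeffOn hlt hL2
  have hle := sum_le_hasSum ((Finset.range M).image fun m : ℕ => -((m : ℤ) + 1))
    (fun i _ => by positivity) hB
  rw [Finset.sum_image (fun a _ b _ h => by
    have h' : -((a : ℤ) + 1) = -((b : ℤ) + 1) := h
    omega)] at hle
  have key : ∀ m : ℕ, ‖∫ y in A..(A + s), P y * exp (2 * π * ((m : ℂ) + 1) * y / s * I)‖ ^ 2 =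
      s ^ 2 * ‖fourierCoeffOn hlt P (-((m : ℤ) + 1))‖ ^ 2 := by
    intro m
    rw [fourierCoeffOn_eq_integral]
    have e1 : ∫ x in A..(A + s), fourier (- -((m : ℤ) + 1)) (x : AddCircle (A + s - A)) • P x =
        ∫ y in A..(A + s), P y * exp (2 * π * ((m : ℂ) + 1) * y / s * I) := by
      refine intervalIntegral.integral_congr fun x _ => ?_
      simp only [fourier_coe_apply, smul_eq_mul]
      rw [mul_comm]
      congr 2
      push_cast
      have e2 : (A : ℂ) + s - A = s := by ring
      rw [e2]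
      ring
    rw [e1, norm_smul, mul_pow]
    have e3 : A + s - A = s := by ring
    rw [e3, Real.norm_of_nonneg (by positivity : (0 : ℝ) ≤ 1 / s)]
    generalize ‖∫ y in A..(A + s), P y * exp (2 * π * ((m : ℂ) + 1) * y / s * I)‖ = W
    field_simp
  rw [Finset.sum_congr rfl fun m _ => key m, ← Finset.mul_sum]
  have e3 : A + s - A = s := by ring
  rw [e3, smul_eq_mul] at hle
  calc s ^ 2 * ∑ m ∈ Finset.range M, ‖fourierCoeffOn hlt P (-((m : ℤ) + 1))‖ ^ 2
      ≤ s ^ 2 * (s⁻¹ * ∫ y in A..(A + s), ‖P y‖ ^ 2) := by gcongr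
    _ = s * ∫ y in A..(A + s), ‖P y‖ ^ 2 := by
      field_simp

/-- Row N01. Bessel inequality for the Fourier coefficients of a function on [A, B] with respect to the period s. -/
theorem bessel {G : ℝ → ℂ} {A B s : ℝ} (hAB : A ≤ B) (hs : 0 < s) (hG : ContinuousOn G (Icc A B)) (M : ℕ) :
    ∑ m ∈ Finset.range M, ‖∫ y in A..B, G y * exp (2 * π * ((m : ℂ) + 1) * y / s * I)‖ ^ 2 ≤
      s * ((∫ y in A..B, ‖G y‖ ^ 2) + 2 * ∑ k ∈ Finset.range ⌊(B - A) / s⌋₊,
        ‖∫ y in A..(B - ((k : ℝ) + 1) * s), G y * conj (G (y + ((k : ℝ) + 1) * s))‖) := by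
  set n : ℕ := ⌊(B - A) / s⌋₊ with hn
  have hn1 : (n : ℝ) * s ≤ B - A := by
    have := Nat.floor_le (div_nonneg (sub_nonneg.2 hAB) hs.le)
    rw [← hn, le_div_iff₀ hs] at this
    exact this
  have hn2 : B - A < ((n : ℝ) + 1) * s := by
    have := Nat.lt_floor_add_one ((B - A) / s)
    rw [← hn, div_lt_iff₀ hs] at this
    exact this
  set Gt : ℝ → ℂ := (Ioc A B).indicator G with hGt
  have hGt1 : ∀ y, A < y → y ≤ B → Gt y = G y := fun y h1 h2 => indicator_of_mem (show y ∈ Ioc A B from ⟨h1, h2⟩) G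
  have hGt0 : ∀ y, B < y → Gt y = 0 := fun y h1 =>
    indicator_of_notMem (fun h : y ∈ Ioc A B => absurd h.2 (not_le.2 h1)) G
  have hGi : Integrable Gt := by
    rw [hGt, integrable_indicator_iff measurableSet_Ioc]
    exact (hG.integrableOn_Icc).mono_set Ioc_subset_Icc_self
  obtain ⟨C, hC⟩ := isCompact_Icc.exists_bound_of_continuousOn hG
  have hGb : ∀ y, ‖Gt y‖ ≤ |C| := by
    intro y
    by_cases hy : y ∈ Ioc A B
    · rw [hGt, indicator_of_mem hy]
      exact le_trans (hC y (Ioc_subset_Icc_self hy)) (le_abs_self C)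
    · rw [hGt, indicator_of_notMem hy, norm_zero]
      exact abs_nonneg C
  have hGc : ∀ c, Integrable fun y => Gt (y + c) := fun c => hGi.comp_add_right c
  have hprod : ∀ c d, Integrable fun y => Gt (y + c) * conj (Gt (y + d)) := fun c d =>
    (hGc c).mul_bdd (c := |C|)
      (Complex.continuous_conj.comp_aestronglyMeasurable (hGc d).aestronglyMeasurable)
      (Eventually.of_forall fun y => by rw [RCLike.norm_conj]; exact hGb _)
  set P : ℝ → ℂ := fun v => ∑ j ∈ Finset.range (n + 1), Gt (v + j * s) with hP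
  have hPi : Integrable P := integrable_finsetSum _ fun j _ => hGc _
  have hPb : ∀ y, ‖P y‖ ≤ ((n : ℝ) + 1) * |C| := by
    intro y
    refine (norm_sum_le _ _).trans ((Finset.sum_le_sum fun j _ => hGb _).trans ?_)
    simp
  -- step 1
  have hexp : ∀ (m j : ℕ) (v : ℝ), exp (2 * π * ((m : ℂ) + 1) * ((v + j * s : ℝ) : ℂ) / s * I) =
      exp (2 * π * ((m : ℂ) + 1) * v / s * I) := by
    intro m j v
    have hs' : (s : ℂ) ≠ 0 := by exact_mod_cast hs.ne'
    have e1 : 2 * π * ((m : ℂ) + 1) * ((v + j * s : ℝ) : ℂ) / s * I =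
        2 * π * ((m : ℂ) + 1) * v / s * I + (((m + 1) * j : ℕ) : ℂ) * (2 * π * I) := by
      push_cast
      field_simp
    rw [e1, Complex.exp_add, Complex.exp_nat_mul_two_pi_mul_I, mul_one]
  have hcoef : ∀ m : ℕ, ∫ y in A..B, G y * exp (2 * π * ((m : ℂ) + 1) * y / s * I) =
      ∫ y in A..(A + s), P y * exp (2 * π * ((m : ℂ) + 1) * y / s * I) := by
    intro m
    have hce : Continuous fun y : ℝ => exp (2 * π * ((m : ℂ) + 1) * y / s * I) := by
      fun_prop
    have hFi : ∀ c, Integrable fun y : ℝ => Gt (y + c) * exp (2 * π * ((m : ℂ) + 1) * y / s * I) := by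
      intro c
      refine (hGc c).mul_bdd (c := 1) hce.aestronglyMeasurable (Eventually.of_forall fun y => ?_)
      have e1 : 2 * π * ((m : ℂ) + 1) * y / s * I = ((2 * π * ((m : ℝ) + 1) * y / s : ℝ) : ℂ) * I := by
        push_cast
        ring
      rw [e1, Complex.norm_exp_ofReal_mul_I]
    have hFi0 : Integrable fun y : ℝ => Gt y * exp (2 * π * ((m : ℂ) + 1) * y / s * I) := by
      simpa using hFi 0
    have h1 := N01_cut (F := fun y : ℝ => Gt y * exp (2 * π * ((m : ℂ) + 1) * y / s * I))
      (f := fun y : ℝ => G y * exp (2 * π * ((m : ℂ) + 1) * y / s * I))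
      (fun a b => hFi0.intervalIntegrable) hAB
      (show B ≤ A + ((n + 1 : ℕ) : ℝ) * s by push_cast; linarith)
      (fun y h1 h2 => by simp only [hGt1 y h1 h2]) (fun y h1 => by simp only [hGt0 y h1, zero_mul])
    rw [← h1, ← N01_unfold (fun a b => hFi0.intervalIntegrable) A s (n + 1)]
    have e2 : ∀ j : ℕ, (∫ v in A..(A + s), Gt (v + j * s) *
        exp (2 * π * ((m : ℂ) + 1) * ((v + j * s : ℝ) : ℂ) / s * I)) =
        ∫ v in A..(A + s), Gt (v + j * s) * exp (2 * π * ((m : ℂ) + 1) * v / s * I) := by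
      intro j
      simp only [hexp]
    rw [Finset.sum_congr rfl fun j _ => e2 j, ← intervalIntegral.integral_finsetSum]
    · simp only [hP, Finset.sum_mul]
    · exact fun j _ => (hFi _).intervalIntegrable
  rw [Finset.sum_congr rfl fun m _ => by rw [hcoef m]]
  refine (N01_fourier hs hPi hPb M).trans ?_
  refine mul_le_mul_of_nonneg_left ?_ hs.le
  -- step 3
  set c : ℕ → ℕ → ℂ := fun j k => ∫ v in A..(A + s), Gt (v + j * s) * conj (Gt (v + k * s)) with hc
  have hPP : ((∫ y in A..(A + s), ‖P y‖ ^ 2 : ℝ) : ℂ) =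
      ∑ j ∈ Finset.range (n + 1), ∑ k ∈ Finset.range (n + 1), c j k := by
    rw [← intervalIntegral.integral_ofReal]
    have e1 : ∀ y : ℝ, ((‖P y‖ ^ 2 : ℝ) : ℂ) = ∑ j ∈ Finset.range (n + 1),
        ∑ k ∈ Finset.range (n + 1), Gt (y + j * s) * conj (Gt (y + k * s)) := by
      intro y
      rw [← Finset.sum_mul_sum, ← map_sum]
      rw [Complex.mul_conj']
      push_cast
      rfl
    simp only [e1]
    rw [intervalIntegral.integral_finsetSum]
    · refine Finset.sum_congr rfl fun j _ => ?_
      rw [intervalIntegral.integral_finsetSum]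
      exact fun k _ => (hprod _ _).intervalIntegrable
    · exact fun j _ => (integrable_finsetSum _ fun k _ => hprod _ _).intervalIntegrable
  have hsymm : ∀ j k, (c j k).re = (c k j).re := by
    intro j k
    have e1 : c j k = conj (c k j) := by
      simp only [hc]
      rw [intervalIntegral.integral_of_le (by linarith), intervalIntegral.integral_of_le (by linarith),
        ← integral_conj]
      refine setIntegral_congr_fun measurableSet_Ioc fun v _ => ?_
      simp only [map_mul, Complex.conj_conj]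
      ring
    rw [e1, Complex.conj_re]
  have hre : ∫ y in A..(A + s), ‖P y‖ ^ 2 =
      ∑ j ∈ Finset.range (n + 1), ∑ k ∈ Finset.range (n + 1), (c j k).re := by
    have := congrArg Complex.re hPP
    rw [Complex.ofReal_re, Complex.re_sum] at this
    rw [this]
    exact Finset.sum_congr rfl fun j _ => Complex.re_sum _ _
  rw [hre, N01_tri (fun j k => (c j k).re) hsymm n]
  have hdiag : ∑ j ∈ Finset.range (n + 1), (c j j).re = ∫ y in A..B, ‖G y‖ ^ 2 := by
    rw [← Complex.re_sum]
    have hFi : Integrable fun y : ℝ => Gt y * conj (Gt y) := by simpa using hprod 0 0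
    have e1 : ∑ j ∈ Finset.range (n + 1), c j j = ∫ y in A..(A + ((n + 1 : ℕ) : ℝ) * s), Gt y * conj (Gt y) :=
      N01_unfold (F := fun y => Gt y * conj (Gt y)) (fun a b => hFi.intervalIntegrable) A s (n + 1)
    have e2 := N01_cut (F := fun y => Gt y * conj (Gt y)) (f := fun y => ((‖G y‖ ^ 2 : ℝ) : ℂ))
      (fun a b => hFi.intervalIntegrable) hAB
      (show B ≤ A + ((n + 1 : ℕ) : ℝ) * s by push_cast; linarith)
      (fun y h1 h2 => by
        simp only [hGt1 y h1 h2]
        rw [Complex.mul_conj']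
        push_cast
        rfl) (fun y h1 => by simp only [hGt0 y h1, zero_mul])
    rw [e1, e2, intervalIntegral.integral_ofReal, Complex.ofReal_re]
  have hoff : ∀ h ∈ Finset.range n, ∑ j ∈ Finset.range (n - h), (c j (j + (h + 1))).re ≤
      ‖∫ y in A..(B - ((h : ℝ) + 1) * s), G y * conj (G (y + ((h : ℝ) + 1) * s))‖ := by
    intro h hh
    have hh' : h + 1 ≤ n := Finset.mem_range.1 hh
    have hh'' : ((h : ℝ) + 1) ≤ n := by exact_mod_cast hh'
    rw [← Complex.re_sum]
    have hFi : Integrable fun y : ℝ => Gt y * conj (Gt (y + ((h : ℝ) + 1) * s)) := by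
      simpa using hprod 0 (((h : ℝ) + 1) * s)
    have e1 : ∑ j ∈ Finset.range (n - h), c j (j + (h + 1)) =
        ∫ y in A..(A + ((n - h : ℕ) : ℝ) * s), Gt y * conj (Gt (y + ((h : ℝ) + 1) * s)) := by
      rw [← N01_unfold (F := fun y => Gt y * conj (Gt (y + ((h : ℝ) + 1) * s)))
        (fun a b => hFi.intervalIntegrable) A s (n - h)]
      refine Finset.sum_congr rfl fun j _ => ?_
      simp only [hc]
      refine intervalIntegral.integral_congr fun v _ => ?_
      have e3 : v + ((j + (h + 1) : ℕ) : ℝ) * s = v + (j : ℝ) * s + ((h : ℝ) + 1) * s := by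
        push_cast
        ring
      show Gt (v + (j : ℝ) * s) * conj (Gt (v + ((j + (h + 1) : ℕ) : ℝ) * s)) =
        Gt (v + (j : ℝ) * s) * conj (Gt (v + (j : ℝ) * s + ((h : ℝ) + 1) * s))
      rw [e3]
    have hsub : ((n - h : ℕ) : ℝ) = (n : ℝ) - h := by
      rw [Nat.cast_sub (by omega)]
    have e2 := N01_cut (F := fun y => Gt y * conj (Gt (y + ((h : ℝ) + 1) * s)))
      (f := fun y => G y * conj (G (y + ((h : ℝ) + 1) * s)))
      (A := A) (B := B - ((h : ℝ) + 1) * s) (C := A + ((n - h : ℕ) : ℝ) * s)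
      (fun a b => hFi.intervalIntegrable)
      (by
        have : ((h : ℝ) + 1) * s ≤ n * s := mul_le_mul_of_nonneg_right hh'' hs.le
        linarith)
      (by
        rw [hsub]
        have : (n - h : ℝ) * s = (n + 1) * s - (h + 1) * s := by ring
        linarith)
      (fun y h1 h2 => by
        have h3 : 0 < ((h : ℝ) + 1) * s := by positivity
        simp only [hGt1 y h1 (by linarith), hGt1 (y + ((h : ℝ) + 1) * s) (by linarith) (by linarith)])
      (fun y h1 => by
        simp only [hGt0 (y + ((h : ℝ) + 1) * s) (by linarith), map_zero, mul_zero])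
    rw [e1, e2]
    exact Complex.re_le_norm _
  rw [hdiag]
  have := Finset.sum_le_sum hoff
  linarith

end NH
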