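import Pool.Agent.Lib.MP_0f5a55_nt.NH.D

open Complex MeasureTheory Set Filter Topology
open scoped Real ComplexConjugate

namespace NH

theorem N02_norm (α β x : ℝ) : ‖exp (((α * x ^ 2 + β * x : ℝ) : ℂ) * I)‖ = 1 :=
  Complex.norm_exp_ofReal_mul_I _

theorem N02_cont (α β : ℝ) : Continuous (fun x : ℝ => exp (((α * x ^ 2 + β * x : ℝ) : ℂ) * I)) := by
  fun_prop

/-- integration by parts against a bounded primitive -/
theorem N02_ibp {g g' : ℝ → ℂ} {A B : ℝ} (hAB : A ≤ B) (hg : ∀ y ∈ Icc A B, HasDerivAt g (g' y) y)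
    (hc : ContinuousOn g' (Icc A B)) (α β : ℝ) {K : ℝ}
    (h : ∀ y ∈ Icc A B, ‖∫ x in A..y, exp (((α * x ^ 2 + β * x : ℝ) : ℂ) * I)‖ ≤ K) :
    ‖∫ y in A..B, g y * exp (((α * y ^ 2 + β * y : ℝ) : ℂ) * I)‖ ≤
      K * (‖g B‖ + ∫ y in A..B, ‖g' y‖) := by
  have hK : 0 ≤ K := (norm_nonneg _).trans (h A ⟨le_refl _, hAB⟩)
  set e : ℝ → ℂ := fun x : ℝ => exp (((α * x ^ 2 + β * x : ℝ) : ℂ) * I) with he
  have hce : Continuous e := N02_cont α β
  set E : ℝ → ℂ := fun y => ∫ x in A..y, e x with hE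
  have hEd : ∀ y, HasDerivAt E (e y) y := fun y =>
    intervalIntegral.integral_hasDerivAt_right (hce.intervalIntegrable _ _)
      hce.aestronglyMeasurable.stronglyMeasurableAtFilter hce.continuousAt
  have hu : uIcc A B = Icc A B := uIcc_of_le hAB
  have hgi : IntervalIntegrable g' volume A B := by
    apply ContinuousOn.intervalIntegrable
    rw [hu]; exact hc
  have hib := intervalIntegral.integral_mul_deriv_eq_deriv_mul (u := g) (v := E) (u' := g') (v' := e)
    (a := A) (b := B) (fun x hx => hg x (hu ▸ hx)) (fun x _ => hEd x) hgi (hce.intervalIntegrable _ _)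
  have hEA : E A = 0 := by simp [hE]
  have hEc : Continuous E := continuous_iff_continuousAt.2 fun y => (hEd y).continuousAt
  have h1 : ‖∫ y in A..B, g' y * E y‖ ≤ K * ∫ y in A..B, ‖g' y‖ := by
    rw [← intervalIntegral.integral_const_mul]
    apply intervalIntegral.norm_integral_le_of_norm_le hAB
    · refine Filter.Eventually.of_forall fun y hy => ?_
      rw [norm_mul, mul_comm]
      exact mul_le_mul_of_nonneg_right (h y ⟨hy.1.le, hy.2⟩) (norm_nonneg _)
    · exact (hgi.norm).const_mul K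
  calc ‖∫ y in A..B, g y * e y‖ = ‖g B * E B - ∫ y in A..B, g' y * E y‖ := by
        rw [hib, hEA]; simp
    _ ≤ ‖g B * E B‖ + ‖∫ y in A..B, g' y * E y‖ := norm_sub_le _ _
    _ ≤ K * ‖g B‖ + K * ∫ y in A..B, ‖g' y‖ := by
        refine add_le_add ?_ h1
        rw [norm_mul, mul_comm]
        exact mul_le_mul_of_nonneg_right (h B ⟨hAB, le_refl _⟩) (norm_nonneg _)
    _ = _ := by ring

/-- first derivative test, no amplitude -/
theorem N02_first {A B : ℝ} (hAB : A ≤ B) (α β : ℝ) {lam : ℝ} (h0 : 0 < lam)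
    (h : ∀ y ∈ Icc A B, lam ≤ |2 * α * y + β|) :
    ‖∫ x in A..B, exp (((α * x ^ 2 + β * x : ℝ) : ℂ) * I)‖ ≤ 4 / lam := by
  set e : ℝ → ℂ := fun x : ℝ => exp (((α * x ^ 2 + β * x : ℝ) : ℂ) * I) with he
  have hce : Continuous e := N02_cont α β
  have hu : uIcc A B = Icc A B := uIcc_of_le hAB
  have hne : ∀ y ∈ Icc A B, 2 * α * y + β ≠ 0 := fun y hy h1 => by
    have := h y hy
    rw [h1, abs_zero] at this
    linarith
  have hed : ∀ y, HasDerivAt e (((2 * α * y + β : ℝ) : ℂ) * I * e y) y := by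
    intro y
    have h1 : HasDerivAt (fun x : ℝ => α * x ^ 2 + β * x) (2 * α * y + β) y := by
      have h3 : HasDerivAt (fun x : ℝ => α * x ^ 2) (α * (2 * y)) y := by
        simpa using (hasDerivAt_pow 2 y).const_mul α
      have h4 : HasDerivAt (fun x : ℝ => β * x) β y := by
        simpa using (hasDerivAt_id y).const_mul β
      have h5 := h3.fun_add h4
      have h6 : 2 * α * y + β = α * (2 * y) + β := by ring
      rw [h6]
      exact h5
    have h2 := (h1.ofReal_comp.mul_const I).cexp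
    convert h2 using 1
    simp only [he]; ring
  -- the real primitive
  have hrd : ∀ y ∈ Icc A B, HasDerivAt (fun x : ℝ => (2 * α * x + β)⁻¹) (-(2 * α) / (2 * α * y + β) ^ 2) y := by
    intro y hy
    have h1 : HasDerivAt (fun x : ℝ => 2 * α * x + β) (2 * α) y := by
      simpa using ((hasDerivAt_id y).const_mul (2 * α)).add_const β
    exact h1.inv (hne y hy)
  have hcont2 : ContinuousOn (fun y : ℝ => -(2 * α) / (2 * α * y + β) ^ 2) (Icc A B) := by
    apply ContinuousOn.div continuousOn_const (by fun_prop)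
    intro y hy
    exact pow_ne_zero 2 (hne y hy)
  have hint2 : IntervalIntegrable (fun y : ℝ => -(2 * α) / (2 * α * y + β) ^ 2) volume A B := by
    apply ContinuousOn.intervalIntegrable
    rw [hu]; exact hcont2
  have hinv : ∀ y ∈ Icc A B, |(2 * α * y + β)⁻¹| ≤ 1 / lam := by
    intro y hy
    rw [abs_inv, one_div]
    exact inv_anti₀ h0 (h y hy)
  have hreal : |∫ y in A..B, -(2 * α) / (2 * α * y + β) ^ 2| ≤ 2 / lam := by
    rw [intervalIntegral.integral_eq_sub_of_hasDerivAt (fun x hx => hrd x (hu ▸ hx)) hint2]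
    have h1 := hinv A ⟨le_refl _, hAB⟩
    have h2 := hinv B ⟨hAB, le_refl _⟩
    calc |(2 * α * B + β)⁻¹ - (2 * α * A + β)⁻¹| ≤ |(2 * α * B + β)⁻¹| + |(2 * α * A + β)⁻¹| := abs_sub _ _
      _ ≤ 1 / lam + 1 / lam := add_le_add h2 h1
      _ = 2 / lam := by ring
  have habs : ∫ y in A..B, |2 * α| / (2 * α * y + β) ^ 2 ≤ 2 / lam := by
    rcases le_total 0 α with ha | ha
    · have h1 : ∫ y in A..B, |2 * α| / (2 * α * y + β) ^ 2 = -∫ y in A..B, -(2 * α) / (2 * α * y + β) ^ 2 := by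
        rw [← intervalIntegral.integral_neg]
        congr 1
        ext y
        rw [abs_of_nonneg (by linarith)]
        ring
      rw [h1]
      exact (neg_le_abs _).trans hreal
    · have h1 : ∫ y in A..B, |2 * α| / (2 * α * y + β) ^ 2 = ∫ y in A..B, -(2 * α) / (2 * α * y + β) ^ 2 := by
        congr 1
        ext y
        rw [abs_of_nonpos (by linarith)]
      rw [h1]
      exact (le_abs_self _).trans hreal
  -- the complex function r(y) = (2 α y + β)⁻¹ / I
  have hrc : ∀ y ∈ Icc A B, HasDerivAt (fun x : ℝ => (((2 * α * x + β)⁻¹ : ℝ) : ℂ) * (-I))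
      (((-(2 * α) / (2 * α * y + β) ^ 2 : ℝ) : ℂ) * (-I)) y := fun y hy =>
    (hrd y hy).ofReal_comp.mul_const (-I)
  have hcc : ContinuousOn (fun y : ℝ => ((-(2 * α) / (2 * α * y + β) ^ 2 : ℝ) : ℂ) * (-I)) (Icc A B) :=
    (continuous_ofReal.comp_continuousOn hcont2).mul continuousOn_const
  have hib := intervalIntegral.integral_mul_deriv_eq_deriv_mul
    (u := fun x : ℝ => (((2 * α * x + β)⁻¹ : ℝ) : ℂ) * (-I)) (v := e)
    (u' := fun y => ((-(2 * α) / (2 * α * y + β) ^ 2 : ℝ) : ℂ) * (-I))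
    (v' := fun y => ((2 * α * y + β : ℝ) : ℂ) * I * e y)
    (a := A) (b := B) (fun x hx => hrc x (hu ▸ hx)) (fun x _ => hed x)
    (by apply ContinuousOn.intervalIntegrable; rw [hu]; exact hcc)
    (by apply Continuous.intervalIntegrable; fun_prop)
  have hleft : ∫ x in A..B, ((((2 * α * x + β)⁻¹ : ℝ) : ℂ) * (-I)) * (((2 * α * x + β : ℝ) : ℂ) * I * e x) =
      ∫ x in A..B, e x := by
    apply intervalIntegral.integral_congr
    intro x hx
    have h1 := hne x (hu ▸ hx)
    have h2 : ((2 * α * x + β : ℝ) : ℂ) ≠ 0 := by exact_mod_cast h1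
    show ((((2 * α * x + β)⁻¹ : ℝ) : ℂ) * (-I)) * (((2 * α * x + β : ℝ) : ℂ) * I * e x) = e x
    rw [ofReal_inv]
    field_simp
    linear_combination (-(e x)) * Complex.I_sq
  rw [hleft] at hib
  rw [hib]
  have hbd : ∀ y ∈ Icc A B, ‖((((2 * α * y + β)⁻¹ : ℝ) : ℂ) * (-I)) * e y‖ ≤ 1 / lam := by
    intro y hy
    rw [norm_mul, norm_mul, norm_neg, Complex.norm_I, mul_one, Complex.norm_real, Real.norm_eq_abs]
    simp only [he]
    rw [N02_norm, mul_one]
    exact hinv y hy
  have hrest : ‖∫ x in A..B, (((-(2 * α) / (2 * α * x + β) ^ 2 : ℝ) : ℂ) * (-I)) * e x‖ ≤ 2 / lam := by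
    refine le_trans ?_ habs
    apply intervalIntegral.norm_integral_le_of_norm_le hAB
    · refine Filter.Eventually.of_forall fun y hy => ?_
      rw [norm_mul, norm_mul, norm_neg, Complex.norm_I, mul_one, Complex.norm_real, Real.norm_eq_abs]
      simp only [he]
      rw [N02_norm, mul_one, abs_div, abs_neg, abs_of_nonneg (sq_nonneg (2 * α * y + β))]
    · apply ContinuousOn.intervalIntegrable
      rw [hu]
      apply ContinuousOn.div continuousOn_const (by fun_prop)
      intro y hy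
      exact pow_ne_zero 2 (hne y hy)
  calc _ ≤ ‖((((2 * α * B + β)⁻¹ : ℝ) : ℂ) * (-I)) * e B - ((((2 * α * A + β)⁻¹ : ℝ) : ℂ) * (-I)) * e A‖ +
        ‖∫ x in A..B, (((-(2 * α) / (2 * α * x + β) ^ 2 : ℝ) : ℂ) * (-I)) * e x‖ := norm_sub_le _ _
    _ ≤ (1 / lam + 1 / lam) + 2 / lam := by
        refine add_le_add ((norm_sub_le _ _).trans (add_le_add (hbd B ⟨hAB, le_refl _⟩) (hbd A ⟨le_refl _, hAB⟩))) hrest
    _ = 4 / lam := by ring

/-- second derivative test, no amplitude -/
theorem N02_second {A B : ℝ} (hAB : A ≤ B) {α : ℝ} (hα : α ≠ 0) (β : ℝ) :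
    ‖∫ x in A..B, exp (((α * x ^ 2 + β * x : ℝ) : ℂ) * I)‖ ≤ 8 / √|α| := by
  set e : ℝ → ℂ := fun x : ℝ => exp (((α * x ^ 2 + β * x : ℝ) : ℂ) * I) with he
  have hce : Continuous e := N02_cont α β
  have ha : 0 < |α| := abs_pos.2 hα
  have hs : 0 < √|α| := Real.sqrt_pos.2 ha
  have hss : √|α| * √|α| = |α| := Real.mul_self_sqrt ha.le
  set x0 : ℝ := -β / (2 * α) with hx0
  set δ : ℝ := (√|α|)⁻¹ with hδ
  have hδ0 : 0 < δ := inv_pos.2 hs
  have hφ : ∀ x, 2 * α * x + β = 2 * α * (x - x0) := by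
    intro x
    rw [hx0]; field_simp; ring
  have hfar : ∀ x, δ ≤ |x - x0| → 2 * √|α| ≤ |2 * α * x + β| := by
    intro x hx
    rw [hφ, abs_mul, abs_mul, abs_two]
    have h1 : |α| * δ = √|α| := by
      calc |α| * δ = √|α| * √|α| * δ := by rw [hss]
        _ = √|α| := by rw [hδ]; field_simp
    calc 2 * √|α| = 2 * |α| * δ := by rw [mul_assoc, h1]
      _ ≤ 2 * |α| * |x - x0| := by gcongr
  set a1 : ℝ := max A (min B (x0 - δ)) with ha1
  set a2 : ℝ := max A (min B (x0 + δ)) with ha2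
  have hA1 : A ≤ a1 := le_max_left _ _
  have h12 : a1 ≤ a2 := max_le_max (le_refl _) (min_le_min (le_refl _) (by linarith))
  have h2B : a2 ≤ B := max_le hAB (min_le_left _ _)
  have hi : ∀ a b, IntervalIntegrable e volume a b := fun a b => hce.intervalIntegrable a b
  have hsplit : ∫ x in A..B, e x = (∫ x in A..a1, e x) + (∫ x in a1..a2, e x) + ∫ x in a2..B, e x := by
    rw [intervalIntegral.integral_add_adjacent_intervals (hi _ _) (hi _ _),
      intervalIntegral.integral_add_adjacent_intervals (hi _ _) (hi _ _)]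
  have hI1 : ‖∫ x in A..a1, e x‖ ≤ 4 / (2 * √|α|) := by
    rcases le_total (min B (x0 - δ)) A with h | h
    · have : a1 = A := by rw [ha1]; exact max_eq_left h
      rw [this, intervalIntegral.integral_same, norm_zero]; positivity
    · have h3 : a1 = min B (x0 - δ) := by rw [ha1]; exact max_eq_right h
      refine N02_first hA1 α β (by positivity) fun y hy => hfar y ?_
      have h4 : y ≤ x0 - δ := hy.2.trans (h3 ▸ min_le_right _ _)
      rw [abs_sub_comm]
      exact le_trans (by linarith) (le_abs_self _)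
  have hI3 : ‖∫ x in a2..B, e x‖ ≤ 4 / (2 * √|α|) := by
    rcases le_total B (max A (x0 + δ)) with h | h
    · have : a2 = B := by
        apply le_antisymm h2B
        rw [ha2]
        rcases le_total A (x0 + δ) with h5 | h5
        · rw [max_eq_right h5] at h
          rw [min_eq_left h]; exact le_max_right _ _
        · rw [max_eq_left h5] at h
          exact h.trans (le_max_left _ _)
      rw [this, intervalIntegral.integral_same, norm_zero]; positivity
    · refine N02_first h2B α β (by positivity) fun y hy => hfar y ?_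
      have h4 : x0 + δ ≤ y := by
        refine le_trans ?_ hy.1
        rw [ha2, min_eq_right ((le_max_right A (x0 + δ)).trans h)]
        exact le_max_right _ _
      exact le_trans (by linarith) (le_abs_self _)
  have hI2 : ‖∫ x in a1..a2, e x‖ ≤ 2 * δ := by
    have h1 : ‖∫ x in a1..a2, e x‖ ≤ 1 * |a2 - a1| :=
      intervalIntegral.norm_integral_le_of_norm_le_const fun x _ => (N02_norm α β x).le
    refine h1.trans ?_
    rw [one_mul, abs_of_nonneg (by linarith)]
    have h3 : a2 - a1 ≤ min B (x0 + δ) - min B (x0 - δ) ∨ a2 = A := by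
      rcases le_total (min B (x0 + δ)) A with h | h
      · right; rw [ha2]; exact max_eq_left h
      · left
        have : a2 = min B (x0 + δ) := by rw [ha2]; exact max_eq_right h
        have h4 : min B (x0 - δ) ≤ a1 := le_max_right _ _
        linarith
    rcases h3 with h3 | h3
    · refine h3.trans ?_
      rcases le_total B (x0 - δ) with h5 | h5
      · rw [min_eq_left h5, min_eq_left (by linarith : B ≤ x0 + δ)]; linarith
      · rw [min_eq_right h5]
        have := min_le_right B (x0 + δ)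
        linarith
    · linarith
  rw [hsplit]
  have hfin : 4 / (2 * √|α|) + 2 * δ + 4 / (2 * √|α|) = 6 / √|α| := by
    rw [hδ]; field_simp; ring
  calc _ ≤ ‖∫ x in A..a1, e x‖ + ‖∫ x in a1..a2, e x‖ + ‖∫ x in a2..B, e x‖ := norm_add₃_le
    _ ≤ 4 / (2 * √|α|) + 2 * δ + 4 / (2 * √|α|) := add_le_add (add_le_add hI1 hI2) hI3
    _ = 6 / √|α| := hfin
    _ ≤ 8 / √|α| := by gcongr; norm_num

/-- Row N02. First and second derivative test for a quadratic phase, with an amplitude. -/
theorem vdc_first {g g' : ℝ → ℂ} {A B : ℝ} (hAB : A ≤ B) (hg : ∀ y ∈ Icc A B, HasDerivAt g (g' y) y)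
    (hc : ContinuousOn g' (Icc A B)) (α β : ℝ) {lam : ℝ} (h0 : 0 < lam)
    (h : ∀ y ∈ Icc A B, lam ≤ |2 * α * y + β|) :
    ‖∫ y in A..B, g y * exp (((α * y ^ 2 + β * y : ℝ) : ℂ) * I)‖ ≤
      4 / lam * (‖g B‖ + ∫ y in A..B, ‖g' y‖) :=
  N02_ibp hAB hg hc α β fun y hy =>
    N02_first hy.1 α β h0 fun x hx => h x ⟨hx.1, hx.2.trans hy.2⟩

theorem vdc_second {g g' : ℝ → ℂ} {A B : ℝ} (hAB : A ≤ B) (hg : ∀ y ∈ Icc A B, HasDerivAt g (g' y) y)
    (hc : ContinuousOn g' (Icc A B)) {α : ℝ} (hα : α ≠ 0) (β : ℝ) :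
    ‖∫ y in A..B, g y * exp (((α * y ^ 2 + β * y : ℝ) : ℂ) * I)‖ ≤
      8 / √|α| * (‖g B‖ + ∫ y in A..B, ‖g' y‖) :=
  N02_ibp hAB hg hc α β fun y hy => N02_second hy.1 hα β

end NH
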