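import Pool.Agent.Lib.MP_0f5a55_nt.NH.D

open Complex MeasureTheory Set Filter Topology
open scoped Real ComplexConjugate

namespace NH

/-- Row N03. Amplitudes. -/
theorem am_nonneg (p : ℕ) {c n y : ℝ} (hn : 0 ≤ n) (hy : 0 ≤ y) : 0 ≤ am p c n y := by
  unfold am
  positivity

theorem am_deriv (p : ℕ) (c n y : ℝ) : HasDerivAt (am p c n) (amd p c n y) y := by
  have h1 : HasDerivAt (fun y : ℝ => n * y) n y := by
    simpa using (hasDerivAt_id y).const_mul n
  have h2 : HasDerivAt (fun y : ℝ => (n * y) ^ p) (p * (n * y) ^ (p - 1) * n) y := h1.pow p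
  have h3 : HasDerivAt (fun y : ℝ => -(c * (n * y) ^ 2)) (-(c * (2 * (n * y) * n))) y := by
    have := ((h1.pow 2).const_mul c).neg
    refine HasDerivAt.congr_deriv this ?_
    norm_num
  have h4 := h2.mul h3.exp
  have h5 : am p c n = fun y : ℝ => (n * y) ^ p * Real.exp (-(c * (n * y) ^ 2)) := rfl
  rw [h5]
  refine h4.congr_deriv ?_
  unfold amd
  ring

theorem N03_pow (k : ℕ) (x X : ℝ) (hx : 0 ≤ x) (hX : 0 ≤ X) (hXx : X ≤ x) :
    x ^ k * Real.exp (-x ^ 2) ≤ ((k + 2).factorial * Real.exp 1) * ((1 + X ^ 2) ^ 2)⁻¹ := by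
  have h1 : (1 + x ^ 2) ^ (k + 2) ≤ (k + 2).factorial * (Real.exp 1 * Real.exp (x ^ 2)) := by
    have h := Real.pow_div_factorial_le_exp (1 + x ^ 2) (by positivity) (k + 2)
    rw [Real.exp_add] at h
    have hf : (0 : ℝ) < (k + 2).factorial := by
      exact_mod_cast Nat.factorial_pos _
    rw [div_le_iff₀ hf] at h
    linarith
  have h2 : x ^ k ≤ (1 + x ^ 2) ^ k := by
    apply pow_le_pow_left₀ hx
    nlinarith [sq_nonneg (x - 1)]
  have h3 : (1 + X ^ 2) ^ 2 ≤ (1 + x ^ 2) ^ 2 := by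
    have : X ^ 2 ≤ x ^ 2 := pow_le_pow_left₀ hX hXx 2
    exact pow_le_pow_left₀ (by positivity) (by linarith) 2
  have h4 : x ^ k * (1 + X ^ 2) ^ 2 ≤ (k + 2).factorial * (Real.exp 1 * Real.exp (x ^ 2)) := by
    calc x ^ k * (1 + X ^ 2) ^ 2 ≤ (1 + x ^ 2) ^ k * (1 + x ^ 2) ^ 2 :=
          mul_le_mul h2 h3 (by positivity) (by positivity)
      _ = (1 + x ^ 2) ^ (k + 2) := by ring
      _ ≤ _ := h1
  have h5 : (0 : ℝ) < (1 + X ^ 2) ^ 2 := by positivity
  rw [← div_eq_mul_inv, le_div_iff₀ h5]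
  have h6 : Real.exp (x ^ 2) * Real.exp (-x ^ 2) = 1 := by
    rw [← Real.exp_add]
    simp
  calc x ^ k * Real.exp (-x ^ 2) * (1 + X ^ 2) ^ 2
      = (x ^ k * (1 + X ^ 2) ^ 2) * Real.exp (-x ^ 2) := by ring
    _ ≤ ((k + 2).factorial * (Real.exp 1 * Real.exp (x ^ 2))) * Real.exp (-x ^ 2) :=
        mul_le_mul_of_nonneg_right h4 (Real.exp_pos _).le
    _ = (k + 2).factorial * Real.exp 1 * (Real.exp (x ^ 2) * Real.exp (-x ^ 2)) := by ring
    _ = (k + 2).factorial * Real.exp 1 := by rw [h6, mul_one]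

theorem amp (p : ℕ) : ∃ C : ℝ, 0 < C ∧ ∀ c Y n y : ℝ, 0 < c → 0 < Y → 0 < n → Y ≤ y → y ≤ 2 * Y →
    am p c n y ≤ C * (√c ^ p)⁻¹ * wt c Y n ∧ |amd p c n y| ≤ C * (√c ^ p)⁻¹ * wt c Y n / Y := by
  have hA : (0 : ℝ) < (p + 2).factorial * Real.exp 1 := by
    have : (0 : ℝ) < (p + 2).factorial := by exact_mod_cast Nat.factorial_pos _
    positivity
  have hB : (0 : ℝ) < (p + 2 + 2).factorial * Real.exp 1 := by
    have : (0 : ℝ) < (p + 2 + 2).factorial := by exact_mod_cast Nat.factorial_pos _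
    positivity
  set A : ℝ := (p + 2).factorial * Real.exp 1 with hAdef
  set B : ℝ := (p + 2 + 2).factorial * Real.exp 1 with hBdef
  refine ⟨A + p * A + 2 * B, by positivity, ?_⟩
  intro c Y n y hc hY hn hYy _
  have hy : 0 < y := lt_of_lt_of_le hY hYy
  have hsc : 0 < √c := Real.sqrt_pos.2 hc
  have hcc : √c ^ 2 = c := Real.sq_sqrt hc.le
  have hx : 0 ≤ √c * (n * y) := by positivity
  have hX : 0 ≤ √c * (n * Y) := by positivity
  have hXx : √c * (n * Y) ≤ √c * (n * y) := by gcongr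
  have hwt : ((1 + (√c * (n * Y)) ^ 2) ^ 2)⁻¹ = wt c Y n := by
    unfold wt
    rw [mul_pow, hcc]
  have hexp : Real.exp (-(√c * (n * y)) ^ 2) = Real.exp (-(c * (n * y) ^ 2)) := by
    rw [mul_pow, hcc]
  have hw0 : 0 ≤ wt c Y n := by
    unfold wt
    positivity
  have h1 := N03_pow p _ _ hx hX hXx
  have h2 := N03_pow (p + 2) _ _ hx hX hXx
  rw [hwt, hexp, ← hAdef] at h1
  rw [hwt, hexp, ← hBdef] at h2
  have hne : √c ^ p ≠ 0 := by positivity
  have hpow : (n * y) ^ p = (√c ^ p)⁻¹ * (√c * (n * y)) ^ p := by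
    rw [mul_pow (√c)]
    field_simp
  have hpow2 : c * (n * y) ^ (p + 2) = (√c ^ p)⁻¹ * (√c * (n * y)) ^ (p + 2) := by
    rw [mul_pow (√c), pow_add (√c), hcc]
    field_simp
  have hI : 0 < (√c ^ p)⁻¹ := by positivity
  constructor
  · have : am p c n y = (√c ^ p)⁻¹ * ((√c * (n * y)) ^ p * Real.exp (-(c * (n * y) ^ 2))) := by
      unfold am
      rw [hpow]
      ring
    rw [this]
    calc (√c ^ p)⁻¹ * ((√c * (n * y)) ^ p * Real.exp (-(c * (n * y) ^ 2)))
        ≤ (√c ^ p)⁻¹ * (A * wt c Y n) := mul_le_mul_of_nonneg_left h1 hI.le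
      _ = A * (√c ^ p)⁻¹ * wt c Y n := by ring
      _ ≤ (A + p * A + 2 * B) * (√c ^ p)⁻¹ * wt c Y n := by
        have : A ≤ A + p * A + 2 * B := by
          have : 0 ≤ (p : ℝ) * A := by positivity
          linarith
        gcongr
  · have hyn : n * (p * (n * y) ^ (p - 1)) = p * (n * y) ^ p / y := by
      rcases Nat.eq_zero_or_pos p with h0 | h0
      · subst h0
        simp
      · obtain ⟨k, rfl⟩ : ∃ k, p = k + 1 := ⟨p - 1, by omega⟩
        rw [Nat.add_sub_cancel, pow_succ]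
        field_simp
    have hyn2 : n * (2 * c * (n * y) ^ (p + 1)) = 2 * (c * (n * y) ^ (p + 2)) / y := by
      rw [pow_succ (n * y) (p + 1)]
      field_simp
    have hamd : amd p c n y = (p * (n * y) ^ p / y - 2 * (c * (n * y) ^ (p + 2)) / y) *
        Real.exp (-(c * (n * y) ^ 2)) := by
      unfold amd
      rw [mul_sub, hyn, hyn2]
    have he : 0 < Real.exp (-(c * (n * y) ^ 2)) := Real.exp_pos _
    have h3 : |amd p c n y| ≤ (p * (n * y) ^ p / y + 2 * (c * (n * y) ^ (p + 2)) / y) *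
        Real.exp (-(c * (n * y) ^ 2)) := by
      rw [hamd, abs_mul, abs_of_pos he]
      gcongr
      refine (abs_sub _ _).trans ?_
      rw [abs_of_nonneg (by positivity), abs_of_nonneg (by positivity)]
    refine h3.trans ?_
    have h4 : (p * (n * y) ^ p / y + 2 * (c * (n * y) ^ (p + 2)) / y) *
        Real.exp (-(c * (n * y) ^ 2)) = (√c ^ p)⁻¹ * (p * ((√c * (n * y)) ^ p *
          Real.exp (-(c * (n * y) ^ 2))) + 2 * ((√c * (n * y)) ^ (p + 2) *
          Real.exp (-(c * (n * y) ^ 2)))) / y := by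
      rw [hpow, hpow2]
      ring
    rw [h4]
    have h5 : (p * ((√c * (n * y)) ^ p * Real.exp (-(c * (n * y) ^ 2))) +
        2 * ((√c * (n * y)) ^ (p + 2) * Real.exp (-(c * (n * y) ^ 2)))) ≤
        (A + p * A + 2 * B) * wt c Y n := by
      have : 0 ≤ A * wt c Y n := by positivity
      have h6 : p * ((√c * (n * y)) ^ p * Real.exp (-(c * (n * y) ^ 2))) ≤
        p * (A * wt c Y n) := mul_le_mul_of_nonneg_left h1 (by positivity)
      nlinarith
    calc (√c ^ p)⁻¹ * (p * ((√c * (n * y)) ^ p * Real.exp (-(c * (n * y) ^ 2))) +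
          2 * ((√c * (n * y)) ^ (p + 2) * Real.exp (-(c * (n * y) ^ 2)))) / y
        ≤ (√c ^ p)⁻¹ * ((A + p * A + 2 * B) * wt c Y n) / y := by gcongr
      _ ≤ (√c ^ p)⁻¹ * ((A + p * A + 2 * B) * wt c Y n) / Y := by
        apply div_le_div_of_nonneg_left (by positivity) hY hYy
      _ = (A + p * A + 2 * B) * (√c ^ p)⁻¹ * wt c Y n / Y := by ring

theorem wt_pos {c Y n : ℝ} (hc : 0 < c) : 0 < wt c Y n := by
  unfold wt
  positivity

theorem wt_le_one {c Y n : ℝ} (hc : 0 < c) : wt c Y n ≤ 1 := by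
  unfold wt
  apply inv_le_one_of_one_le₀
  have : 0 ≤ c * (n * Y) ^ 2 := by positivity
  nlinarith

theorem N03_step (z a : ℝ) (ha : 0 < a) (hz : 0 ≤ z) :
    ((1 + (z + a) ^ 2) ^ 2)⁻¹ ≤ 2 / a * ((z + a) / (1 + (z + a)) - z / (1 + z)) := by
  have h1 : (z + a) / (1 + (z + a)) - z / (1 + z) = a / ((1 + (z + a)) * (1 + z)) := by
    have : (1 + (z + a)) ≠ 0 := by positivity
    have : (1 + z) ≠ 0 := by positivity
    field_simp
    ring
  rw [h1]
  have h2 : 2 / a * (a / ((1 + (z + a)) * (1 + z))) = 2 / ((1 + (z + a)) * (1 + z)) := by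
    field_simp
  rw [h2, inv_eq_one_div, div_le_div_iff₀ (by positivity) (by positivity)]
  have h3 : (1 + (z + a)) * (1 + z) ≤ (1 + (z + a)) ^ 2 := by nlinarith
  have h4 : (1 + (z + a)) ^ 2 ≤ 2 * (1 + (z + a) ^ 2) := by nlinarith [sq_nonneg (z + a - 1)]
  have h5 : (1 + (z + a) ^ 2) ≤ (1 + (z + a) ^ 2) ^ 2 := by nlinarith [sq_nonneg (z + a)]
  linarith

/-- the sum of the weights -/
theorem wt_sum {c Y : ℝ} (hc : 0 < c) (hY : 0 < Y) : Summable (fun n : ℕ => wt c Y ((n : ℝ) + 1)) ∧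
    ∑' n : ℕ, wt c Y ((n : ℝ) + 1) ≤ 2 * (√c * Y)⁻¹ := by
  have hsc : 0 < √c := Real.sqrt_pos.2 hc
  have hcc : √c ^ 2 = c := Real.sq_sqrt hc.le
  have ha : 0 < √c * Y := by positivity
  have hterm : ∀ n : ℕ, wt c Y ((n : ℝ) + 1) ≤ 2 / (√c * Y) *
      ((√c * Y * (n + 1 : ℕ)) / (1 + (√c * Y * (n + 1 : ℕ))) -
        (√c * Y * n) / (1 + √c * Y * n)) := by
    intro n
    have h := N03_step (√c * Y * n) (√c * Y) ha (by positivity)
    have h1 : √c * Y * n + √c * Y = √c * Y * (n + 1 : ℕ) := by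
      push_cast
      ring
    rw [h1] at h
    have h2 : c * (((n : ℝ) + 1) * Y) ^ 2 = (√c * Y * (n + 1 : ℕ)) ^ 2 := by
      rw [mul_pow (√c * Y), mul_pow (√c), hcc]
      push_cast
      ring
    refine le_trans (le_of_eq ?_) h
    unfold wt
    rw [h2]
  have hsum : ∀ N : ℕ, ∑ n ∈ Finset.range N, wt c Y ((n : ℝ) + 1) ≤ 2 * (√c * Y)⁻¹ := by
    intro N
    calc ∑ n ∈ Finset.range N, wt c Y ((n : ℝ) + 1)
        ≤ ∑ n ∈ Finset.range N, 2 / (√c * Y) *
          ((√c * Y * (n + 1 : ℕ)) / (1 + (√c * Y * (n + 1 : ℕ))) -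
            (√c * Y * n) / (1 + √c * Y * n)) := Finset.sum_le_sum fun n _ => hterm n
      _ = 2 / (√c * Y) * ((√c * Y * N) / (1 + √c * Y * N)) := by
        rw [← Finset.mul_sum,
          Finset.sum_range_sub (fun n : ℕ => (√c * Y * n) / (1 + √c * Y * n)) N]
        simp
      _ ≤ 2 / (√c * Y) * 1 := by
        gcongr
        rw [div_le_one (by positivity)]
        linarith
      _ = 2 * (√c * Y)⁻¹ := by ring
  have hnn : ∀ n : ℕ, 0 ≤ wt c Y ((n : ℝ) + 1) := fun n => (wt_pos hc).le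
  exact ⟨summable_of_sum_range_le hnn hsum, Real.tsum_le_of_sum_range_le hnn hsum⟩

end NH
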