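import Pool.Agent.Lib.MP_0f5a55_nt.NH.N02
import Pool.Agent.Lib.MP_0f5a55_nt.NH.N03

open Complex MeasureTheory Set Filter Topology
open scoped Real ComplexConjugate

namespace NH

theorem N04_am_cont (p : ℕ) (c n : ℝ) : Continuous (am p c n) := by
  unfold am
  fun_prop

theorem N04_amd_cont (p : ℕ) (c n : ℝ) : Continuous (amd p c n) := by
  unfold amd
  fun_prop

theorem N04_core (p : ℕ) {K0 : ℝ} (hK0 : 0 < K0)
    (hamp : ∀ c Y n y : ℝ, 0 < c → 0 < Y → 0 < n → Y ≤ y → y ≤ 2 * Y →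
      am p c n y ≤ K0 * (√c ^ p)⁻¹ * wt c Y n ∧ |amd p c n y| ≤ K0 * (√c ^ p)⁻¹ * wt c Y n / Y)
    {c e Y : ℝ} (hc : 0 < c) (hY : 0 < Y) {n m : ℕ} (hn : 0 < n) (hm : 0 < m) {A B h : ℝ}
    (hYA : Y ≤ A) (hAB : A ≤ B) (hBh : B + h ≤ 2 * Y) (hh : 0 ≤ h) :
    (∀ lam : ℝ, 0 < lam →
      (∀ y ∈ Icc A B, lam ≤ |2 * (e * ((n : ℝ) ^ 2 - (m : ℝ) ^ 2)) * y + -(2 * e * (m : ℝ) ^ 2 * h)|) →
      ‖∫ y in A..B, ((am p c n y * am p c m (y + h) : ℝ) : ℂ) *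
        exp (((e * (((n : ℝ) * y) ^ 2 - ((m : ℝ) * (y + h)) ^ 2) : ℝ) : ℂ) * I)‖ ≤
      4 / lam * (3 * (K0 ^ 2 * ((√c ^ p)⁻¹) ^ 2 * (wt c Y n * wt c Y m)))) ∧
    (e * ((n : ℝ) ^ 2 - (m : ℝ) ^ 2) ≠ 0 →
      ‖∫ y in A..B, ((am p c n y * am p c m (y + h) : ℝ) : ℂ) *
        exp (((e * (((n : ℝ) * y) ^ 2 - ((m : ℝ) * (y + h)) ^ 2) : ℝ) : ℂ) * I)‖ ≤
      8 / √|e * ((n : ℝ) ^ 2 - (m : ℝ) ^ 2)| *
        (3 * (K0 ^ 2 * ((√c ^ p)⁻¹) ^ 2 * (wt c Y n * wt c Y m)))) := by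
  have hn' : (0 : ℝ) < n := Nat.cast_pos.2 hn
  have hm' : (0 : ℝ) < m := Nat.cast_pos.2 hm
  have hκ : 0 ≤ (√c ^ p)⁻¹ := by positivity
  set W : ℝ := K0 * (√c ^ p)⁻¹ * wt c Y n with hW
  set W' : ℝ := K0 * (√c ^ p)⁻¹ * wt c Y m with hW'
  have hW0 : 0 ≤ W := mul_nonneg (mul_nonneg hK0.le hκ) (wt_pos hc).le
  have hW0' : 0 ≤ W' := mul_nonneg (mul_nonneg hK0.le hκ) (wt_pos hc).le
  have hWW : W * W' = K0 ^ 2 * ((√c ^ p)⁻¹) ^ 2 * (wt c Y n * wt c Y m) := by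
    rw [hW, hW']; ring
  set g : ℝ → ℂ := fun y => ((am p c n y * am p c m (y + h) : ℝ) : ℂ) with hg
  set g' : ℝ → ℂ := fun y =>
    ((amd p c n y * am p c m (y + h) + am p c n y * amd p c m (y + h) : ℝ) : ℂ) with hg'
  have hder : ∀ y ∈ Icc A B, HasDerivAt g (g' y) y := fun y _ =>
    ((am_deriv p c n y).mul ((am_deriv p c m (y + h)).comp_add_const y h)).ofReal_comp
  have hcont : Continuous g' := by
    have h1 := N04_am_cont p c n
    have h2 := N04_am_cont p c m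
    have h3 := N04_amd_cont p c n
    have h4 := N04_amd_cont p c m
    rw [hg']
    fun_prop
  have hbd : ∀ y ∈ Icc A B, (0 ≤ am p c n y ∧ am p c n y ≤ W ∧ |amd p c n y| ≤ W / Y) ∧
      (0 ≤ am p c m (y + h) ∧ am p c m (y + h) ≤ W' ∧ |amd p c m (y + h)| ≤ W' / Y) := by
    intro y hy
    obtain ⟨h1, h2⟩ := hamp c Y n y hc hY hn' (hYA.trans hy.1) (by linarith [hy.2])
    obtain ⟨h3, h4⟩ := hamp c Y m (y + h) hc hY hm' (by linarith [hy.1]) (by linarith [hy.2])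
    have hy0 : 0 ≤ y := by linarith [hy.1]
    exact ⟨⟨am_nonneg p hn'.le hy0, h1, h2⟩, am_nonneg p hm'.le (by linarith), h3, h4⟩
  have hgB : ‖g B‖ ≤ W * W' := by
    obtain ⟨⟨h1, h2, -⟩, h3, h4, -⟩ := hbd B ⟨hAB, le_rfl⟩
    rw [hg]
    show ‖((am p c n B * am p c m (B + h) : ℝ) : ℂ)‖ ≤ W * W'
    rw [Complex.norm_real, Real.norm_of_nonneg (mul_nonneg h1 h3)]
    exact mul_le_mul h2 h4 h3 hW0
  have hint : ∫ y in A..B, ‖g' y‖ ≤ 2 * (W * W') := by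
    have h1 : ∫ y in A..B, ‖g' y‖ ≤ ∫ _y in A..B, 2 * (W * W') / Y := by
      refine intervalIntegral.integral_mono_on hAB (hcont.norm.intervalIntegrable _ _)
        (continuous_const.intervalIntegrable _ _) ?_
      intro y hy
      obtain ⟨⟨h1, h2, h3⟩, h4, h5, h6⟩ := hbd y hy
      show ‖((amd p c n y * am p c m (y + h) + am p c n y * amd p c m (y + h) : ℝ) : ℂ)‖ ≤ _
      rw [Complex.norm_real, Real.norm_eq_abs]
      calc |amd p c n y * am p c m (y + h) + am p c n y * amd p c m (y + h)|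
          ≤ |amd p c n y| * am p c m (y + h) + am p c n y * |amd p c m (y + h)| := by
            refine (abs_add_le _ _).trans ?_
            rw [abs_mul, abs_mul, abs_of_nonneg h4, abs_of_nonneg h1]
        _ ≤ W / Y * W' + W * (W' / Y) := by
            gcongr
        _ = 2 * (W * W') / Y := by ring
    refine h1.trans ?_
    rw [intervalIntegral.integral_const, smul_eq_mul]
    have h2 : B - A ≤ Y := by linarith
    calc (B - A) * (2 * (W * W') / Y) ≤ Y * (2 * (W * W') / Y) := by gcongr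
      _ = 2 * (W * W') := by field_simp
  have hS : ‖g B‖ + ∫ y in A..B, ‖g' y‖ ≤ 3 * (W * W') := by linarith
  have heq : ‖∫ y in A..B, ((am p c n y * am p c m (y + h) : ℝ) : ℂ) *
        exp (((e * (((n : ℝ) * y) ^ 2 - ((m : ℝ) * (y + h)) ^ 2) : ℝ) : ℂ) * I)‖ =
      ‖∫ y in A..B, g y * exp (((e * ((n : ℝ) ^ 2 - (m : ℝ) ^ 2) * y ^ 2 +
        -(2 * e * (m : ℝ) ^ 2 * h) * y : ℝ) : ℂ) * I)‖ := by
    have h1 : ∀ y : ℝ, ((am p c n y * am p c m (y + h) : ℝ) : ℂ) *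
        exp (((e * (((n : ℝ) * y) ^ 2 - ((m : ℝ) * (y + h)) ^ 2) : ℝ) : ℂ) * I) =
        exp (((-(e * (m : ℝ) ^ 2 * h ^ 2) : ℝ) : ℂ) * I) *
          (g y * exp (((e * ((n : ℝ) ^ 2 - (m : ℝ) ^ 2) * y ^ 2 +
            -(2 * e * (m : ℝ) ^ 2 * h) * y : ℝ) : ℂ) * I)) := by
      intro y
      rw [mul_left_comm, ← Complex.exp_add, ← add_mul, ← Complex.ofReal_add]
      congr 4
      ring
    simp only [h1]
    rw [intervalIntegral.integral_const_mul, norm_mul, Complex.norm_exp_ofReal_mul_I, one_mul]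
  rw [heq, ← hWW]
  constructor
  · intro lam hlam hy
    refine (vdc_first hAB hder hcont.continuousOn (e * ((n : ℝ) ^ 2 - (m : ℝ) ^ 2))
      (-(2 * e * (m : ℝ) ^ 2 * h)) hlam hy).trans ?_
    exact mul_le_mul_of_nonneg_left hS (by positivity)
  · intro hα
    refine (vdc_second hAB hder hcont.continuousOn hα (-(2 * e * (m : ℝ) ^ 2 * h))).trans ?_
    exact mul_le_mul_of_nonneg_left hS (by positivity)

/-- Row N04. One oscillating integral. -/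
theorem term (p : ℕ) {e0 : ℝ} (he0 : 0 < e0) : ∃ C : ℝ, 0 < C ∧ ∀ c e Y : ℝ, 0 < c → e0 ≤ |e| → 0 < Y →
    ∀ n m : ℕ, 0 < n → 0 < m → ∀ A B h : ℝ, Y ≤ A → A ≤ B → B + h ≤ 2 * Y → 0 ≤ h → (n ≠ m ∨ 0 < h) →
      ‖∫ y in A..B, ((am p c n y * am p c m (y + h) : ℝ) : ℂ) *
        exp (((e * (((n : ℝ) * y) ^ 2 - ((m : ℝ) * (y + h)) ^ 2) : ℝ) : ℂ) * I)‖ ≤
      C * ((√c ^ p)⁻¹) ^ 2 * (wt c Y n * wt c Y m) * VV Y n m h := by
  obtain ⟨K0, hK0, hamp⟩ := amp p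
  refine ⟨(12 / e0 + 24 / √e0) * K0 ^ 2, by positivity, ?_⟩
  intro c e Y hc he hY n m hn hm A B h hYA hAB hBh hh hne
  obtain ⟨hfirst, hsecond⟩ := N04_core p hK0 hamp (e := e) hc hY hn hm hYA hAB hBh hh
  have hn' : (0 : ℝ) < n := Nat.cast_pos.2 hn
  have hm' : (0 : ℝ) < m := Nat.cast_pos.2 hm
  set V : ℝ := ((√c ^ p)⁻¹) ^ 2 * (wt c Y n * wt c Y m) with hV
  have hV0 : 0 ≤ V := by
    have h1 := (wt_pos (Y := Y) (n := n) hc).le
    have h2 := (wt_pos (Y := Y) (n := m) hc).le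
    positivity
  have hsq : (0 : ℝ) < √e0 := Real.sqrt_pos.2 he0
  have hea : 0 < |e| := he0.trans_le he
  -- conclusion from the first test
  have fin1 : ∀ lam v : ℝ, 0 < v → 0 < lam → e0 * v ≤ lam → VV Y n m h = v⁻¹ →
      (∀ y ∈ Icc A B, lam ≤ |2 * (e * ((n : ℝ) ^ 2 - (m : ℝ) ^ 2)) * y + -(2 * e * (m : ℝ) ^ 2 * h)|) →
      ‖∫ y in A..B, ((am p c n y * am p c m (y + h) : ℝ) : ℂ) *
        exp (((e * (((n : ℝ) * y) ^ 2 - ((m : ℝ) * (y + h)) ^ 2) : ℝ) : ℂ) * I)‖ ≤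
      (12 / e0 + 24 / √e0) * K0 ^ 2 * ((√c ^ p)⁻¹) ^ 2 * (wt c Y n * wt c Y m) * VV Y n m h := by
    intro lam v hv hlam hlv hVV hy
    refine (hfirst lam hlam hy).trans ?_
    rw [hVV]
    calc 4 / lam * (3 * (K0 ^ 2 * ((√c ^ p)⁻¹) ^ 2 * (wt c Y n * wt c Y m)))
        ≤ 4 / (e0 * v) * (3 * (K0 ^ 2 * V)) := by
          rw [hV]
          have h1 : 4 / lam ≤ 4 / (e0 * v) := by gcongr
          have h2 : 0 ≤ 3 * (K0 ^ 2 * (((√c ^ p)⁻¹) ^ 2 * (wt c Y n * wt c Y m))) := by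
            rw [← hV]; positivity
          calc 4 / lam * (3 * (K0 ^ 2 * ((√c ^ p)⁻¹) ^ 2 * (wt c Y n * wt c Y m)))
              = 4 / lam * (3 * (K0 ^ 2 * (((√c ^ p)⁻¹) ^ 2 * (wt c Y n * wt c Y m)))) := by ring
            _ ≤ _ := mul_le_mul_of_nonneg_right h1 h2
      _ = 12 / e0 * (K0 ^ 2 * V) * v⁻¹ := by field_simp; ring
      _ ≤ (12 / e0 + 24 / √e0) * (K0 ^ 2 * V) * v⁻¹ := by
          have h1 : 12 / e0 ≤ 12 / e0 + 24 / √e0 := by
            have : 0 ≤ 24 / √e0 := by positivity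
            linarith
          gcongr
      _ = _ := by rw [hV]; ring
  have habs : ∀ y : ℝ, |2 * (e * ((n : ℝ) ^ 2 - (m : ℝ) ^ 2)) * y + -(2 * e * (m : ℝ) ^ 2 * h)| =
      2 * |e| * |((n : ℝ) ^ 2 - (m : ℝ) ^ 2) * y - (m : ℝ) ^ 2 * h| := by
    intro y
    rw [show 2 * (e * ((n : ℝ) ^ 2 - (m : ℝ) ^ 2)) * y + -(2 * e * (m : ℝ) ^ 2 * h) =
      2 * e * (((n : ℝ) ^ 2 - (m : ℝ) ^ 2) * y - (m : ℝ) ^ 2 * h) by ring, abs_mul, abs_mul,
      abs_of_pos (show (0 : ℝ) < 2 by norm_num)]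
  have hYy : ∀ y ∈ Icc A B, Y ≤ y ∧ y ≤ 2 * Y := fun y hy =>
    ⟨hYA.trans hy.1, by linarith [hy.2]⟩
  rcases lt_trichotomy n m with hnm | hnm | hnm
  · -- n < m
    have hlt : (n : ℝ) ^ 2 < (m : ℝ) ^ 2 := by
      have : (n : ℝ) < m := by exact_mod_cast hnm
      gcongr
    have hpos : 0 < (m : ℝ) ^ 2 * h + ((m : ℝ) ^ 2 - (n : ℝ) ^ 2) * Y := by
      have h1 : 0 < ((m : ℝ) ^ 2 - (n : ℝ) ^ 2) * Y := mul_pos (by linarith) hY
      have h2 : 0 ≤ (m : ℝ) ^ 2 * h := by positivity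
      linarith
    refine fin1 (e0 * ((m : ℝ) ^ 2 * h + ((m : ℝ) ^ 2 - (n : ℝ) ^ 2) * Y)) _ hpos
      (mul_pos he0 hpos) le_rfl ?_ ?_
    · unfold VV
      rw [if_neg (by omega), if_pos hnm]
    · intro y hy
      rw [habs, abs_sub_comm]
      have h1 : (m : ℝ) ^ 2 * h + ((m : ℝ) ^ 2 - (n : ℝ) ^ 2) * Y ≤
          |(m : ℝ) ^ 2 * h - ((n : ℝ) ^ 2 - (m : ℝ) ^ 2) * y| := by
        refine le_trans ?_ (le_abs_self _)
        have h2 : ((m : ℝ) ^ 2 - (n : ℝ) ^ 2) * Y ≤ ((m : ℝ) ^ 2 - (n : ℝ) ^ 2) * y :=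
          mul_le_mul_of_nonneg_left (hYy y hy).1 (by linarith)
        linarith
      calc e0 * ((m : ℝ) ^ 2 * h + ((m : ℝ) ^ 2 - (n : ℝ) ^ 2) * Y)
          ≤ |e| * |(m : ℝ) ^ 2 * h - ((n : ℝ) ^ 2 - (m : ℝ) ^ 2) * y| :=
            mul_le_mul he h1 hpos.le hea.le
        _ ≤ 2 * |e| * |(m : ℝ) ^ 2 * h - ((n : ℝ) ^ 2 - (m : ℝ) ^ 2) * y| := by
            have : 0 ≤ |e| * |(m : ℝ) ^ 2 * h - ((n : ℝ) ^ 2 - (m : ℝ) ^ 2) * y| := by positivity
            linarith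
  · -- n = m
    subst hnm
    have hh0 : 0 < h := by
      rcases hne with h1 | h1
      · exact absurd rfl h1
      · exact h1
    have hpos : 0 < (n : ℝ) ^ 2 * h := by positivity
    refine fin1 (e0 * ((n : ℝ) ^ 2 * h)) _ hpos (mul_pos he0 hpos) le_rfl ?_ ?_
    · unfold VV
      rw [if_pos rfl]
    · intro y hy
      rw [habs, sub_self, zero_mul, zero_sub, abs_neg, abs_of_pos hpos]
      calc e0 * ((n : ℝ) ^ 2 * h) ≤ |e| * ((n : ℝ) ^ 2 * h) :=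
            mul_le_mul_of_nonneg_right he hpos.le
        _ ≤ 2 * |e| * ((n : ℝ) ^ 2 * h) := by
            have : 0 ≤ |e| * ((n : ℝ) ^ 2 * h) := by positivity
            linarith
  · -- m < n
    have hlt : (m : ℝ) ^ 2 < (n : ℝ) ^ 2 := by
      have : (m : ℝ) < n := by exact_mod_cast hnm
      gcongr
    set D : ℝ := (n : ℝ) ^ 2 - (m : ℝ) ^ 2 with hD
    have hD0 : 0 < D := by rw [hD]; linarith
    have hVVe : VV Y n m h = if 2 * (m : ℝ) ^ 2 * h ≤ D * Y then (D * Y)⁻¹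
        else if 4 * D * Y ≤ (m : ℝ) ^ 2 * h then ((m : ℝ) ^ 2 * h)⁻¹ else (√D)⁻¹ := by
      unfold VV
      rw [if_neg (by omega), if_neg (by omega)]
    by_cases h1 : 2 * (m : ℝ) ^ 2 * h ≤ D * Y
    · have hpos : 0 < D * Y := mul_pos hD0 hY
      refine fin1 (e0 * (D * Y)) _ hpos (mul_pos he0 hpos) le_rfl ?_ ?_
      · rw [hVVe, if_pos h1]
      · intro y hy
        rw [habs]
        have h2 : D * Y / 2 ≤ |D * y - (m : ℝ) ^ 2 * h| := by
          refine le_trans ?_ (le_abs_self _)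
          have h3 : D * Y ≤ D * y := mul_le_mul_of_nonneg_left (hYy y hy).1 hD0.le
          linarith
        calc e0 * (D * Y) = 2 * (e0 * (D * Y / 2)) := by ring
          _ ≤ 2 * (|e| * |D * y - (m : ℝ) ^ 2 * h|) := by
              have := mul_le_mul he h2 (by positivity) hea.le
              linarith
          _ = 2 * |e| * |D * y - (m : ℝ) ^ 2 * h| := by ring
    · by_cases h2 : 4 * D * Y ≤ (m : ℝ) ^ 2 * h
      · have hpos : 0 < (m : ℝ) ^ 2 * h := by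
          have : 0 < 4 * D * Y := by positivity
          linarith
        refine fin1 (e0 * ((m : ℝ) ^ 2 * h)) _ hpos (mul_pos he0 hpos) le_rfl ?_ ?_
        · rw [hVVe, if_neg h1, if_pos h2]
        · intro y hy
          rw [habs, abs_sub_comm]
          have h3 : (m : ℝ) ^ 2 * h / 2 ≤ |(m : ℝ) ^ 2 * h - D * y| := by
            refine le_trans ?_ (le_abs_self _)
            have h4 : D * y ≤ D * (2 * Y) := mul_le_mul_of_nonneg_left (hYy y hy).2 hD0.le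
            linarith
          calc e0 * ((m : ℝ) ^ 2 * h) = 2 * (e0 * ((m : ℝ) ^ 2 * h / 2)) := by ring
            _ ≤ 2 * (|e| * |(m : ℝ) ^ 2 * h - D * y|) := by
                have := mul_le_mul he h3 (by positivity) hea.le
                linarith
            _ = 2 * |e| * |(m : ℝ) ^ 2 * h - D * y| := by ring
      · have he' : e ≠ 0 := abs_pos.1 hea
        refine (hsecond (mul_ne_zero he' hD0.ne')).trans ?_
        rw [hVVe, if_neg h1, if_neg h2]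
        have h3 : √e0 * √D ≤ √|e * D| := by
          rw [← Real.sqrt_mul he0.le, abs_mul, abs_of_pos hD0]
          exact Real.sqrt_le_sqrt (mul_le_mul_of_nonneg_right he hD0.le)
        have hsD : 0 < √D := Real.sqrt_pos.2 hD0
        have h4 : 8 / √|e * D| ≤ 8 / (√e0 * √D) := by gcongr
        have h5 : 0 ≤ 3 * (K0 ^ 2 * V) := by positivity
        calc 8 / √|e * D| * (3 * (K0 ^ 2 * ((√c ^ p)⁻¹) ^ 2 * (wt c Y n * wt c Y m)))
            = 8 / √|e * D| * (3 * (K0 ^ 2 * V)) := by rw [hV]; ring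
          _ ≤ 8 / (√e0 * √D) * (3 * (K0 ^ 2 * V)) := mul_le_mul_of_nonneg_right h4 h5
          _ = 24 / √e0 * (K0 ^ 2 * V) * (√D)⁻¹ := by field_simp; ring
          _ ≤ (12 / e0 + 24 / √e0) * (K0 ^ 2 * V) * (√D)⁻¹ := by
              have h6 : 24 / √e0 ≤ 12 / e0 + 24 / √e0 := by
                have : 0 ≤ 12 / e0 := by positivity
                linarith
              gcongr
          _ = _ := by rw [hV]; ring

end NH
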