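import Pool.Agent.Lib.MP_0f5a55_nt.NH.D

open Complex MeasureTheory Set Filter Topology
open scoped Real ComplexConjugate

namespace NH

/-- Row N05. Sum over the shifts. -/
theorem VV_nonneg {Y : ℝ} (hY : 0 ≤ Y) (n m : ℕ) {h : ℝ} (hh : 0 ≤ h) : 0 ≤ VV Y n m h := by
  unfold VV
  split_ifs with h1 h2 h3 h4
  · positivity
  · have h5 : (n : ℝ) < m := by exact_mod_cast h2
    have h6 : (0 : ℝ) ≤ n := Nat.cast_nonneg n
    have h7 : (0 : ℝ) ≤ (m : ℝ) ^ 2 - (n : ℝ) ^ 2 := by nlinarith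
    positivity
  · have h5 : (m : ℝ) ≤ n := by exact_mod_cast not_lt.1 h2
    have h6 : (0 : ℝ) ≤ m := Nat.cast_nonneg m
    have h7 : (0 : ℝ) ≤ (n : ℝ) ^ 2 - (m : ℝ) ^ 2 := by nlinarith
    positivity
  · positivity
  · positivity

theorem N05_count (K : ℕ) {X c : ℝ} (hX : 0 ≤ X) (hc : 0 ≤ c) (P : ℕ → Prop) [DecidablePred P]
    (hP : ∀ k ∈ Finset.range K, P k → (k : ℝ) + 1 ≤ X) :
    ∑ k ∈ Finset.range K, (if P k then c else 0) ≤ X * c := by
  rw [← Finset.sum_filter, Finset.sum_const, nsmul_eq_mul]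
  refine mul_le_mul_of_nonneg_right ?_ hc
  have h1 : (Finset.range K).filter P ⊆ Finset.range ⌊X⌋₊ := by
    intro k hk
    rw [Finset.mem_filter] at hk
    have h2 := hP k hk.1 hk.2
    rw [Finset.mem_range]
    have h3 : k + 1 ≤ ⌊X⌋₊ := Nat.le_floor (by push_cast; exact h2)
    omega
  have h2 := Finset.card_le_card h1
  rw [Finset.card_range] at h2
  exact (Nat.cast_le.2 h2).trans (Nat.floor_le hX)

theorem N05_harm (K : ℕ) {Y : ℝ} (hY : (K : ℝ) ≤ Y) :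
    ∑ k ∈ Finset.range K, ((k : ℝ) + 1)⁻¹ ≤ 1 + Real.log (1 + Y) := by
  have h1 : ((harmonic K : ℚ) : ℝ) = ∑ k ∈ Finset.range K, ((k : ℝ) + 1)⁻¹ := by
    rw [harmonic]
    push_cast
    rfl
  rw [← h1]
  refine (harmonic_le_one_add_log K).trans ?_
  have h2 : Real.log K ≤ Real.log (1 + Y) := by
    rcases Nat.eq_zero_or_pos K with h3 | h3
    · rw [h3, Nat.cast_zero, Real.log_zero]
      refine Real.log_nonneg ?_
      have : (0 : ℝ) ≤ K := Nat.cast_nonneg K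
      linarith
    · have h4 : (0 : ℝ) < K := by exact_mod_cast h3
      exact Real.log_le_log h4 (by linarith)
  linarith

theorem sumk : ∃ C : ℝ, 0 < C ∧ ∀ Y s : ℝ, 1 ≤ Y → 1 ≤ s → ∀ n m : ℕ, 0 < n → 0 < m → ∀ K : ℕ, K * s ≤ Y →
    ∑ k ∈ Finset.range K, VV Y n m (((k : ℝ) + 1) * s) ≤
      C * ((1 + Real.log (1 + Y)) / (m : ℝ) ^ 2 + if m < n ∧ n < 2 * m then Y / m else 0) := by
  refine ⟨8, by norm_num, ?_⟩
  intro Y s hY hs n m hn hm K hK
  have hn0 : (0 : ℝ) < n := by exact_mod_cast hn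
  have hm0 : (0 : ℝ) < m := by exact_mod_cast hm
  have hm2 : (0 : ℝ) < (m : ℝ) ^ 2 := by positivity
  have hK0 : (0 : ℝ) ≤ K := Nat.cast_nonneg K
  have hKY : (K : ℝ) ≤ Y := le_trans (le_mul_of_one_le_right hK0 hs) hK
  have hlog : 0 ≤ Real.log (1 + Y) := Real.log_nonneg (by linarith)
  have hite : (0 : ℝ) ≤ if m < n ∧ n < 2 * m then Y / m else 0 := by
    split_ifs
    · positivity
    · exact le_rfl
  -- the harmonic part
  have hH : ∑ k ∈ Finset.range K, ((m : ℝ) ^ 2 * ((k : ℝ) + 1))⁻¹ ≤ (1 + Real.log (1 + Y)) / (m : ℝ) ^ 2 := by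
    have h1 : ∀ k ∈ Finset.range K, ((m : ℝ) ^ 2 * ((k : ℝ) + 1))⁻¹ = ((m : ℝ) ^ 2)⁻¹ * ((k : ℝ) + 1)⁻¹ := by
      intro k _
      rw [mul_inv]
    rw [Finset.sum_congr rfl h1, ← Finset.mul_sum, div_eq_inv_mul]
    exact mul_le_mul_of_nonneg_left (N05_harm K hKY) (by positivity)
  have hA0 : 0 ≤ (1 + Real.log (1 + Y)) / (m : ℝ) ^ 2 := by positivity
  have hone : ((m : ℝ) ^ 2)⁻¹ ≤ (1 + Real.log (1 + Y)) / (m : ℝ) ^ 2 := by
    rw [inv_eq_one_div]
    exact div_le_div_of_nonneg_right (by linarith) hm2.le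
  have hks : ∀ k : ℕ, (k : ℝ) + 1 ≤ ((k : ℝ) + 1) * s := fun k => le_mul_of_one_le_right (by positivity) hs
  rcases le_or_gt n m with hnm | hnm
  · -- n at most m
    have h1 : ∀ k ∈ Finset.range K, VV Y n m (((k : ℝ) + 1) * s) ≤ ((m : ℝ) ^ 2 * ((k : ℝ) + 1))⁻¹ := by
      intro k _
      have h2 := hks k
      have h3 : (m : ℝ) ^ 2 * ((k : ℝ) + 1) ≤ (m : ℝ) ^ 2 * (((k : ℝ) + 1) * s) :=
        mul_le_mul_of_nonneg_left h2 hm2.le
      have h4 : (0 : ℝ) < (m : ℝ) ^ 2 * ((k : ℝ) + 1) := by positivity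
      unfold VV
      rcases eq_or_lt_of_le hnm with h5 | h5
      · rw [if_pos h5, h5]
        exact inv_anti₀ h4 h3
      · rw [if_neg (by omega), if_pos h5]
        refine inv_anti₀ h4 (h3.trans ?_)
        have h6 : (n : ℝ) < m := by exact_mod_cast h5
        have h7 : (0 : ℝ) ≤ (m : ℝ) ^ 2 - (n : ℝ) ^ 2 := by nlinarith
        have h8 : (0 : ℝ) ≤ ((m : ℝ) ^ 2 - (n : ℝ) ^ 2) * Y := by positivity
        linarith
    refine (Finset.sum_le_sum h1).trans (hH.trans ?_)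
    linarith
  · -- m less than n
    have hnm' : (m : ℝ) < n := by exact_mod_cast hnm
    obtain ⟨D, hD⟩ : ∃ D : ℝ, D = (n : ℝ) ^ 2 - (m : ℝ) ^ 2 := ⟨_, rfl⟩
    have hD0 : 0 < D := by
      rw [hD]
      nlinarith
    have hY0 : 0 < Y := by linarith
    have h1 : ∀ k ∈ Finset.range K, VV Y n m (((k : ℝ) + 1) * s) ≤
        (if 2 * (m : ℝ) ^ 2 * (((k : ℝ) + 1) * s) ≤ D * Y then (D * Y)⁻¹ else 0) + ((m : ℝ) ^ 2 * ((k : ℝ) + 1))⁻¹ +
        (if D * Y < 2 * (m : ℝ) ^ 2 * (((k : ℝ) + 1) * s) ∧ (m : ℝ) ^ 2 * (((k : ℝ) + 1) * s) < 4 * D * Y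
          then (√D)⁻¹ else 0) := by
      intro k _
      have h2 := hks k
      have h3 : (m : ℝ) ^ 2 * ((k : ℝ) + 1) ≤ (m : ℝ) ^ 2 * (((k : ℝ) + 1) * s) :=
        mul_le_mul_of_nonneg_left h2 hm2.le
      have h4 : (0 : ℝ) < (m : ℝ) ^ 2 * ((k : ℝ) + 1) := by positivity
      have h4' : (0 : ℝ) ≤ ((m : ℝ) ^ 2 * ((k : ℝ) + 1))⁻¹ := by positivity
      unfold VV
      rw [if_neg (by omega), if_neg (by omega), ← hD]
      by_cases c1 : 2 * (m : ℝ) ^ 2 * (((k : ℝ) + 1) * s) ≤ D * Y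
      · rw [if_pos c1, if_pos c1, if_neg (fun h => absurd c1 (not_le.2 h.1))]
        linarith
      · rw [if_neg c1, if_neg c1]
        by_cases c2 : 4 * D * Y ≤ (m : ℝ) ^ 2 * (((k : ℝ) + 1) * s)
        · rw [if_pos c2, if_neg (fun h => absurd c2 (not_le.2 h.2))]
          have h5 := inv_anti₀ h4 h3
          linarith
        · rw [if_neg c2, if_pos ⟨not_le.1 c1, not_le.1 c2⟩]
          linarith
    refine (Finset.sum_le_sum h1).trans ?_
    rw [Finset.sum_add_distrib, Finset.sum_add_distrib]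
    have hs1 : ∑ k ∈ Finset.range K, (if 2 * (m : ℝ) ^ 2 * (((k : ℝ) + 1) * s) ≤ D * Y then (D * Y)⁻¹ else 0) ≤
        D * Y / (2 * (m : ℝ) ^ 2) * (D * Y)⁻¹ := by
      refine N05_count K (by positivity) (by positivity) _ ?_
      intro k _ hk
      rw [le_div_iff₀ (by positivity)]
      have h2 := mul_le_mul_of_nonneg_left (hks k) (by positivity : (0 : ℝ) ≤ 2 * (m : ℝ) ^ 2)
      linarith
    have hs1' : D * Y / (2 * (m : ℝ) ^ 2) * (D * Y)⁻¹ ≤ ((m : ℝ) ^ 2)⁻¹ := by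
      have h2 : D * Y / (2 * (m : ℝ) ^ 2) * (D * Y)⁻¹ = (2 * (m : ℝ) ^ 2)⁻¹ := by
        field_simp
      rw [h2]
      exact inv_anti₀ hm2 (by linarith)
    have hs3 : ∑ k ∈ Finset.range K, (if D * Y < 2 * (m : ℝ) ^ 2 * (((k : ℝ) + 1) * s) ∧
        (m : ℝ) ^ 2 * (((k : ℝ) + 1) * s) < 4 * D * Y then (√D)⁻¹ else 0) ≤
        8 * if m < n ∧ n < 2 * m then Y / m else 0 := by
      by_cases c : n < 2 * m
      · rw [if_pos ⟨hnm, c⟩]
        have h2 : ∑ k ∈ Finset.range K, (if D * Y < 2 * (m : ℝ) ^ 2 * (((k : ℝ) + 1) * s) ∧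
            (m : ℝ) ^ 2 * (((k : ℝ) + 1) * s) < 4 * D * Y then (√D)⁻¹ else 0) ≤
            4 * D * Y / (m : ℝ) ^ 2 * (√D)⁻¹ := by
          refine N05_count K (by positivity) (by positivity) _ ?_
          intro k _ hk
          rw [le_div_iff₀ hm2]
          have h2 := mul_le_mul_of_nonneg_left (hks k) hm2.le
          linarith [hk.2]
        refine h2.trans ?_
        have h3 : √D ≤ 2 * m := by
          rw [Real.sqrt_le_left (by positivity)]
          have h4 : (n : ℝ) < 2 * m := by exact_mod_cast c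
          rw [hD]
          nlinarith
        have h4 : D * (√D)⁻¹ = √D := by
          have h5 : √D * √D = D := Real.mul_self_sqrt hD0.le
          have h6 : √D ≠ 0 := (Real.sqrt_pos.2 hD0).ne'
          rw [← div_eq_mul_inv, div_eq_iff h6, h5]
        have h5 : 4 * D * Y / (m : ℝ) ^ 2 * (√D)⁻¹ = 4 * Y / (m : ℝ) ^ 2 * (D * (√D)⁻¹) := by ring
        rw [h5, h4]
        have h6 : 4 * Y / (m : ℝ) ^ 2 * √D ≤ 4 * Y / (m : ℝ) ^ 2 * (2 * m) :=
          mul_le_mul_of_nonneg_left h3 (by positivity)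
        refine h6.trans (le_of_eq ?_)
        field_simp
        ring
      · rw [if_neg (fun h => c h.2), mul_zero]
        refine le_of_eq (Finset.sum_eq_zero fun k hk => ?_)
        refine if_neg fun h => ?_
        have h2 : (2 : ℝ) * m ≤ n := by exact_mod_cast not_lt.1 c
        have h3 : 3 * (m : ℝ) ^ 2 ≤ D := by
          rw [hD]
          nlinarith
        have h4 : (k : ℝ) + 1 ≤ K := by
          have := Finset.mem_range.1 hk
          exact_mod_cast this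
        have h5 : ((k : ℝ) + 1) * s ≤ Y := le_trans (mul_le_mul_of_nonneg_right h4 (by linarith)) hK
        have h6 : 3 * (m : ℝ) ^ 2 * Y ≤ D * Y := mul_le_mul_of_nonneg_right h3 hY0.le
        have h7 : 2 * (m : ℝ) ^ 2 * (((k : ℝ) + 1) * s) ≤ 2 * (m : ℝ) ^ 2 * Y :=
          mul_le_mul_of_nonneg_left h5 (by positivity)
        have h8 : 0 < (m : ℝ) ^ 2 * Y := by positivity
        linarith [h.1]
    rw [mul_add]
    linarith

end NH
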