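import Pool.Agent.Lib.MP_0f5a55_nt.NH.N04
import Pool.Agent.Lib.MP_0f5a55_nt.NH.N05

open Complex MeasureTheory Set Filter Topology
open scoped Real ComplexConjugate

namespace NH

/-- the terms of the series of GG -/
noncomputable def N06_g (q : ℕ) (f : ℕ → ℂ) (p : ℕ) (ε : ℝ) (n : ℕ) (y : ℝ) : ℂ :=
  f (n + 1) * (((am p (π * Real.sin ε / q) ((n : ℝ) + 1) y : ℝ) : ℂ) *
    exp (((-(π * Real.cos ε / q) * ((((n : ℝ) + 1) * y) ^ 2) : ℝ) : ℂ) * I))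

theorem N06_zp (ε y : ℝ) : TT.zp ε y = (y * Real.sin ε : ℝ) + (y * Real.cos ε : ℝ) * I := by
  unfold TT.zp
  rw [exp_mul_I, ← ofReal_cos, ← ofReal_sin, Real.cos_pi_div_two_sub, Real.sin_pi_div_two_sub]
  push_cast
  ring

theorem N06_GG (q : ℕ) (f : ℕ → ℂ) (p : ℕ) (ε y : ℝ) :
    GG q f p ε y = ∑' n : ℕ, N06_g q f p ε n y := by
  unfold GG TT.th
  rw [← tsum_mul_left]
  apply tsum_congr
  intro n
  unfold N06_g am
  rw [N06_zp]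
  have h1 : exp (-(π * ((n : ℂ) + 1) ^ 2 * (((y ^ 2 * Real.sin ε : ℝ) : ℂ) +
      ((y ^ 2 * Real.cos ε : ℝ) : ℂ) * I) / q)) =
      ((Real.exp (-(π * Real.sin ε / q * (((n : ℝ) + 1) * y) ^ 2)) : ℝ) : ℂ) *
      exp (((-(π * Real.cos ε / q) * ((((n : ℝ) + 1) * y) ^ 2) : ℝ) : ℂ) * I) := by
    rw [ofReal_exp, ← Complex.exp_add]
    congr 1
    push_cast
    ring
  rw [h1]
  generalize exp (((-(π * Real.cos ε / q) * ((((n : ℝ) + 1) * y) ^ 2) : ℝ) : ℂ) * I) = E2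
  rw [ofReal_mul ((((n : ℝ) + 1) * y) ^ p)]
  generalize ((Real.exp (-(π * Real.sin ε / q * (((n : ℝ) + 1) * y) ^ 2)) : ℝ) : ℂ) = E1
  rw [ofReal_pow, ofReal_mul, mul_pow]
  push_cast
  ring

theorem N06_norm {q : ℕ} {f : ℕ → ℂ} (hf : ∀ n, ‖f n‖ ≤ 1) (p : ℕ) (ε : ℝ) (n : ℕ) {y : ℝ}
    (hy : 0 ≤ y) : ‖N06_g q f p ε n y‖ ≤ am p (π * Real.sin ε / q) ((n : ℝ) + 1) y := by
  unfold N06_g
  have h0 : 0 ≤ am p (π * Real.sin ε / q) ((n : ℝ) + 1) y := am_nonneg p (by positivity) hy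
  rw [norm_mul, norm_mul, Complex.norm_exp_ofReal_mul_I, mul_one, Complex.norm_real,
    Real.norm_of_nonneg h0]
  calc ‖f (n + 1)‖ * am p (π * Real.sin ε / q) ((n : ℝ) + 1) y
      ≤ 1 * am p (π * Real.sin ε / q) ((n : ℝ) + 1) y :=
        mul_le_mul_of_nonneg_right (hf (n + 1)) h0
    _ = _ := one_mul _

theorem N06_gcont (q : ℕ) (f : ℕ → ℂ) (p : ℕ) (ε : ℝ) (n : ℕ) :
    Continuous (N06_g q f p ε n) := by
  unfold N06_g am
  fun_prop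

theorem N06_c {q : ℕ} [NeZero q] {ε : ℝ} (h0 : 0 < ε) (h1 : ε ≤ 1 / 2) :
    2 * ε / q ≤ π * Real.sin ε / q ∧ 0 < π * Real.sin ε / q := by
  have hq : (0 : ℝ) < q := Nat.cast_pos.2 (Nat.pos_of_ne_zero (NeZero.ne q))
  have hs : 2 / π * ε ≤ Real.sin ε := Real.mul_le_sin h0.le (by linarith [Real.pi_gt_three])
  have hpi := Real.pi_pos
  have h2 : 2 * ε ≤ π * Real.sin ε := by
    calc 2 * ε = π * (2 / π * ε) := by field_simp
      _ ≤ _ := mul_le_mul_of_nonneg_left hs hpi.le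
  have h3 : 2 * ε / q ≤ π * Real.sin ε / q := by gcongr
  exact ⟨h3, lt_of_lt_of_le (by positivity) h3⟩

theorem N06_e {q : ℕ} [NeZero q] {ε : ℝ} (h0 : 0 < ε) (h1 : ε ≤ 1 / 2) :
    π / (2 * q) ≤ |-(π * Real.cos ε / q)| := by
  have hq : (0 : ℝ) < q := Nat.cast_pos.2 (Nat.pos_of_ne_zero (NeZero.ne q))
  have hpi := Real.pi_pos
  have hc : 1 / 2 ≤ Real.cos ε := by
    have := Real.one_sub_sq_div_two_le_cos (x := ε)
    nlinarith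
  rw [abs_neg, abs_of_nonneg (by positivity)]
  rw [div_le_div_iff₀ (by positivity) hq]
  nlinarith [mul_pos hpi hq]

/-- the power of c -/
theorem N06_cp {q : ℕ} [NeZero q] (p : ℕ) {ε : ℝ} (h0 : 0 < ε) (h1 : ε ≤ 1 / 2) :
    ((√(π * Real.sin ε / q) ^ p)⁻¹) ^ 2 ≤ ((q : ℝ) / 2) ^ p * ε ^ (-(p : ℝ)) := by
  have hq : (0 : ℝ) < q := Nat.cast_pos.2 (Nat.pos_of_ne_zero (NeZero.ne q))
  obtain ⟨hc, hc0⟩ := N06_c (q := q) h0 h1
  rw [Real.rpow_neg h0.le, Real.rpow_natCast, ← inv_pow, ← inv_pow, ← pow_mul, mul_comm p 2,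
    pow_mul, inv_pow, Real.sq_sqrt hc0.le, ← mul_pow]
  apply pow_le_pow_left₀ (by positivity)
  calc (π * Real.sin ε / q)⁻¹ ≤ (2 * ε / q)⁻¹ := inv_anti₀ (by positivity) hc
    _ = _ := by field_simp

theorem N06_term_eq (q : ℕ) (f : ℕ → ℂ) (p : ℕ) (ε : ℝ) (n m : ℕ) (y h : ℝ) :
    N06_g q f p ε n y * conj (N06_g q f p ε m (y + h)) =
      (f (n + 1) * conj (f (m + 1))) *
        (((am p (π * Real.sin ε / q) ((n + 1 : ℕ) : ℝ) y *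
          am p (π * Real.sin ε / q) ((m + 1 : ℕ) : ℝ) (y + h) : ℝ) : ℂ) *
        exp (((-(π * Real.cos ε / q) * ((((n + 1 : ℕ) : ℝ) * y) ^ 2 -
          (((m + 1 : ℕ) : ℝ) * (y + h)) ^ 2) : ℝ) : ℂ) * I)) := by
  unfold N06_g
  have h1 : exp (((-(π * Real.cos ε / q) * ((((n + 1 : ℕ) : ℝ) * y) ^ 2 -
          (((m + 1 : ℕ) : ℝ) * (y + h)) ^ 2) : ℝ) : ℂ) * I) =
      exp (((-(π * Real.cos ε / q) * ((((n : ℝ) + 1) * y) ^ 2) : ℝ) : ℂ) * I) *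
      exp (-(((-(π * Real.cos ε / q) * ((((m : ℝ) + 1) * (y + h)) ^ 2) : ℝ) : ℂ) * I)) := by
    rw [← Complex.exp_add]
    congr 1
    push_cast
    ring
  have h2 : conj (exp (((-(π * Real.cos ε / q) * ((((m : ℝ) + 1) * (y + h)) ^ 2) : ℝ) : ℂ) * I)) =
      exp (-(((-(π * Real.cos ε / q) * ((((m : ℝ) + 1) * (y + h)) ^ 2) : ℝ) : ℂ) * I)) := by
    rw [← Complex.exp_conj, map_mul, conj_ofReal, conj_I]
    congr 1
    ring
  rw [h1, map_mul, map_mul, h2, conj_ofReal]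
  push_cast
  ring

/-- termwise integration -/
theorem N06_hasSum {q : ℕ} [NeZero q] {f : ℕ → ℂ} (hf : ∀ n, ‖f n‖ ≤ 1) (p : ℕ) {ε : ℝ}
    (h0 : 0 < ε) (h1 : ε ≤ 1 / 2) {Y : ℝ} (hY : 0 < Y) {A B h : ℝ} (hA : Y ≤ A) (hAB : A ≤ B)
    (hB : B + h ≤ 2 * Y) (hh : 0 ≤ h) :
    HasSum (fun x : ℕ × ℕ => ∫ y in A..B, N06_g q f p ε x.1 y * conj (N06_g q f p ε x.2 (y + h)))
      (∫ y in A..B, GG q f p ε y * conj (GG q f p ε (y + h))) := by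
  obtain ⟨C, hC, hamp⟩ := amp p
  obtain ⟨-, hc0⟩ := N06_c (q := q) h0 h1
  set c := π * Real.sin ε / q with hc
  obtain ⟨hws, -⟩ := wt_sum hc0 hY
  have hK : Summable (fun n : ℕ => C * (√c ^ p)⁻¹ * wt c Y ((n : ℝ) + 1)) := hws.mul_left _
  have hKn : ∀ n : ℕ, 0 ≤ C * (√c ^ p)⁻¹ * wt c Y ((n : ℝ) + 1) := fun n => by
    have := wt_pos (Y := Y) (n := (n : ℝ) + 1) hc0
    positivity
  have hg : ∀ n : ℕ, ∀ y : ℝ, Y ≤ y → y ≤ 2 * Y →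
      ‖N06_g q f p ε n y‖ ≤ C * (√c ^ p)⁻¹ * wt c Y ((n : ℝ) + 1) := fun n y hy1 hy2 =>
    (N06_norm hf p ε n (hY.le.trans hy1)).trans
      (hamp c Y ((n : ℝ) + 1) y hc0 hY (by positivity) hy1 hy2).1
  have hKK : Summable (fun x : ℕ × ℕ => (C * (√c ^ p)⁻¹ * wt c Y ((x.1 : ℝ) + 1)) *
      (C * (√c ^ p)⁻¹ * wt c Y ((x.2 : ℝ) + 1))) :=
    hK.mul_of_nonneg hK hKn hKn
  apply intervalIntegral.hasSum_integral_of_dominated_convergence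
    (fun x _ => (C * (√c ^ p)⁻¹ * wt c Y ((x.1 : ℝ) + 1)) *
      (C * (√c ^ p)⁻¹ * wt c Y ((x.2 : ℝ) + 1)))
  · intro x
    apply Continuous.aestronglyMeasurable
    exact (N06_gcont q f p ε x.1).mul (Complex.continuous_conj.comp
      ((N06_gcont q f p ε x.2).comp (continuous_id.add continuous_const)))
  · intro x
    filter_upwards with y hy
    rw [uIoc_of_le hAB] at hy
    rw [norm_mul, RCLike.norm_conj]
    exact mul_le_mul (hg x.1 y (by linarith [hy.1]) (by linarith [hy.2]))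
      (hg x.2 (y + h) (by linarith [hy.1]) (by linarith [hy.2])) (norm_nonneg _) (hKn _)
  · filter_upwards with y _
    exact hKK
  · exact intervalIntegrable_const
  · filter_upwards with y hy
    rw [uIoc_of_le hAB] at hy
    have hs1 : Summable (fun n : ℕ => ‖N06_g q f p ε n y‖) :=
      Summable.of_nonneg_of_le (fun n => norm_nonneg _)
        (fun n => hg n y (by linarith [hy.1]) (by linarith [hy.2])) hK
    have hs2 : Summable (fun n : ℕ => ‖conj (N06_g q f p ε n (y + h))‖) :=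
      Summable.of_nonneg_of_le (fun n => norm_nonneg _)
        (fun n => by
          rw [RCLike.norm_conj]
          exact hg n (y + h) (by linarith [hy.1]) (by linarith [hy.2])) hK
    rw [N06_GG, N06_GG, Complex.conj_tsum, tsum_mul_tsum_of_summable_norm hs1 hs2]
    exact (summable_mul_of_summable_norm hs1 hs2).hasSum

/-- one term -/
theorem N06_term {q : ℕ} [NeZero q] {f : ℕ → ℂ} (hf : ∀ n, ‖f n‖ ≤ 1) (p : ℕ) : ∃ C : ℝ, 0 < C ∧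
    ∀ ε Y : ℝ, 0 < ε → ε ≤ 1 / 2 → 0 < Y → ∀ n m : ℕ, ∀ A B h : ℝ, Y ≤ A → A ≤ B →
      B + h ≤ 2 * Y → 0 ≤ h → (n ≠ m ∨ 0 < h) →
      ‖∫ y in A..B, N06_g q f p ε n y * conj (N06_g q f p ε m (y + h))‖ ≤
        C * ε ^ (-(p : ℝ)) * (wt (π * Real.sin ε / q) Y ((n : ℝ) + 1) *
          wt (π * Real.sin ε / q) Y ((m : ℝ) + 1) * VV Y (n + 1) (m + 1) h) := by
  have hq : (0 : ℝ) < q := Nat.cast_pos.2 (Nat.pos_of_ne_zero (NeZero.ne q))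
  obtain ⟨C, hC, hterm⟩ := term p (e0 := π / (2 * q)) (by positivity)
  refine ⟨C * ((q : ℝ) / 2) ^ p, by positivity, ?_⟩
  intro ε Y h0 h1 hY n m A B h hA hAB hB hh hnm
  obtain ⟨-, hc0⟩ := N06_c (q := q) h0 h1
  have h2 := hterm (π * Real.sin ε / q) (-(π * Real.cos ε / q)) Y hc0 (N06_e h0 h1) hY (n + 1)
    (m + 1) n.succ_pos m.succ_pos A B h hA hAB hB hh (by
      rcases hnm with hnm | hnm
      · left
        omega
      · right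
        exact hnm)
  have h3 : ∀ y : ℝ, N06_g q f p ε n y * conj (N06_g q f p ε m (y + h)) =
      (f (n + 1) * conj (f (m + 1))) * (((am p (π * Real.sin ε / q) ((n + 1 : ℕ) : ℝ) y *
          am p (π * Real.sin ε / q) ((m + 1 : ℕ) : ℝ) (y + h) : ℝ) : ℂ) *
        exp (((-(π * Real.cos ε / q) * ((((n + 1 : ℕ) : ℝ) * y) ^ 2 -
          (((m + 1 : ℕ) : ℝ) * (y + h)) ^ 2) : ℝ) : ℂ) * I)) :=
    fun y => N06_term_eq q f p ε n m y h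
  simp_rw [h3]
  rw [intervalIntegral.integral_const_mul, norm_mul, norm_mul, RCLike.norm_conj]
  have hwn := wt_pos (Y := Y) (n := (n : ℝ) + 1) hc0
  have hwm := wt_pos (Y := Y) (n := (m : ℝ) + 1) hc0
  have hV := VV_nonneg hY.le (n + 1) (m + 1) hh
  calc ‖f (n + 1)‖ * ‖f (m + 1)‖ * _ ≤ 1 * 1 * _ := by
        apply mul_le_mul_of_nonneg_right _ (norm_nonneg _)
        exact mul_le_mul (hf _) (hf _) (norm_nonneg _) zero_le_one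
    _ ≤ _ := by
        rw [one_mul, one_mul]
        apply h2.trans
        push_cast
        calc C * ((√(π * Real.sin ε / q) ^ p)⁻¹) ^ 2 * (wt (π * Real.sin ε / q) Y ((n : ℝ) + 1) *
              wt (π * Real.sin ε / q) Y ((m : ℝ) + 1)) * VV Y (n + 1) (m + 1) h
            ≤ C * (((q : ℝ) / 2) ^ p * ε ^ (-(p : ℝ))) * (wt (π * Real.sin ε / q) Y ((n : ℝ) + 1) *
              wt (π * Real.sin ε / q) Y ((m : ℝ) + 1)) * VV Y (n + 1) (m + 1) h := by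
              gcongr
              exact N06_cp p h0 h1
          _ = _ := by ring

theorem N06_VV_le {Y : ℝ} (hY : 1 ≤ Y) (n m : ℕ) {h : ℝ} (hh : 0 < h) :
    VV Y (n + 1) (m + 1) h ≤ 1 + h⁻¹ := by
  have hh' : 0 ≤ h⁻¹ := by positivity
  have hn1 : (1 : ℝ) ≤ ((n + 1 : ℕ) : ℝ) := by
    push_cast
    linarith [Nat.cast_nonneg (α := ℝ) n]
  have hm1 : (1 : ℝ) ≤ ((m + 1 : ℕ) : ℝ) := by
    push_cast
    linarith [Nat.cast_nonneg (α := ℝ) m]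
  unfold VV
  generalize hN : n + 1 = N at *
  generalize hM : m + 1 = M at *
  split_ifs with h1 h2 h3 h4
  · have : ((N : ℝ) ^ 2 * h)⁻¹ ≤ h⁻¹ :=
      inv_anti₀ hh (le_mul_of_one_le_left hh.le (one_le_pow₀ hn1))
    linarith
  · have hNM : (N : ℝ) ≤ M := by exact_mod_cast h2.le
    have : ((M : ℝ) ^ 2 * h + ((M : ℝ) ^ 2 - (N : ℝ) ^ 2) * Y)⁻¹ ≤ h⁻¹ := by
      apply inv_anti₀ hh
      have h5 : 0 ≤ ((M : ℝ) ^ 2 - (N : ℝ) ^ 2) * Y := by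
        apply mul_nonneg _ (by linarith)
        nlinarith
      have h6 : h ≤ (M : ℝ) ^ 2 * h := le_mul_of_one_le_left hh.le (one_le_pow₀ hm1)
      linarith
    linarith
  · have hNM : (M : ℝ) + 1 ≤ N := by
      have : M + 1 ≤ N := by omega
      exact_mod_cast this
    have h5 : 1 ≤ (N : ℝ) ^ 2 - (M : ℝ) ^ 2 := by nlinarith
    have : (((N : ℝ) ^ 2 - (M : ℝ) ^ 2) * Y)⁻¹ ≤ 1 := by
      apply inv_le_one_of_one_le₀
      nlinarith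
    linarith
  · have : ((M : ℝ) ^ 2 * h)⁻¹ ≤ h⁻¹ :=
      inv_anti₀ hh (le_mul_of_one_le_left hh.le (one_le_pow₀ hm1))
    linarith
  · have hNM : (M : ℝ) + 1 ≤ N := by
      have : M + 1 ≤ N := by omega
      exact_mod_cast this
    have h5 : 1 ≤ (N : ℝ) ^ 2 - (M : ℝ) ^ 2 := by nlinarith
    have : (√((N : ℝ) ^ 2 - (M : ℝ) ^ 2))⁻¹ ≤ 1 := by
      apply inv_le_one_of_one_le₀
      rw [Real.one_le_sqrt]
      exact h5
    linarith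

/-- Row N06. Correlations of G, expanded. c = pi sin(ε)/q. -/
theorem corr {q : ℕ} [NeZero q] {f : ℕ → ℂ} (hf : ∀ n, ‖f n‖ ≤ 1) (p : ℕ) : ∃ C : ℝ, 0 < C ∧
    ∀ ε Y : ℝ, 0 < ε → ε ≤ 1 / 2 → 1 ≤ Y → ∀ A B h : ℝ, Y ≤ A → A ≤ B → B + h ≤ 2 * Y → 0 < h →
      Summable (fun x : ℕ × ℕ => wt (π * Real.sin ε / q) Y ((x.1 : ℝ) + 1) *
        wt (π * Real.sin ε / q) Y ((x.2 : ℝ) + 1) * VV Y (x.1 + 1) (x.2 + 1) h) ∧
      ‖∫ y in A..B, GG q f p ε y * conj (GG q f p ε (y + h))‖ ≤ C * ε ^ (-(p : ℝ)) *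
        ∑' x : ℕ × ℕ, wt (π * Real.sin ε / q) Y ((x.1 : ℝ) + 1) *
          wt (π * Real.sin ε / q) Y ((x.2 : ℝ) + 1) * VV Y (x.1 + 1) (x.2 + 1) h := by
  obtain ⟨C, hC, hterm⟩ := N06_term (q := q) hf p
  refine ⟨C, hC, ?_⟩
  intro ε Y h0 h1 hY A B h hA hAB hB hh
  obtain ⟨-, hc0⟩ := N06_c (q := q) h0 h1
  have hY0 : 0 < Y := by linarith
  have hterm' := fun n m : ℕ => hterm ε Y h0 h1 hY0 n m A B h hA hAB hB hh.le (Or.inr hh)
  have hsum := N06_hasSum (q := q) hf p h0 h1 hY0 hA hAB hB hh.le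
  set c := π * Real.sin ε / q with hc
  obtain ⟨hws, -⟩ := wt_sum hc0 hY0
  have hw0 : ∀ n : ℕ, 0 ≤ wt c Y ((n : ℝ) + 1) := fun n => (wt_pos hc0).le
  have hS : Summable (fun x : ℕ × ℕ => wt c Y ((x.1 : ℝ) + 1) *
        wt c Y ((x.2 : ℝ) + 1) * VV Y (x.1 + 1) (x.2 + 1) h) := by
    have h2 : Summable (fun x : ℕ × ℕ => wt c Y ((x.1 : ℝ) + 1) *
        wt c Y ((x.2 : ℝ) + 1) * (1 + h⁻¹)) := (hws.mul_of_nonneg hws hw0 hw0).mul_right _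
    apply Summable.of_nonneg_of_le _ _ h2
    · intro x
      exact mul_nonneg (mul_nonneg (hw0 _) (hw0 _)) (VV_nonneg hY0.le _ _ hh.le)
    · intro x
      exact mul_le_mul_of_nonneg_left (N06_VV_le hY x.1 x.2 hh) (mul_nonneg (hw0 _) (hw0 _))
  refine ⟨hS, ?_⟩
  exact hsum.norm_le_of_bounded (hS.hasSum.mul_left (C * ε ^ (-(p : ℝ))))
    (fun x => hterm' x.1 x.2)

/-- the off-diagonal weights -/
theorem N06_VV0 {Y : ℝ} (hY : 1 ≤ Y) {n m : ℕ} (hnm : n ≠ m) :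
    VV Y (n + 1) (m + 1) 0 ≤ Y⁻¹ * ((((n : ℤ) - (m : ℤ) : ℤ) : ℝ) ^ 2)⁻¹ := by
  have hY0 : 0 < Y := by linarith
  have h1 : ¬ (n + 1 = m + 1) := by omega
  have hnm' : ((((n : ℤ) - (m : ℤ) : ℤ) : ℝ) ^ 2) ≠ 0 := by
    apply pow_ne_zero
    rw [Int.cast_ne_zero]
    omega
  have hpos : 0 < ((((n : ℤ) - (m : ℤ) : ℤ) : ℝ) ^ 2) := by positivity
  have hn0 : (0 : ℝ) ≤ n := Nat.cast_nonneg n
  have hm0 : (0 : ℝ) ≤ m := Nat.cast_nonneg m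
  unfold VV
  rw [if_neg h1, ← mul_inv]
  split_ifs with h2 h3 h4
  · have h5 : (n : ℝ) + 1 ≤ m := by
      have : n + 1 ≤ m := by omega
      exact_mod_cast this
    apply inv_anti₀ (by positivity)
    push_cast
    have h6 : ((n : ℝ) - m) ^ 2 ≤ ((m : ℝ) + 1) ^ 2 - ((n : ℝ) + 1) ^ 2 := by nlinarith
    nlinarith
  · have h5 : (m : ℝ) + 1 ≤ n := by
      have : m + 1 ≤ n := by omega
      exact_mod_cast this
    apply inv_anti₀ (by positivity)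
    push_cast
    have h6 : ((n : ℝ) - m) ^ 2 ≤ ((n : ℝ) + 1) ^ 2 - ((m : ℝ) + 1) ^ 2 := by nlinarith
    nlinarith
  · exfalso
    apply h3
    rw [mul_zero]
    have h5 : (m : ℝ) + 1 ≤ n := by
      have : m + 1 ≤ n := by omega
      exact_mod_cast this
    push_cast
    apply mul_nonneg _ hY0.le
    nlinarith
  · exfalso
    apply h3
    rw [mul_zero]
    have h5 : (m : ℝ) + 1 ≤ n := by
      have : m + 1 ≤ n := by omega
      exact_mod_cast this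
    push_cast
    apply mul_nonneg _ hY0.le
    nlinarith

/-- the row sums of the majorant -/
theorem N06_row {Y : ℝ} (hY : 1 ≤ Y) (n : ℕ) :
    Summable (fun m : ℕ => (if n = m then Y else 0) +
      Y⁻¹ * ((((n : ℤ) - (m : ℤ) : ℤ) : ℝ) ^ 2)⁻¹) ∧
    ∑' m : ℕ, ((if n = m then Y else 0) + Y⁻¹ * ((((n : ℤ) - (m : ℤ) : ℤ) : ℝ) ^ 2)⁻¹) ≤
      (1 + ∑' k : ℤ, ((k : ℝ) ^ 2)⁻¹) * Y := by
  have hY0 : 0 < Y := by linarith
  have hZ : Summable (fun k : ℤ => ((k : ℝ) ^ 2)⁻¹) := by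
    have := (Real.summable_one_div_int_pow (p := 2)).2 (by norm_num)
    simpa [one_div] using this
  have hZ0 : ∀ k : ℤ, 0 ≤ ((k : ℝ) ^ 2)⁻¹ := fun k => by positivity
  have hinj : Function.Injective (fun m : ℕ => (n : ℤ) - (m : ℤ)) := by
    intro a b hab
    simp only at hab
    omega
  have h1 : Summable (fun m : ℕ => ((((n : ℤ) - (m : ℤ) : ℤ) : ℝ) ^ 2)⁻¹) :=
    hZ.comp_injective hinj
  have h2 : ∑' m : ℕ, ((((n : ℤ) - (m : ℤ) : ℤ) : ℝ) ^ 2)⁻¹ ≤ ∑' k : ℤ, ((k : ℝ) ^ 2)⁻¹ :=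
    tsum_comp_le_tsum_of_inj hZ hZ0 hinj
  have h3 : HasSum (fun m : ℕ => if n = m then Y else 0) Y := by
    have h6 := hasSum_ite_eq n Y
    simpa [eq_comm] using h6
  have h4 : 0 ≤ ∑' k : ℤ, ((k : ℝ) ^ 2)⁻¹ := tsum_nonneg hZ0
  refine ⟨h3.summable.add (h1.mul_left _), ?_⟩
  rw [Summable.tsum_add h3.summable (h1.mul_left _), h3.tsum_eq, tsum_mul_left]
  have h5 : Y⁻¹ ≤ 1 := inv_le_one_of_one_le₀ hY
  calc Y + Y⁻¹ * ∑' m : ℕ, ((((n : ℤ) - (m : ℤ) : ℤ) : ℝ) ^ 2)⁻¹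
      ≤ Y + 1 * ∑' k : ℤ, ((k : ℝ) ^ 2)⁻¹ := by gcongr
    _ ≤ (1 + ∑' k : ℤ, ((k : ℝ) ^ 2)⁻¹) * Y := by nlinarith

/-- the diagonal shift -/
theorem corr0 {q : ℕ} [NeZero q] {f : ℕ → ℂ} (hf : ∀ n, ‖f n‖ ≤ 1) (p : ℕ) : ∃ C : ℝ, 0 < C ∧
    ∀ ε Y : ℝ, 0 < ε → ε ≤ 1 / 2 → 1 ≤ Y → ∀ A B : ℝ, Y ≤ A → A ≤ B → B ≤ 2 * Y →
      ∫ y in A..B, ‖GG q f p ε y‖ ^ 2 ≤ C * ε ^ (-((p : ℝ) + 1 / 2)) := by
  have hq : (0 : ℝ) < q := Nat.cast_pos.2 (Nat.pos_of_ne_zero (NeZero.ne q))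
  obtain ⟨C, hC, hterm⟩ := N06_term (q := q) hf p
  obtain ⟨C1, hC1, hamp⟩ := amp p
  have hZ : 0 ≤ ∑' k : ℤ, ((k : ℝ) ^ 2)⁻¹ := tsum_nonneg fun k => by positivity
  refine ⟨(C + C1 ^ 2 * ((q : ℝ) / 2) ^ p) * ((1 + ∑' k : ℤ, ((k : ℝ) ^ 2)⁻¹) *
    (2 * √((q : ℝ) / 2))), by positivity, ?_⟩
  intro ε Y h0 h1 hY A B hA hAB hB
  obtain ⟨hc, hc0⟩ := N06_c (q := q) h0 h1
  have hcp := N06_cp (q := q) p h0 h1
  have hY0 : 0 < Y := by linarith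
  have hB' : B + 0 ≤ 2 * Y := by linarith
  have hsum := N06_hasSum (q := q) hf p h0 h1 hY0 hA hAB hB' le_rfl
  have hterm' := fun (n m : ℕ) (hnm : n ≠ m) =>
    hterm ε Y h0 h1 hY0 n m A B 0 hA hAB hB' le_rfl (Or.inl hnm)
  have hn := fun n : ℕ => fun y : ℝ => fun hy : 0 ≤ y => N06_norm (q := q) hf p ε n hy
  set c := π * Real.sin ε / q with hcdef
  obtain ⟨hws, hwt⟩ := wt_sum hc0 hY0
  have hw0 : ∀ n : ℕ, 0 ≤ wt c Y ((n : ℝ) + 1) := fun n => (wt_pos hc0).le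
  have hw1 : ∀ n : ℕ, wt c Y ((n : ℝ) + 1) ≤ 1 := fun n => wt_le_one hc0
  have hε : 0 < ε ^ (-(p : ℝ)) := Real.rpow_pos_of_pos h0 _
  have hs0 : ∀ n m : ℕ, 0 ≤ ((((n : ℤ) - (m : ℤ) : ℤ) : ℝ) ^ 2)⁻¹ := fun n m => by positivity
  have hψ0 : ∀ n m : ℕ, 0 ≤ (if n = m then Y else 0) +
      Y⁻¹ * ((((n : ℤ) - (m : ℤ) : ℤ) : ℝ) ^ 2)⁻¹ := by
    intro n m
    have := hs0 n m
    split_ifs <;> positivity
  -- bound of one term
  have hone : ∀ x : ℕ × ℕ,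
      ‖∫ y in A..B, N06_g q f p ε x.1 y * conj (N06_g q f p ε x.2 (y + 0))‖ ≤
      (C + C1 ^ 2 * ((q : ℝ) / 2) ^ p) * ε ^ (-(p : ℝ)) * (wt c Y ((x.1 : ℝ) + 1) *
        ((if x.1 = x.2 then Y else 0) + Y⁻¹ * ((((x.1 : ℤ) - (x.2 : ℤ) : ℤ) : ℝ) ^ 2)⁻¹)) := by
    rintro ⟨n, m⟩
    simp only
    by_cases hnm : n = m
    · subst hnm
      rw [if_pos rfl]
      have hK0 : 0 ≤ C1 * (√c ^ p)⁻¹ * wt c Y ((n : ℝ) + 1) := by
        have := hw0 n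
        positivity
      have h2 : ‖∫ y in A..B, N06_g q f p ε n y * conj (N06_g q f p ε n (y + 0))‖ ≤
          (C1 * (√c ^ p)⁻¹ * wt c Y ((n : ℝ) + 1)) ^ 2 * |B - A| := by
        apply intervalIntegral.norm_integral_le_of_norm_le_const
        intro y hy
        rw [uIoc_of_le hAB] at hy
        have h3 : ‖N06_g q f p ε n y‖ ≤ C1 * (√c ^ p)⁻¹ * wt c Y ((n : ℝ) + 1) :=
          (hn n y (by linarith [hy.1])).trans (hamp c Y ((n : ℝ) + 1) y hc0 hY0 (by positivity)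
            (by linarith [hy.1]) (by linarith [hy.2])).1
        rw [add_zero, norm_mul, RCLike.norm_conj, ← sq]
        exact pow_le_pow_left₀ (norm_nonneg _) h3 2
      have h4 : |B - A| ≤ Y := by
        rw [abs_of_nonneg (by linarith)]
        linarith
      have h5 : (wt c Y ((n : ℝ) + 1)) ^ 2 ≤ wt c Y ((n : ℝ) + 1) := by
        rw [sq]
        exact mul_le_of_le_one_left (hw0 n) (hw1 n)
      calc _ ≤ (C1 * (√c ^ p)⁻¹ * wt c Y ((n : ℝ) + 1)) ^ 2 * |B - A| := h2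
        _ ≤ (C1 * (√c ^ p)⁻¹ * wt c Y ((n : ℝ) + 1)) ^ 2 * Y := by gcongr
        _ = C1 ^ 2 * ((√c ^ p)⁻¹) ^ 2 * ((wt c Y ((n : ℝ) + 1)) ^ 2 * Y) := by ring
        _ ≤ C1 ^ 2 * (((q : ℝ) / 2) ^ p * ε ^ (-(p : ℝ))) * (wt c Y ((n : ℝ) + 1) * Y) := by
            gcongr
        _ = (C1 ^ 2 * ((q : ℝ) / 2) ^ p) * ε ^ (-(p : ℝ)) * (wt c Y ((n : ℝ) + 1) * Y) := by ring
        _ ≤ _ := by
            have h6 := hw0 n
            have h7 := hs0 n n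
            apply mul_le_mul
            · apply mul_le_mul_of_nonneg_right _ hε.le
              linarith
            · apply mul_le_mul_of_nonneg_left _ h6
              have : 0 ≤ Y⁻¹ * ((((n : ℤ) - (n : ℤ) : ℤ) : ℝ) ^ 2)⁻¹ := by positivity
              linarith
            · positivity
            · positivity
    · rw [if_neg hnm, zero_add]
      calc _ ≤ C * ε ^ (-(p : ℝ)) * (wt c Y ((n : ℝ) + 1) * wt c Y ((m : ℝ) + 1) *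
              VV Y (n + 1) (m + 1) 0) := hterm' n m hnm
        _ ≤ C * ε ^ (-(p : ℝ)) * (wt c Y ((n : ℝ) + 1) * 1 *
              (Y⁻¹ * ((((n : ℤ) - (m : ℤ) : ℤ) : ℝ) ^ 2)⁻¹)) := by
            have h6 := hw0 n
            have h7 := hw0 m
            have h8 := VV_nonneg hY0.le (n + 1) (m + 1) (le_refl (0 : ℝ))
            apply mul_le_mul_of_nonneg_left _ (by positivity)
            apply mul_le_mul _ (N06_VV0 hY hnm) h8 (by positivity)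
            exact mul_le_mul_of_nonneg_left (hw1 m) h6
        _ ≤ _ := by
            rw [mul_one]
            have h6 := hw0 n
            have h7 := hs0 n m
            apply mul_le_mul_of_nonneg_right _ (by positivity)
            apply mul_le_mul_of_nonneg_right _ hε.le
            have : 0 ≤ C1 ^ 2 * ((q : ℝ) / 2) ^ p := by positivity
            linarith
  -- the majorant is summable
  have hM0 : ∀ x : ℕ × ℕ, 0 ≤ wt c Y ((x.1 : ℝ) + 1) *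
        ((if x.1 = x.2 then Y else 0) + Y⁻¹ * ((((x.1 : ℤ) - (x.2 : ℤ) : ℤ) : ℝ) ^ 2)⁻¹) :=
    fun x => mul_nonneg (hw0 _) (hψ0 _ _)
  have hrow : ∀ n : ℕ, ∑' m : ℕ, wt c Y ((n : ℝ) + 1) *
        ((if n = m then Y else 0) + Y⁻¹ * ((((n : ℤ) - (m : ℤ) : ℤ) : ℝ) ^ 2)⁻¹) ≤
        wt c Y ((n : ℝ) + 1) * ((1 + ∑' k : ℤ, ((k : ℝ) ^ 2)⁻¹) * Y) := by
    intro n
    rw [tsum_mul_left]
    exact mul_le_mul_of_nonneg_left (N06_row hY n).2 (hw0 n)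
  have hwY : Summable (fun n : ℕ => wt c Y ((n : ℝ) + 1) *
      ((1 + ∑' k : ℤ, ((k : ℝ) ^ 2)⁻¹) * Y)) := hws.mul_right _
  have hrs : Summable (fun n : ℕ => ∑' m : ℕ, wt c Y ((n : ℝ) + 1) *
        ((if n = m then Y else 0) + Y⁻¹ * ((((n : ℤ) - (m : ℤ) : ℤ) : ℝ) ^ 2)⁻¹)) :=
    Summable.of_nonneg_of_le (fun n => tsum_nonneg fun m => hM0 (n, m)) hrow hwY
  have hM : Summable (fun x : ℕ × ℕ => wt c Y ((x.1 : ℝ) + 1) *
        ((if x.1 = x.2 then Y else 0) + Y⁻¹ * ((((x.1 : ℤ) - (x.2 : ℤ) : ℤ) : ℝ) ^ 2)⁻¹)) := by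
    rw [summable_prod_of_nonneg hM0]
    exact ⟨fun n => (N06_row hY n).1.mul_left (wt c Y ((n : ℝ) + 1)), hrs⟩
  have hMt : ∑' x : ℕ × ℕ, wt c Y ((x.1 : ℝ) + 1) *
        ((if x.1 = x.2 then Y else 0) + Y⁻¹ * ((((x.1 : ℤ) - (x.2 : ℤ) : ℤ) : ℝ) ^ 2)⁻¹) ≤
      (1 + ∑' k : ℤ, ((k : ℝ) ^ 2)⁻¹) * (2 * (√c)⁻¹) := by
    rw [hM.tsum_prod]
    calc _ ≤ ∑' n : ℕ, wt c Y ((n : ℝ) + 1) * ((1 + ∑' k : ℤ, ((k : ℝ) ^ 2)⁻¹) * Y) :=
          hrs.tsum_le_tsum hrow hwY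
      _ = (∑' n : ℕ, wt c Y ((n : ℝ) + 1)) * ((1 + ∑' k : ℤ, ((k : ℝ) ^ 2)⁻¹) * Y) :=
          tsum_mul_right
      _ ≤ (2 * (√c * Y)⁻¹) * ((1 + ∑' k : ℤ, ((k : ℝ) ^ 2)⁻¹) * Y) := by gcongr
      _ = _ := by
          have : √c ≠ 0 := (Real.sqrt_pos.2 hc0).ne'
          field_simp
  have hfin := hsum.norm_le_of_bounded (hM.hasSum.mul_left
    ((C + C1 ^ 2 * ((q : ℝ) / 2) ^ p) * ε ^ (-(p : ℝ)))) hone
  have hreal : ∫ y in A..B, GG q f p ε y * conj (GG q f p ε (y + 0)) =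
      ((∫ y in A..B, ‖GG q f p ε y‖ ^ 2 : ℝ) : ℂ) := by
    rw [← intervalIntegral.integral_ofReal]
    apply intervalIntegral.integral_congr
    intro y _
    simp only [add_zero]
    rw [Complex.mul_conj']
    push_cast
    rfl
  rw [hreal, Complex.norm_real] at hfin
  have hsc : (√c)⁻¹ ≤ √((q : ℝ) / 2) * ε ^ (-(1 / 2) : ℝ) := by
    rw [Real.rpow_neg h0.le, ← Real.sqrt_eq_rpow, ← Real.sqrt_inv, ← Real.sqrt_inv,
      ← Real.sqrt_mul (by positivity)]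
    apply Real.sqrt_le_sqrt
    calc c⁻¹ ≤ (2 * ε / q)⁻¹ := inv_anti₀ (by positivity) hc
      _ = _ := by field_simp
  have hexp : ε ^ (-((p : ℝ) + 1 / 2)) = ε ^ (-(p : ℝ)) * ε ^ (-(1 / 2) : ℝ) := by
    rw [← Real.rpow_add h0]
    congr 1
    ring
  calc ∫ y in A..B, ‖GG q f p ε y‖ ^ 2 ≤ ‖∫ y in A..B, ‖GG q f p ε y‖ ^ 2‖ := Real.le_norm_self _
    _ ≤ _ := hfin
    _ ≤ (C + C1 ^ 2 * ((q : ℝ) / 2) ^ p) * ε ^ (-(p : ℝ)) *
        ((1 + ∑' k : ℤ, ((k : ℝ) ^ 2)⁻¹) * (2 * (√((q : ℝ) / 2) * ε ^ (-(1 / 2) : ℝ)))) := by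
        apply mul_le_mul_of_nonneg_left _ (by positivity)
        apply hMt.trans
        gcongr
    _ = _ := by
        rw [hexp]
        ring

theorem GG_cont {q : ℕ} [NeZero q] {f : ℕ → ℂ} (hf : ∀ n, ‖f n‖ ≤ 1) (p : ℕ) {ε : ℝ} (h0 : 0 < ε)
    (h1 : ε ≤ 1 / 2) : ContinuousOn (GG q f p ε) (Ioi 0) := by
  obtain ⟨C, hC, hamp⟩ := amp p
  obtain ⟨-, hc0⟩ := N06_c (q := q) h0 h1
  intro y0 hy0
  have hy0' : (0 : ℝ) < y0 := hy0
  apply ContinuousAt.continuousWithinAt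
  set c := π * Real.sin ε / q with hc
  set Y := 2 * y0 / 3 with hYdef
  have hY : 0 < Y := by positivity
  have hnhds : Ioo Y (2 * Y) ∈ 𝓝 y0 := Ioo_mem_nhds (by rw [hYdef]; linarith) (by rw [hYdef]; linarith)
  have hK : Summable (fun n : ℕ => C * (√c ^ p)⁻¹ * wt c Y ((n : ℝ) + 1)) :=
    (wt_sum hc0 hY).1.mul_left _
  have h2 : ContinuousOn (fun y => ∑' n : ℕ, N06_g q f p ε n y) (Ioo Y (2 * Y)) := by
    apply continuousOn_tsum (fun n => (N06_gcont q f p ε n).continuousOn) hK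
    intro n y hy
    exact (N06_norm hf p ε n (hY.le.trans hy.1.le)).trans
      (hamp c Y ((n : ℝ) + 1) y hc0 hY (by positivity) hy.1.le hy.2.le).1
  have h3 : GG q f p ε = fun y => ∑' n : ℕ, N06_g q f p ε n y := funext fun y => N06_GG q f p ε y
  rw [h3]
  exact h2.continuousAt hnhds

end NH
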