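import Pool.Agent.Lib.MP_0f5a55_nt.NH.N01
import Pool.Agent.Lib.MP_0f5a55_nt.NH.N06

open Complex MeasureTheory Set Filter Topology
open scoped Real ComplexConjugate

namespace NH

/-- finite double sums against the weights -/
theorem N07_fin {a : ℕ → ℝ} (ha0 : ∀ n, 0 ≤ a n) (ha1 : ∀ n, a n ≤ 1) {V Y Ls Z : ℝ} (hY : 0 ≤ Y) (hL : 0 ≤ Ls)
    (hV : ∀ N, ∑ n ∈ Finset.range N, a n ≤ V)
    (hZ : ∀ N, ∑ m ∈ Finset.range N, (((m : ℝ) + 1) ^ 2)⁻¹ ≤ Z) (_hZ0 : 0 ≤ Z) (u : Finset (ℕ × ℕ)) :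
    ∑ x ∈ u, a x.1 * a x.2 * (Ls / ((x.2 : ℝ) + 1) ^ 2 +
      if x.2 + 1 < x.1 + 1 ∧ x.1 + 1 < 2 * (x.2 + 1) then Y / ((x.2 : ℝ) + 1) else 0) ≤ Ls * V * Z + Y * V := by
  have hV0 : 0 ≤ V := by simpa using hV 0
  obtain ⟨N, hN⟩ : ∃ N, u ⊆ Finset.range N ×ˢ Finset.range N := by
    refine ⟨(u.sup fun x => x.1 + x.2) + 1, fun x hx => ?_⟩
    have : x.1 + x.2 ≤ u.sup fun x => x.1 + x.2 := Finset.le_sup (f := fun x : ℕ × ℕ => x.1 + x.2) hx
    rw [Finset.mem_product, Finset.mem_range, Finset.mem_range]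
    omega
  have hnn : ∀ x : ℕ × ℕ, 0 ≤ a x.1 * a x.2 * (Ls / ((x.2 : ℝ) + 1) ^ 2 +
      if x.2 + 1 < x.1 + 1 ∧ x.1 + 1 < 2 * (x.2 + 1) then Y / ((x.2 : ℝ) + 1) else 0) := by
    intro x
    have h1 := ha0 x.1
    have h2 := ha0 x.2
    have h3 : 0 ≤ (if x.2 + 1 < x.1 + 1 ∧ x.1 + 1 < 2 * (x.2 + 1) then Y / ((x.2 : ℝ) + 1) else 0) := by
      split_ifs <;> positivity
    positivity
  refine (Finset.sum_le_sum_of_subset_of_nonneg hN fun x _ _ => hnn x).trans ?_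
  rw [Finset.sum_product_right]
  have hm : ∀ m ∈ Finset.range N, ∑ n ∈ Finset.range N, a n * a m * (Ls / ((m : ℝ) + 1) ^ 2 +
      if m + 1 < n + 1 ∧ n + 1 < 2 * (m + 1) then Y / ((m : ℝ) + 1) else 0) ≤
      Ls * V * (((m : ℝ) + 1) ^ 2)⁻¹ + Y * a m := by
    intro m _
    have e : ∀ n, a n * a m * (Ls / ((m : ℝ) + 1) ^ 2 +
      if m + 1 < n + 1 ∧ n + 1 < 2 * (m + 1) then Y / ((m : ℝ) + 1) else 0) =
      a n * (a m * Ls * (((m : ℝ) + 1) ^ 2)⁻¹) + (if m + 1 < n + 1 ∧ n + 1 < 2 * (m + 1) then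
        a n * (a m * (Y / ((m : ℝ) + 1))) else 0) := by
      intro n
      split_ifs <;> ring
    simp_rw [e]
    rw [Finset.sum_add_distrib]
    apply add_le_add
    · rw [← Finset.sum_mul]
      have h1 : (∑ n ∈ Finset.range N, a n) * (a m * Ls * (((m : ℝ) + 1) ^ 2)⁻¹) ≤
          V * (1 * Ls * (((m : ℝ) + 1) ^ 2)⁻¹) := by
        apply mul_le_mul (hV N) _ (by have := ha0 m; positivity) hV0
        have := ha1 m
        gcongr
      linarith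
    · rw [← Finset.sum_filter]
      have h1 : ∀ n ∈ (Finset.range N).filter (fun n => m + 1 < n + 1 ∧ n + 1 < 2 * (m + 1)),
          a n * (a m * (Y / ((m : ℝ) + 1))) ≤ a m * (Y / ((m : ℝ) + 1)) := by
        intro n _
        have h2 : 0 ≤ a m * (Y / ((m : ℝ) + 1)) := by have := ha0 m; positivity
        calc a n * (a m * (Y / ((m : ℝ) + 1))) ≤ 1 * (a m * (Y / ((m : ℝ) + 1))) :=
              mul_le_mul_of_nonneg_right (ha1 n) h2
          _ = _ := one_mul _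
      refine (Finset.sum_le_sum h1).trans ?_
      rw [Finset.sum_const, nsmul_eq_mul]
      have h3 : (((Finset.range N).filter (fun n => m + 1 < n + 1 ∧ n + 1 < 2 * (m + 1))).card : ℝ) ≤ (m : ℝ) + 1 := by
        have : ((Finset.range N).filter (fun n => m + 1 < n + 1 ∧ n + 1 < 2 * (m + 1))).card ≤ m + 1 := by
          calc _ ≤ (Finset.Ico (m + 1) (2 * m + 1)).card := by
                apply Finset.card_le_card
                intro n hn
                rw [Finset.mem_filter] at hn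
                rw [Finset.mem_Ico]
                omega
            _ ≤ m + 1 := by rw [Nat.card_Ico]; omega
        exact_mod_cast this
      have h4 : 0 ≤ a m * (Y / ((m : ℝ) + 1)) := by have := ha0 m; positivity
      calc _ ≤ ((m : ℝ) + 1) * (a m * (Y / ((m : ℝ) + 1))) := mul_le_mul_of_nonneg_right h3 h4
        _ = Y * a m := by
            have : (m : ℝ) + 1 ≠ 0 := by positivity
            field_simp
  refine (Finset.sum_le_sum hm).trans ?_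
  rw [Finset.sum_add_distrib, ← Finset.mul_sum, ← Finset.mul_sum]
  exact add_le_add (mul_le_mul_of_nonneg_left (hZ N) (by positivity)) (mul_le_mul_of_nonneg_left (hV N) hY)

/-- Row N07. Sum of squares of the Fourier coefficients of G on a block. -/
theorem Gbd {q : ℕ} [NeZero q] {f : ℕ → ℂ} (hf : ∀ n, ‖f n‖ ≤ 1) (p : ℕ) : ∃ C : ℝ, 0 < C ∧
    ∀ ε Y s A B : ℝ, 0 < ε → ε ≤ 1 / 2 → 1 ≤ Y → 1 ≤ s → Y ≤ A → A ≤ B → B ≤ 2 * Y → ∀ M : ℕ,
      ∑ m ∈ Finset.range M, ‖∫ y in A..B, GG q f p ε y * exp (2 * π * ((m : ℂ) + 1) * y / s * I)‖ ^ 2 ≤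
        C * s * ε ^ (-((p : ℝ) + 1 / 2)) := by
  obtain ⟨C0, hC0, H0⟩ := corr0 hf p (q := q)
  obtain ⟨C1, hC1, H1⟩ := corr hf p (q := q)
  obtain ⟨C2, hC2, H2⟩ := sumk
  have hq0 : (0 : ℝ) < q := by exact_mod_cast Nat.pos_of_ne_zero (NeZero.ne q)
  have hZs : Summable (fun m : ℕ => (((m : ℝ) + 1) ^ 2)⁻¹) := by
    have := (summable_nat_add_iff 1).2 (Real.summable_nat_pow_inv.2 (by norm_num : 1 < 2))
    simpa using this
  set Z : ℝ := ∑' m : ℕ, (((m : ℝ) + 1) ^ 2)⁻¹ with hZ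
  have hZ0 : 0 ≤ Z := tsum_nonneg fun m => by positivity
  refine ⟨C0 + 2 * C1 * C2 * (4 * Z + 2) * √q, by positivity, ?_⟩
  intro ε Y s A B hε hε1 hY hs hYA hAB hBY M
  have hY0 : 0 < Y := by linarith
  have hs0 : 0 < s := by linarith
  have hA0 : 0 < A := by linarith
  have hpi := Real.pi_pos
  have hsin : 2 / π * ε ≤ Real.sin ε := Real.mul_le_sin hε.le (by linarith [Real.pi_gt_three])
  have hsin0 : 0 < Real.sin ε := lt_of_lt_of_le (by positivity) hsin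
  set c : ℝ := π * Real.sin ε / q with hc
  have hc0 : 0 < c := by positivity
  have hcε : ε / q ≤ c := by
    rw [hc]
    apply div_le_div_of_nonneg_right _ hq0.le
    have : π * (2 / π * ε) ≤ π * Real.sin ε := mul_le_mul_of_nonneg_left hsin hpi.le
    have e : π * (2 / π * ε) = 2 * ε := by field_simp
    linarith
  have hsc : (√c)⁻¹ ≤ √q * (√ε)⁻¹ := by
    have h1 : √(ε / q) ≤ √c := Real.sqrt_le_sqrt hcε
    have h2 : 0 < √(ε / q) := Real.sqrt_pos.2 (by positivity)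
    calc (√c)⁻¹ ≤ (√(ε / q))⁻¹ := inv_anti₀ h2 h1
      _ = √q * (√ε)⁻¹ := by
          rw [Real.sqrt_div hε.le, inv_div, div_eq_mul_inv]
  have hcont : ContinuousOn (GG q f p ε) (Icc A B) :=
    (GG_cont hf p hε hε1).mono fun y hy => lt_of_lt_of_le hA0 hy.1
  refine (bessel hAB hs0 hcont M).trans ?_
  set K : ℕ := ⌊(B - A) / s⌋₊ with hK
  have hKs : (K : ℝ) * s ≤ B - A := by
    have := Nat.floor_le (div_nonneg (sub_nonneg.2 hAB) hs0.le)
    rw [← hK] at this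
    rwa [le_div_iff₀ hs0] at this
  have hKY : (K : ℝ) * s ≤ Y := by linarith
  have hwt : ∀ n : ℕ, 0 ≤ wt c Y ((n : ℝ) + 1) := fun n => (wt_pos hc0).le
  have hwt1 : ∀ n : ℕ, wt c Y ((n : ℝ) + 1) ≤ 1 := fun n => wt_le_one hc0
  obtain ⟨hws, hwle⟩ := wt_sum hc0 hY0
  set V : ℝ := 2 * (√c * Y)⁻¹ with hV
  have hVle : ∀ N, ∑ n ∈ Finset.range N, wt c Y ((n : ℝ) + 1) ≤ V := fun N =>
    (hws.sum_le_tsum _ fun n _ => hwt n).trans hwle
  set Ls : ℝ := 1 + Real.log (1 + Y) with hLs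
  have hlog0 : 0 ≤ Real.log (1 + Y) := Real.log_nonneg (by linarith)
  have hLs0 : 0 ≤ Ls := by positivity
  have hLs2 : Ls ≤ 2 * Y := by
    have := Real.log_le_sub_one_of_pos (by linarith : 0 < 1 + Y)
    linarith
  -- the terms
  set w : ℕ × ℕ → ℝ := fun x => wt c Y ((x.1 : ℝ) + 1) * wt c Y ((x.2 : ℝ) + 1) with hw
  have hw0 : ∀ x, 0 ≤ w x := fun x => mul_nonneg (hwt _) (hwt _)
  have hk : ∀ k ∈ Finset.range K, Summable (fun x : ℕ × ℕ => w x * VV Y (x.1 + 1) (x.2 + 1) (((k : ℝ) + 1) * s)) ∧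
      ‖∫ y in A..(B - ((k : ℝ) + 1) * s), GG q f p ε y * conj (GG q f p ε (y + ((k : ℝ) + 1) * s))‖ ≤
        C1 * ε ^ (-(p : ℝ)) * ∑' x : ℕ × ℕ, w x * VV Y (x.1 + 1) (x.2 + 1) (((k : ℝ) + 1) * s) := by
    intro k hk
    rw [Finset.mem_range] at hk
    have hk1 : ((k : ℝ) + 1) * s ≤ K * s := by
      apply mul_le_mul_of_nonneg_right _ hs0.le
      exact_mod_cast hk
    have := H1 ε Y hε hε1 hY A (B - ((k : ℝ) + 1) * s) (((k : ℝ) + 1) * s) hYA (by linarith) (by linarith)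
      (by positivity)
    exact this
  have hsum1 : ∑ k ∈ Finset.range K, ‖∫ y in A..(B - ((k : ℝ) + 1) * s),
      GG q f p ε y * conj (GG q f p ε (y + ((k : ℝ) + 1) * s))‖ ≤
      C1 * ε ^ (-(p : ℝ)) * (C2 * ((4 * Z + 2) * (√c)⁻¹)) := by
    refine (Finset.sum_le_sum fun k hk' => (hk k hk').2).trans ?_
    rw [← Finset.mul_sum]
    apply mul_le_mul_of_nonneg_left _ (by positivity)
    rw [← Summable.tsum_finsetSum fun k hk' => (hk k hk').1]
    have hVVn : ∀ (x : ℕ × ℕ) (k : ℕ), 0 ≤ VV Y (x.1 + 1) (x.2 + 1) (((k : ℝ) + 1) * s) := fun x k =>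
      VV_nonneg hY0.le _ _ (by positivity)
    apply Real.tsum_le_of_sum_le
    · intro x
      exact Finset.sum_nonneg fun k _ => mul_nonneg (hw0 x) (hVVn x k)
    · intro u
      have hx : ∀ x ∈ u, ∑ k ∈ Finset.range K, w x * VV Y (x.1 + 1) (x.2 + 1) (((k : ℝ) + 1) * s) ≤
          C2 * (wt c Y ((x.1 : ℝ) + 1) * wt c Y ((x.2 : ℝ) + 1) * (Ls / ((x.2 : ℝ) + 1) ^ 2 +
            if x.2 + 1 < x.1 + 1 ∧ x.1 + 1 < 2 * (x.2 + 1) then Y / ((x.2 : ℝ) + 1) else 0)) := by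
        intro x _
        rw [← Finset.mul_sum]
        have := H2 Y s hY hs (x.1 + 1) (x.2 + 1) (Nat.succ_pos _) (Nat.succ_pos _) K hKY
        push_cast at this
        calc w x * ∑ k ∈ Finset.range K, VV Y (x.1 + 1) (x.2 + 1) (((k : ℝ) + 1) * s) ≤
            w x * (C2 * (Ls / ((x.2 : ℝ) + 1) ^ 2 +
            if x.2 + 1 < x.1 + 1 ∧ x.1 + 1 < 2 * (x.2 + 1) then Y / ((x.2 : ℝ) + 1) else 0)) :=
              mul_le_mul_of_nonneg_left this (hw0 x)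
          _ = _ := by rw [hw]; ring
      refine (Finset.sum_le_sum hx).trans ?_
      rw [← Finset.mul_sum]
      apply mul_le_mul_of_nonneg_left _ hC2.le
      refine (N07_fin (a := fun n => wt c Y ((n : ℝ) + 1)) hwt hwt1 hY0.le hLs0 hVle
        (fun N => hZs.sum_le_tsum _ fun m _ => by positivity) hZ0 u).trans ?_
      have hV0 : 0 ≤ V := by positivity
      have e1 : Y * V = 2 * (√c)⁻¹ := by
        rw [hV, mul_inv]; field_simp
      have e2 : Ls * V * Z ≤ (2 * Y) * V * Z := by gcongr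
      have e3 : (2 * Y) * V * Z = 4 * Z * (√c)⁻¹ := by
        calc (2 * Y) * V * Z = 2 * (Y * V) * Z := by ring
          _ = _ := by rw [e1]; ring
      linarith
  have h0 := H0 ε Y hε hε1 hY A B hYA hAB hBY
  have hpow : ε ^ (-(p : ℝ)) * (√ε)⁻¹ = ε ^ (-((p : ℝ) + 1 / 2)) := by
    rw [Real.sqrt_eq_rpow, ← Real.rpow_neg hε.le, ← Real.rpow_add hε]
    congr 1; ring
  have hfin : C1 * ε ^ (-(p : ℝ)) * (C2 * ((4 * Z + 2) * (√c)⁻¹)) ≤
      C1 * C2 * (4 * Z + 2) * √q * ε ^ (-((p : ℝ) + 1 / 2)) := by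
    calc C1 * ε ^ (-(p : ℝ)) * (C2 * ((4 * Z + 2) * (√c)⁻¹)) ≤
        C1 * ε ^ (-(p : ℝ)) * (C2 * ((4 * Z + 2) * (√q * (√ε)⁻¹))) := by gcongr
      _ = C1 * C2 * (4 * Z + 2) * √q * (ε ^ (-(p : ℝ)) * (√ε)⁻¹) := by ring
      _ = _ := by rw [hpow]
  calc s * ((∫ y in A..B, ‖GG q f p ε y‖ ^ 2) + 2 * ∑ k ∈ Finset.range K,
        ‖∫ y in A..(B - ((k : ℝ) + 1) * s), GG q f p ε y * conj (GG q f p ε (y + ((k : ℝ) + 1) * s))‖) ≤
      s * (C0 * ε ^ (-((p : ℝ) + 1 / 2)) + 2 * (C1 * C2 * (4 * Z + 2) * √q * ε ^ (-((p : ℝ) + 1 / 2)))) := by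
        apply mul_le_mul_of_nonneg_left _ hs0.le
        linarith
    _ = _ := by ring

end NH
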