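import Pool.Agent.Lib.MP_0f5a55_nt.NH.N07

open Complex MeasureTheory Set Filter Topology
open scoped Real ComplexConjugate

namespace NH

theorem N08_a {N : ℕ} {a : ℕ → ℂ} {L : ℂ → ℂ} (D : Dat N a L) (n : ℕ) : ‖a (n + 1)‖ ≤ (n : ℝ) + 1 := by
  refine (D.bd (n + 1) (Nat.succ_pos n)).trans ?_
  have h1 := Nat.card_divisors_le_self (n + 1)
  have h2 : (((n + 1).divisors.card : ℕ) : ℝ) ≤ ((n + 1 : ℕ) : ℝ) := by exact_mod_cast h1
  push_cast at h2
  exact h2

theorem N08_pow (k : ℕ) {x : ℝ} (hx : 0 < x) :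
    Summable (fun n : ℕ => ((n : ℝ) + 1) ^ k * Real.exp (-(x * ((n : ℝ) + 1)))) := by
  have h1 := (summable_nat_add_iff 1).mpr (Real.summable_pow_mul_exp_neg_nat_mul k hx)
  refine h1.congr fun n => ?_
  push_cast
  rw [neg_mul]

theorem N08_summ (k : ℕ) {N : ℕ} {a : ℕ → ℂ} {L : ℂ → ℂ} (D : Dat N a L) {x : ℝ} (hx : 0 < x) :
    Summable (fun n : ℕ => ‖a (n + 1)‖ ^ k * Real.exp (-(x * ((n : ℝ) + 1)))) := by
  refine Summable.of_nonneg_of_le (fun n => by positivity) (fun n => ?_) (N08_pow k hx)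
  exact mul_le_mul_of_nonneg_right (pow_le_pow_left₀ (norm_nonneg _) (N08_a D n) k) (Real.exp_pos _).le

theorem N08_sq {t : ℝ} (ht : 0 ≤ t) : t ^ 2 ≤ Real.exp t := by
  have h1 := Real.quadratic_le_exp_of_nonneg (x := t / 2) (by linarith)
  have h2 : t ≤ Real.exp (t / 2) := by nlinarith [sq_nonneg (t - 2)]
  have h3 : Real.exp t = Real.exp (t / 2) ^ 2 := by
    rw [← Real.exp_nat_mul]
    congr 1
    push_cast
    ring
  rw [h3]
  exact pow_le_pow_left₀ ht h2 2

theorem N08_der {G : ℝ → ℂ} (hG : ContinuousOn G (Ioi 0)) {A z : ℝ} (hA : 0 < A) (hz : 0 < z) :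
    HasDerivAt (fun u => ∫ y in A..u, G y) (G z) z := by
  have hc : ContinuousAt G z := hG.continuousAt (Ioi_mem_nhds hz)
  refine intervalIntegral.integral_hasDerivAt_right ?_ ?_ hc
  · apply ContinuousOn.intervalIntegrable
    apply hG.mono
    intro y hy
    have := hy.1
    exact lt_of_lt_of_le (lt_min hA hz) this
  · exact ContinuousOn.stronglyMeasurableAtFilter isOpen_Ioi hG z hz

theorem N08_ibp {G e : ℝ → ℂ} (hG : ContinuousOn G (Ioi 0)) (he : Continuous e) (l : ℝ) {A B : ℝ}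
    (hA : 0 < A) (hAB : A ≤ B) :
    ∫ y in A..B, G y * (((Real.exp (-(l * y)) : ℝ) : ℂ) * e y) =
      ((Real.exp (-(l * B)) : ℝ) : ℂ) * (∫ y in A..B, G y * e y) +
        ∫ z in A..B, ((l * Real.exp (-(l * z)) : ℝ) : ℂ) * (∫ y in A..z, G y * e y) := by
  have hGe : ContinuousOn (fun y => G y * e y) (Ioi 0) := hG.mul he.continuousOn
  have hsub : uIcc A B ⊆ Ioi 0 := by
    intro y hy
    rw [uIcc_of_le hAB] at hy
    exact lt_of_lt_of_le hA hy.1
  have hu : ∀ z ∈ uIcc A B, HasDerivAt (fun z : ℝ => ((Real.exp (-(l * z)) : ℝ) : ℂ))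
      (-((l * Real.exp (-(l * z)) : ℝ) : ℂ)) z := by
    intro z _
    have h1 : HasDerivAt (fun z : ℝ => Real.exp (-(l * z))) (Real.exp (-(l * z)) * (-(l * 1))) z :=
      (((hasDerivAt_id z).const_mul l).neg).exp
    have h2 := h1.ofReal_comp
    convert h2 using 1
    push_cast
    ring
  have hv : ∀ z ∈ uIcc A B, HasDerivAt (fun z : ℝ => ∫ y in A..z, G y * e y) (G z * e z) z :=
    fun z hz => N08_der hGe hA (hsub hz)
  have h := intervalIntegral.integral_mul_deriv_eq_deriv_mul hu hv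
    (by
      apply Continuous.intervalIntegrable
      fun_prop)
    ((hGe.mono hsub).intervalIntegrable)
  have e1 : ∫ y in A..B, G y * (((Real.exp (-(l * y)) : ℝ) : ℂ) * e y) =
      ∫ y in A..B, ((Real.exp (-(l * y)) : ℝ) : ℂ) * (G y * e y) := by
    congr 1
    ext y
    ring
  have e2 : ∫ z in A..B, -((l * Real.exp (-(l * z)) : ℝ) : ℂ) * (∫ y in A..z, G y * e y) =
      -∫ z in A..B, ((l * Real.exp (-(l * z)) : ℝ) : ℂ) * (∫ y in A..z, G y * e y) := by
    rw [← intervalIntegral.integral_neg]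
    congr 1
    ext y
    ring
  rw [e1, h, e2]
  simp

/-- Cauchy-Schwarz -/
theorem N08_cs {M : ℕ} {u v : ℕ → ℝ} {P R : ℝ}
    (h1 : ∑ n ∈ Finset.range M, u n ^ 2 ≤ P) (h2 : ∑ n ∈ Finset.range M, v n ^ 2 ≤ R) :
    ∑ n ∈ Finset.range M, u n * v n ≤ √P * √R := by
  refine (Real.sum_mul_le_sqrt_mul_sqrt _ _ _).trans ?_
  exact mul_le_mul (Real.sqrt_le_sqrt h1) (Real.sqrt_le_sqrt h2) (Real.sqrt_nonneg _) (Real.sqrt_nonneg _)

/-- the finite version -/
theorem N08_fin {G : ℝ → ℂ} {e : ℕ → ℝ → ℂ} (hG : ContinuousOn G (Ioi 0)) (he : ∀ n, Continuous (e n))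
    {A B Y x K R : ℝ} {b : ℕ → ℂ} {M : ℕ} (hx : 0 < x) (hY : 0 < Y) (hA : Y ≤ A) (hAB : A ≤ B)
    (hB : B ≤ 2 * Y) (hK : 0 ≤ K)
    (hb : ∀ t : ℝ, 0 < t → ∑ n ∈ Finset.range M, ‖b n‖ ^ 2 * Real.exp (-(t * ((n : ℝ) + 1))) ≤ K / t)
    (hE : ∀ z ∈ Icc A B, ∑ n ∈ Finset.range M, ‖∫ y in A..z, G y * e n y‖ ^ 2 ≤ R) :
    ‖∑ n ∈ Finset.range M, b n *
        ∫ y in A..B, G y * (((Real.exp (-(x * ((n : ℝ) + 1) * y)) : ℝ) : ℂ) * e n y)‖ ≤
      2 * (√(K / (x * Y)) * √R) := by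
  have hA0 : 0 < A := lt_of_lt_of_le hY hA
  have hB0 : 0 < B := lt_of_lt_of_le hA0 hAB
  have hsub : uIcc A B ⊆ Ioi 0 := by
    intro y hy
    rw [uIcc_of_le hAB] at hy
    exact lt_of_lt_of_le hA0 hy.1
  have hEc : ∀ n, ContinuousOn (fun z => ∫ y in A..z, G y * e n y) (uIcc A B) := by
    intro n z hz
    exact (N08_der (hG.mul (he n).continuousOn) hA0 (hsub hz)).continuousAt.continuousWithinAt
  have hsplit : ∑ n ∈ Finset.range M, b n *
        ∫ y in A..B, G y * (((Real.exp (-(x * ((n : ℝ) + 1) * y)) : ℝ) : ℂ) * e n y) =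
      ∑ n ∈ Finset.range M, b n * ((Real.exp (-(x * ((n : ℝ) + 1) * B)) : ℝ) : ℂ) *
        (∫ y in A..B, G y * e n y) +
      ∫ z in A..B, ∑ n ∈ Finset.range M, b n *
        (((x * ((n : ℝ) + 1) * Real.exp (-(x * ((n : ℝ) + 1) * z)) : ℝ) : ℂ) *
          (∫ y in A..z, G y * e n y)) := by
    rw [intervalIntegral.integral_finsetSum, ← Finset.sum_add_distrib]
    · refine Finset.sum_congr rfl fun n _ => ?_
      rw [N08_ibp hG (he n) _ hA0 hAB, intervalIntegral.integral_const_mul]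
      ring
    · intro n _
      apply ContinuousOn.intervalIntegrable
      apply ContinuousOn.mul continuousOn_const
      apply ContinuousOn.mul _ (hEc n)
      apply Continuous.continuousOn
      fun_prop
  rw [hsplit]
  have hR0 : 0 ≤ √(K / (x * Y)) * √R := by positivity
  have hmono : ∀ t : ℝ, x * Y ≤ t → K / t ≤ K / (x * Y) := fun t ht =>
    div_le_div_of_nonneg_left hK (by positivity) ht
  have b1 : ‖∑ n ∈ Finset.range M, b n * ((Real.exp (-(x * ((n : ℝ) + 1) * B)) : ℝ) : ℂ) *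
        (∫ y in A..B, G y * e n y)‖ ≤ √(K / (x * Y)) * √R := by
    refine (norm_sum_le _ _).trans ?_
    have h1 : ∀ n ∈ Finset.range M, ‖b n * ((Real.exp (-(x * ((n : ℝ) + 1) * B)) : ℝ) : ℂ) *
        (∫ y in A..B, G y * e n y)‖ =
        (‖b n‖ * Real.exp (-(x * ((n : ℝ) + 1) * B))) * ‖∫ y in A..B, G y * e n y‖ := by
      intro n _
      rw [norm_mul, norm_mul, Complex.norm_real, Real.norm_of_nonneg (Real.exp_pos _).le]
    rw [Finset.sum_congr rfl h1]
    refine N08_cs ?_ (hE B (right_mem_Icc.mpr hAB))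
    have h2 := hb (2 * x * B) (by positivity)
    have h3 : K / (2 * x * B) ≤ K / (x * Y) := hmono _ (by nlinarith [mul_pos hx hY, mul_le_mul_of_nonneg_left (hA.trans hAB) hx.le])
    refine le_trans (le_of_eq ?_) (h2.trans h3)
    refine Finset.sum_congr rfl fun n _ => ?_
    rw [mul_pow, ← Real.exp_nat_mul]
    congr 2
    push_cast
    ring
  have b2 : ‖∫ z in A..B, ∑ n ∈ Finset.range M, b n *
        (((x * ((n : ℝ) + 1) * Real.exp (-(x * ((n : ℝ) + 1) * z)) : ℝ) : ℂ) *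
          (∫ y in A..z, G y * e n y))‖ ≤ √(K / (x * Y)) * √R := by
    have h1 : ∀ z ∈ uIoc A B, ‖∑ n ∈ Finset.range M, b n *
        (((x * ((n : ℝ) + 1) * Real.exp (-(x * ((n : ℝ) + 1) * z)) : ℝ) : ℂ) *
          (∫ y in A..z, G y * e n y))‖ ≤ Y⁻¹ * (√(K / (x * Y)) * √R) := by
      intro z hz
      rw [uIoc_of_le hAB] at hz
      have hz0 : Y ≤ z := hA.trans hz.1.le
      have hzp : 0 < z := lt_of_lt_of_le hY hz0
      refine (norm_sum_le _ _).trans ?_
      have h2 : ∀ n ∈ Finset.range M, ‖b n *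
        (((x * ((n : ℝ) + 1) * Real.exp (-(x * ((n : ℝ) + 1) * z)) : ℝ) : ℂ) *
          (∫ y in A..z, G y * e n y))‖ =
          (‖b n‖ * (x * ((n : ℝ) + 1) * Real.exp (-(x * ((n : ℝ) + 1) * z)))) *
            ‖∫ y in A..z, G y * e n y‖ := by
        intro n _
        rw [norm_mul, norm_mul, Complex.norm_real, Real.norm_of_nonneg (by positivity)]
        ring
      rw [Finset.sum_congr rfl h2]
      have h3 : ∑ n ∈ Finset.range M,
          (‖b n‖ * (x * ((n : ℝ) + 1) * Real.exp (-(x * ((n : ℝ) + 1) * z)))) ^ 2 ≤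
          (Y⁻¹) ^ 2 * (K / (x * Y)) := by
        have h4 := hb (x * z) (by positivity)
        have h5 : K / (x * z) ≤ K / (x * Y) := hmono _ (mul_le_mul_of_nonneg_left hz0 hx.le)
        have h6 : ∀ n ∈ Finset.range M,
            (‖b n‖ * (x * ((n : ℝ) + 1) * Real.exp (-(x * ((n : ℝ) + 1) * z)))) ^ 2 ≤
            (Y⁻¹) ^ 2 * (‖b n‖ ^ 2 * Real.exp (-(x * z * ((n : ℝ) + 1)))) := by
          intro n _
          set t := x * ((n : ℝ) + 1) * z with ht
          have ht0 : 0 ≤ t := by positivity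
          have h7 : x * ((n : ℝ) + 1) = z⁻¹ * t := by
            rw [ht]
            field_simp
          have h8 : Real.exp (-t) ^ 2 * t ^ 2 ≤ Real.exp (-t) := by
            have h9 := N08_sq ht0
            have h10 : Real.exp (-t) ^ 2 * t ^ 2 ≤ Real.exp (-t) ^ 2 * Real.exp t :=
              mul_le_mul_of_nonneg_left h9 (by positivity)
            refine h10.trans (le_of_eq ?_)
            rw [← Real.exp_nat_mul, ← Real.exp_add]
            congr 1
            push_cast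
            ring
          have h11 : (z⁻¹) ^ 2 ≤ (Y⁻¹) ^ 2 :=
            pow_le_pow_left₀ (by positivity) (inv_anti₀ hY hz0) 2
          have h12 : x * z * ((n : ℝ) + 1) = t := by
            rw [ht]
            ring
          rw [h12, h7]
          calc (‖b n‖ * (z⁻¹ * t * Real.exp (-t))) ^ 2
              = (z⁻¹) ^ 2 * (‖b n‖ ^ 2 * (Real.exp (-t) ^ 2 * t ^ 2)) := by ring
            _ ≤ (z⁻¹) ^ 2 * (‖b n‖ ^ 2 * Real.exp (-t)) := by
                apply mul_le_mul_of_nonneg_left _ (by positivity)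
                exact mul_le_mul_of_nonneg_left h8 (by positivity)
            _ ≤ (Y⁻¹) ^ 2 * (‖b n‖ ^ 2 * Real.exp (-t)) :=
                mul_le_mul_of_nonneg_right h11 (by positivity)
        refine (Finset.sum_le_sum h6).trans ?_
        rw [← Finset.mul_sum]
        exact mul_le_mul_of_nonneg_left (h4.trans h5) (by positivity)
      refine (N08_cs h3 (hE z ⟨hz.1.le, hz.2⟩)).trans (le_of_eq ?_)
      rw [Real.sqrt_mul (by positivity), Real.sqrt_sq (by positivity)]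
      ring
    refine (intervalIntegral.norm_integral_le_of_norm_le_const h1).trans ?_
    rw [abs_of_nonneg (by linarith)]
    have h13 : Y⁻¹ * (√(K / (x * Y)) * √R) * (B - A) =
        (√(K / (x * Y)) * √R) * (Y⁻¹ * (B - A)) := by ring
    rw [h13]
    have h14 : Y⁻¹ * (B - A) ≤ 1 := by
      rw [inv_mul_le_iff₀ hY]
      linarith
    exact mul_le_of_le_one_right hR0 h14
  calc _ ≤ _ := norm_add_le _ _
    _ ≤ _ := by linarith

/-- the series for the conjugate of F on the ray -/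
theorem N08_conj {N : ℕ} {a : ℕ → ℂ} (ε y : ℝ) :
    conj (FF N a (TT.zp ε y)) = ∑' n : ℕ, conj (a (n + 1)) *
      (((Real.exp (-(2 * π * Real.sin ε / √N * ((n : ℝ) + 1) * y)) : ℝ) : ℂ) *
        exp (2 * π * ((n : ℂ) + 1) * y / ((√N / Real.cos ε : ℝ) : ℂ) * I)) := by
  unfold FF
  rw [Complex.conj_tsum]
  refine tsum_congr fun n => ?_
  rw [map_mul, ← Complex.exp_conj]
  congr 1
  rw [Complex.ofReal_exp, ← Complex.exp_add]
  congr 1
  have h1 : conj (TT.zp ε y) = (y : ℂ) * (((Real.sin ε : ℝ) : ℂ) - ((Real.cos ε : ℝ) : ℂ) * I) := by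
    unfold TT.zp
    rw [map_mul, Complex.conj_ofReal, ← Complex.exp_conj, map_mul, Complex.conj_ofReal, Complex.conj_I]
    congr 1
    rw [show ((π / 2 - ε : ℝ) : ℂ) * -I = ((-(π / 2 - ε) : ℝ) : ℂ) * I by push_cast; ring,
      Complex.exp_mul_I, ← Complex.ofReal_cos, ← Complex.ofReal_sin, Real.cos_neg, Real.sin_neg,
      Real.cos_pi_div_two_sub, Real.sin_pi_div_two_sub]
    push_cast
    ring
  rw [map_neg, map_div₀, map_mul, map_mul, map_mul, map_add, h1, Complex.conj_ofReal, Complex.conj_ofReal,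
    Complex.conj_natCast]
  simp only [map_ofNat, map_one]
  push_cast
  rw [div_div_eq_mul_div]
  ring

/-- Row N08. One block of the correlation integral. -/
theorem block {q : ℕ} [NeZero q] {f : ℕ → ℂ} (hf : ∀ n, ‖f n‖ ≤ 1) {N : ℕ} {a : ℕ → ℂ} {L : ℂ → ℂ}
    (D : Dat N a L) (p : ℕ) : ∃ C : ℝ, 0 < C ∧ ∀ ε Y A B : ℝ, 0 < ε → ε ≤ 1 / 2 → 1 ≤ Y → Y ≤ A → A ≤ B →
      B ≤ 2 * Y → ‖∫ y in A..B, GG q f p ε y * conj (FF N a (TT.zp ε y))‖ ≤
        C * (√Y)⁻¹ * ε ^ (-((p : ℝ) / 2 + 3 / 4)) := by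
  obtain ⟨C1, hC1, hG⟩ := Gbd (q := q) hf p
  obtain ⟨K, hK0, hK⟩ := D.ms
  refine ⟨2 * √(K * C1 * N / 2) + 1, by positivity, fun ε Y A B hε hε1 hY hA hAB hB => ?_⟩
  have hN : (1 : ℝ) ≤ N := by exact_mod_cast D.pos
  have hsN : 1 ≤ √(N : ℝ) := Real.one_le_sqrt.mpr hN
  have hsN0 : 0 < √(N : ℝ) := by linarith
  have hsNN : √(N : ℝ) * √(N : ℝ) = N := Real.mul_self_sqrt (by linarith)
  have hpi := Real.pi_gt_three
  have hsin : 2 / π * ε ≤ Real.sin ε := Real.mul_le_sin hε.le (by linarith)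
  have hsin0 : 0 < Real.sin ε := lt_of_lt_of_le (by positivity) hsin
  have hcos : 1 / 2 ≤ Real.cos ε := by
    have := Real.one_sub_sq_div_two_le_cos (x := ε)
    nlinarith
  have hcos0 : 0 < Real.cos ε := by linarith
  have hcos1 := Real.cos_le_one ε
  set x := 2 * π * Real.sin ε / √N with hx
  have hx0 : 0 < x := by positivity
  have hxl : 4 * ε / √N ≤ x := by
    rw [hx]
    apply div_le_div_of_nonneg_right _ hsN0.le
    have h1 : 2 * π * (2 / π * ε) ≤ 2 * π * Real.sin ε := mul_le_mul_of_nonneg_left hsin (by positivity)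
    have h2 : 2 * π * (2 / π * ε) = 4 * ε := by
      field_simp
      norm_num
    linarith
  set s := √(N : ℝ) / Real.cos ε with hs
  have hs1 : 1 ≤ s := by
    rw [hs, le_div_iff₀ hcos0]
    linarith
  have hs2 : s ≤ 2 * √N := by
    rw [hs, div_le_iff₀ hcos0]
    nlinarith
  have hY0 : 0 < Y := by linarith
  have hA0 : 0 < A := by linarith
  set e : ℕ → ℝ → ℂ := fun n y => exp (2 * π * ((n : ℂ) + 1) * y / (s : ℂ) * I) with he
  have hec : ∀ n, Continuous (e n) := by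
    intro n
    rw [he]
    fun_prop
  have hen : ∀ n y, ‖e n y‖ = 1 := by
    intro n y
    have h1 : (2 * π * ((n : ℂ) + 1) * y / (s : ℂ) * I : ℂ) =
        ((2 * π * ((n : ℝ) + 1) * y / s : ℝ) : ℂ) * I := by
      push_cast
      ring
    rw [he]
    simp only
    rw [h1, Complex.norm_exp_ofReal_mul_I]
  have hcont := GG_cont (q := q) hf p hε hε1
  have hsub : uIcc A B ⊆ Ioi 0 := by
    intro y hy
    rw [uIcc_of_le hAB] at hy
    exact lt_of_lt_of_le hA0 hy.1
  have hsub' : Icc A B ⊆ Ioi 0 := fun y hy => lt_of_lt_of_le hA0 hy.1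
  set F : ℕ → ℝ → ℂ := fun n y => GG q f p ε y * (conj (a (n + 1)) *
      (((Real.exp (-(x * ((n : ℝ) + 1) * y)) : ℝ) : ℂ) * e n y)) with hF
  obtain ⟨T, hT⟩ := isCompact_Icc.exists_bound_of_continuousOn (hcont.mono hsub')
  have hT0 : 0 ≤ T := (norm_nonneg _).trans (hT A (left_mem_Icc.mpr hAB))
  have hb1 := N08_summ 1 D (x := x * A) (by positivity)
  have hbd : ∀ n : ℕ, ∀ y ∈ Icc A B, ‖conj (a (n + 1)) *
      (((Real.exp (-(x * ((n : ℝ) + 1) * y)) : ℝ) : ℂ) * e n y)‖ ≤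
      ‖a (n + 1)‖ ^ 1 * Real.exp (-(x * A * ((n : ℝ) + 1))) := by
    intro n y hy
    rw [norm_mul, norm_mul, hen, mul_one, RCLike.norm_conj, Complex.norm_real,
      Real.norm_of_nonneg (Real.exp_pos _).le, pow_one]
    apply mul_le_mul_of_nonneg_left _ (norm_nonneg _)
    apply Real.exp_le_exp.mpr
    have : x * A * ((n : ℝ) + 1) ≤ x * ((n : ℝ) + 1) * y := by
      have h1 : x * ((n : ℝ) + 1) * A ≤ x * ((n : ℝ) + 1) * y :=
        mul_le_mul_of_nonneg_left hy.1 (by positivity)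
      linarith
    linarith
  have hsum : HasSum (fun n => ∫ y in A..B, F n y)
      (∫ y in A..B, GG q f p ε y * conj (FF N a (TT.zp ε y))) := by
    refine intervalIntegral.hasSum_integral_of_dominated_convergence
      (fun n _ => T * (‖a (n + 1)‖ ^ 1 * Real.exp (-(x * A * ((n : ℝ) + 1))))) ?_ ?_ ?_ ?_ ?_
    · intro n
      apply ContinuousOn.aestronglyMeasurable _ measurableSet_uIoc
      apply ContinuousOn.mul (hcont.mono (uIoc_subset_uIcc.trans hsub))
      apply Continuous.continuousOn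
      have := hec n
      fun_prop
    · intro n
      refine Filter.Eventually.of_forall fun y hy => ?_
      rw [uIoc_of_le hAB] at hy
      have hy' : y ∈ Icc A B := ⟨hy.1.le, hy.2⟩
      rw [hF]
      simp only
      rw [norm_mul]
      exact mul_le_mul (hT y hy') (hbd n y hy') (norm_nonneg _) hT0
    · exact Filter.Eventually.of_forall fun y _ => hb1.mul_left T
    · exact intervalIntegrable_const
    · refine Filter.Eventually.of_forall fun y hy => ?_
      rw [uIoc_of_le hAB] at hy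
      have hy' : y ∈ Icc A B := ⟨hy.1.le, hy.2⟩
      rw [N08_conj]
      apply HasSum.mul_left
      have hsm : Summable (fun n : ℕ => conj (a (n + 1)) *
          (((Real.exp (-(x * ((n : ℝ) + 1) * y)) : ℝ) : ℂ) * e n y)) :=
        Summable.of_norm_bounded hb1 fun n => hbd n y hy'
      exact hsm.hasSum
  have hfin : ∀ M : ℕ, ‖∑ n ∈ Finset.range M, ∫ y in A..B, F n y‖ ≤
      2 * (√(K / (x * Y)) * √(C1 * s * ε ^ (-((p : ℝ) + 1 / 2)))) := by
    intro M
    have h1 : ∀ n ∈ Finset.range M, ∫ y in A..B, F n y = conj (a (n + 1)) *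
        ∫ y in A..B, GG q f p ε y * (((Real.exp (-(x * ((n : ℝ) + 1) * y)) : ℝ) : ℂ) * e n y) := by
      intro n _
      rw [← intervalIntegral.integral_const_mul]
      congr 1
      ext y
      rw [hF]
      ring
    rw [Finset.sum_congr rfl h1]
    refine N08_fin hcont hec hx0 hY0 hA hAB hB hK0 (fun t ht => ?_) (fun z hz => ?_)
    · simp only [RCLike.norm_conj]
      refine le_trans ?_ (hK t ht)
      exact (N08_summ 2 D ht).sum_le_tsum _ fun n _ => by positivity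
    · exact hG ε Y s A z hε hε1 hY hs1 hA hz.1 (hz.2.trans hB) M
  have hlim := (hsum.tendsto_sum_nat).norm
  refine (le_of_tendsto hlim (Filter.Eventually.of_forall hfin)).trans ?_
  rw [← Real.sqrt_mul (by positivity)]
  have h2 : K / (x * Y) * (C1 * s * ε ^ (-((p : ℝ) + 1 / 2))) ≤
      (K * C1 * N / 2) * (Y⁻¹ * ε ^ (-((p : ℝ) + 3 / 2))) := by
    have h3 : K / (x * Y) ≤ K * (√N / (4 * ε) * Y⁻¹) := by
      rw [div_eq_mul_inv, mul_inv]
      apply mul_le_mul_of_nonneg_left _ hK0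
      apply mul_le_mul_of_nonneg_right _ (by positivity)
      rw [inv_le_comm₀ hx0 (by positivity), inv_div]
      exact hxl
    have h4 : C1 * s * ε ^ (-((p : ℝ) + 1 / 2)) ≤ C1 * (2 * √N) * ε ^ (-((p : ℝ) + 1 / 2)) := by
      apply mul_le_mul_of_nonneg_right _ (by positivity)
      exact mul_le_mul_of_nonneg_left hs2 hC1.le
    have h5 : ε ^ (-((p : ℝ) + 3 / 2)) = ε ^ (-((p : ℝ) + 1 / 2)) * ε⁻¹ := by
      rw [← Real.rpow_neg_one, ← Real.rpow_add hε]
      congr 1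
      ring
    calc K / (x * Y) * (C1 * s * ε ^ (-((p : ℝ) + 1 / 2)))
        ≤ (K * (√N / (4 * ε) * Y⁻¹)) * (C1 * (2 * √N) * ε ^ (-((p : ℝ) + 1 / 2))) :=
          mul_le_mul h3 h4 (by positivity) (by positivity)
      _ = (K * C1 * (√N * √N) / 2) * (Y⁻¹ * (ε ^ (-((p : ℝ) + 1 / 2)) * ε⁻¹)) := by
          field_simp
          ring
      _ = _ := by rw [hsNN, h5]
  have h6 : √((K * C1 * N / 2) * (Y⁻¹ * ε ^ (-((p : ℝ) + 3 / 2)))) =
      √(K * C1 * N / 2) * ((√Y)⁻¹ * ε ^ (-((p : ℝ) / 2 + 3 / 4))) := by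
    rw [Real.sqrt_mul (by positivity), Real.sqrt_mul (by positivity), Real.sqrt_inv]
    congr 2
    rw [Real.sqrt_eq_rpow, ← Real.rpow_mul hε.le]
    congr 1
    ring
  have h7 := Real.sqrt_le_sqrt h2
  rw [h6] at h7
  have h8 : 0 ≤ (√Y)⁻¹ * ε ^ (-((p : ℝ) / 2 + 3 / 4)) := by positivity
  nlinarith

end NH
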