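import Pool.Agent.Lib.MP_0f5a55_nt.NH.N08

open Complex MeasureTheory Set Filter Topology
open scoped Real ComplexConjugate

namespace NH

/-- the integrand in the variable y -/
noncomputable def N09_g (q : ℕ) (f : ℕ → ℂ) (N : ℕ) (a : ℕ → ℂ) (p : ℕ) (ε y : ℝ) : ℂ :=
  GG q f p ε y * conj (FF N a (TT.zp ε y))

lemma N09_integrand (q : ℕ) (f : ℕ → ℂ) (N : ℕ) (a : ℕ → ℂ) (p : ℕ) (u : ℂ) (ε x : ℝ) :
    TT.rho q f p ε x * conj (f2 N a u ε x) =
      conj (u * exp (((π / 2 - ε : ℝ) : ℂ) * I / 2)) * (|Real.exp x| • N09_g q f N a p ε (Real.exp x)) := by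
  unfold TT.rho f2 N09_g GG
  have h1 : Real.exp (2 * x) = Real.exp x ^ 2 := by
    rw [← Real.exp_nat_mul]; norm_num
  have h2 : Real.exp ((1 / 2 + (p : ℝ)) * x) = Real.exp (x / 2) * Real.exp x ^ p := by
    rw [← Real.exp_nat_mul, ← Real.exp_add]; congr 1; ring
  have h3 : Real.exp x = Real.exp (x / 2) * Real.exp (x / 2) := by
    rw [← Real.exp_add]; congr 1; ring
  rw [h1, h2, abs_of_pos (Real.exp_pos x), Complex.real_smul]
  simp only [map_mul, Complex.conj_ofReal]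
  have h4 : ((Real.exp x : ℝ) : ℂ) = ((Real.exp (x / 2) : ℝ) : ℂ) * ((Real.exp (x / 2) : ℝ) : ℂ) := by
    rw [← Complex.ofReal_mul, ← h3]
  generalize conj (FF N a (TT.zp ε (Real.exp x))) = w1
  generalize TT.th q f p (TT.zp ε (Real.exp x ^ 2)) = w2
  rw [Complex.ofReal_mul, Complex.ofReal_pow]
  generalize hE : ((Real.exp x : ℝ) : ℂ) ^ p = w3
  rw [h4]
  ring

lemma N09_norm (u : ℂ) (hu : ‖u‖ = 1) (ε : ℝ) :
    ‖conj (u * exp (((π / 2 - ε : ℝ) : ℂ) * I / 2))‖ = 1 := by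
  rw [Complex.norm_conj, norm_mul, hu, one_mul]
  have : ((π / 2 - ε : ℝ) : ℂ) * I / 2 = (((π / 2 - ε) / 2 : ℝ) : ℂ) * I := by
    push_cast; ring
  rw [this, Complex.norm_exp_ofReal_mul_I]

lemma N09_image : Real.exp '' (Ioi (0 : ℝ)) = Ioi (1 : ℝ) := by
  ext y
  simp only [mem_image, mem_Ioi]
  constructor
  · rintro ⟨x, hx, rfl⟩
    exact Real.one_lt_exp_iff.mpr hx
  · intro hy
    refine ⟨Real.log y, Real.log_pos hy, Real.exp_log (by linarith)⟩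

lemma N09_sum (K : ℕ) : ∑ k ∈ Finset.range K, (√((2 : ℝ) ^ k))⁻¹ ≤ 4 := by
  have h1 : ∀ k : ℕ, (√((2 : ℝ) ^ k))⁻¹ ≤ (3 / 4 : ℝ) ^ k := by
    intro k
    have h : (4 / 3 : ℝ) ^ k ≤ √((2 : ℝ) ^ k) := by
      apply Real.le_sqrt_of_sq_le
      rw [← pow_mul, mul_comm, pow_mul]
      exact pow_le_pow_left₀ (by norm_num) (by norm_num) k
    have h3 : (3 / 4 : ℝ) ^ k = ((4 / 3 : ℝ) ^ k)⁻¹ := by
      rw [← inv_pow]; norm_num
    rw [h3]
    exact inv_anti₀ (by positivity) h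
  calc ∑ k ∈ Finset.range K, (√((2 : ℝ) ^ k))⁻¹ ≤ ∑ k ∈ Finset.range K, (3 / 4 : ℝ) ^ k :=
        Finset.sum_le_sum (fun k _ => h1 k)
    _ ≤ ∑' k : ℕ, (3 / 4 : ℝ) ^ k :=
        (summable_geometric_of_lt_one (by norm_num) (by norm_num)).sum_le_tsum _ (fun k _ => by positivity)
    _ = 4 := by rw [tsum_geometric_of_lt_one (by norm_num) (by norm_num)]; norm_num

/-- Row N09. The correlation integral of a theta function and the modular form. -/
theorem Jbd {q : ℕ} [NeZero q] {f : ℕ → ℂ} (hf : ∀ n, ‖f n‖ ≤ 1) {N : ℕ} {a : ℕ → ℂ} {L : ℂ → ℂ}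
    (D : Dat N a L) (p : ℕ) : ∃ C : ℝ, 0 < C ∧ ∀ (u : ℂ) (ε : ℝ), ‖u‖ = 1 → 0 < ε → ε ≤ 1 / 2 →
      ‖∫ x in Ioi (0 : ℝ), TT.rho q f p ε x * conj (f2 N a u ε x)‖ ≤ C * ε ^ (-((p : ℝ) / 2 + 3 / 4)) := by
  obtain ⟨C, hC, hb⟩ := block (q := q) hf D p
  refine ⟨4 * C, by positivity, ?_⟩
  intro u ε hu h0 h1
  have hε : 0 < ε ^ (-((p : ℝ) / 2 + 3 / 4)) := Real.rpow_pos_of_pos h0 _
  simp only [N09_integrand]
  rw [integral_const_mul, norm_mul, N09_norm u hu, one_mul]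
  rw [← integral_image_eq_integral_abs_deriv_smul (f' := Real.exp) measurableSet_Ioi
    (fun x _ => (Real.hasDerivAt_exp x).hasDerivWithinAt) (Real.exp_injective.injOn)
    (N09_g q f N a p ε), N09_image]
  by_cases hi : IntegrableOn (N09_g q f N a p ε) (Ioi 1)
  · have hK : Tendsto (fun K : ℕ => (2 : ℝ) ^ K) atTop atTop :=
      tendsto_pow_atTop_atTop_of_one_lt (by norm_num)
    have hlim := intervalIntegral_tendsto_integral_Ioi 1 hi hK
    refine le_of_tendsto hlim.norm (Eventually.of_forall ?_)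
    intro K
    have hint : ∀ k < K, IntervalIntegrable (N09_g q f N a p ε) volume ((2 : ℝ) ^ k) ((2 : ℝ) ^ (k + 1)) := by
      intro k _
      have hle : (2 : ℝ) ^ k ≤ (2 : ℝ) ^ (k + 1) := pow_le_pow_right₀ (by norm_num) (by omega)
      rw [intervalIntegrable_iff_integrableOn_Ioc_of_le hle]
      refine hi.mono_set ?_
      intro y hy
      have : (1 : ℝ) ≤ 2 ^ k := one_le_pow₀ (by norm_num)
      exact lt_of_le_of_lt this hy.1
    have hsum := intervalIntegral.sum_integral_adjacent_intervals (a := fun k : ℕ => (2 : ℝ) ^ k) hint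
    simp only [pow_zero] at hsum
    rw [← hsum]
    calc ‖∑ k ∈ Finset.range K, ∫ y in ((2 : ℝ) ^ k)..((2 : ℝ) ^ (k + 1)), N09_g q f N a p ε y‖
        ≤ ∑ k ∈ Finset.range K, ‖∫ y in ((2 : ℝ) ^ k)..((2 : ℝ) ^ (k + 1)), N09_g q f N a p ε y‖ :=
          norm_sum_le _ _
      _ ≤ ∑ k ∈ Finset.range K, C * (√((2 : ℝ) ^ k))⁻¹ * ε ^ (-((p : ℝ) / 2 + 3 / 4)) := by
          apply Finset.sum_le_sum
          intro k _
          have h2 : (1 : ℝ) ≤ 2 ^ k := one_le_pow₀ (by norm_num)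
          exact hb ε (2 ^ k) (2 ^ k) (2 ^ (k + 1)) h0 h1 h2 le_rfl
            (pow_le_pow_right₀ (by norm_num) (by omega)) (by rw [pow_succ]; linarith)
      _ = C * ε ^ (-((p : ℝ) / 2 + 3 / 4)) * ∑ k ∈ Finset.range K, (√((2 : ℝ) ^ k))⁻¹ := by
          rw [Finset.mul_sum]; apply Finset.sum_congr rfl; intro k _; ring
      _ ≤ C * ε ^ (-((p : ℝ) / 2 + 3 / 4)) * 4 := by
          apply mul_le_mul_of_nonneg_left (N09_sum K) (by positivity)
      _ = 4 * C * ε ^ (-((p : ℝ) / 2 + 3 / 4)) := by ring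
  · rw [integral_undef hi, norm_zero]
    positivity

end NH
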