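import Pool.Agent.Lib.MP_0f5a55_nt.NH.D
import Pool.Agent.Lib.MP_0f5a55_nt.OM.K010

open Complex MeasureTheory Set Filter Topology
open scoped Real ComplexConjugate

namespace NH

theorem N10_term (N n : ℕ) (z : ℂ) : ‖exp (-(2 * π * ((n : ℂ) + 1) * z / ((√N : ℝ) : ℂ)))‖ =
    Real.exp (-(2 * π / √N * z.re * ((n : ℝ) + 1))) := by
  have h1 : (-(2 * π * ((n : ℂ) + 1) * z / ((√N : ℝ) : ℂ)) : ℂ) =
      ((-(2 * π / √N * ((n : ℝ) + 1)) : ℝ) : ℂ) * z := by
    push_cast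
    ring
  rw [h1, Complex.norm_exp, Complex.re_ofReal_mul]
  congr 1
  ring

theorem N10_a {N : ℕ} {a : ℕ → ℂ} {L : ℂ → ℂ} (D : Dat N a L) (n : ℕ) : ‖a (n + 1)‖ ≤ (n : ℝ) + 1 := by
  refine (D.bd (n + 1) (Nat.succ_pos n)).trans ?_
  have h1 := Nat.card_divisors_le_self (n + 1)
  have h2 : (((n + 1).divisors.card : ℕ) : ℝ) ≤ ((n + 1 : ℕ) : ℝ) := by exact_mod_cast h1
  push_cast at h2
  exact h2

theorem N10_pow (k : ℕ) {x : ℝ} (hx : 0 < x) :
    Summable (fun n : ℕ => ((n : ℝ) + 1) ^ k * Real.exp (-(x * ((n : ℝ) + 1)))) := by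
  have h1 := (summable_nat_add_iff 1).mpr (Real.summable_pow_mul_exp_neg_nat_mul k hx)
  refine h1.congr fun n => ?_
  push_cast
  rw [neg_mul]

theorem N10_geo {x : ℝ} (hx : 0 < x) : ∑' n : ℕ, Real.exp (-(x * ((n : ℝ) + 1))) ≤ 1 / x := by
  have h0 : ∀ n : ℕ, Real.exp (-(x * ((n : ℝ) + 1))) = Real.exp (-x) * Real.exp (-x) ^ n := by
    intro n
    rw [← Real.exp_nat_mul, ← Real.exp_add]
    congr 1
    ring
  rw [tsum_congr h0, tsum_mul_left]
  have h1 : Real.exp (-x) < 1 := by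
    have h := Real.exp_lt_exp.2 (by linarith : -x < 0)
    rwa [Real.exp_zero] at h
  have h2 : 0 < Real.exp (-x) := Real.exp_pos _
  rw [tsum_geometric_of_lt_one h2.le h1, ← div_eq_mul_inv, div_le_div_iff₀ (by linarith) hx]
  have h3 : x + 1 ≤ Real.exp x := Real.add_one_le_exp x
  have h4 : Real.exp (-x) * Real.exp x = 1 := by rw [← Real.exp_add, neg_add_cancel, Real.exp_zero]
  nlinarith

theorem N10_summ {N : ℕ} {a : ℕ → ℂ} {L : ℂ → ℂ} (D : Dat N a L) {x : ℝ} (hx : 0 < x) :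
    Summable (fun n : ℕ => ‖a (n + 1)‖ * Real.exp (-(x * ((n : ℝ) + 1)))) := by
  refine Summable.of_nonneg_of_le (fun n => by positivity) (fun n => ?_) (N10_pow 1 hx)
  rw [pow_one]
  exact mul_le_mul_of_nonneg_right (N10_a D n) (Real.exp_pos _).le

theorem N10_sum {N : ℕ} {a : ℕ → ℂ} {L : ℂ → ℂ} (D : Dat N a L) : ∃ C : ℝ, 0 < C ∧ ∀ x : ℝ, 0 < x →
    ∑' n : ℕ, ‖a (n + 1)‖ * Real.exp (-(x * ((n : ℝ) + 1))) ≤ C / x := by
  obtain ⟨C, hC0, hC⟩ := D.ms
  refine ⟨1 + C, by linarith, fun x hx => ?_⟩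
  have s0 : Summable (fun n : ℕ => Real.exp (-(x * ((n : ℝ) + 1)))) := by
    refine (N10_pow 0 hx).congr fun n => ?_
    rw [pow_zero, one_mul]
  have s2 : Summable (fun n : ℕ => ‖a (n + 1)‖ ^ 2 * Real.exp (-(x * ((n : ℝ) + 1)))) := by
    refine Summable.of_nonneg_of_le (fun n => by positivity) (fun n => ?_) (N10_pow 2 hx)
    exact mul_le_mul_of_nonneg_right (pow_le_pow_left₀ (norm_nonneg _) (N10_a D n) 2) (Real.exp_pos _).le
  have h1 : ∑' n : ℕ, ‖a (n + 1)‖ * Real.exp (-(x * ((n : ℝ) + 1))) ≤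
      ∑' n : ℕ, (Real.exp (-(x * ((n : ℝ) + 1))) + ‖a (n + 1)‖ ^ 2 * Real.exp (-(x * ((n : ℝ) + 1)))) := by
    refine (N10_summ D hx).tsum_le_tsum (fun n => ?_) (s0.add s2)
    have h2 : ‖a (n + 1)‖ ≤ 1 + ‖a (n + 1)‖ ^ 2 := by nlinarith [sq_nonneg (‖a (n + 1)‖ - 1), norm_nonneg (a (n + 1))]
    have h3 := mul_le_mul_of_nonneg_right h2 (Real.exp_pos (-(x * ((n : ℝ) + 1)))).le
    linarith
  rw [s0.tsum_add s2] at h1
  have h4 := N10_geo hx
  have h5 := hC x hx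
  rw [add_div]
  linarith

/-- Row N10. Size of F, the rotated Mellin transform. -/
theorem FF_le {N : ℕ} {a : ℕ → ℂ} {L : ℂ → ℂ} (D : Dat N a L) : ∃ C c : ℝ, 0 < C ∧ 0 < c ∧
    ∀ z : ℂ, 0 < z.re → ‖FF N a z‖ ≤ C / z.re * Real.exp (-(c * z.re)) := by
  obtain ⟨C, hC0, hC⟩ := N10_sum D
  have hN : 0 < √(N : ℝ) := Real.sqrt_pos.2 (by exact_mod_cast D.pos)
  have hpi := Real.pi_pos
  refine ⟨C * √N / π, π / √N, by positivity, by positivity, fun z hz => ?_⟩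
  obtain ⟨x, hx⟩ : ∃ x : ℝ, x = 2 * π / √N * z.re := ⟨_, rfl⟩
  have hx0 : 0 < x := by
    rw [hx]
    positivity
  have hn : ∀ n : ℕ, ‖a (n + 1) * exp (-(2 * π * ((n : ℂ) + 1) * z / ((√N : ℝ) : ℂ)))‖ =
      ‖a (n + 1)‖ * Real.exp (-(x * ((n : ℝ) + 1))) := by
    intro n
    rw [norm_mul, N10_term, hx]
  have s1 : Summable fun n : ℕ => ‖a (n + 1) * exp (-(2 * π * ((n : ℂ) + 1) * z / ((√N : ℝ) : ℂ)))‖ :=
    (N10_summ D hx0).congr fun n => (hn n).symm
  have h1 : ‖FF N a z‖ ≤ ∑' n : ℕ, ‖a (n + 1)‖ * Real.exp (-(x * ((n : ℝ) + 1))) := by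
    unfold FF
    refine (norm_tsum_le_tsum_norm s1).trans (le_of_eq (tsum_congr hn))
  have h2 : ∑' n : ℕ, ‖a (n + 1)‖ * Real.exp (-(x * ((n : ℝ) + 1))) ≤
      ∑' n : ℕ, Real.exp (-(x / 2)) * (‖a (n + 1)‖ * Real.exp (-(x / 2 * ((n : ℝ) + 1)))) := by
    refine (N10_summ D hx0).tsum_le_tsum (fun n => ?_) ((N10_summ D (half_pos hx0)).mul_left _)
    have h3 : Real.exp (-(x * ((n : ℝ) + 1))) ≤ Real.exp (-(x / 2)) * Real.exp (-(x / 2 * ((n : ℝ) + 1))) := by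
      rw [← Real.exp_add]
      refine Real.exp_le_exp.2 ?_
      have h4 : (0 : ℝ) ≤ n := Nat.cast_nonneg n
      have h5 : 0 ≤ x * n := by positivity
      linarith
    have h6 := mul_le_mul_of_nonneg_left h3 (norm_nonneg (a (n + 1)))
    linarith
  rw [tsum_mul_left] at h2
  have h3 := mul_le_mul_of_nonneg_left (hC (x / 2) (half_pos hx0)) (Real.exp_pos (-(x / 2))).le
  refine (h1.trans (h2.trans h3)).trans (le_of_eq ?_)
  have h4 : C * √N / π / z.re = C / (x / 2) := by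
    rw [hx]
    field_simp
  have h5 : π / √N * z.re = x / 2 := by
    rw [hx]
    ring
  rw [h4, h5, mul_comm]

theorem FF_diff {N : ℕ} {a : ℕ → ℂ} {L : ℂ → ℂ} (D : Dat N a L) {z : ℂ} (hz : 0 < z.re) :
    DifferentiableAt ℂ (FF N a) z := by
  have hN : 0 < √(N : ℝ) := Real.sqrt_pos.2 (by exact_mod_cast D.pos)
  have hpi := Real.pi_pos
  have hU : IsOpen {w : ℂ | z.re / 2 < w.re} := isOpen_lt continuous_const continuous_re
  have hx : 0 < 2 * π / √N * (z.re / 2) := by positivity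
  have key : DifferentiableOn ℂ (fun w : ℂ => ∑' n : ℕ, a (n + 1) *
      exp (-(2 * π * ((n : ℂ) + 1) * w / ((√N : ℝ) : ℂ)))) {w : ℂ | z.re / 2 < w.re} := by
    refine differentiableOn_tsum_of_summable_norm (N10_summ D hx) (fun n => ?_) hU (fun n w hw => ?_)
    · refine Differentiable.differentiableOn ?_
      fun_prop
    · rw [norm_mul, N10_term]
      refine mul_le_mul_of_nonneg_left (Real.exp_le_exp.2 ?_) (norm_nonneg _)
      have h1 : z.re / 2 < w.re := hw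
      have h2 : 0 < 2 * π / √N * ((n : ℝ) + 1) := by positivity
      nlinarith [mul_lt_mul_of_pos_left h1 h2]
  have hz2 : z ∈ {w : ℂ | z.re / 2 < w.re} := by
    change z.re / 2 < z.re
    linarith
  exact key.differentiableAt (hU.mem_nhds hz2)

theorem N10_exp_re (φ : ℝ) : (exp (φ * I)).re = Real.cos φ := by
  rw [exp_ofReal_mul_I_re]

theorem N10_mul_re (φ y : ℝ) : ((y : ℂ) * exp (φ * I)).re = y * Real.cos φ := by
  rw [re_ofReal_mul, exp_ofReal_mul_I_re]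

/-- bounds on the ray -/
theorem N10_ray {N : ℕ} {a : ℕ → ℂ} {L : ℂ → ℂ} (D : Dat N a L) {φ : ℝ} (h0 : -(π / 2) < φ)
    (h1 : φ < π / 2) : ∃ C c : ℝ, 0 < C ∧ 0 < c ∧ ∀ y : ℝ, 0 < y → ‖FF N a (y * exp (φ * I))‖ ≤ C ∧
      ‖FF N a (y * exp (φ * I))‖ ≤ C / y * Real.exp (-(c * y)) := by
  obtain ⟨C, c, hC0, hc0, hC⟩ := FF_le D
  obtain ⟨u, hu, hfe⟩ := D.fe
  have hcos : 0 < Real.cos φ := Real.cos_pos_of_mem_Ioo ⟨h0, h1⟩
  refine ⟨C / Real.cos φ, c * Real.cos φ, by positivity, by positivity, fun y hy => ⟨?_, ?_⟩⟩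
  · -- functional equation
    have hzre : 0 < (1 / ((y : ℂ) * exp (φ * I))).re := by
      rw [one_div, mul_inv, ← ofReal_inv, ← exp_neg, ← neg_mul, ← ofReal_neg, N10_mul_re, Real.cos_neg]
      positivity
    have hre : (1 / ((y : ℂ) * exp (φ * I))).re = y⁻¹ * Real.cos φ := by
      rw [one_div, mul_inv, ← ofReal_inv, ← exp_neg, ← neg_mul, ← ofReal_neg, N10_mul_re, Real.cos_neg]
    have h2 := hfe _ hzre
    rw [one_div_one_div] at h2
    have hnorm : ‖(1 / ((y : ℂ) * exp (φ * I)))‖ = y⁻¹ := by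
      rw [norm_div, norm_one, norm_mul, norm_exp_ofReal_mul_I, mul_one, norm_real, Real.norm_of_nonneg hy.le,
        one_div]
    rw [h2, norm_mul, norm_mul, hu, one_mul, hnorm, RCLike.norm_conj]
    have h3 : (conj (1 / ((y : ℂ) * exp (φ * I)))).re = y⁻¹ * Real.cos φ := by
      rw [conj_re, hre]
    have h4 := hC (conj (1 / ((y : ℂ) * exp (φ * I)))) (by rw [h3]; positivity)
    rw [h3] at h4
    have h5 : Real.exp (-(c * (y⁻¹ * Real.cos φ))) ≤ 1 := by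
      rw [Real.exp_le_one_iff, neg_nonpos]
      positivity
    have h6 : C / (y⁻¹ * Real.cos φ) * Real.exp (-(c * (y⁻¹ * Real.cos φ))) ≤ C / (y⁻¹ * Real.cos φ) :=
      mul_le_of_le_one_right (by positivity) h5
    have h7 := mul_le_mul_of_nonneg_left (h4.trans h6) (by positivity : (0 : ℝ) ≤ y⁻¹)
    refine h7.trans (le_of_eq ?_)
    field_simp
  · have h2 := hC (y * exp (φ * I)) (by rw [N10_mul_re]; positivity)
    rw [N10_mul_re] at h2
    refine h2.trans (le_of_eq ?_)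
    rw [div_div, mul_comm y (Real.cos φ), mul_assoc]

theorem N10_cont {N : ℕ} {a : ℕ → ℂ} {L : ℂ → ℂ} (D : Dat N a L) {φ : ℝ} (h0 : -(π / 2) < φ)
    (h1 : φ < π / 2) : ContinuousOn (fun y : ℝ => FF N a (y * exp (φ * I))) (Ioi 0) := by
  have hcos : 0 < Real.cos φ := Real.cos_pos_of_mem_Ioo ⟨h0, h1⟩
  intro y hy
  have hy0 : 0 < y := hy
  have h2 : ContinuousAt (FF N a) ((y : ℂ) * exp (φ * I)) :=
    (FF_diff D (by rw [N10_mul_re]; positivity)).continuousAt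
  have h3 : ContinuousAt (fun y : ℝ => (y : ℂ) * exp (φ * I)) y := by fun_prop
  exact (ContinuousAt.comp (f := fun y : ℝ => (y : ℂ) * exp (φ * I)) (g := FF N a) h2 h3).continuousWithinAt

theorem N10_mellin {N : ℕ} {a : ℕ → ℂ} {L : ℂ → ℂ} (D : Dat N a L) {φ : ℝ} (h0 : -(π / 2) < φ)
    (h1 : φ < π / 2) {s : ℂ} (hs : 0 < s.re) :
    MellinConvergent (fun y : ℝ => FF N a (y * exp (φ * I))) s ∧
    DifferentiableAt ℂ (mellin fun y : ℝ => FF N a (y * exp (φ * I))) s := by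
  obtain ⟨C, c, hC0, hc0, hC⟩ := N10_ray D h0 h1
  have hloc : LocallyIntegrableOn (fun y : ℝ => FF N a (y * exp (φ * I))) (Ioi 0) :=
    (N10_cont D h0 h1).locallyIntegrableOn measurableSet_Ioi
  have htop : (fun y : ℝ => FF N a (y * exp (φ * I))) =O[atTop] (fun y : ℝ => y ^ (-(s.re + 1))) := by
    have h2 : (fun y : ℝ => FF N a (y * exp (φ * I))) =O[atTop] (fun y : ℝ => Real.exp (-c * y)) := by
      refine Asymptotics.IsBigO.of_bound C ?_
      filter_upwards [eventually_ge_atTop (1 : ℝ)] with y hy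
      have hy0 : 0 < y := by linarith
      refine (hC y hy0).2.trans ?_
      rw [Real.norm_of_nonneg (Real.exp_pos _).le, neg_mul]
      exact mul_le_mul_of_nonneg_right (div_le_self hC0.le hy) (Real.exp_pos _).le
    exact h2.trans (isLittleO_exp_neg_mul_rpow_atTop hc0 _).isBigO
  have hbot : (fun y : ℝ => FF N a (y * exp (φ * I))) =O[𝓝[>] 0] (fun y : ℝ => y ^ (-(0 : ℝ))) := by
    refine Asymptotics.IsBigO.of_bound C ?_
    filter_upwards [self_mem_nhdsWithin] with y hy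
    refine (hC y hy).1.trans ?_
    rw [neg_zero, Real.rpow_zero, norm_one, mul_one]
  exact ⟨mellinConvergent_of_isBigO_rpow hloc htop (by linarith) hbot hs,
    mellin_differentiableAt_of_isBigO_rpow hloc htop (by linarith) hbot hs⟩

theorem N10_mulcpow {r : ℝ} (hr : 0 < r) {V : ℂ} (hV : V ≠ 0) (s : ℂ) :
    ((r : ℂ) * V) ^ s = (r : ℂ) ^ s * V ^ s := by
  have hr' : (r : ℂ) ≠ 0 := ofReal_ne_zero.mpr hr.ne'
  rw [cpow_def_of_ne_zero (mul_ne_zero hr' hV), cpow_def_of_ne_zero hV, cpow_def_of_ne_zero hr',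
    log_ofReal_mul hr hV, ← exp_add, ofReal_log hr.le]
  congr 1
  ring

/-- the formula for large real part -/
theorem N10_big {N : ℕ} {a : ℕ → ℂ} {L : ℂ → ℂ} (D : Dat N a L) {φ : ℝ} (h0 : -(π / 2) < φ)
    (h1 : φ < π / 2) {s : ℂ} (hs : 3 < s.re) :
    mellin (fun y : ℝ => FF N a (y * exp (φ * I))) s = exp (-(φ * I * s)) * Lam N L s := by
  have hcos : 0 < Real.cos φ := Real.cos_pos_of_mem_Ioo ⟨h0, h1⟩
  have hN : 0 < √(N : ℝ) := Real.sqrt_pos.2 (by exact_mod_cast D.pos)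
  have hpi := Real.pi_pos
  have hs0 : 0 < s.re := by linarith
  -- the exponents
  obtain ⟨W, hW⟩ : ∃ W : ℕ → ℂ, W = fun n : ℕ => ((2 * π * ((n : ℝ) + 1) / √N : ℝ) : ℂ) * exp (φ * I) := ⟨_, rfl⟩
  have hr0 : ∀ n : ℕ, 0 < 2 * π * ((n : ℝ) + 1) / √N := fun n => by positivity
  have hWre : ∀ n, (W n).re = 2 * π * ((n : ℝ) + 1) / √N * Real.cos φ := by
    intro n
    rw [hW, N10_mul_re]
  have hWre0 : ∀ n, 0 < (W n).re := by
    intro n
    rw [hWre]
    have := hr0 n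
    positivity
  have hWe : ∀ (n : ℕ) (y : ℝ), -(2 * π * ((n : ℂ) + 1) * (y * exp (φ * I)) / ((√N : ℝ) : ℂ)) = -(W n * y) := by
    intro n y
    rw [hW]
    push_cast
    ring
  have hWp : ∀ n, W n ^ (-s) = exp (-(φ * I * s)) * ((√N / (2 * π) : ℝ) : ℂ) ^ s * ((n : ℂ) + 1) ^ (-s) := by
    intro n
    have e1 : exp (φ * I) ≠ 0 := exp_ne_zero _
    have e2 : (exp ((φ : ℂ) * I)) ^ (-s) = exp (-(φ * I * s)) := by
      rw [cpow_def_of_ne_zero e1, log_exp (by simp; linarith) (by simp; linarith)]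
      congr 1
      ring
    have e3 : ((2 * π * ((n : ℝ) + 1) / √N : ℝ) : ℂ) = (((√N / (2 * π))⁻¹ : ℝ) : ℂ) * ((n : ℂ) + 1) := by
      push_cast
      rw [inv_div]
      ring
    have e4 : ((n : ℂ) + 1) ≠ 0 := by exact_mod_cast Nat.succ_ne_zero n
    have e5 : 0 < (√N / (2 * π))⁻¹ := by positivity
    rw [hW]
    change (((2 * π * ((n : ℝ) + 1) / √N : ℝ) : ℂ) * exp (φ * I)) ^ (-s) = _
    rw [N10_mulcpow (hr0 n) e1, e2, e3, N10_mulcpow e5 e4]
    have e6 : (((√N / (2 * π))⁻¹ : ℝ) : ℂ) ^ (-s) = ((√N / (2 * π) : ℝ) : ℂ) ^ s := by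
      rw [ofReal_inv, inv_cpow _ _ (by rw [arg_ofReal_of_nonneg (by positivity)]; exact Real.pi_pos.ne),
        cpow_neg, inv_inv]
    rw [e6]
    ring
  -- termwise integration
  have hint : ∀ n : ℕ, IntegrableOn (fun y : ℝ => a (n + 1) * ((y : ℂ) ^ (s - 1) * exp (-(W n * y)))) (Ioi 0) :=
    fun n => (LZX.exp_int_intg hs0 (hWre0 n)).const_mul _
  have hnorm : ∀ n : ℕ, ∫ y in Ioi (0 : ℝ), ‖a (n + 1) * ((y : ℂ) ^ (s - 1) * exp (-(W n * y)))‖ =
      ‖a (n + 1)‖ * ((1 / (W n).re) ^ s.re * Real.Gamma s.re) := by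
    intro n
    rw [← Real.integral_rpow_mul_exp_neg_mul_Ioi hs0 (hWre0 n), ← integral_const_mul]
    refine setIntegral_congr_fun measurableSet_Ioi fun y hy => ?_
    have hy0 : 0 < y := hy
    change ‖a (n + 1) * ((y : ℂ) ^ (s - 1) * exp (-(W n * y)))‖ =
      ‖a (n + 1)‖ * (y ^ (s.re - 1) * Real.exp (-((W n).re * y)))
    rw [norm_mul, norm_mul, norm_cpow_eq_rpow_re_of_pos hy0, norm_exp, sub_re, one_re, neg_re, re_mul_ofReal]
  have hsum : Summable fun n : ℕ => ∫ y in Ioi (0 : ℝ), ‖a (n + 1) * ((y : ℂ) ^ (s - 1) * exp (-(W n * y)))‖ := by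
    have hG : 0 < Real.Gamma s.re := Real.Gamma_pos_of_pos hs0
    have hq : 0 < √N / (2 * π * Real.cos φ) := by positivity
    have h2 : Summable fun n : ℕ => (√N / (2 * π * Real.cos φ)) ^ s.re * Real.Gamma s.re *
        (1 / ((n : ℝ) + 1) ^ 2) := by
      refine Summable.mul_left _ ?_
      have h := (summable_nat_add_iff 1).mpr (Real.summable_one_div_nat_pow.mpr (by norm_num : 1 < 2))
      refine h.congr fun n => ?_
      push_cast
      rfl
    refine Summable.of_nonneg_of_le (fun n => integral_nonneg fun y => norm_nonneg _) (fun n => ?_) h2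
    rw [hnorm]
    have hn0 : (0 : ℝ) < (n : ℝ) + 1 := by positivity
    have hn1 : (1 : ℝ) ≤ (n : ℝ) + 1 := by
      have : (0 : ℝ) ≤ n := Nat.cast_nonneg n
      linarith
    have h3 : 1 / (W n).re = √N / (2 * π * Real.cos φ) * ((n : ℝ) + 1)⁻¹ := by
      rw [hWre]
      field_simp
    have h4 : (((n : ℝ) + 1)⁻¹) ^ s.re ≤ (((n : ℝ) + 1) ^ 3)⁻¹ := by
      rw [Real.inv_rpow hn0.le]
      refine inv_anti₀ (by positivity) ?_
      have h5 := Real.rpow_le_rpow_of_exponent_le hn1 hs.le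
      have h6 : ((n : ℝ) + 1) ^ (3 : ℝ) = ((n : ℝ) + 1) ^ 3 := by
        rw [← Real.rpow_natCast]
        norm_num
      rw [h6] at h5
      exact h5
    rw [h3, Real.mul_rpow hq.le (by positivity)]
    have h7 : ‖a (n + 1)‖ * (((n : ℝ) + 1)⁻¹) ^ s.re ≤ 1 / ((n : ℝ) + 1) ^ 2 := by
      refine (mul_le_mul (N10_a D n) h4 (by positivity) hn0.le).trans (le_of_eq ?_)
      field_simp
    have h8 := mul_le_mul_of_nonneg_left h7
      (by positivity : 0 ≤ (√N / (2 * π * Real.cos φ)) ^ s.re * Real.Gamma s.re)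
    refine le_trans (le_of_eq ?_) h8
    ring
  have key := hasSum_integral_of_summable_integral_norm (μ := volume.restrict (Ioi (0 : ℝ)))
    (F := fun (n : ℕ) (y : ℝ) => a (n + 1) * ((y : ℂ) ^ (s - 1) * exp (-(W n * y)))) hint hsum
  have hval : ∀ n : ℕ, ∫ y in Ioi (0 : ℝ), a (n + 1) * ((y : ℂ) ^ (s - 1) * exp (-(W n * y))) =
      exp (-(φ * I * s)) * ((√N / (2 * π) : ℝ) : ℂ) ^ s * Gamma s * (a (n + 1) * ((n : ℂ) + 1) ^ (-s)) := by
    intro n
    rw [integral_const_mul, LZX.exp_int hs0 (hWre0 n), hWp]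
    ring
  have hL := (D.ser s (by linarith)).mul_left (exp (-(φ * I * s)) * ((√N / (2 * π) : ℝ) : ℂ) ^ s * Gamma s)
  have key2 := key.congr_fun (fun n => (hval n).symm)
  have h9 := key2.unique hL
  unfold mellin
  have h10 : ∫ y in Ioi (0 : ℝ), (y : ℂ) ^ (s - 1) • FF N a (y * exp (φ * I)) =
      ∫ y in Ioi (0 : ℝ), ∑' n : ℕ, a (n + 1) * ((y : ℂ) ^ (s - 1) * exp (-(W n * y))) := by
    refine setIntegral_congr_fun measurableSet_Ioi fun y hy => ?_
    change (y : ℂ) ^ (s - 1) • FF N a (y * exp (φ * I)) =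
      ∑' n : ℕ, a (n + 1) * ((y : ℂ) ^ (s - 1) * exp (-(W n * y)))
    unfold FF
    rw [smul_eq_mul, ← tsum_mul_left]
    refine tsum_congr fun n => ?_
    rw [hWe]
    ring
  rw [h10, h9]
  unfold Lam
  ring

theorem mellin_ray {N : ℕ} {a : ℕ → ℂ} {L : ℂ → ℂ} (D : Dat N a L) {φ : ℝ} (h0 : -(π / 2) < φ)
    (h1 : φ < π / 2) {s : ℂ} (hs : 0 < s.re) :
    IntegrableOn (fun y : ℝ => FF N a (y * exp (φ * I)) * (y : ℂ) ^ (s - 1)) (Ioi 0) ∧
    ∫ y in Ioi (0 : ℝ), FF N a (y * exp (φ * I)) * (y : ℂ) ^ (s - 1) = exp (-(φ * I * s)) * Lam N L s := by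
  have hN : 0 < √(N : ℝ) := Real.sqrt_pos.2 (by exact_mod_cast D.pos)
  have hpi := Real.pi_pos
  have hU : IsOpen {w : ℂ | 0 < w.re} := isOpen_lt continuous_const continuous_re
  have hUc : IsPreconnected {w : ℂ | 0 < w.re} := (convex_halfSpace_re_gt 0).isPreconnected
  have hf : AnalyticOnNhd ℂ (mellin fun y : ℝ => FF N a (y * exp (φ * I))) {w : ℂ | 0 < w.re} :=
    DifferentiableOn.analyticOnNhd (fun w hw => (N10_mellin D h0 h1 hw).2.differentiableWithinAt) hU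
  have hg : AnalyticOnNhd ℂ (fun w : ℂ => exp (-(φ * I * w)) * Lam N L w) {w : ℂ | 0 < w.re} := by
    refine DifferentiableOn.analyticOnNhd (fun w hw => ?_) hU
    have hw0 : 0 < w.re := hw
    refine DifferentiableAt.differentiableWithinAt ?_
    unfold Lam
    have e1 : DifferentiableAt ℂ (fun w : ℂ => exp (-(φ * I * w))) w := by fun_prop
    have e2 : DifferentiableAt ℂ (fun w : ℂ => ((√N / (2 * π) : ℝ) : ℂ) ^ w) w :=
      DifferentiableAt.const_cpow differentiableAt_id (Or.inl (by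
        have : 0 < √(N : ℝ) / (2 * π) := by positivity
        exact_mod_cast this.ne'))
    have e3 : DifferentiableAt ℂ Gamma w := differentiableAt_Gamma _ (fun m h => by
      have := congrArg Complex.re h
      simp at this
      have h2 : (0 : ℝ) ≤ m := Nat.cast_nonneg m
      linarith)
    exact e1.mul ((e2.mul e3).mul (D.ent w))
  have h4U : (4 : ℂ) ∈ {w : ℂ | 0 < w.re} := by
    change (0 : ℝ) < (4 : ℂ).re
    norm_num
  have hev : (mellin fun y : ℝ => FF N a (y * exp (φ * I))) =ᶠ[𝓝 (4 : ℂ)]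
      fun w : ℂ => exp (-(φ * I * w)) * Lam N L w := by
    have h3 : {w : ℂ | 3 < w.re} ∈ 𝓝 (4 : ℂ) := by
      refine (isOpen_lt continuous_const continuous_re).mem_nhds ?_
      change (3 : ℝ) < (4 : ℂ).re
      norm_num
    filter_upwards [h3] with w hw
    exact N10_big D h0 h1 hw
  have heq : mellin (fun y : ℝ => FF N a (y * exp (φ * I))) s = exp (-(φ * I * s)) * Lam N L s :=
    hf.eqOn_of_preconnected_of_eventuallyEq hg hUc h4U hev hs
  have hconv := (N10_mellin D h0 h1 hs).1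
  unfold MellinConvergent at hconv
  have hcomm : ∀ y : ℝ, (y : ℂ) ^ (s - 1) • FF N a (y * exp (φ * I)) =
      FF N a (y * exp (φ * I)) * (y : ℂ) ^ (s - 1) := by
    intro y
    rw [smul_eq_mul, mul_comm]
  refine ⟨hconv.congr_fun (fun y _ => hcomm y) measurableSet_Ioi, ?_⟩
  rw [← heq]
  unfold mellin
  exact setIntegral_congr_fun measurableSet_Ioi fun y _ => (hcomm y).symm

end NH
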