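import Pool.Agent.Lib.MP_0f5a55_nt.NH.N10

open Complex MeasureTheory Set Filter Topology
open scoped Real ComplexConjugate

namespace NH

/-- Row N11. The real function r2 and its Fourier transform. -/
theorem unit_ex {N : ℕ} {a : ℕ → ℂ} {L : ℂ → ℂ} (D : Dat N a L) : ∃ u : ℂ, Un N a u := by
  obtain ⟨c, hc, hf⟩ := D.fe
  obtain ⟨u, hu⟩ := IsAlgClosed.exists_pow_nat_eq c⁻¹ (n := 2) (by norm_num)
  have h1 : ‖u‖ ^ 2 = 1 := by
    rw [← norm_pow, hu, norm_inv, hc, inv_one]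
  have h2 : ‖u‖ = 1 := by
    nlinarith [norm_nonneg u]
  refine ⟨u, h2, fun z hz => ?_⟩
  rw [hu, inv_inv]
  exact hf z hz

theorem N11_mellin {N : ℕ} {a : ℕ → ℂ} {L : ℂ → ℂ} (D : Dat N a L) {s : ℂ} (hs : 0 < s.re) :
    ∫ y in Ioi (0 : ℝ), (y : ℂ) ^ (s - 1) * FF N a y = Lam N L s := by
  have h := (mellin_ray D (φ := 0) (by linarith [Real.pi_pos]) (by linarith [Real.pi_pos]) hs).2
  simp only [ofReal_zero, zero_mul, neg_zero, exp_zero, mul_one, one_mul] at h
  rw [← h]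
  exact setIntegral_congr_fun measurableSet_Ioi (fun y _ => mul_comm _ _)

theorem lam_real {N : ℕ} {a : ℕ → ℂ} {L : ℂ → ℂ} (D : Dat N a L) {u : ℂ} (hu : Un N a u) (t : ℝ) :
    (u * Lam N L (1 / 2 + t * I)).im = 0 := by
  set s : ℂ := 1 / 2 + t * I with hs
  have hre : 0 < s.re := by
    rw [hs]
    simp
  have hM := N11_mellin D hre
  have hinv := mellin_comp_inv (fun y : ℝ => FF N a y) (-s)
  rw [neg_neg] at hinv
  simp only [mellin, smul_eq_mul] at hinv
  rw [hM] at hinv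
  have hkey : ∫ y in Ioi (0 : ℝ), (y : ℂ) ^ (-s - 1) * FF N a ((y⁻¹ : ℝ) : ℂ) =
      (u ^ 2)⁻¹ * conj (Lam N L s) := by
    rw [← hM, ← integral_conj, ← integral_const_mul]
    refine setIntegral_congr_fun measurableSet_Ioi (fun y hy => ?_)
    have hy0 : (0 : ℝ) < y := hy
    have hyc : (y : ℂ) ≠ 0 := ofReal_ne_zero.mpr hy0.ne'
    have h1 := hu.2 (y : ℂ) (by simpa using hy0)
    rw [conj_ofReal] at h1
    have h2 : ((y⁻¹ : ℝ) : ℂ) = 1 / (y : ℂ) := by
      push_cast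
      rw [one_div]
    have h3 : conj ((y : ℂ) ^ (s - 1)) = (y : ℂ) ^ (-s) := by
      rw [cpow_def_of_ne_zero hyc, cpow_def_of_ne_zero hyc, ← exp_conj, map_mul,
        ← ofReal_log hy0.le, conj_ofReal]
      congr 2
      rw [hs]
      apply Complex.ext <;> simp
      norm_num
    have h4 : (y : ℂ) ^ (-s - 1) * y = (y : ℂ) ^ (-s) := by
      have := cpow_add (-s - 1) 1 hyc
      rw [cpow_one, sub_add_cancel] at this
      exact this.symm
    simp only [map_mul]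
    rw [h2, h1, h3, ← h4]
    ring
  rw [hkey] at hinv
  have hu0 : u ≠ 0 := by
    intro h
    have := hu.1
    rw [h, norm_zero] at this
    exact zero_ne_one this
  have hconj : conj u = u⁻¹ := by
    have := Complex.inv_def u
    rw [normSq_eq_norm_sq, hu.1] at this
    rw [this]
    simp
  rw [← conj_eq_iff_im, map_mul, hconj]
  calc u⁻¹ * conj (Lam N L s) = u * ((u ^ 2)⁻¹ * conj (Lam N L s)) := by
        field_simp
    _ = u * Lam N L s := by rw [hinv]

theorem N11_exp {N : ℕ} {a : ℕ → ℂ} (ε : ℝ) (s : ℂ) (x : ℝ) :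
    |Real.exp x| • (FF N a ((Real.exp x : ℝ) * exp (((π / 2 - ε : ℝ) : ℂ) * I)) *
      ((Real.exp x : ℝ) : ℂ) ^ (s - 1)) = exp (x * s) * FF N a (TT.zp ε (Real.exp x)) := by
  have hx : ((Real.exp x : ℝ) : ℂ) ≠ 0 := ofReal_ne_zero.mpr (Real.exp_pos x).ne'
  rw [abs_of_pos (Real.exp_pos x), real_smul, TT.zp, cpow_def_of_ne_zero hx,
    ← ofReal_log (Real.exp_pos x).le, Real.log_exp]
  have : ((Real.exp x : ℝ) : ℂ) = exp x := ofReal_exp x
  rw [this]
  have h2 : exp ((x : ℂ) * s) = exp x * exp (x * (s - 1)) := by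
    rw [← exp_add]
    congr 1
    ring
  rw [h2]
  ring

theorem N11_image : Real.exp '' univ = Ioi 0 := by
  rw [image_univ, Real.range_exp]

theorem f2_int {N : ℕ} {a : ℕ → ℂ} {L : ℂ → ℂ} (D : Dat N a L) (u : ℂ) {ε : ℝ} (h0 : 0 < ε) (h1 : ε ≤ 1 / 2) :
    Integrable (f2 N a u ε) := by
  have hp := Real.pi_gt_three
  have h := (mellin_ray D (φ := π / 2 - ε) (by linarith) (by linarith) (s := 1 / 2) (by simp)).1
  rw [← N11_image, integrableOn_image_iff_integrableOn_abs_deriv_smul (f' := Real.exp) MeasurableSet.univ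
    (fun x _ => (Real.hasDerivAt_exp x).hasDerivWithinAt) Real.exp_injective.injOn, integrableOn_univ] at h
  have h2 := h.const_mul (u * exp (((π / 2 - ε : ℝ) : ℂ) * I / 2))
  refine h2.congr (Eventually.of_forall (fun x => ?_))
  have h3 := N11_exp (N := N) (a := a) ε (1 / 2) x
  simp only at h3 ⊢
  rw [h3, f2]
  have h4 : exp ((x : ℂ) * (1 / 2)) = ((Real.exp (x / 2) : ℝ) : ℂ) := by
    rw [ofReal_exp]
    congr 1
    push_cast
    ring
  rw [h4]
  ring

theorem f2_symm {N : ℕ} {a : ℕ → ℂ} {L : ℂ → ℂ} (D : Dat N a L) {u : ℂ} (hu : Un N a u) {ε : ℝ} (h0 : 0 < ε)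
    (h1 : ε ≤ 1 / 2) (x : ℝ) : f2 N a u ε (-x) = conj (f2 N a u ε x) := by
  have hp := Real.pi_gt_three
  set φ : ℝ := π / 2 - ε with hφ
  have hu0 : u ≠ 0 := by
    intro h
    have := hu.1
    rw [h, norm_zero] at this
    exact zero_ne_one this
  have hconj : conj u = u⁻¹ := by
    have := Complex.inv_def u
    rw [normSq_eq_norm_sq, hu.1] at this
    rw [this]
    simp
  set z : ℂ := (Real.exp x : ℝ) * exp (-(φ * I)) with hz
  have hzre : 0 < z.re := by
    rw [hz, re_ofReal_mul]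
    refine mul_pos (Real.exp_pos x) ?_
    have : (exp (-(φ * I))).re = Real.cos φ := by
      rw [show -((φ : ℂ) * I) = ((-φ : ℝ) : ℂ) * I by push_cast; ring, exp_ofReal_mul_I_re, Real.cos_neg]
    rw [this]
    exact Real.cos_pos_of_mem_Ioo ⟨by linarith, by linarith⟩
  have h2 := hu.2 z hzre
  have hzc : conj z = TT.zp ε (Real.exp x) := by
    rw [hz, TT.zp, map_mul, conj_ofReal, ← exp_conj]
    congr 2
    rw [map_neg, map_mul, conj_ofReal, conj_I]
    ring
  have hzi : 1 / z = TT.zp ε (Real.exp (-x)) := by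
    rw [hz, TT.zp, ← hφ, Real.exp_neg, exp_neg, one_div, mul_inv, inv_inv, ofReal_inv]
  rw [hzc, hzi] at h2
  rw [f2, h2, f2, ← hφ, map_mul, map_mul, map_mul, conj_ofReal, hconj, ← exp_conj, hz]
  have e1 : conj (((φ : ℝ) : ℂ) * I / 2) = -((φ : ℂ) * I / 2) := by
    rw [map_div₀, map_mul, conj_ofReal, conj_I, map_ofNat]
    ring
  rw [e1]
  have e2 : ((Real.exp (-x / 2) : ℝ) : ℂ) * ((Real.exp x : ℝ) : ℂ) = ((Real.exp (x / 2) : ℝ) : ℂ) := by
    rw [← ofReal_mul, ← Real.exp_add]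
    congr 2
    ring
  have e3 : exp ((φ : ℂ) * I / 2) * exp (-((φ : ℂ) * I)) = exp (-((φ : ℂ) * I / 2)) := by
    rw [← exp_add]
    congr 1
    ring
  rw [← e2, ← e3]
  field_simp

theorem r2_eq {N : ℕ} {a : ℕ → ℂ} {L : ℂ → ℂ} (D : Dat N a L) {u : ℂ} (hu : Un N a u) {ε : ℝ} (h0 : 0 < ε)
    (h1 : ε ≤ 1 / 2) (t : ℝ) : ((r2 N L u ε t : ℝ) : ℂ) = ∫ x : ℝ, f2 N a u ε x * exp (t * x * I) := by
  have hp := Real.pi_gt_three
  have h := (mellin_ray D (φ := π / 2 - ε) (by linarith) (by linarith) (s := 1 / 2 + t * I) (by simp)).2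
  rw [← N11_image, integral_image_eq_integral_abs_deriv_smul (f' := Real.exp) MeasurableSet.univ
    (fun x _ => (Real.hasDerivAt_exp x).hasDerivWithinAt) Real.exp_injective.injOn, setIntegral_univ] at h
  have h2 : ∫ x : ℝ, f2 N a u ε x * exp (t * x * I) =
      u * exp (((π / 2 - ε : ℝ) : ℂ) * I / 2) * ∫ x : ℝ, |Real.exp x| •
        (FF N a ((Real.exp x : ℝ) * exp (((π / 2 - ε : ℝ) : ℂ) * I)) *
          ((Real.exp x : ℝ) : ℂ) ^ ((1 / 2 + t * I : ℂ) - 1)) := by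
    rw [← integral_const_mul]
    refine integral_congr_ae (Eventually.of_forall (fun x => ?_))
    simp only
    rw [N11_exp, f2]
    have h4 : exp ((x : ℂ) * (1 / 2 + t * I)) = ((Real.exp (x / 2) : ℝ) : ℂ) * exp (t * x * I) := by
      rw [ofReal_exp, ← exp_add]
      congr 1
      push_cast
      ring
    rw [h4]
    ring
  rw [h2, h]
  have h5 := lam_real D hu t
  have h6 : u * Lam N L (1 / 2 + t * I) = ((u * Lam N L (1 / 2 + t * I)).re : ℂ) := by
    apply Complex.ext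
    · simp
    · rw [h5, ofReal_im]
  rw [r2, ofReal_mul, ← h6, ofReal_exp]
  have h7 : exp ((((π / 2 - ε) * t : ℝ) : ℂ)) = exp (((π / 2 - ε : ℝ) : ℂ) * I / 2) *
      exp (-(((π / 2 - ε : ℝ) : ℂ) * I * (1 / 2 + t * I))) := by
    rw [← exp_add]
    congr 1
    push_cast
    ring_nf
    rw [I_sq]
    ring
  rw [h7]
  ring

end NH
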