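import Pool.Agent.Lib.MP_0f5a55_nt.NH.N09
import Pool.Agent.Lib.MP_0f5a55_nt.NH.N12
import Pool.Agent.Lib.MP_0f5a55_nt.TT.T20

open Complex MeasureTheory Set Filter Topology
open scoped Real ComplexConjugate

namespace NH

/-- complex conjugation preserves integrability -/
theorem N13_conj {f : ℝ → ℂ} (hf : Integrable f) : Integrable (fun x : ℝ => conj (f x)) :=
  hf.mono (Complex.continuous_conj.comp_aestronglyMeasurable hf.1)
    (Eventually.of_forall fun x => le_of_eq (RCLike.norm_conj (f x)))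

/-- Parseval for a real integrable function and the transform of an integrable function -/
theorem N13_pars {g r : ℝ → ℝ} {f : ℝ → ℂ} (hg : Integrable g) (hf : Integrable f)
    (hr : ∀ t : ℝ, ((r t : ℝ) : ℂ) = ∫ x : ℝ, f x * exp (t * x * I)) :
    ((∫ t : ℝ, g t * r t : ℝ) : ℂ) =
      ∫ x : ℝ, (∫ t : ℝ, ((g t : ℝ) : ℂ) * exp (-(t * x * I))) * conj (f x) := by
  have hgc : Integrable (fun t : ℝ => ((g t : ℝ) : ℂ)) := hg.ofReal
  have hfc : Integrable (fun x : ℝ => conj (f x)) := N13_conj hf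
  have hr' : ∀ t : ℝ, ((r t : ℝ) : ℂ) = ∫ x : ℝ, conj (f x) * exp (-(t * x * I)) := by
    intro t
    have h1 : conj ((r t : ℝ) : ℂ) = ((r t : ℝ) : ℂ) := conj_ofReal _
    rw [← h1, hr t, ← integral_conj]
    refine integral_congr_ae (Eventually.of_forall fun x => ?_)
    change conj (f x * exp (t * x * I)) = _
    rw [map_mul, ← exp_conj, map_mul, map_mul, conj_ofReal, conj_ofReal, conj_I, mul_neg]
  have hprod : Integrable (fun z : ℝ × ℝ => ((g z.1 : ℝ) : ℂ) * conj (f z.2))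
      ((volume : Measure ℝ).prod volume) := hgc.mul_prod hfc
  have hexp : Continuous (fun z : ℝ × ℝ => exp (-((z.1 : ℂ) * (z.2 : ℂ) * I))) := by fun_prop
  have hint : Integrable (Function.uncurry fun t x : ℝ =>
      ((g t : ℝ) : ℂ) * (conj (f x) * exp (-(t * x * I))))
      ((volume : Measure ℝ).prod volume) := by
    have h1 : (Function.uncurry fun t x : ℝ =>
        ((g t : ℝ) : ℂ) * (conj (f x) * exp (-(t * x * I)))) =
        fun z : ℝ × ℝ => (((g z.1 : ℝ) : ℂ) * conj (f z.2)) *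
          exp (-((z.1 : ℂ) * (z.2 : ℂ) * I)) := by
      funext z
      simp only [Function.uncurry]
      ring
    rw [h1]
    refine hprod.mono (hprod.aestronglyMeasurable.mul hexp.aestronglyMeasurable)
      (Eventually.of_forall fun z => ?_)
    have h2 : ‖exp (-((z.1 : ℂ) * (z.2 : ℂ) * I))‖ = 1 := by
      have h3 : -((z.1 : ℂ) * (z.2 : ℂ) * I) = ((-(z.1 * z.2) : ℝ) : ℂ) * I := by
        push_cast
        ring
      rw [h3, norm_exp_ofReal_mul_I]
    change ‖((g z.1 : ℝ) : ℂ) * conj (f z.2) * exp (-((z.1 : ℂ) * (z.2 : ℂ) * I))‖ ≤ _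
    rw [norm_mul _ (exp _), h2, mul_one]
  have h0 : ((∫ t : ℝ, g t * r t : ℝ) : ℂ) =
      ∫ t : ℝ, ∫ x : ℝ, ((g t : ℝ) : ℂ) * (conj (f x) * exp (-(t * x * I))) := by
    have h1 : ((∫ t : ℝ, g t * r t : ℝ) : ℂ) = ∫ t : ℝ, ((g t * r t : ℝ) : ℂ) :=
      (integral_ofReal (𝕜 := ℂ)).symm
    rw [h1]
    refine integral_congr_ae (Eventually.of_forall fun t => ?_)
    change ((g t * r t : ℝ) : ℂ) = ∫ x : ℝ, ((g t : ℝ) : ℂ) * (conj (f x) * exp (-(t * x * I)))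
    rw [ofReal_mul, hr' t, ← integral_const_mul]
  rw [h0, integral_integral_swap hint]
  refine integral_congr_ae (Eventually.of_forall fun x => ?_)
  change (∫ t : ℝ, ((g t : ℝ) : ℂ) * (conj (f x) * exp (-(t * x * I)))) =
    (∫ t : ℝ, ((g t : ℝ) : ℂ) * exp (-(t * x * I))) * conj (f x)
  rw [← integral_mul_const]
  refine integral_congr_ae (Eventually.of_forall fun t => ?_)
  change ((g t : ℝ) : ℂ) * (conj (f x) * exp (-(t * x * I))) =
    ((g t : ℝ) : ℂ) * exp (-(t * x * I)) * conj (f x)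
  ring

/-- an integral over the line with the symmetry h(-x) = conj h(x) -/
theorem N13_half {h : ℝ → ℂ} (hi : Integrable h) (hs : ∀ x, h (-x) = conj (h x)) :
    (∫ x : ℝ, h x) = ((2 * (∫ x in Ioi (0 : ℝ), h x).re : ℝ) : ℂ) := by
  rw [← intervalIntegral.integral_Iic_add_Ioi (b := (0 : ℝ)) hi.integrableOn hi.integrableOn]
  have h1 : ∫ x in Iic (0 : ℝ), h x = conj (∫ x in Ioi (0 : ℝ), h x) := by
    have h2 := integral_comp_neg_Ioi (0 : ℝ) h
    rw [neg_zero] at h2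
    rw [← h2, ← integral_conj]
    refine integral_congr_ae (Eventually.of_forall fun x => ?_)
    exact hs x
  rw [h1, add_comm, Complex.add_conj]

/-- the theta functions are bounded on the right half line -/
theorem N13_int {q : ℕ} (hq : 0 < q) {f : ℕ → ℂ} (hf : ∀ n, ‖f n‖ ≤ 1) (p : ℕ) {ε : ℝ}
    (h0 : 0 < ε) (h1 : ε ≤ 1 / 2) {g : ℝ → ℂ} (hg : Integrable g) :
    IntegrableOn (fun x => TT.rho q f p ε x * conj (g x)) (Ioi (0 : ℝ)) := by
  obtain ⟨hc, C, hC⟩ := TT.rho_dec hq hf p h0 h1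
  have hgc : IntegrableOn (fun x : ℝ => conj (g x)) (Ioi 0) := (N13_conj hg).integrableOn
  refine hgc.bdd_mul (c := |C|) hc.aestronglyMeasurable ?_
  refine (ae_restrict_iff' measurableSet_Ioi).2 (Eventually.of_forall fun x hx => ?_)
  have hx0 : (0 : ℝ) < x := hx
  have h3 := hC x (by linarith)
  have h4 : Real.exp (-(x / 2)) ≤ 1 := Real.exp_le_one_iff.2 (by linarith)
  calc ‖TT.rho q f p ε x‖ ≤ C * Real.exp (-(x / 2)) := h3
    _ ≤ |C| * Real.exp (-(x / 2)) :=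
        mul_le_mul_of_nonneg_right (le_abs_self C) (Real.exp_pos _).le
    _ ≤ |C| * 1 := mul_le_mul_of_nonneg_left h4 (abs_nonneg C)
    _ = |C| := mul_one _

/-- Row N13. Upper bound. -/
theorem UB {q : ℕ} [NeZero q] {χ : DirichletCharacter ℂ q} (hχ : χ.IsPrimitive) {κ : ℕ} (hκ : TT.Par χ κ)
    {N : ℕ} {a : ℕ → ℂ} {L : ℂ → ℂ} (D : Dat N a L) {u : ℂ} (hu : Un N a u) :
    ∃ C : ℝ, 0 ≤ C ∧ ∀ ε : ℝ, 0 < ε → ε ≤ 1 / 2 →
      |∫ t : ℝ, (t ^ 2 + 1 / 4) * (TT.rR χ ε t * r2 N L u ε t)| ≤ C * ε ^ (-(11 / 4 + (κ : ℝ) / 2)) := by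
  obtain ⟨A, CA, hCA, hA, hf1⟩ := TT.rR_trans hχ hκ 1 (Or.inr rfl)
  have hq : 0 < q := Nat.pos_of_ne_zero (NeZero.ne q)
  have hb : ∀ n : ℕ, ‖χ (n : ZMod q)‖ ≤ 1 := fun n => χ.norm_le_one _
  have hJ := fun p : ℕ => Jbd (q := q) (f := fun n => χ n) hb D p
  choose CJ hCJ hJ using hJ
  refine ⟨4 * π * ∑ j ∈ Finset.range (2 * 1 + 1), CA * CJ (κ + 2 * j), ?_, ?_⟩
  · have h1 : 0 ≤ ∑ j ∈ Finset.range (2 * 1 + 1), CA * CJ (κ + 2 * j) :=
      Finset.sum_nonneg fun j _ => mul_nonneg hCA (hCJ _).le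
    have h2 := Real.pi_pos
    positivity
  intro ε h0 h1
  have hpi := Real.pi_pos
  have hgi : Integrable (fun t : ℝ => (t ^ 2 + 1 / 4) ^ 1 * TT.rR χ ε t) := TT.rR_int hχ h0 h1 1
  have hfi : Integrable (f2 N a u ε) := f2_int D u h0 h1
  set f1 : ℝ → ℂ := fun x : ℝ => (2 * (π : ℂ))⁻¹ *
      ∫ t : ℝ, (((t ^ 2 + 1 / 4) ^ 1 * TT.rR χ ε t : ℝ) : ℂ) * exp (-(t * x * I)) with hf1def
  have hf1i : Integrable f1 := TT.trans_int hχ hκ 1 (Or.inr rfl) h0 h1
  have hf1s : ∀ x, f1 (-x) = conj (f1 x) := fun x =>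
    TT.T20_conj (fun t => (t ^ 2 + 1 / 4) ^ 1 * TT.rR χ ε t) x
  have hf1b : ∀ x, ‖f1 x‖ ≤ ‖(2 * (π : ℂ))⁻¹‖ *
      ∫ t : ℝ, ‖(((t ^ 2 + 1 / 4) ^ 1 * TT.rR χ ε t : ℝ) : ℂ)‖ := by
    intro x
    rw [hf1def]
    simp only
    rw [norm_mul]
    refine mul_le_mul_of_nonneg_left ?_ (norm_nonneg _)
    refine (norm_integral_le_integral_norm _).trans (le_of_eq ?_)
    refine integral_congr_ae (Eventually.of_forall fun t => ?_)
    change ‖(((t ^ 2 + 1 / 4) ^ 1 * TT.rR χ ε t : ℝ) : ℂ) * exp (-(t * x * I))‖ = _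
    have h3 : -((t : ℂ) * (x : ℂ) * I) = ((-(t * x) : ℝ) : ℂ) * I := by
      push_cast
      ring
    rw [norm_mul, h3, norm_exp_ofReal_mul_I, mul_one]
  have hfc : Integrable (fun x : ℝ => conj (f2 N a u ε x)) := N13_conj hfi
  have hhi : Integrable (fun x => f1 x * conj (f2 N a u ε x)) :=
    hfc.bdd_mul hf1i.aestronglyMeasurable (Eventually.of_forall hf1b)
  have hpars := N13_pars hgi hfi (fun t => r2_eq D hu h0 h1 t)
  have e1 : (∫ x : ℝ, (∫ t : ℝ, (((t ^ 2 + 1 / 4) ^ 1 * TT.rR χ ε t : ℝ) : ℂ) *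
      exp (-(t * x * I))) * conj (f2 N a u ε x)) =
      (2 * (π : ℂ)) * ∫ x : ℝ, f1 x * conj (f2 N a u ε x) := by
    rw [← integral_const_mul]
    refine integral_congr_ae (Eventually.of_forall fun x => ?_)
    simp only [hf1def]
    have h2 : (2 * (π : ℂ)) ≠ 0 := mul_ne_zero two_ne_zero (ofReal_ne_zero.2 hpi.ne')
    rw [← mul_assoc, ← mul_assoc, mul_inv_cancel₀ h2, one_mul]
  have e2 : (∫ x : ℝ, f1 x * conj (f2 N a u ε x)) =
      ((2 * (∫ x in Ioi (0 : ℝ), f1 x * conj (f2 N a u ε x)).re : ℝ) : ℂ) := by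
    refine N13_half hhi fun x => ?_
    rw [hf1s x, f2_symm D hu h0 h1 x]
    exact (map_mul conj (f1 x) (conj (f2 N a u ε x))).symm
  have e3 : (∫ t : ℝ, (t ^ 2 + 1 / 4) ^ 1 * TT.rR χ ε t * r2 N L u ε t) =
      4 * π * (∫ x in Ioi (0 : ℝ), f1 x * conj (f2 N a u ε x)).re := by
    have h2 : ((∫ t : ℝ, (t ^ 2 + 1 / 4) ^ 1 * TT.rR χ ε t * r2 N L u ε t : ℝ) : ℂ) =
        ((4 * π * (∫ x in Ioi (0 : ℝ), f1 x * conj (f2 N a u ε x)).re : ℝ) : ℂ) := by
      rw [hpars, e1, e2]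
      push_cast
      ring
    exact ofReal_injective h2
  have e4 : (∫ t : ℝ, (t ^ 2 + 1 / 4) * (TT.rR χ ε t * r2 N L u ε t)) =
      4 * π * (∫ x in Ioi (0 : ℝ), f1 x * conj (f2 N a u ε x)).re := by
    rw [← e3]
    refine integral_congr_ae (Eventually.of_forall fun t => ?_)
    simp only
    ring
  have e5 : (∫ x in Ioi (0 : ℝ), f1 x * conj (f2 N a u ε x)) =
      ∑ j ∈ Finset.range (2 * 1 + 1), A ε j *
        ∫ x in Ioi (0 : ℝ), TT.rho q (fun n => χ n) (κ + 2 * j) ε x * conj (f2 N a u ε x) := by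
    have h2 : ∀ x : ℝ, f1 x * conj (f2 N a u ε x) = ∑ j ∈ Finset.range (2 * 1 + 1),
        A ε j * (TT.rho q (fun n => χ n) (κ + 2 * j) ε x * conj (f2 N a u ε x)) := by
      intro x
      have h3 := hf1 ε h0 h1 x
      rw [show f1 x = _ from h3, Finset.sum_mul]
      refine Finset.sum_congr rfl fun j _ => ?_
      ring
    rw [integral_congr_ae (Eventually.of_forall h2), integral_finsetSum]
    · refine Finset.sum_congr rfl fun j _ => ?_
      rw [integral_const_mul]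
    · intro j _
      exact (N13_int hq hb (κ + 2 * j) h0 h1 hfi).const_mul (A ε j)
  rw [e4, abs_mul, abs_of_pos (by positivity : (0 : ℝ) < 4 * π), mul_assoc (4 * π)]
  refine mul_le_mul_of_nonneg_left ?_ (by positivity)
  refine (Complex.abs_re_le_norm _).trans ?_
  rw [e5, Finset.sum_mul]
  refine (norm_sum_le _ _).trans (Finset.sum_le_sum fun j hj => ?_)
  rw [norm_mul, mul_assoc]
  refine mul_le_mul (hA ε j) ?_ (norm_nonneg _) hCA
  refine (hJ (κ + 2 * j) u ε hu.1 h0 h1).trans ?_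
  refine mul_le_mul_of_nonneg_left ?_ (hCJ _).le
  have hj2 : (j : ℝ) ≤ 2 := by
    have : j ≤ 2 := by
      have := Finset.mem_range.1 hj
      omega
    exact_mod_cast this
  refine Real.rpow_le_rpow_of_exponent_ge h0 (by linarith) ?_
  push_cast
  linarith

end NH
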