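import Pool.Agent.Lib.MP_0f5a55_nt.NH.N12
import Pool.Agent.Lib.MP_0f5a55_nt.NH.N14
import Pool.Agent.Lib.MP_0f5a55_nt.TT.T25

open Complex MeasureTheory Set Filter Topology
open scoped Real ComplexConjugate

namespace NH

/-- the coefficients of L(s,χ) L(s) -/
noncomputable def cc {q : ℕ} (χ : DirichletCharacter ℂ q) (a : ℕ → ℂ) (n : ℕ) : ℂ :=
  ∑ x ∈ n.divisorsAntidiagonal, χ (x.1 : ZMod q) * a x.2

/-- the coefficients as an arithmetic function -/
noncomputable def N15_af (a : ℕ → ℂ) : ArithmeticFunction ℂ :=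
  ⟨fun n => if n = 0 then 0 else a n, by simp⟩

theorem N15_af_apply (a : ℕ → ℂ) {n : ℕ} (hn : n ≠ 0) : N15_af a n = a n := by
  show (if n = 0 then 0 else a n) = _
  rw [if_neg hn]

theorem N15_cc {q : ℕ} (χ : DirichletCharacter ℂ q) (a : ℕ → ℂ) (n : ℕ) :
    (TT.T25_ch χ * N15_af a) n = cc χ a n := by
  rw [ArithmeticFunction.mul_apply]
  unfold cc
  refine Finset.sum_congr rfl fun x hx => ?_
  have h1 := Nat.mem_divisorsAntidiagonal.1 hx
  have h2 : x.1 ≠ 0 := by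
    intro h
    rw [h, zero_mul] at h1
    exact h1.2 h1.1.symm
  have h3 : x.2 ≠ 0 := by
    intro h
    rw [h, mul_zero] at h1
    exact h1.2 h1.1.symm
  rw [TT.T25_ch_apply χ h2, N15_af_apply a h3]

theorem N15_mult {N : ℕ} {a : ℕ → ℂ} {L : ℂ → ℂ} (D : Dat N a L) : (N15_af a).IsMultiplicative := by
  refine ArithmeticFunction.IsMultiplicative.iff_ne_zero.2 ⟨?_, ?_⟩
  · rw [N15_af_apply a one_ne_zero]
    exact D.one
  · intro m n hm hn hc
    rw [N15_af_apply a (mul_ne_zero hm hn), N15_af_apply a hm, N15_af_apply a hn]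
    exact D.mul m n (Nat.pos_of_ne_zero hm) (Nat.pos_of_ne_zero hn) hc

/-- Row N15. The product of the two L-functions. -/
theorem cc_one {q : ℕ} (χ : DirichletCharacter ℂ q) {N : ℕ} {a : ℕ → ℂ} {L : ℂ → ℂ} (D : Dat N a L) :
    cc χ a 1 = 1 := by
  unfold cc
  rw [Nat.divisorsAntidiagonal_one, Finset.sum_singleton, Nat.cast_one, map_one, one_mul]
  exact D.one

theorem cc_mul {q : ℕ} [NeZero q] (χ : DirichletCharacter ℂ q) {N : ℕ} {a : ℕ → ℂ} {L : ℂ → ℂ} (D : Dat N a L)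
    (m n : ℕ) (hm : 0 < m) (hn : 0 < n) (h : Nat.Coprime m n) : cc χ a (m * n) = cc χ a m * cc χ a n := by
  rw [← N15_cc, ← N15_cc, ← N15_cc]
  exact ((TT.T25_mult χ).mul (N15_mult D)).map_mul_of_coprime h

theorem cc_prime {q : ℕ} [NeZero q] (χ : DirichletCharacter ℂ q) {N : ℕ} {a : ℕ → ℂ} {L : ℂ → ℂ} (D : Dat N a L)
    {p : ℕ} (hp : p.Prime) (h : q * N ∣ p + 1) : 1 ≤ ‖cc χ a p‖ := by
  have h1 : cc χ a p = a p + χ (p : ZMod q) := by
    unfold cc
    rw [Nat.sum_divisorsAntidiagonal (f := fun x y => χ (x : ZMod q) * a y), hp.sum_divisors, Nat.div_self hp.pos,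
      Nat.div_one, D.one, mul_one, Nat.cast_one, map_one, one_mul]
    ring
  have h2 : (p : ZMod q) = -1 := by
    have h3 : ((p + 1 : ℕ) : ZMod q) = 0 := (ZMod.natCast_eq_zero_iff (p + 1) q).2 ((Dvd.intro N rfl).trans h)
    rw [Nat.cast_add, Nat.cast_one] at h3
    exact eq_neg_of_add_eq_zero_left h3
  have h4 : (a p).re = 0 := D.im p hp ((Dvd.intro_left q rfl).trans h)
  have h5 : |(cc χ a p).re| = 1 := by
    rw [h1, add_re, h4, zero_add, h2]
    rcases χ.even_or_odd with h6 | h6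
    · rw [DirichletCharacter.Even] at h6
      rw [h6, one_re, abs_one]
    · rw [DirichletCharacter.Odd] at h6
      rw [h6, neg_re, one_re, abs_neg, abs_one]
  rw [← h5]
  exact Complex.abs_re_le_norm _

theorem N15_ser {N : ℕ} {a : ℕ → ℂ} {L : ℂ → ℂ} (D : Dat N a L) {s : ℂ} (hs : 2 ≤ s.re) :
    LSeriesSummable (fun n => N15_af a n) s ∧ LSeries (fun n => N15_af a n) s = L s := by
  have h1 : HasSum (LSeries.term (fun n => N15_af a n) s) (L s) := by
    refine (hasSum_nat_add_iff' (f := LSeries.term (fun n => N15_af a n) s) 1).1 ?_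
    rw [Finset.sum_range_one, LSeries.term_zero, sub_zero]
    refine (D.ser s hs).congr_fun ?_
    intro n
    rw [LSeries.term_of_ne_zero (Nat.succ_ne_zero n), N15_af_apply a (Nat.succ_ne_zero n), Complex.cpow_neg,
      div_eq_mul_inv]
    push_cast
    rfl
  exact ⟨h1.summable, h1.tsum_eq⟩

theorem N15_prod {q : ℕ} [NeZero q] (χ : DirichletCharacter ℂ q) {N : ℕ} {a : ℕ → ℂ} {L : ℂ → ℂ} (D : Dat N a L)
    {s : ℂ} (hs : 2 ≤ s.re) :
    LSeriesSummable (fun n => cc χ a n) s ∧ LSeries (fun n => cc χ a n) s = LX.Lf χ s * L s := by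
  obtain ⟨a1, b1⟩ := TT.T25_ser χ (s := s) (by linarith)
  obtain ⟨a2, b2⟩ := N15_ser D hs
  have h0 : (fun n => cc χ a n) = fun n => (TT.T25_ch χ * N15_af a) n := by
    funext n
    rw [N15_cc]
  rw [h0]
  refine ⟨ArithmeticFunction.LSeriesSummable_mul a1 a2, ?_⟩
  rw [ArithmeticFunction.LSeries_mul' a1 a2, b1, b2]
  rfl

theorem cc_summ {q : ℕ} [NeZero q] (χ : DirichletCharacter ℂ q) {N : ℕ} {a : ℕ → ℂ} {L : ℂ → ℂ} (D : Dat N a L) :
    Summable (fun n : ℕ => ‖cc χ a (n + 1)‖ * (((n : ℝ) + 1) ^ 2)⁻¹) ∧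
    ∀ t : ℝ, LX.Lf χ (2 + t * I) * L (2 + t * I) =
      ∑' n : ℕ, cc χ a (n + 1) * ((n : ℂ) + 1) ^ (-(2 + t * I)) := by
  constructor
  · exact TT.T25_norm (N15_prod χ D (s := 2) (by norm_num)).1
  · intro t
    have hre : (2 : ℝ) ≤ ((2 : ℂ) + t * I).re := by simp
    obtain ⟨h1, h2⟩ := N15_prod χ D hre
    exact (TT.T25_hasSum h1 h2).tsum_eq.symm

theorem cc_F {q : ℕ} [NeZero q] (χ : DirichletCharacter ℂ q) {N : ℕ} {a : ℕ → ℂ} {L : ℂ → ℂ} (D : Dat N a L) :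
    (∀ s : ℂ, 0 < s.im → DifferentiableAt ℂ (fun s => LX.Lf χ s * L s) s) ∧
    ∃ C : ℝ, 0 < C ∧ ∀ s : ℂ, 1 / 2 ≤ s.re → 1 ≤ s.im → ‖LX.Lf χ s * L s‖ ≤ C * (1 + s.im) ^ 3 := by
  constructor
  · intro s hs
    have hne : s ≠ 1 := by
      rintro rfl
      simp at hs
    exact (DirichletCharacter.differentiableAt_LFunction χ s (Or.inl hne)).mul (D.ent s)
  · obtain ⟨C, hC, h⟩ := LP.per_pol (N := q) (fun x => χ x)
    obtain ⟨C2, hC2, h2⟩ := L_pol D
    refine ⟨C * C2, by positivity, fun s hs hs1 => ?_⟩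
    have h1 : (1 : ℝ) / 4 ≤ ‖s - 1‖ := by
      have := Complex.abs_im_le_norm (s - 1)
      rw [Complex.sub_im, Complex.one_im, sub_zero, abs_of_nonneg (by linarith)] at this
      linarith
    have h3 := h s (by linarith) h1
    have habs : |s.im| = s.im := abs_of_nonneg (by linarith)
    have h4 := h2 s hs (by rw [habs]; exact hs1)
    rw [habs] at h3 h4
    have h5 : ‖LX.Lf χ s‖ ≤ C * (1 + s.im) := h3
    have hp : 0 ≤ 1 + s.im := by linarith
    rw [norm_mul]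
    calc ‖LX.Lf χ s‖ * ‖L s‖ ≤ (C * (1 + s.im)) * (C2 * (1 + s.im) ^ 2) := by gcongr
      _ = _ := by ring

end NH
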