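import Pool.Agent.Lib.MP_0f5a55_nt.NH.N15

open Complex MeasureTheory Set Filter Topology
open scoped Real ComplexConjugate

namespace NH

private theorem N16_rpow {x b : ℝ} (hx : 0 < x) (hb0 : 0 ≤ b) (hb : b ≤ 4) : x ^ b ≤ 25 * Real.exp x := by
  have h1 := Real.pow_div_factorial_le_exp x hx.le 4
  have h4 : ((Nat.factorial 4 : ℕ) : ℝ) = 24 := by norm_num [Nat.factorial]
  rw [h4, div_le_iff₀ (by norm_num)] at h1
  have h3 : 1 ≤ Real.exp x := Real.one_le_exp hx.le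
  have h2 : x ^ b ≤ 1 + x ^ 4 := by
    rcases le_total x 1 with h | h
    · have := Real.rpow_le_one hx.le h hb0
      have h5 : 0 ≤ x ^ 4 := by positivity
      linarith
    · have := Real.rpow_le_rpow_of_exponent_le h hb
      rw [show (4 : ℝ) = ((4 : ℕ) : ℝ) by norm_num, Real.rpow_natCast] at this
      linarith
  linarith

/-- comparison of weights -/
private theorem N16_wt {t T β : ℝ} (ht : 1 ≤ t) (hT : 0 < T) (h1 : 1 ≤ β) (h2 : β ≤ 5) :
    1 / 25 * (2 * T) ^ (β - 5) * (t ^ 5 * Real.exp (-(t / T))) ≤ t ^ β * Real.exp (-(t / (2 * T))) := by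
  have ht0 : 0 < t := by linarith
  have hx : 0 < t / (2 * T) := by positivity
  have h3 := N16_rpow hx (show 0 ≤ 5 - β by linarith) (by linarith)
  rw [Real.div_rpow ht0.le (by positivity), div_le_iff₀ (by positivity)] at h3
  have e1 : t ^ 5 = t ^ β * t ^ (5 - β) := by
    rw [← Real.rpow_add ht0, show β + (5 - β) = (5 : ℕ) by push_cast; ring, Real.rpow_natCast]
  have e2 : (2 * T) ^ (β - 5) * (2 * T) ^ (5 - β) = 1 := by
    rw [← Real.rpow_add (by positivity), show β - 5 + (5 - β) = 0 by ring, Real.rpow_zero]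
  have e3 : Real.exp (t / (2 * T)) * Real.exp (-(t / T)) = Real.exp (-(t / (2 * T))) := by
    rw [← Real.exp_add]
    congr 1
    field_simp
    ring
  calc 1 / 25 * (2 * T) ^ (β - 5) * (t ^ 5 * Real.exp (-(t / T)))
      = 1 / 25 * (2 * T) ^ (β - 5) * (t ^ β * t ^ (5 - β) * Real.exp (-(t / T))) := by rw [e1]
    _ ≤ 1 / 25 * (2 * T) ^ (β - 5) * (t ^ β * (25 * Real.exp (t / (2 * T)) * (2 * T) ^ (5 - β)) *
          Real.exp (-(t / T))) := by gcongr
    _ = ((2 * T) ^ (β - 5) * (2 * T) ^ (5 - β)) * t ^ β * (Real.exp (t / (2 * T)) * Real.exp (-(t / T))) := by ring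
    _ = _ := by rw [e2, e3, one_mul]

/-- pointwise lower bound of the second factor -/
private theorem N16_two {N : ℕ} {a : ℕ → ℂ} {L : ℂ → ℂ} (D : Dat N a L) {u : ℂ} (hu : Un N a u) (ε : ℝ) {t : ℝ}
    (ht : 1 ≤ t) :
    √(√N / (2 * π)) * √π * Real.exp (-(ε * t)) * ‖L (1 / 2 + t * I)‖ ≤ |r2 N L u ε t| := by
  rw [r2_abs D hu]
  have h1 : Real.cosh (π * t) ≤ Real.exp (π * t) := by
    rw [Real.cosh_eq]
    have : Real.exp (-(π * t)) ≤ Real.exp (π * t) := by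
      apply Real.exp_le_exp.2
      have : 0 ≤ π * t := by have := Real.pi_pos; positivity
      linarith
    linarith
  have h2 : √π * Real.exp (-(π / 2 * t)) ≤ √(π / Real.cosh (π * t)) := by
    apply Real.le_sqrt_of_sq_le
    have h4 : Real.exp (-(π / 2 * t)) ^ 2 = (Real.exp (π * t))⁻¹ := by
      rw [← Real.exp_nat_mul, ← Real.exp_neg]
      congr 1
      push_cast
      ring
    rw [mul_pow, Real.sq_sqrt Real.pi_pos.le, h4, div_eq_mul_inv π (Real.cosh (π * t))]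
    exact mul_le_mul_of_nonneg_left (inv_anti₀ (Real.cosh_pos _) h1) Real.pi_pos.le
  have h3 : Real.exp (-(ε * t)) = Real.exp ((π / 2 - ε) * t) * Real.exp (-(π / 2 * t)) := by
    rw [← Real.exp_add]
    congr 1
    ring
  calc √(√N / (2 * π)) * √π * Real.exp (-(ε * t)) * ‖L (1 / 2 + t * I)‖
      = Real.exp ((π / 2 - ε) * t) * (√(√N / (2 * π)) * (√π * Real.exp (-(π / 2 * t))) *
        ‖L (1 / 2 + t * I)‖) := by rw [h3]; ring
    _ ≤ _ := by gcongr

/-- Row N16. Lower bound. -/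
theorem LB {q : ℕ} [NeZero q] {χ : DirichletCharacter ℂ q} (hχ : χ.IsPrimitive) {κ : ℕ} (hκ : TT.Par χ κ)
    {N : ℕ} {a : ℕ → ℂ} {L : ℂ → ℂ} (D : Dat N a L) {u : ℂ} (hu : Un N a u) (A : ℝ) :
    ∃ ε0 : ℝ, 0 < ε0 ∧ ε0 ≤ 1 / 2 ∧ ∀ ε : ℝ, 0 < ε → ε ≤ ε0 →
      A * ε ^ (-(11 / 4 + (κ : ℝ) / 2)) ≤
        ∫ t in Ioi (1 : ℝ), (t ^ 2 + 1 / 4) * |TT.rR χ ε t * r2 N L u ε t| := by
  have hκ1 : κ ≤ 1 := by
    rcases hκ with h | h
    · rw [h.2]; norm_num
    · rw [h.2]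
  obtain ⟨c1, hc1, g1⟩ := TT.gamma_lower hκ
  set c2 : ℝ := √(√N / (2 * π)) * √π with hc2d
  have hc2 : 0 < c2 := by
    have hN : (0 : ℝ) < N := by exact_mod_cast D.pos
    have := Real.pi_pos
    positivity
  obtain ⟨hF, C, hCp, hpol⟩ := cc_F χ D
  have hQ : 0 < q * N := Nat.mul_pos (Nat.pos_of_ne_zero (NeZero.ne q)) D.pos
  obtain ⟨ha, hF2⟩ := cc_summ χ D
  have hpoly := test_poly (a := cc χ a) (cc_one χ D) (fun m n hm hn h => cc_mul χ D m n hm hn h)
    (P := fun n => n.Prime ∧ q * N ∣ n + 1) (fun p hp => ⟨hp.1, cc_prime χ D hp.1 hp.2⟩) (div_neg hQ)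
  set β : ℝ := 7 / 4 + (κ : ℝ) / 2 with hβ
  have hκr : (κ : ℝ) ≤ 1 := by exact_mod_cast hκ1
  have hκ0 : (0 : ℝ) ≤ κ := by positivity
  set E : ℝ := c1 * c2 * (1 / 25) * (2 : ℝ) ^ (β - 5) * (3 : ℝ) ^ (-(β + 1)) with hE
  have hEp : 0 < E := by positivity
  set M : ℝ := |A| / E with hMdef
  obtain ⟨s, c, lam, hlam, hbd, hbig⟩ := hpoly (M + 1)
  obtain ⟨T0, hT0, hmean⟩ := TT.T25_mean (M := M) hF hpol ha hF2 one_pos s c lam hlam hbd (by
    have : 0 ≤ ‖∑ i ∈ s, c i * TT.al (cc χ a) (lam i)‖ := norm_nonneg _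
    linarith)
  refine ⟨min (1 / 2) (1 / (3 * T0)), by positivity, min_le_left _ _, fun ε h0 hε => ?_⟩
  have hε1 : ε ≤ 1 / 2 := hε.trans (min_le_left _ _)
  have hε2 : ε ≤ 1 / (3 * T0) := hε.trans (min_le_right _ _)
  set T : ℝ := 1 / (3 * ε) with hT
  have hTp : 0 < T := by positivity
  have hTT : T0 ≤ T := by
    rw [hT, le_div_iff₀ (by positivity)]
    rw [le_div_iff₀ (by positivity)] at hε2
    linarith
  have hm := hmean T hTT
  rw [div_one] at hm
  obtain ⟨K1, hK1, r1⟩ := TT.rR_le hχ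
  obtain ⟨K2, hK2, r2'⟩ := r2_le D
  have hIG : IntegrableOn (fun t : ℝ => (t ^ 2 + 1 / 4) * |TT.rR χ ε t * r2 N L u ε t|) (Ioi 1) := by
    refine TT.T25_int (K := K1 * K2) (b := 3 * ε / 2) ?_ (by positivity) 10 (fun t ht => ?_)
    · have q1 := TT.rR_cont hχ ε
      have q2 := r2_cont D u ε
      exact Continuous.continuousOn (by fun_prop)
    · have a1 := (r1 ε h0 hε1 t).1
      have a2 := (r2' u ε hu.1 h0 hε1 t).1
      rw [abs_of_nonneg (by linarith : 0 ≤ t)] at a1 a2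
      rw [Real.norm_of_nonneg (by positivity), abs_mul]
      have a4 : t ^ 2 + 1 / 4 ≤ (1 + t) ^ 2 := by nlinarith
      calc (t ^ 2 + 1 / 4) * (|TT.rR χ ε t| * |r2 N L u ε t|) ≤
          (1 + t) ^ 2 * ((K1 * (1 + t) ^ 4 * Real.exp (-(ε * t / 2))) * (K2 * (1 + t) ^ 4 *
            Real.exp (-(ε * t)))) := by gcongr
        _ = K1 * K2 * (1 + t) ^ 10 * (Real.exp (-(ε * t / 2)) * Real.exp (-(ε * t))) := by ring
        _ = _ := by
            rw [← Real.exp_add]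
            congr 2
            ring
  have hpt : ∀ t ∈ Ioi (1 : ℝ), c1 * c2 * (1 / 25 * (2 * T) ^ (β - 5)) *
      (t ^ 5 * Real.exp (-(t / T)) * ‖LX.Lf χ (1 / 2 + t * I) * L (1 / 2 + t * I)‖) ≤
        (t ^ 2 + 1 / 4) * |TT.rR χ ε t * r2 N L u ε t| := by
    intro t ht
    have ht1 : 1 ≤ t := le_of_lt ht
    have htp : 0 < t := by linarith
    have a1 := TT.T25_one hχ hc1 g1 ε ht1
    have a2 := N16_two D hu ε ht1
    rw [← hc2d] at a2
    have w := N16_wt (β := β) ht1 hTp (by linarith) (by linarith)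
    set L1 := ‖LX.Lf χ (1 / 2 + t * I)‖ with hL1
    set L2 := ‖L (1 / 2 + t * I)‖ with hL2
    have hL1p : 0 ≤ L1 := norm_nonneg _
    have hL2p : 0 ≤ L2 := norm_nonneg _
    have e1 : t ^ β * Real.exp (-(t / (2 * T))) = t ^ 2 * ((t ^ ((κ : ℝ) / 2 - 1 / 4) * Real.exp (-(ε * t / 2))) *
        Real.exp (-(ε * t))) := by
      have x1 : t ^ β = t ^ 2 * t ^ ((κ : ℝ) / 2 - 1 / 4) := by
        rw [← Real.rpow_natCast t 2, ← Real.rpow_add htp]
        congr 1
        rw [hβ]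
        push_cast
        ring
      have x2 : Real.exp (-(t / (2 * T))) = Real.exp (-(ε * t / 2)) * Real.exp (-(ε * t)) := by
        rw [← Real.exp_add]
        congr 1
        rw [hT]
        field_simp
        ring
      rw [x1, x2]
      ring
    rw [abs_mul, norm_mul]
    calc c1 * c2 * (1 / 25 * (2 * T) ^ (β - 5)) * (t ^ 5 * Real.exp (-(t / T)) * (L1 * L2))
        = c1 * c2 * (L1 * L2) * (1 / 25 * (2 * T) ^ (β - 5) * (t ^ 5 * Real.exp (-(t / T)))) := by ring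
      _ ≤ c1 * c2 * (L1 * L2) * (t ^ β * Real.exp (-(t / (2 * T)))) := by gcongr
      _ = t ^ 2 * ((c1 * t ^ ((κ : ℝ) / 2 - 1 / 4) * Real.exp (-(ε * t / 2)) * L1) *
          (c2 * Real.exp (-(ε * t)) * L2)) := by rw [e1]; ring
      _ ≤ (t ^ 2 + 1 / 4) * (|TT.rR χ ε t| * |r2 N L u ε t|) := by
          have a4 : t ^ 2 ≤ t ^ 2 + 1 / 4 := by linarith
          gcongr
  have hIF : IntegrableOn (fun t : ℝ => c1 * c2 * (1 / 25 * (2 * T) ^ (β - 5)) *
      (t ^ 5 * Real.exp (-(t / T)) * ‖LX.Lf χ (1 / 2 + t * I) * L (1 / 2 + t * I)‖)) (Ioi 1) := by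
    refine Integrable.const_mul ?_ _
    refine TT.T25_int (K := C) (b := T⁻¹) ?_ (inv_pos.2 hTp) 8 (fun t ht => ?_)
    · have hcF : ContinuousOn (fun t : ℝ => LX.Lf χ (1 / 2 + t * I) * L (1 / 2 + t * I)) (Ici 1) := by
        intro t ht
        have him : 0 < ((1 / 2 : ℂ) + t * I).im := by
          have : (1 : ℝ) ≤ t := ht
          simp
          linarith
        have h1 : ContinuousAt (fun t : ℝ => (1 / 2 : ℂ) + t * I) t := by fun_prop
        exact (ContinuousAt.comp (f := fun t : ℝ => (1 / 2 : ℂ) + t * I) (hF _ him).continuousAt h1).continuousWithinAt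
      have hexpc : ContinuousOn (fun t : ℝ => t ^ 5 * Real.exp (-(t / T))) (Ici 1) := by fun_prop
      exact hexpc.mul hcF.norm
    · have x1 := hpol (1 / 2 + t * I) (by simp) (by simpa using ht)
      have x2 : ((1 / 2 : ℂ) + t * I).im = t := by simp
      rw [x2] at x1
      have htp : 0 ≤ t := by linarith
      rw [Real.norm_of_nonneg (by positivity)]
      have x3 : t ^ 5 ≤ (1 + t) ^ 5 := pow_le_pow_left₀ (by linarith) (by linarith) 5
      have x4 : -(t / T) = -(T⁻¹ * t) := by rw [div_eq_inv_mul]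
      rw [x4]
      calc t ^ 5 * Real.exp (-(T⁻¹ * t)) * ‖LX.Lf χ (1 / 2 + t * I) * L (1 / 2 + t * I)‖ ≤
          (1 + t) ^ 5 * Real.exp (-(T⁻¹ * t)) * (C * (1 + t) ^ 3) := by gcongr
        _ = _ := by ring
  have hmono := setIntegral_mono_on hIF hIG measurableSet_Ioi hpt
  rw [integral_const_mul] at hmono
  refine le_trans ?_ hmono
  have hfin : c1 * c2 * (1 / 25 * (2 * T) ^ (β - 5)) * (M * T ^ 6) ≤
      c1 * c2 * (1 / 25 * (2 * T) ^ (β - 5)) * ∫ t in Ioi (1 : ℝ), t ^ 5 * Real.exp (-(t / T)) *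
        ‖LX.Lf χ (1 / 2 + t * I) * L (1 / 2 + t * I)‖ := by gcongr
  refine le_trans ?_ hfin
  have e2 : c1 * c2 * (1 / 25 * (2 * T) ^ (β - 5)) * (M * T ^ 6) =
      |A| * ε ^ (-(11 / 4 + (κ : ℝ) / 2)) := by
    have y1 : (2 * T) ^ (β - 5) * T ^ 6 = 2 ^ (β - 5) * T ^ (β + 1) := by
      rw [Real.mul_rpow (by norm_num) hTp.le, ← Real.rpow_natCast T 6, mul_assoc, ← Real.rpow_add hTp]
      congr 2
      push_cast
      ring
    have y2 : T ^ (β + 1) = 3 ^ (-(β + 1)) * ε ^ (-(β + 1)) := by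
      rw [hT, one_div, ← Real.rpow_neg_one, ← Real.rpow_mul (by positivity), Real.mul_rpow (by norm_num) h0.le]
      ring_nf
    have y3 : -(11 / 4 + (κ : ℝ) / 2) = -(β + 1) := by rw [hβ]; ring
    have y4 : E * M = |A| := by
      rw [hMdef]
      field_simp
    rw [y3, ← y4, hE]
    calc c1 * c2 * (1 / 25 * (2 * T) ^ (β - 5)) * (M * T ^ 6)
        = c1 * c2 * (1 / 25) * M * ((2 * T) ^ (β - 5) * T ^ 6) := by ring
      _ = _ := by rw [y1, y2]; ring
  rw [e2]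
  exact mul_le_mul_of_nonneg_right (le_abs_self A) (by positivity)

end NH
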