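import Mathlib

/-!
Newforms of weight one.
-/

open Complex
open scoped MatrixGroups ComplexConjugate

namespace NH

/-- Cusp forms of weight one for Γ₁(N). -/
abbrev S1 (N : ℕ) : Type := CuspForm (Subgroup.map (Matrix.SpecialLinearGroup.mapGL ℝ) (CongruenceSubgroup.Gamma1 N)) 1

/-- The n-th Fourier coefficient: f(τ) = ∑ a(n) exp(2πinτ). -/
noncomputable def co {N : ℕ} (f : S1 N) (n : ℕ) : ℂ := (UpperHalfPlane.qExpansion 1 f).coeff n

/-- The properties of a newform f = ∑ a(n) qⁿ of weight one, level N and character ε that are used: a(1) = 1, a is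
multiplicative, the local factor at a prime p not dividing N is (1 - αX)(1 - βX) with |α| = |β| = 1 and αβ = ε(p), at a
prime p dividing N it is 1 - a(p)X with |a(p)| ≤ 1, and the Fricke involution τ ↦ -1/(Nτ) maps f to a multiple of the
form with the complex conjugate coefficients. -/
structure Newform {N : ℕ} (f : S1 N) (ε : DirichletCharacter ℂ N) : Prop where
  odd : ε.Odd
  one : co f 1 = 1
  mul : ∀ m n : ℕ, m.Coprime n → co f (m * n) = co f m * co f n
  good : ∀ p : ℕ, p.Prime → ¬ p ∣ N → ∃ α β : ℂ, ‖α‖ = 1 ∧ ‖β‖ = 1 ∧ α * β = ε p ∧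
    ∀ k : ℕ, co f (p ^ k) = ∑ j ∈ Finset.range (k + 1), α ^ j * β ^ (k - j)
  bad : ∀ p : ℕ, p.Prime → p ∣ N → ‖co f p‖ ≤ 1 ∧ ∀ k : ℕ, co f (p ^ k) = co f p ^ k
  fricke : ∃ (c : ℂ) (g : S1 N), (∀ n : ℕ, co g n = conj (co f n)) ∧
    ∀ τ w : UpperHalfPlane, (w : ℂ) = -1 / (N * τ) → f w = c * τ * g τ

end NH
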