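import Pool.Agent.Lib.MP_0f5a55_nt.NH.D
import Pool.Agent.Lib.MP_0f5a55_nt.NH.Nf

open Complex MeasureTheory Set Filter Topology
open scoped Real ComplexConjugate

namespace NH

theorem N18_T (N : ℕ) : ModularGroup.T ∈ CongruenceSubgroup.Gamma1 N := by
  rw [CongruenceSubgroup.Gamma1_mem]
  simp [ModularGroup.coe_T]

theorem N18_per (N : ℕ) : (1 : ℝ) ∈
    (Subgroup.map (Matrix.SpecialLinearGroup.mapGL ℝ) (CongruenceSubgroup.Gamma1 N)).strictPeriods := by
  rw [Subgroup.strictPeriods_eq_zmultiples_one_of_T_mem (N18_T N)]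
  exact AddSubgroup.mem_zmultiples 1

theorem N18_zero {N : ℕ} (f : S1 N) : co f 0 = 0 :=
  CuspFormClass.qExpansion_coeff_zero f one_pos (N18_per N)

/-- Row N18. Fourier expansion and functional equation. -/
theorem co_hasSum {N : ℕ} [NeZero N] (f : S1 N) (τ : UpperHalfPlane) :
    HasSum (fun n : ℕ => co f (n + 1) * exp (2 * π * ((n : ℂ) + 1) * (τ : ℂ) * I)) (f τ) := by
  have h := ModularForm.hasSum_qExpansion f one_pos (N18_per N) τ
  have h1 := (hasSum_nat_add_iff' 1).2 h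
  have h0 : (UpperHalfPlane.qExpansion 1 f).coeff 0 = 0 := N18_zero f
  rw [Finset.sum_range_one, h0, zero_mul, sub_zero] at h1
  have h2 : (fun n : ℕ => co f (n + 1) * exp (2 * π * ((n : ℂ) + 1) * (τ : ℂ) * I)) =
      fun n : ℕ => (UpperHalfPlane.qExpansion 1 f).coeff (n + 1) *
        Function.Periodic.qParam 1 (τ : ℂ) ^ (n + 1) := by
    funext n
    show _ * _ = _ * _
    rw [Function.Periodic.qParam, ← exp_nat_mul]
    congr 2
    push_cast
    ring
  rw [h2]
  exact h1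

theorem N18_pt {N : ℕ} [NeZero N] (f : S1 N) (z : ℂ) (τ : UpperHalfPlane)
    (hτ : (τ : ℂ) = I * z / ((√N : ℝ) : ℂ)) : FF N (co f) z = f τ := by
  have h := (co_hasSum f τ).tsum_eq
  rw [← h, FF]
  congr 1
  ext n
  congr 2
  rw [hτ]
  have : (2 * π * ((n : ℂ) + 1) * (I * z / ((√N : ℝ) : ℂ)) * I) =
      (I * I) * (2 * π * ((n : ℂ) + 1) * z / ((√N : ℝ) : ℂ)) := by ring
  rw [this, I_mul_I]
  ring

theorem N18_sq {N : ℕ} [NeZero N] : 0 < √(N : ℝ) :=
  Real.sqrt_pos.2 (Nat.cast_pos.2 (NeZero.pos N))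

theorem N18_im {N : ℕ} [NeZero N] {z : ℂ} (hz : 0 < z.re) : 0 < (I * z / ((√N : ℝ) : ℂ)).im := by
  have h := N18_sq (N := N)
  rw [div_ofReal_im]
  apply div_pos _ h
  simpa using hz

theorem N18_conj {N : ℕ} {a b : ℕ → ℂ} (h : ∀ n, b n = conj (a n)) (z : ℂ) :
    FF N b z = conj (FF N a (conj z)) := by
  rw [FF, FF, Complex.conj_tsum]
  congr 1
  ext n
  rw [h, map_mul, ← exp_conj]
  simp [map_ofNat]

theorem fe_of_fricke {N : ℕ} [NeZero N] {f : S1 N} {ε : DirichletCharacter ℂ N} (hf : Newform f ε) :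
    ∃ c : ℂ, ‖c‖ = 1 ∧ ∀ z : ℂ, 0 < z.re → FF N (co f) (1 / z) = c * z * conj (FF N (co f) (conj z)) := by
  obtain ⟨c, g, hg, hfr⟩ := hf.fricke
  have hs := N18_sq (N := N)
  have hsc : ((√N : ℝ) : ℂ) ≠ 0 := ofReal_ne_zero.2 hs.ne'
  have hss : ((√N : ℝ) : ℂ) * ((√N : ℝ) : ℂ) = (N : ℂ) := by
    rw [← ofReal_mul, Real.mul_self_sqrt (Nat.cast_nonneg _)]
    simp
  have hinv : ∀ z : ℂ, 0 < z.re → 0 < (1 / z).re := by
    intro z hz
    rw [one_div, inv_re]
    apply div_pos hz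
    apply normSq_pos.2
    rintro rfl
    simp at hz
  have key : ∀ z : ℂ, 0 < z.re →
      FF N (co f) (1 / z) = (c * I / ((√N : ℝ) : ℂ)) * z * conj (FF N (co f) (conj z)) := by
    intro z hz
    have hz0 : z ≠ 0 := by
      rintro rfl
      simp at hz
    rw [← N18_conj hg z]
    have e1 := N18_pt f (1 / z)
      ⟨I * (1 / z) / ((√N : ℝ) : ℂ), N18_im (hinv z hz)⟩ rfl
    have e2 := N18_pt g z ⟨I * z / ((√N : ℝ) : ℂ), N18_im hz⟩ rfl
    rw [e1, e2]
    rw [hfr ⟨I * z / ((√N : ℝ) : ℂ), N18_im hz⟩ _ ?_]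
    · show c * (I * z / ((√N : ℝ) : ℂ)) * _ = _
      ring
    · show I * (1 / z) / ((√N : ℝ) : ℂ) = -1 / (N * (I * z / ((√N : ℝ) : ℂ)))
      rw [← hss]
      field_simp
      rw [I_sq]
  refine ⟨c * I / ((√N : ℝ) : ℂ), ?_, key⟩
  set c' := c * I / ((√N : ℝ) : ℂ) with hc'
  -- a nonzero value
  have hne : ∃ z : ℂ, 0 < z.re ∧ FF N (co f) z ≠ 0 := by
    by_contra hcon
    push Not at hcon
    have hz : ∀ τ : UpperHalfPlane, f τ = 0 := by
      intro τ
      have hre : 0 < ((τ : ℂ) * ((√N : ℝ) : ℂ) / I).re := by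
        have : (τ : ℂ) * ((√N : ℝ) : ℂ) / I = -(I * ((τ : ℂ) * ((√N : ℝ) : ℂ))) := by
          rw [div_I]
          ring
        rw [this]
        have h2 : (-(I * ((τ : ℂ) * ((√N : ℝ) : ℂ)))).re = τ.im * √N := by
          simp
        rw [h2]
        exact mul_pos τ.im_pos hs
      rw [← N18_pt f ((τ : ℂ) * ((√N : ℝ) : ℂ) / I) τ (by field_simp)]
      exact hcon _ hre
    have h1 := ModularFormClass.qExpansion_coeff_unique (c := fun _ => 0) one_pos (N18_per N) (f := f)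
      (fun τ => by
        rw [hz τ]
        simp only [zero_smul]
        exact hasSum_zero) 1
    have h2 : co f 1 = 0 := h1.symm
    rw [hf.one] at h2
    exact one_ne_zero h2
  obtain ⟨z, hz, hzne⟩ := hne
  have hz0 : z ≠ 0 := by
    rintro rfl
    simp at hz
  have k1 := key (1 / z) (hinv z hz)
  rw [one_div_one_div] at k1
  have e3 : conj (1 / z) = 1 / conj z := by simp
  have hzc : 0 < (conj z).re := by simpa using hz
  rw [e3, key (conj z) hzc, conj_conj] at k1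
  have hz0' : conj z ≠ 0 := by simpa using hz0
  have k2 : FF N (co f) z = (c' * conj c') * FF N (co f) z := by
    conv_lhs => rw [k1]
    rw [map_mul, map_mul, conj_conj, conj_conj]
    field_simp
  have k3 : c' * conj c' = 1 := by
    have : (c' * conj c' - 1) * FF N (co f) z = 0 := by
      rw [sub_mul, ← k2]
      ring
    rcases mul_eq_zero.1 this with h | h
    · linear_combination h
    · exact absurd h hzne
  rw [mul_conj, normSq_eq_norm_sq] at k3
  have k4 : ‖c'‖ ^ 2 = 1 := by exact_mod_cast k3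
  exact (pow_eq_one_iff_of_nonneg (norm_nonneg _) two_ne_zero).1 k4

end NH
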