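import Pool.Agent.Lib.MP_0f5a55_nt.NH.N18

open Complex MeasureTheory Set Filter Topology
open scoped Real ComplexConjugate

namespace NH

theorem N19_bd {N : ℕ} [NeZero N] (f : S1 N) : ∃ C : ℝ, 0 ≤ C ∧ ∀ τ : UpperHalfPlane,
    ‖f τ‖ ≤ C / √τ.im := by
  obtain ⟨C, hC⟩ := CuspFormClass.exists_bound f
  refine ⟨max C 0, le_max_right _ _, fun τ => (hC τ).trans ?_⟩
  have h1 : τ.im ^ (((1 : ℤ) : ℝ) / 2) = √τ.im := by
    rw [Real.sqrt_eq_rpow]
    norm_num
  rw [h1]
  exact div_le_div_of_nonneg_right (le_max_left _ _) (Real.sqrt_nonneg _)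

theorem N19_eq {N : ℕ} [NeZero N] (f : S1 N) (x y : ℝ) (hy : 0 < y) :
    (∑' n : ℕ, co f (n + 1) * exp (2 * π * ((n : ℂ) + 1) * (x + y * I) * I)) =
      f ⟨(x : ℂ) + y * I, by simpa using hy⟩ :=
  (co_hasSum f ⟨(x : ℂ) + y * I, by simpa using hy⟩).tsum_eq

/-- Row N19. Hecke bound, pointwise and in mean square. -/
theorem co_pt {N : ℕ} [NeZero N] (f : S1 N) : ∃ C : ℝ, 0 ≤ C ∧ ∀ x y : ℝ, 0 < y →
    ‖∑' n : ℕ, co f (n + 1) * exp (2 * π * ((n : ℂ) + 1) * (x + y * I) * I)‖ ≤ C / √y := by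
  obtain ⟨C, hC0, hC⟩ := N19_bd f
  refine ⟨C, hC0, fun x y hy => ?_⟩
  rw [N19_eq f x y hy]
  have h := hC ⟨(x : ℂ) + y * I, by simpa using hy⟩
  have e : UpperHalfPlane.im ⟨(x : ℂ) + y * I, by simpa using hy⟩ = y := by
    show ((x : ℂ) + y * I).im = y
    simp
  rwa [e] at h

theorem N19_par {N : ℕ} [NeZero N] (f : S1 N) {C : ℝ} (hC : ∀ τ : UpperHalfPlane, ‖f τ‖ ≤ C / √τ.im)
    {t : ℝ} (ht : 0 < t) (M : ℕ) :
    ∑ n ∈ Finset.range M, ‖co f (n + 1)‖ ^ 2 * Real.exp (-(4 * π * t * ((n : ℝ) + 1))) ≤ C ^ 2 / t := by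
  set F : ℝ → ℂ := fun u => f ⟨(u : ℂ) + t * I, by simpa using ht⟩ with hF
  have hb : ∀ u, ‖F u‖ ≤ C / √t := by
    intro u
    have h := hC ⟨(u : ℂ) + t * I, by simpa using ht⟩
    have e : UpperHalfPlane.im ⟨(u : ℂ) + t * I, by simpa using ht⟩ = t := by
      show ((u : ℂ) + t * I).im = t
      simp
    rwa [e] at h
  have hcont : Continuous F := by
    have h1 : Continuous f := (ModularFormClass.holo f).continuous
    refine h1.comp ?_
    fun_prop
  have hL2 : MemLp F 2 (volume.restrict (Ioc (0 : ℝ) 1)) := by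
    refine MemLp.of_bound hcont.aestronglyMeasurable (C / √t) ?_
    exact Filter.Eventually.of_forall hb
  have hpar := hasSum_sq_fourierCoeffOn (zero_lt_one' ℝ) hL2
  have hint : ((1 : ℝ) - 0)⁻¹ • ∫ x in (0 : ℝ)..1, ‖F x‖ ^ 2 ≤ C ^ 2 / t := by
    rw [sub_zero, inv_one, one_smul]
    have h1 : ∫ x in (0 : ℝ)..1, ‖F x‖ ^ 2 ≤ ∫ x in (0 : ℝ)..1, C ^ 2 / t := by
      refine intervalIntegral.integral_mono_on zero_le_one ?_ ?_ ?_
      · exact (hcont.norm.pow 2).intervalIntegrable _ _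
      · exact intervalIntegrable_const
      · intro x _
        have h2 := pow_le_pow_left₀ (norm_nonneg _) (hb x) 2
        rwa [div_pow, Real.sq_sqrt ht.le] at h2
    simpa using h1
  have hco : ∀ n : ℕ, ‖fourierCoeffOn (zero_lt_one' ℝ) F ((n : ℤ) + 1)‖ ^ 2 =
      ‖co f (n + 1)‖ ^ 2 * Real.exp (-(4 * π * t * ((n : ℝ) + 1))) := by
    intro n
    have h1 := ModularFormClass.qExpansion_coeff_eq_intervalIntegral f one_pos (N18_per N) (n + 1) ht
    have h2 : co f (n + 1) = exp (2 * π * ((n : ℂ) + 1) * t) *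
        fourierCoeffOn (zero_lt_one' ℝ) F ((n : ℤ) + 1) := by
      have h3 : fourierCoeffOn (zero_lt_one' ℝ) F ((n : ℤ) + 1) =
          ∫ u in (0 : ℝ)..1, exp (-(2 * π * I * ((n : ℂ) + 1) * u)) * F u := by
        rw [fourierCoeffOn_eq_integral]
        have h4 : ((1 : ℝ) / (1 - 0)) = 1 := by norm_num
        rw [h4, one_smul]
        apply intervalIntegral.integral_congr
        intro u _
        show fourier (-((n : ℤ) + 1)) (u : AddCircle ((1 : ℝ) - 0)) * F u = _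
        rw [fourier_coe_apply]
        congr 2
        push_cast
        ring
      rw [h3, ← intervalIntegral.integral_const_mul]
      show (UpperHalfPlane.qExpansion 1 f).coeff (n + 1) = _
      rw [h1, ofReal_one, div_one, one_mul]
      apply intervalIntegral.integral_congr
      intro u _
      show 1 / Function.Periodic.qParam 1 ((u : ℂ) + t * I) ^ (n + 1) * F u =
        exp (2 * π * ((n : ℂ) + 1) * t) * (exp (-(2 * π * I * ((n : ℂ) + 1) * u)) * F u)
      rw [Function.Periodic.qParam, ← exp_nat_mul, one_div, ← exp_neg, ← mul_assoc, ← exp_add]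
      congr 2
      push_cast
      have hI : I * (t * I) = -(t : ℂ) := by
        rw [← mul_assoc, mul_comm I (t : ℂ), mul_assoc, I_mul_I]
        ring
      linear_combination (-(2 * π * ((n : ℂ) + 1))) * hI
    rw [h2, norm_mul, mul_pow, norm_exp]
    have hre : (2 * π * ((n : ℂ) + 1) * t : ℂ).re = 2 * π * ((n : ℝ) + 1) * t := by
      have : (2 * π * ((n : ℂ) + 1) * t : ℂ) = ((2 * π * ((n : ℝ) + 1) * t : ℝ) : ℂ) := by
        push_cast
        ring
      rw [this, ofReal_re]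
    rw [hre, ← Real.exp_nat_mul, mul_comm (Real.exp _) (_ ^ 2), mul_assoc, ← Real.exp_add]
    have h3 : ((2 : ℕ) : ℝ) * (2 * π * ((n : ℝ) + 1) * t) + -(4 * π * t * ((n : ℝ) + 1)) = 0 := by
      push_cast
      ring
    rw [h3, Real.exp_zero, mul_one]
  calc ∑ n ∈ Finset.range M, ‖co f (n + 1)‖ ^ 2 * Real.exp (-(4 * π * t * ((n : ℝ) + 1)))
      = ∑ n ∈ Finset.range M, ‖fourierCoeffOn (zero_lt_one' ℝ) F ((n : ℤ) + 1)‖ ^ 2 := by
        refine Finset.sum_congr rfl fun n _ => (hco n).symm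
    _ = ∑ i ∈ (Finset.range M).image (fun n : ℕ => (n : ℤ) + 1),
          ‖fourierCoeffOn (zero_lt_one' ℝ) F i‖ ^ 2 := by
        rw [Finset.sum_image]
        intro a _ b _ h
        simpa using h
    _ ≤ _ := (sum_le_hasSum _ (fun _ _ => by positivity) hpar).trans hint

theorem co_ms {N : ℕ} [NeZero N] (f : S1 N) : ∃ C : ℝ, 0 ≤ C ∧ ∀ x : ℝ, 0 < x →
    ∑' n : ℕ, ‖co f (n + 1)‖ ^ 2 * Real.exp (-(x * ((n : ℝ) + 1))) ≤ C / x := by
  obtain ⟨C, hC0, hC⟩ := N19_bd f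
  refine ⟨4 * π * C ^ 2, by positivity, fun x hx => ?_⟩
  have ht : 0 < x / (4 * π) := by positivity
  apply Real.tsum_le_of_sum_range_le (fun n => by positivity)
  intro M
  have h := N19_par f hC ht M
  have e : 4 * π * (x / (4 * π)) = x := by field_simp
  rw [e] at h
  refine h.trans (le_of_eq ?_)
  field_simp

end NH
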