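import Pool.Agent.Lib.MP_0f5a55_nt.NH.N19

open Complex MeasureTheory Set Filter Topology
open scoped Real ComplexConjugate

namespace NH

/-- Row N20. The L-function (Mathlib) and the data. -/
theorem co_ser {N : ℕ} [NeZero N] (f : S1 N) (s : ℂ) (hs : 2 ≤ s.re) :
    HasSum (fun n : ℕ => co f (n + 1) * ((n : ℂ) + 1) ^ (-s)) (ModularForm.L one_pos f s) := by
  have hs0 : s ≠ 0 := by
    rintro rfl
    rw [Complex.zero_re] at hs
    norm_num at hs
  have h1 := CuspForm.hasSum_L (Γ := Subgroup.map (Matrix.SpecialLinearGroup.mapGL ℝ) (CongruenceSubgroup.Gamma1 N))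
    (k := 1) one_pos f (s := s) (by push_cast; linarith)
  rw [CongruenceSubgroup.strictWidthInfty_Gamma1] at h1
  rw [Complex.ofReal_one, Complex.one_cpow, one_mul] at h1
  have h2 := (hasSum_nat_add_iff' 1).2 h1
  simp only [Finset.sum_range_one, Nat.cast_zero, Complex.zero_cpow hs0, div_zero, sub_zero] at h2
  refine h2.congr_fun fun n => ?_
  have h3 : (((n + 1 : ℕ) : ℂ)) = (n : ℂ) + 1 := by push_cast; ring
  rw [h3, Complex.cpow_neg, div_eq_mul_inv]
  rfl

theorem N20_loc {N : ℕ} {f : S1 N} {ε : DirichletCharacter ℂ N} (hf : Newform f ε) (p : ℕ)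
    (hp : p.Prime) : ∃ α β : ℂ, ‖α‖ ≤ 1 ∧ ‖β‖ ≤ 1 ∧
    ∀ k : ℕ, co f (p ^ k) = ∑ j ∈ Finset.range (k + 1), α ^ j * β ^ (k - j) := by
  by_cases hN : p ∣ N
  · obtain ⟨h1, h2⟩ := hf.bad p hp hN
    refine ⟨co f p, 0, h1, by simp, fun k => ?_⟩
    rw [h2 k, Finset.sum_range_succ, Nat.sub_self, pow_zero, mul_one, Finset.sum_eq_zero, zero_add]
    intro j hj
    rw [Finset.mem_range] at hj
    rw [zero_pow (by omega), mul_zero]
  · obtain ⟨α, β, h1, h2, _, h3⟩ := hf.good p hp hN
    exact ⟨α, β, h1.le, h2.le, h3⟩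

theorem N20_bd {N : ℕ} {f : S1 N} {ε : DirichletCharacter ℂ N} (hf : Newform f ε) (n : ℕ)
    (hn : 0 < n) : ‖co f n‖ ≤ (n.divisors.card : ℝ) := by
  induction n using Nat.recOnPosPrimePosCoprime with
  | zero => omega
  | one => rw [hf.one]; simp
  | prime_pow p k hp hk =>
    obtain ⟨α, β, h1, h2, h3⟩ := N20_loc hf p hp
    rw [h3 k, Nat.divisors_prime_pow hp, Finset.card_map, Finset.card_range]
    refine (norm_sum_le _ _).trans ?_
    refine (Finset.sum_le_sum (g := fun _ => (1 : ℝ)) fun j _ => ?_).trans (by simp)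
    rw [norm_mul, norm_pow, norm_pow]
    exact mul_le_one₀ (pow_le_one₀ (norm_nonneg _) h1) (by positivity) (pow_le_one₀ (norm_nonneg _) h2)
  | coprime a b ha hb hab iha ihb =>
    rw [hf.mul a b hab, norm_mul, Nat.Coprime.card_divisors_mul hab, Nat.cast_mul]
    exact mul_le_mul (iha (by omega)) (ihb (by omega)) (norm_nonneg _) (by positivity)

theorem N20_im {N : ℕ} {f : S1 N} {ε : DirichletCharacter ℂ N} (hf : Newform f ε) (p : ℕ)
    (hp : p.Prime) (hN : N ∣ p + 1) : (co f p).re = 0 := by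
  have hpN : ¬ p ∣ N := by
    intro h
    have h1 : p ∣ 1 := (Nat.dvd_add_right dvd_rfl).1 (h.trans hN)
    exact hp.one_lt.ne' (Nat.dvd_one.1 h1)
  obtain ⟨α, β, h1, h2, h3, h4⟩ := hf.good p hp hpN
  have h5 : (p : ZMod N) = -1 := by
    have h6 : ((p + 1 : ℕ) : ZMod N) = 0 := (ZMod.natCast_eq_zero_iff _ _).2 hN
    push_cast at h6
    exact eq_neg_of_add_eq_zero_left h6
  have h6 : α * β = -1 := by
    rw [h3, h5]
    exact hf.odd
  have h7 := h4 1
  rw [pow_one] at h7
  have h8 : co f p = α + β := by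
    rw [h7]
    simp [Finset.sum_range_succ, add_comm]
  have h9 : β = -conj α := by
    have h10 : α * conj α = 1 := by
      rw [Complex.mul_conj, Complex.normSq_eq_norm_sq, h1]
      simp
    calc β = (α * conj α) * β := by rw [h10, one_mul]
      _ = conj α * (α * β) := by ring
      _ = -conj α := by rw [h6]; ring
  rw [h8, h9]
  simp

theorem dat {N : ℕ} [NeZero N] {f : S1 N} {ε : DirichletCharacter ℂ N} (hf : Newform f ε) :
    Dat N (co f) (ModularForm.L one_pos f) where
  pos := Nat.pos_of_ne_zero (NeZero.ne N)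
  one := hf.one
  mul := fun m n _ _ h => hf.mul m n h
  loc := fun p hp => N20_loc hf p hp
  bd := fun n hn => N20_bd hf n hn
  pt := co_pt f
  ms := co_ms f
  fe := fe_of_fricke hf
  ent := CuspForm.differentiable_L one_pos f
  ser := co_ser f
  im := fun p hp hN => N20_im hf p hp hN

end NH
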